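import Pool.Agent.Lib.MP_36248f_gt.Tp.Move

/-!
Closed embeddings between subsets, and gluing a map on a quotient from finitely many tiles.
-/

set_option autoImplicit false

noncomputable section

namespace Pool.Agent.Lib.MP_36248f_gt.Tp

open Set Topology

/-- `f` maps `S` homeomorphically onto a relatively closed subset of `T`. -/
structure Emb {α β : Type} [TopologicalSpace α] [TopologicalSpace β] (f : α → β) (S : Set α)
    (T : Set β) : Prop where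
  maps : MapsTo f S T
  cont : ContinuousOn f S
  cl : closure (f '' S) ∩ T ⊆ f '' S
  inv : ∃ g : β → α, ContinuousOn g (f '' S) ∧ ∀ x ∈ S, g (f x) = x

variable {α β γ : Type} [TopologicalSpace α] [TopologicalSpace β] [TopologicalSpace γ]

theorem Emb.inj {f : α → β} {S : Set α} {T : Set β} (h : Emb f S T) : InjOn f S := by
  obtain ⟨g, -, hg⟩ := h.inv
  exact fun x hx y hy e => by rw [← hg x hx, e, hg y hy]

/-- Relatively closed sets go to relatively closed sets. -/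
theorem Emb.closed {f : α → β} {S A : Set α} {T : Set β} (h : Emb f S T) (hA : A ⊆ S)
    (hc : closure A ∩ S ⊆ A) : closure (f '' A) ∩ T ⊆ f '' A := by
  rintro y ⟨h1, h2⟩
  obtain ⟨g, gc, hg⟩ := h.inv
  obtain ⟨s, hs, rfl⟩ := h.cl ⟨closure_mono (image_mono hA) h1, h2⟩
  have h3 := ((gc _ (mem_image_of_mem f hs)).mono (image_mono hA)).mem_closure_image h1
  have h4 : g '' (f '' A) ⊆ A := by
    rintro _ ⟨_, ⟨x, hx, rfl⟩, rfl⟩
    rwa [hg x (hA hx)]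
  rw [hg s hs] at h3
  exact mem_image_of_mem f (hc ⟨closure_mono h4 h3, hs⟩)

theorem Emb.comp {f : α → β} {f' : β → γ} {S : Set α} {T : Set β} {U : Set γ} (h : Emb f S T)
    (h' : Emb f' T U) : Emb (f' ∘ f) S U := by
  refine ⟨h'.maps.comp h.maps, h'.cont.comp h.cont h.maps, ?_, ?_⟩
  · rw [image_comp]
    exact h'.closed h.maps.image_subset h.cl
  · obtain ⟨g, gc, hg⟩ := h.inv
    obtain ⟨g', gc', hg'⟩ := h'.inv
    refine ⟨g ∘ g', ?_, fun x hx => ?_⟩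
    · rw [image_comp]
      refine gc.comp (gc'.mono (image_mono h.maps.image_subset)) ?_
      rintro _ ⟨_, ⟨x, hx, rfl⟩, rfl⟩
      rw [hg' _ (h.maps hx)]
      exact mem_image_of_mem f hx
    · simp only [Function.comp_apply, hg' _ (h.maps hx), hg x hx]

theorem Bij.emb {f : α → β} {g : β → α} {S : Set α} {T : Set β} (h : Bij f g S T)
    (hf : ContinuousOn f S) (hg : ContinuousOn g T) : Emb f S T :=
  ⟨h.fw, hf, fun y hy => ⟨g y, h.bw hy.2, h.r y hy.2⟩, g, hg.mono h.fw.image_subset, h.l⟩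

theorem emb_sub {S T : Set α} (h : S ⊆ T) (hc : closure S ∩ T ⊆ S) : Emb id S T :=
  ⟨h, continuousOn_id, by rwa [image_id], id, continuousOn_id, fun _ _ => rfl⟩

theorem emb_sup_closed (n : ℕ) : IsClosed {w : ℕ → ℝ | Sup w n} := by
  have e : {w : ℕ → ℝ | Sup w n} = ⋂ u ∈ {u | ¬ (Lab u ∧ u ∣ n)}, {w | w u = 0} := by
    ext w
    simp only [Sup, mem_ofPred_eq, mem_iInter]
    exact forall_congr' fun u => not_imp_comm
  rw [e]
  exact isClosed_biInter fun u _ => isClosed_eq (continuous_apply u) continuous_const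

/-- The cone over a sublist is relatively closed. -/
theorem emb_cn {X Y : List ℕ} (h : ∀ n ∈ X, n ∈ Y) : Emb id (Cn X) (Cn Y) := by
  refine emb_sub (fun w ⟨h1, h2, n, hn, h3⟩ => ⟨h1, h2, n, h n hn, h3⟩) ?_
  rintro w ⟨hw, h1, h2, -⟩
  have hc : IsClosed (⋃ n ∈ {n | n ∈ X}, {w : ℕ → ℝ | Sup w n}) :=
    (List.finite_toSet X).isClosed_biUnion fun n _ => emb_sup_closed n
  have hs : Cn X ⊆ ⋃ n ∈ {n | n ∈ X}, {w : ℕ → ℝ | Sup w n} :=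
    fun w ⟨_, _, n, hn, h3⟩ => mem_biUnion hn h3
  obtain ⟨n, hn, h3⟩ := mem_iUnion₂.1 (closure_minimal hs hc hw)
  exact ⟨h1, h2, n, hn, h3⟩

/-- `h` identifies the rays of the cone `U` with the points of `O`. -/
structure Prj {Y : Type} [TopologicalSpace Y] (h : (ℕ → ℝ) → Y) (g : Y → ℕ → ℝ)
    (U : Set (ℕ → ℝ)) (O : Set Y) : Prop where
  cone : ∀ w ∈ U, ∀ c : ℝ, 0 < c → c • w ∈ U
  hc : ContinuousOn h U
  hm : MapsTo h U O
  gc : ContinuousOn g O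
  gm : MapsTo g O U
  r : ∀ y ∈ O, h (g y) = y
  l : ∀ w ∈ U, ∃ c : ℝ, 0 < c ∧ g (h w) = c • w
  sc : ∀ w ∈ U, ∀ c : ℝ, 0 < c → h (c • w) = h w

theorem Prj.comp {Y : Type} [TopologicalSpace Y] {h : (ℕ → ℝ) → Y} {g : Y → ℕ → ℝ}
    {U U' : Set (ℕ → ℝ)} {O : Set Y} (P : Prj h g U O) {f f' : (ℕ → ℝ) → ℕ → ℝ}
    (b : Bij f f' U' U) (hf : ContinuousOn f U') (hf' : ContinuousOn f' U)
    (cone : ∀ w ∈ U', ∀ c : ℝ, 0 < c → c • w ∈ U')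
    (sc : ∀ w ∈ U', ∀ c : ℝ, 0 < c → f (c • w) = c • f w) : Prj (h ∘ f) (f' ∘ g) U' O := by
  refine ⟨cone, P.hc.comp hf b.fw, P.hm.comp b.fw, hf'.comp P.gc P.gm, b.bw.comp P.gm,
    fun y hy => ?_, fun w hw => ?_, fun w hw c hc => ?_⟩
  · simp only [Function.comp_apply, b.r _ (P.gm hy), P.r y hy]
  · obtain ⟨c, hc, e⟩ := P.l _ (b.fw hw)
    refine ⟨c, hc, ?_⟩
    simp only [Function.comp_apply]
    rw [e, ← sc w hw c hc, b.l _ (cone w hw c hc)]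
  · simp only [Function.comp_apply]
    rw [sc w hw c hc, P.sc _ (b.fw hw) c hc]

theorem Prj.eq_iff {Y : Type} [TopologicalSpace Y] {h : (ℕ → ℝ) → Y} {g : Y → ℕ → ℝ}
    {U : Set (ℕ → ℝ)} {O : Set Y} (P : Prj h g U O) {w w' : ℕ → ℝ} (hw : w ∈ U) (hw' : w' ∈ U) :
    h w = h w' ↔ ∃ c : ℝ, 0 < c ∧ w = c • w' := by
  constructor
  · intro e
    obtain ⟨c, hc, e1⟩ := P.l w hw
    obtain ⟨c', hc', e2⟩ := P.l w' hw'
    refine ⟨c⁻¹ * c', by positivity, ?_⟩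
    rw [mul_smul, ← e2, ← e, e1, inv_smul_smul₀ hc.ne']
  · rintro ⟨c, hc, rfl⟩
    exact P.sc w' hw' c hc

theorem cn_cone {X : List ℕ} : ∀ w ∈ Cn X, ∀ c : ℝ, 0 < c → c • w ∈ Cn X := by
  rintro w ⟨h1, ⟨u, hu, h2⟩, n, hn, h3⟩ c hc
  refine ⟨fun v => mul_nonneg hc.le (h1 v), ⟨u, hu, mul_ne_zero hc.ne' h2⟩, n, hn,
    fun v hv => h3 v fun e => hv ?_⟩
  rw [Pi.smul_apply, e, smul_zero]

/-- A cone `P` on which the quadratic function `q` is positive, cut by `q = 1`. -/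
theorem Prj.emb {V Y : Type} [NormedAddCommGroup V] [NormedSpace ℝ V] [TopologicalSpace Y]
    {h : (ℕ → ℝ) → Y} {g : Y → ℕ → ℝ} {U : Set (ℕ → ℝ)} {O : Set Y} (H : Prj h g U O)
    {F : V → ℕ → ℝ} {P : Set V} (e : Emb F P U) {q : V → ℝ} (qc : Continuous q)
    (qs : ∀ (c : ℝ) v, q (c • v) = c ^ 2 * q v) (qp : ∀ v ∈ P, 0 < q v)
    (cone : ∀ v ∈ P, ∀ c : ℝ, 0 < c → c • v ∈ P)
    (sc : ∀ v ∈ P, ∀ c : ℝ, 0 < c → F (c • v) = c • F v) :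
    Emb (h ∘ F) {v | v ∈ P ∧ q v = 1} O ∧
      ∀ v ∈ P, ∃ v' ∈ P, q v' = 1 ∧ h (F v') = h (F v) := by
  have h2 : ∀ v ∈ P, ∃ v' ∈ P, q v' = 1 ∧ h (F v') = h (F v) := fun v hv => by
    have h0 := qp v hv
    have hc : 0 < (√(q v))⁻¹ := inv_pos.2 (Real.sqrt_pos.2 h0)
    refine ⟨_, cone v hv _ hc, ?_, ?_⟩
    · rw [qs, inv_pow, Real.sq_sqrt h0.le, inv_mul_cancel₀ h0.ne']
    · rw [sc v hv _ hc, H.sc _ (e.maps hv) _ hc]
  refine ⟨?_, h2⟩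
  have hm : MapsTo (h ∘ F) {v | v ∈ P ∧ q v = 1} O := fun v hv => H.hm (e.maps hv.1)
  have hl : ∀ v ∈ P, ∃ c : ℝ, 0 < c ∧ g (h (F v)) = F (c • v) := fun v hv => by
    obtain ⟨c, hc, e1⟩ := H.l _ (e.maps hv)
    exact ⟨c, hc, by rw [e1, sc v hv c hc]⟩
  have hg : MapsTo g ((h ∘ F) '' {v | v ∈ P ∧ q v = 1}) (F '' P) := by
    rintro _ ⟨v, hv, rfl⟩
    obtain ⟨c, hc, e1⟩ := hl v hv.1
    exact ⟨_, cone v hv.1 c hc, e1.symm⟩
  refine ⟨hm, H.hc.comp (e.cont.mono fun v hv => hv.1) fun v hv => e.maps hv.1, ?_, ?_⟩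
  · rintro y ⟨h3, h4⟩
    have h5 := ((H.gc y h4).mono hm.image_subset).mem_closure_image h3
    obtain ⟨v, hv, e1⟩ := e.cl ⟨closure_mono hg.image_subset h5, H.gm h4⟩
    obtain ⟨v', hv', e2, e3⟩ := h2 v hv
    exact ⟨v', ⟨hv', e2⟩, by rw [Function.comp_apply, e3, e1, H.r y h4]⟩
  · obtain ⟨G, Gc, hG⟩ := e.inv
    have c1 : ContinuousOn (fun y => G (g y)) ((h ∘ F) '' {v | v ∈ P ∧ q v = 1}) :=
      Gc.comp (H.gc.mono hm.image_subset) hg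
    refine ⟨fun y => (√(q (G (g y))))⁻¹ • G (g y), ?_, fun v hv => ?_⟩
    · refine ((qc.comp_continuousOn c1).sqrt.inv₀ fun y hy => ?_).smul c1
      obtain ⟨v, hv, e1⟩ := hg hy
      rw [Function.comp_apply, ← e1, hG v hv]
      exact (Real.sqrt_pos.2 (qp v hv)).ne'
    · obtain ⟨c, hc, e1⟩ := hl v hv.1
      simp only [Function.comp_apply]
      rw [e1, hG _ (cone v hv.1 c hc), qs, hv.2, mul_one, Real.sqrt_sq hc.le,
        inv_smul_smul₀ hc.ne']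

/-- A family of relatively closed pieces that is locally finite on `S`. -/
theorem emb_loc {V G ι : Type} [TopologicalSpace V] [Group G] [Finite ι]
    {a : G → V → V} {Γ : Subgroup G} {S : Set V} (one : ∀ x, a 1 x = x)
    (mul : ∀ g h x, a (g * h) x = a g (a h x)) (cont : ∀ g ∈ Γ, Continuous (a g))
    (maps : ∀ g ∈ Γ, MapsTo (a g) S S)
    (lc : ∀ x ∈ S, ∃ K, IsCompact K ∧ K ⊆ S ∧ K ∈ 𝓝[S] x)
    {Q : ι → Set V} (Qc : ∀ i, closure (Q i) ∩ S ⊆ Q i)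
    (lf : ∀ i K, IsCompact K → K ⊆ S → {g | g ∈ Γ ∧ ∃ z ∈ Q i, a g z ∈ K}.Finite)
    {x : V} (hx : x ∈ S) : ∃ T : Set (G × ι), T.Finite ∧ (∀ p ∈ T, p.1 ∈ Γ ∧ a p.1 x ∈ Q p.2) ∧
      ∀ᶠ y in 𝓝[S] x, ∀ g ∈ Γ, ∀ i, a g y ∈ Q i → (g, i) ∈ T := by
  obtain ⟨K, k1, k2, k3⟩ := lc x hx
  have hT : {p : G × ι | p.1 ∈ Γ ∧ ∃ y ∈ K, a p.1 y ∈ Q p.2}.Finite := by
    refine ((Set.finite_iUnion fun i => (lf i K k1 k2).inv).prod Set.finite_univ).subset ?_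
    rintro ⟨g, i⟩ ⟨hg, y, hy, h⟩
    refine ⟨mem_iUnion.2 ⟨i, Γ.inv_mem hg, _, h, ?_⟩, mem_univ _⟩
    rwa [← mul, inv_mul_cancel, one]
  refine ⟨{p | (p.1 ∈ Γ ∧ ∃ y ∈ K, a p.1 y ∈ Q p.2) ∧ a p.1 x ∈ Q p.2},
    hT.subset fun p hp => hp.1, fun p hp => ⟨hp.1.1, hp.2⟩, ?_⟩
  have h1 : ∀ᶠ y in 𝓝[S] x, ∀ p ∈ {p : G × ι | p.1 ∈ Γ ∧ ∃ y ∈ K, a p.1 y ∈ Q p.2},
      a p.1 y ∈ Q p.2 → a p.1 x ∈ Q p.2 := by
    refine (Filter.eventually_all_finite hT).2 fun p hp => ?_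
    by_cases h : a p.1 x ∈ Q p.2
    · exact Filter.Eventually.of_forall fun _ _ => h
    · have h2 : a p.1 x ∈ (closure (Q p.2))ᶜ := fun h3 => h (Qc _ ⟨h3, maps _ hp.1 hx⟩)
      have h3 := (cont _ hp.1).continuousAt.eventually_mem
        (isClosed_closure.isOpen_compl.mem_nhds h2)
      exact (h3.filter_mono nhdsWithin_le_nhds).mono fun y hy h4 =>
        absurd (subset_closure h4) hy
  filter_upwards [h1, k3] with y h2 h3 g hg i h4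
  exact ⟨⟨hg, y, h3, h4⟩, h2 (g, i) ⟨hg, y, h3, h4⟩ h4⟩

/-- Gluing. -/
theorem glue {V Y G ι : Type} [TopologicalSpace V] [TopologicalSpace Y] [Group G] [Finite ι]
    [Nonempty Y] (a : G → V → V) (Γ : Subgroup G) (S : Set V) (one : ∀ x, a 1 x = x)
    (mul : ∀ g h x, a (g * h) x = a g (a h x)) (cont : ∀ g ∈ Γ, Continuous (a g))
    (maps : ∀ g ∈ Γ, MapsTo (a g) S S)
    (lc : ∀ x ∈ S, ∃ K, IsCompact K ∧ K ⊆ S ∧ K ∈ 𝓝[S] x)
    (Q : ι → Set V) (QS : ∀ i, Q i ⊆ S) (Qc : ∀ i, closure (Q i) ∩ S ⊆ Q i)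
    (cov : ∀ x ∈ S, ∃ g ∈ Γ, ∃ i, a g x ∈ Q i)
    (lf : ∀ i K, IsCompact K → K ⊆ S → {g | g ∈ Γ ∧ ∃ z ∈ Q i, a g z ∈ K}.Finite)
    (f : ι → V → Y) (O : Set Y) (hO : IsOpen O) (e : ∀ i, Emb (f i) (Q i) O)
    (onto : ∀ y ∈ O, ∃ i, ∃ x ∈ Q i, f i x = y)
    (fib : ∀ i j, ∀ x ∈ Q i, ∀ y ∈ Q j, f i x = f j y ↔ ∃ g ∈ Γ, a g x = y) :
    ∃ π : V → Y, ContinuousOn π S ∧ π '' S = O ∧
      (∀ x ∈ S, ∀ y ∈ S, π x = π y ↔ ∃ g ∈ Γ, a g x = y) ∧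
      ∀ N, IsOpen N → IsOpen (π '' (N ∩ S)) := by
  classical
  choose! c hc ι0 hι using cov
  have inv : ∀ g x, a g⁻¹ (a g x) = x := fun g x => by rw [← mul, inv_mul_cancel, one]
  obtain ⟨π, hπ⟩ : ∃ π : V → Y, ∀ x ∈ S, ∀ g ∈ Γ, ∀ i, a g x ∈ Q i → π x = f i (a g x) := by
    refine ⟨fun x => if hx : x ∈ S then f (ι0 x hx) (a (c x) x) else Classical.arbitrary Y,
      fun x hx g hg i h => ?_⟩
    simp only [dif_pos hx]
    refine (fib _ _ _ (hι x hx) _ h).2 ⟨g * (c x)⁻¹, Γ.mul_mem hg (Γ.inv_mem (hc x hx)), ?_⟩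
    rw [mul, inv]
  have hQ : ∀ i, ∀ x ∈ Q i, π x = f i x := fun i x hx => by
    have := hπ x (QS i hx) 1 Γ.one_mem i (by rwa [one])
    rwa [one] at this
  have hO' : MapsTo π S O := fun x hx => by
    rw [hπ x hx _ (hc x hx) _ (hι x hx)]
    exact (e _).maps (hι x hx)
  have hfib : ∀ x ∈ S, ∀ y ∈ S, π x = π y ↔ ∃ g ∈ Γ, a g x = y := fun x hx y hy => by
    rw [hπ x hx _ (hc x hx) _ (hι x hx), hπ y hy _ (hc y hy) _ (hι y hy),
      fib _ _ _ (hι x hx) _ (hι y hy)]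
    constructor
    · rintro ⟨g, hg, h⟩
      refine ⟨(c y)⁻¹ * (g * c x), Γ.mul_mem (Γ.inv_mem (hc y hy)) (Γ.mul_mem hg (hc x hx)), ?_⟩
      rw [mul, mul, h, inv]
    · rintro ⟨g, hg, h⟩
      refine ⟨c y * (g * (c x)⁻¹), Γ.mul_mem (hc y hy) (Γ.mul_mem hg (Γ.inv_mem (hc x hx))), ?_⟩
      rw [mul, mul, inv, h]
  refine ⟨π, fun x hx => ?_, hO'.image_subset.antisymm fun y hy => ?_, hfib, fun N hN => ?_⟩
  · obtain ⟨T, hT, h1, h2⟩ := emb_loc one mul cont maps lc Qc lf hx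
    intro W hW
    have h3 : ∀ᶠ y in 𝓝[S] x, ∀ p ∈ T, a p.1 y ∈ Q p.2 → f p.2 (a p.1 y) ∈ W := by
      refine (Filter.eventually_all_finite hT).2 fun p hp => ?_
      obtain ⟨h4, h5⟩ := h1 p hp
      rw [hπ x hx _ h4 _ h5] at hW
      have h6 := eventually_nhdsWithin_iff.1 ((e p.2).cont _ h5 hW)
      exact ((cont _ h4).continuousAt.eventually h6).filter_mono nhdsWithin_le_nhds
    rw [Filter.mem_map]
    filter_upwards [h2, h3, self_mem_nhdsWithin] with y h4 h5 hy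
    rw [mem_preimage, hπ y hy _ (hc y hy) _ (hι y hy)]
    exact h5 _ (h4 _ (hc y hy) _ (hι y hy)) (hι y hy)
  · obtain ⟨i, x, hx, rfl⟩ := onto y hy
    exact ⟨x, QS i hx, hQ i x hx⟩
  · have hM : IsOpen (⋃ g ∈ Γ, a g ⁻¹' N) := isOpen_biUnion fun g hg => hN.preimage (cont g hg)
    have hC : IsClosed (⋃ i, closure (f i '' (Q i \ ⋃ g ∈ Γ, a g ⁻¹' N))) :=
      isClosed_iUnion_of_finite fun i => isClosed_closure
    have hE : π '' (N ∩ S) = O \ ⋃ i, closure (f i '' (Q i \ ⋃ g ∈ Γ, a g ⁻¹' N)) := by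
      refine Subset.antisymm ?_ ?_
      · rintro _ ⟨x, ⟨h1, h2⟩, rfl⟩
        refine ⟨hO' h2, fun h => ?_⟩
        obtain ⟨i, hi⟩ := mem_iUnion.1 h
        obtain ⟨z, ⟨h3, h4⟩, h5⟩ := (e i).closed sdiff_subset (fun z hz => ⟨hz.2,
          closure_minimal (fun _ h => h.2) hM.isClosed_compl hz.1⟩) ⟨hi, hO' h2⟩
        obtain ⟨g, hg, h6⟩ := (hfib z (QS i h3) x h2).1 (by rw [hQ i z h3, h5])
        exact h4 (mem_biUnion hg (show a g z ∈ N by rwa [h6]))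
      · rintro y ⟨h1, h2⟩
        obtain ⟨i, x, hx, rfl⟩ := onto y h1
        have h3 : x ∈ ⋃ g ∈ Γ, a g ⁻¹' N := by
          by_contra h4
          exact h2 (mem_iUnion.2 ⟨i, subset_closure ⟨x, ⟨hx, h4⟩, rfl⟩⟩)
        obtain ⟨g, hg, h4⟩ := mem_iUnion₂.1 h3
        have h5 := maps g hg (QS i hx)
        refine ⟨a g x, ⟨h4, h5⟩, ?_⟩
        rw [← hQ i x hx]
        exact ((hfib x (QS i hx) _ h5).2 ⟨g, hg, rfl⟩).symm
    rw [hE]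
    exact hO.sdiff hC

end Pool.Agent.Lib.MP_36248f_gt.Tp
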