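import Pool.Agent.Lib.MP_36248f_gt.Cone
import Pool.Agent.Lib.MP_36248f_gt.Box
import Pool.Agent.Lib.MP_36248f_gt.Tp.Emb

/-!
From the combinatorial model to the map on the cone.
-/

set_option autoImplicit false

noncomputable section

namespace Pool.Agent.Lib.MP_36248f_gt.Tp

open Set

/-- The tiles are placed in the cone over the complex `Y`. -/
structure Mdl (Y : List ℕ) (F : Fin 7 → Fin 120 → V → ℕ → ℝ) : Prop where
  emb : ∀ (i : Fin 7) a, Emb (F i a) (PC (ty i)) (Cn Y)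
  sc : ∀ (i : Fin 7) a, ∀ v ∈ PC (ty i), ∀ c : ℝ, 0 < c → F i a (c • v) = c • F i a v
  onto : ∀ w ∈ Cn Y, ∃ (i : Fin 7) (a : Fin 120), ∃ v ∈ PC (ty i), F i a v = w
  fib : ∀ (i j : Fin 7) (a b : Fin 120), ∀ x ∈ PC (ty i), ∀ x' ∈ PC (ty j), F i a x = F j b x' ↔
    (i = j ∧ x = x' ∧ Near (ty i) x a b) ∨ Up i a x j b x' ∨ Up j b x' i a x

theorem fin_BB : Continuous fun v : V => B v v :=
  continuous_B.comp (continuous_id.prodMk continuous_id)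

theorem fin_sq (c : ℝ) (v : V) : B (c • v) (c • v) = c ^ 2 * B v v := by
  rw [B_smul, B_smul']
  ring

theorem fin_P (t : Ty) : {v | v ∈ PC t ∧ B v v = 1} = P t := by
  ext v
  exact ⟨fun h => ⟨⟨h.2, h.1.1⟩, h.1.2⟩, fun h => ⟨⟨h.1.2, h.2⟩, h.1.1⟩⟩

theorem fin_PC {t : Ty} {v : V} (h : v ∈ P t) : v ∈ PC t := ⟨h.1.2, h.2⟩

theorem fin_cone (t : Ty) : ∀ v ∈ PC t, ∀ c : ℝ, 0 < c → c • v ∈ PC t := by
  rintro v ⟨h1, h2, h3, h4⟩ c hc
  refine ⟨mul_pos hc h1, fun i => ?_, mul_nonneg hc.le h3, ?_⟩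
  · rw [B_smul]
    exact mul_nonneg hc.le (h2 i)
  · simp only [Pi.smul_apply, smul_eq_mul]
    nlinarith

theorem fin_pos (t : Ty) : ∀ v ∈ PC t, 0 < B v v := fun v hv => by
  have h1 := disc_cover t hv
  have h2 := hv.1
  nlinarith

theorem fin_inv (u : GV) (x : V) : u⁻¹ (u x) = x := u.symm_apply_apply x

theorem fin_inv' (u : GV) (x : V) : u (u⁻¹ x) = x := u.apply_symm_apply x

/-- The map on the hyperboloid. -/
theorem fin_HH {Y : List ℕ} {F : Fin 7 → Fin 120 → V → ℕ → ℝ} (m : Mdl Y F) {K : Set S3}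
    (hK : IsClosed K) {h : (ℕ → ℝ) → S3} {g : S3 → ℕ → ℝ} (p : Prj h g (Cn Y) Kᶜ) :
    ∃ π : V → S3, ContinuousOn π HH ∧ π '' HH = Kᶜ ∧
      (∀ x ∈ HH, ∀ y ∈ HH, π x = π y ↔ ∃ γ ∈ Gam, γ x = y) ∧
      ∀ N, IsOpen N → IsOpen (π '' (N ∩ HH)) := by
  have : Nonempty S3 := ⟨h 0⟩
  let u : Fin 7 × Fin 120 → GV := fun q => pos q.1 * rp q.2
  have hu : ∀ q, u q ∈ OO := fun q => OO.mul_mem (pos_mem _) (rp_mem_OO _)
  have E := fun q : Fin 7 × Fin 120 => p.emb (m.emb q.1 q.2) fin_BB fin_sq (fin_pos _) (fin_cone _)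
    (m.sc q.1 q.2)
  refine glue (fun (γ : GV) x => γ x) Gam HH (fun _ => rfl) (fun _ _ _ => rfl)
    (fun γ _ => continuous_GV γ) (fun γ hγ x hx => ((Gam_le_OO hγ).2 x).1 hx) (fun x _ => ?_)
    (fun q : Fin 7 × Fin 120 => u q '' P (ty q.1)) (fun q => ?_) (fun q => ?_) (fun x hx => ?_)
    (fun q C hC hC' => ?_) (fun q => (h ∘ F q.1 q.2) ∘ ⇑(u q)⁻¹) Kᶜ hK.isOpen_compl (fun q => ?_)
    (fun y hy => ?_) ?_
  · exact ⟨HH ∩ Metric.closedBall x 1, (isCompact_closedBall x 1).inter_left isClosed_HH,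
      inter_subset_left, inter_mem_nhdsWithin _ (Metric.closedBall_mem_nhds x one_pos)⟩
  · rintro _ ⟨x, hx, rfl⟩
    exact ((hu q).2 x).1 hx.1
  · have e : u q '' P (ty q.1) = ⇑(u q)⁻¹ ⁻¹' P (ty q.1) := by
      ext x
      constructor
      · rintro ⟨y, hy, rfl⟩
        rwa [mem_preimage, fin_inv]
      · exact fun hx => ⟨_, hx, fin_inv' _ _⟩
    rw [e, ((isClosed_P _).preimage (continuous_GV _)).closure_eq]
    exact inter_subset_left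
  · obtain ⟨γ, hγ, i, a, y, hy, rfl⟩ := cover hx
    refine ⟨γ⁻¹, Gam.inv_mem hγ, (i, a), y, hy, ?_⟩
    rw [mul_assoc, LinearEquiv.mul_apply γ, fin_inv]
  · refine ((tiles_lf hC hC').image Prod.fst).subset ?_
    rintro γ ⟨hγ, _, ⟨x, hx, rfl⟩, h1⟩
    exact ⟨(γ, q), ⟨hγ, x, hx, h1⟩, rfl⟩
  · have e1 : Emb (⇑(u q)⁻¹) (u q '' P (ty q.1)) (P (ty q.1)) := by
      refine Bij.emb (g := u q) ⟨?_, mapsTo_image _ _, fun x _ => fin_inv' _ _,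
        fun x _ => fin_inv _ _⟩ (continuous_GV _).continuousOn (continuous_GV _).continuousOn
      rintro _ ⟨y, hy, rfl⟩
      rwa [fin_inv]
    exact e1.comp (fin_P _ ▸ (E q).1)
  · obtain ⟨i, a, v, hv, e⟩ := m.onto _ (p.gm hy)
    obtain ⟨v', hv', e1, e2⟩ := (E (i, a)).2 v hv
    refine ⟨(i, a), u (i, a) v', ⟨v', fin_P _ ▸ ⟨hv', e1⟩, rfl⟩, ?_⟩
    simp only [Function.comp_apply, fin_inv]
    rw [e2, e, p.r y hy]
  · rintro ⟨i, a⟩ ⟨j, b⟩ _ ⟨x, hx, rfl⟩ _ ⟨y, hy, rfl⟩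
    simp only [Function.comp_apply, fin_inv]
    have hx' := fin_PC hx
    have hy' := fin_PC hy
    rw [p.eq_iff ((m.emb i a).maps hx') ((m.emb j b).maps hy')]
    constructor
    · rintro ⟨c, hc, e⟩
      rw [← m.sc j b y hy' c hc, m.fib i j a b x hx' _ (fin_cone _ y hy' c hc),
        ← cone_ident hx' (fin_cone _ y hy' c hc)] at e
      obtain ⟨γ, hγ, e⟩ := e
      have e' : γ (u (i, a) x) = u (j, b) (c • y) := e
      have h1 := congrArg (fun v => B v v) e'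
      simp only [(Gam_le_OO hγ).1, (hu _).1, fin_sq, hx.1.1, hy.1.1] at h1
      have h2 : c = 1 := by nlinarith
      rw [h2, one_smul] at e'
      exact ⟨γ, hγ, e'⟩
    · rintro ⟨γ, hγ, e⟩
      refine ⟨1, one_pos, ?_⟩
      rw [one_smul, m.fib i j a b x hx' y hy', ← cone_ident hx' hy']
      exact ⟨γ, hγ, e⟩

theorem fin_nrm {w : V} (hw : w ∈ HH) {c : ℝ} (hc : 0 < c) :
    (√(B (c • w) (c • w)))⁻¹ • c • w = w := by
  rw [fin_sq, hw.1, mul_one, Real.sqrt_sq hc.le, inv_smul_smul₀ hc.ne']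

theorem top_of {Y : List ℕ} {F : Fin 7 → Fin 120 → V → ℕ → ℝ} (m : Mdl Y F) {K : Set S3}
    (hK : IsClosed K) {h : (ℕ → ℝ) → S3} {g : S3 → ℕ → ℝ} (p : Prj h g (Cn Y) Kᶜ) :
    ∃ π₀ : V → S3, ContinuousOn π₀ CC ∧ π₀ '' CC = Kᶜ ∧
    (∀ v ∈ CC, ∀ v' ∈ CC, π₀ v = π₀ v' ↔ ∃ γ ∈ Gam, ∃ c : ℝ, 0 < c ∧ γ v = c • v') ∧
    ∀ U ⊆ CC, IsOpen U → IsOpen (π₀ '' U) := by
  obtain ⟨π, h1, h2, h3, h4⟩ := fin_HH m hK p
  have hm : ∀ v ∈ CC, (√(B v v))⁻¹ • v ∈ HH := fun v hv => smul_mem_HH hv.1 hv.2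
  have hs : ∀ v ∈ CC, 0 < √(B v v) := fun v hv => Real.sqrt_pos.2 hv.1
  refine ⟨fun v => π ((√(B v v))⁻¹ • v), ?_, ?_, fun v hv v' hv' => ?_, fun U hU hO => ?_⟩
  · exact h1.comp ((fin_BB.continuousOn.sqrt.inv₀ fun v hv => (hs v hv).ne').smul
      continuousOn_id) hm
  · rw [← h2]
    refine Subset.antisymm ?_ ?_
    · rintro _ ⟨v, hv, rfl⟩
      exact ⟨_, hm v hv, rfl⟩
    · rintro _ ⟨w, hw, rfl⟩
      refine ⟨w, ⟨by rw [hw.1]; exact one_pos, hw.2⟩, ?_⟩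
      simp only [hw.1, Real.sqrt_one, inv_one, one_smul]
  · rw [h3 _ (hm v hv) _ (hm v' hv')]
    have a := hs v hv
    have a' := hs v' hv'
    refine exists_congr fun γ => and_congr_right fun hγ => ⟨fun e => ?_, ?_⟩
    · refine ⟨√(B v v) * (√(B v' v'))⁻¹, by positivity, ?_⟩
      rw [mul_smul, ← e, map_smul, smul_inv_smul₀ a.ne']
    · rintro ⟨c, hc, e⟩
      have e1 : B v v = c ^ 2 * B v' v' := by rw [← (Gam_le_OO hγ).1, e, fin_sq]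
      rw [map_smul, e, e1, Real.sqrt_mul (sq_nonneg c), Real.sqrt_sq hc.le, smul_smul]
      congr 1
      field_simp
  · have hN : IsOpen (⋃ c ∈ Ioi (0 : ℝ), (fun v : V => c • v) ⁻¹' U) :=
      isOpen_biUnion fun c _ => hO.preimage (continuous_const_smul c)
    have e : (fun v => π ((√(B v v))⁻¹ • v)) '' U =
        π '' ((⋃ c ∈ Ioi (0 : ℝ), (fun v : V => c • v) ⁻¹' U) ∩ HH) := by
      refine Subset.antisymm ?_ ?_
      · rintro _ ⟨v, hv, rfl⟩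
        refine ⟨_, ⟨mem_biUnion (hs v (hU hv)) ?_, hm v (hU hv)⟩, rfl⟩
        rwa [mem_preimage, smul_inv_smul₀ (hs v (hU hv)).ne']
      · rintro _ ⟨w, ⟨hw, hw'⟩, rfl⟩
        obtain ⟨c, hc, hw⟩ := mem_iUnion₂.1 hw
        exact ⟨c • w, hw, by simp only [fin_nrm hw' hc]⟩
    rw [e]
    exact h4 _ hN

end Pool.Agent.Lib.MP_36248f_gt.Tp
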