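import Pool.Agent.Lib.MP_36248f_gt.Tp.Wall
import Pool.Agent.Lib.MP_36248f_gt.Tp.Fin

/-!
The model from the checked data.
-/

set_option autoImplicit false

noncomputable section

namespace Pool.Agent.Lib.MP_36248f_gt.Tp

open Set

theorem mem_cxY {R : ℕ → List (ℕ × ℕ)} {X : Ty → List ℕ} {n y : ℕ} {a : List ℕ} :
    y ∈ cxY R X n a ↔ y ∈ a ∨ ∃ k < n, y ∈ trL (R k) (X (ty k)) [] := by
  induction n generalizing a with
  | zero => simp [cxY]
  | succ n ih =>
    change y ∈ frcT (R n) (fun T => frcL (trL T (X (ty n)) a) (cxY R X n)) ↔ _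
    rw [frcT_eq, frcL_eq, ih, mem_trL]
    simp only [mem_trL, List.not_mem_nil, false_or, Nat.lt_succ_iff_lt_or_eq, or_and_right,
      exists_or, exists_eq_left]
    exact or_assoc.trans (or_congr_right or_comm)

theorem asm_nu (k : ℕ) : nu k = -(tj k : ℝ) / 5 := by
  rcases k with _ | _ | _ | _ | _ | k <;> simp [nu, tj]

theorem asm_tr_one (c : ℝ) (v : V) : MP_36248f_gt.tr c 0 v 1 = v 1 := by
  simp [tr_apply, afv]

theorem asm_cn {X : List ℕ} {ι : Type} {q : ι → Prop} {Y : ι → List ℕ}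
    (h : ∀ n ∈ X, ∃ i, q i ∧ n ∈ Y i) {w : ℕ → ℝ} (hw : w ∈ Cn X) : ∃ i, q i ∧ w ∈ Cn (Y i) := by
  obtain ⟨h1, h2, n, hn, h3⟩ := hw
  obtain ⟨i, hi, e⟩ := h n hn
  exact ⟨i, hi, h1, h2, n, e, h3⟩

/-- The weights of a point of the tile with flag `a`. -/
def asmW (t : Ty) (a : ℕ) : V → ℕ → ℝ := (tile t (sg_pos a)).choose

theorem asmW_cont (t : Ty) (a : ℕ) : Continuous (asmW t a) := (tile t (sg_pos a)).choose_spec.1

theorem asmW_bij (t : Ty) (a : ℕ) : Bij (pnt t a) (asmW t a) (Cn (ch t)) (PC t) :=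
  (tile t (sg_pos a)).choose_spec.2

theorem asmW_smul (t : Ty) (a : ℕ) {v : V} (hv : v ∈ PC t) {c : ℝ} (hc : 0 < c) :
    asmW t a (c • v) = c • asmW t a v := by
  have b := asmW_bij t a
  have e : c • v = pnt t a (c • asmW t a v) := by
    rw [pnt, cen_smul]
    exact congrArg (c • ·) (b.r v hv).symm
  rw [e, b.l _ (cn_cone _ (b.bw hv) c hc)]

/-- The tile with flag `a` in the complex of the piece. -/
def asmG (t : Ty) (N : ℕ) (a : Fin 120) : V → ℕ → ℝ := ps (tab N (zt t) a) ∘ asmW t a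

section piece

variable {t : Ty} {N : ℕ}

theorem asm_tab (h : flagOk N (zt t) (ng t) (pn t) sg = true) {x : ℕ} (hx : x < 120) :
    Bij (ps (tab N (zt t) x)) (pb (tab N (zt t) x)) (Cn (ch t))
      (Cn (trL (tab N (zt t) x) (ch t) [])) :=
  (flag_tab h hx).bij (flag_in h (chain_ok t) hx)

theorem asmG_emb (h : flagOk N (zt t) (ng t) (pn t) sg = true) (a : Fin 120) :
    Emb (asmG t N a) (PC t) (Cn (cx0 N (zt t) (ch t) 120 [])) :=
  (((asmW_bij t a).symm.emb (asmW_cont t a).continuousOn (cen_cont _ _).continuousOn).comp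
    ((asm_tab h a.2).emb (ps_cont _).continuousOn (pb_cont _).continuousOn)).comp
    (emb_cn fun _ hn => mem_cx0.2 (Or.inr ⟨a, a.2, hn⟩))

theorem asmG_onto (h : flagOk N (zt t) (ng t) (pn t) sg = true) {w : ℕ → ℝ}
    (hw : w ∈ Cn (cx0 N (zt t) (ch t) 120 [])) : ∃ a, ∃ v ∈ PC t, asmG t N a v = w := by
  obtain ⟨x, hx, h1⟩ := asm_cn (fun n hn => (mem_cx0.1 hn).resolve_left List.not_mem_nil) hw
  have b := asm_tab h hx
  have b' := asmW_bij t x
  refine ⟨⟨x, hx⟩, _, b'.fw (b.bw h1), ?_⟩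
  change ps (tab N (zt t) x) (asmW t x _) = w
  rw [b'.l _ (b.bw h1), b.r _ h1]

theorem asmG_same (h : flagOk N (zt t) (ng t) (pn t) sg = true) (a a' : Fin 120) {x x' : V}
    (hx : x ∈ PC t) (hx' : x' ∈ PC t) :
    asmG t N a x = asmG t N a' x' ↔ x = x' ∧ Near t x a a' := by
  have := same_iff h a a' ((asmW_bij t a).bw hx) ((asmW_bij t a').bw hx')
  rwa [(asmW_bij t a).r x hx, (asmW_bij t a').r x' hx'] at this

theorem asmG_wall (h : flagOk N (zt t) (ng t) (pn t) sg = true) {b : Bool} {W : ℕ}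
    (ok : wallOk t b N W = true) (a : Fin 120) {x : V} (hx : x ∈ PC t) :
    Wl W (asmG t N a x) ↔ (wtau t b)⁻¹ x 1 = 0 := by
  have := wall_iff h ok a ((asmW_bij t a).bw hx)
  rwa [(asmW_bij t a).r x hx] at this

theorem asmG_rl (h : flagOk N (zt t) (ng t) (pn t) sg = true) {b : Bool} (a : Fin 120) {x : V}
    (hx : x ∈ PC t) (h0 : (wtau t b)⁻¹ x 1 = 0) :
    Rl (fa0 t b N 120 []) (asmG t N a x) (unJ (rp (wp t b a) ((wtau t b)⁻¹ x))) := by
  have := wall_rl h (b := b) a ((asmW_bij t a).bw hx) (by rwa [(asmW_bij t a).r x hx])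
  rwa [(asmW_bij t a).r x hx] at this

end piece

/-- The gluing of neighbouring pieces. -/
theorem asm_up {N : Ty → ℕ} {p : Ty → Prog} {X : Ty → List ℕ} {W : Ty → Bool → ℕ}
    {F : Ty → Bool → List (ℕ × Cfg)} (pc : ∀ t, Pc t (N t) (p t) (X t) (W t) (F t))
    {R R' T : List (ℕ × ℕ)} {ms : List M2} {k : ℕ} (hR : TabOk R) (hR' : TabOk R')
    (hX : inTab R (X (ty k)) = true) (hX' : inTab R' (X (ty (k + 1))) = true)
    (near : nearOk R R' T = true)
    (gl : glOk T (tj k) (W (ty k) true) (W (ty (k + 1)) false) (X (ty k)) (F (ty k) true)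
        (F (ty (k + 1)) false) ms = true) (a b : Fin 120) {x x' : V} (hx : x ∈ PC (ty k))
    (hx' : x' ∈ PC (ty (k + 1))) :
    ps R ((p (ty k)).fw (asmG (ty k) (N (ty k)) a x)) =
      ps R' ((p (ty (k + 1))).fw (asmG (ty (k + 1)) (N (ty (k + 1))) b x')) ↔
        Up k a x (k + 1) b x' := by
  have c := pc (ty k)
  have c' := pc (ty (k + 1))
  have hw := (asmG_emb c.flag a).maps hx
  have hw' := (asmG_emb c'.flag b).maps hx'
  have hT : TabOk T := tabOk_spec (cnd_and.1 near).1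
  have e := asmG_wall c.flag (c.wall true) a hx
  have e' := asmG_wall c'.flag (c'.wall false) b hx'
  rw [near_iff hR hR' near hX hX' ((c.wm true).bij.fw hw) ((c'.wm false).bij.fw hw'),
    glue_iff (c.wm true) (c'.wm false) (wall_fn c.flag true) hT gl hw hw'
      (fun h => asmG_rl c.flag a hx (e.1 h)) (fun h => asmG_rl c'.flag b hx' (e'.1 h)), e, e',
    tw_unJ, ← asm_nu]
  change (tau (ty k))⁻¹ x 1 = 0 ∧ x' 1 = 0 ∧
    Eqv (unJ (rp (ph (ty k) a) ((tau (ty k))⁻¹ x))) (unJ (MP_36248f_gt.tr (nu k) 0 (rp b x'))) ↔ _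
  constructor
  · rintro ⟨h1, h2, h3⟩
    exact ⟨rfl, h2, h1, (eqv_iff (by rwa [rp_one]) (by rwa [asm_tr_one, rp_one])).1 h3⟩
  · rintro ⟨-, h2, h1, h3⟩
    exact ⟨h1, h2, (eqv_iff (by rwa [rp_one]) (by rwa [asm_tr_one, rp_one])).2 h3⟩

theorem model {N : Ty → ℕ} {p : Ty → Prog} {X : Ty → List ℕ} {W : Ty → Bool → ℕ}
    {F : Ty → Bool → List (ℕ × Cfg)} (pc : ∀ t, Pc t (N t) (p t) (X t) (W t) (F t))
    {R T : ℕ → List (ℕ × ℕ)} {ms : ℕ → List M2}
    (hR : ∀ k < 7, tabOk (R k) = true ∧ inTab (R k) (X (ty k)) = true)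
    (far : ∀ j < 7, ∀ i < j - 1, farOk (R i) (R j) = true)
    (near : ∀ k < 6, nearOk (R k) (R (k + 1)) (T k) = true ∧
      glOk (T k) (tj k) (W (ty k) true) (W (ty (k + 1)) false) (X (ty k)) (F (ty k) true)
        (F (ty (k + 1)) false) (ms k) = true) :
    ∃ F, Mdl (cxY R X 7 []) F := by
  have tb : ∀ k < 7, TabOk (R k) := fun k hk => tabOk_spec (hR k hk).1
  have bj : ∀ k < 7, Bij (ps (R k)) (pb (R k)) (Cn (X (ty k))) (Cn (trL (R k) (X (ty k)) [])) :=
    fun k hk => (tb k hk).bij (hR k hk).2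
  have em : ∀ k < 7, Emb (ps (R k) ∘ (p (ty k)).fw)
      (Cn (cx0 (N (ty k)) (zt (ty k)) (ch (ty k)) 120 [])) (Cn (cxY R X 7 [])) := fun k hk =>
    ((((pc (ty k)).wm true).bij.emb (Prog.fw_cont _).continuousOn
      (Prog.bw_cont _).continuousOn).comp
      ((bj k hk).emb (ps_cont _).continuousOn (pb_cont _).continuousOn)).comp
      (emb_cn fun _ hn => mem_cxY.2 (Or.inr ⟨k, hk, hn⟩))
  have mp : ∀ (k : ℕ) (a : Fin 120), ∀ x ∈ PC (ty k),
      (p (ty k)).fw (asmG (ty k) (N (ty k)) a x) ∈ Cn (X (ty k)) := fun k a x hx =>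
    ((pc (ty k)).wm true).bij.fw ((asmG_emb (pc (ty k)).flag a).maps hx)
  have up : ∀ k < 6, ∀ a b : Fin 120, ∀ x ∈ PC (ty k), ∀ x' ∈ PC (ty (k + 1)),
      ps (R k) ((p (ty k)).fw (asmG (ty k) (N (ty k)) a x)) =
        ps (R (k + 1)) ((p (ty (k + 1))).fw (asmG (ty (k + 1)) (N (ty (k + 1))) b x')) ↔
          Up k a x (k + 1) b x' := fun k hk a b x hx x' hx' =>
    asm_up pc (tb k (by omega)) (tb (k + 1) (by omega)) (hR k (by omega)).2
      (hR (k + 1) (by omega)).2 (near k hk).1 (near k hk).2 a b hx hx'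
  have fr : ∀ j < 7, ∀ i < j - 1, ∀ a b : Fin 120, ∀ x ∈ PC (ty i), ∀ x' ∈ PC (ty j),
      ps (R i) ((p (ty i)).fw (asmG (ty i) (N (ty i)) a x)) ≠
        ps (R j) ((p (ty j)).fw (asmG (ty j) (N (ty j)) b x')) := fun j hj i hi a b x hx x' hx' =>
    far_ne (tb i (by omega)) (tb j hj) (far j hj i hi) (hR i (by omega)).2 (mp i a x hx)
      (mp j b x' hx')
  refine ⟨fun i a v => ps (R i) ((p (ty i)).fw (asmG (ty i) (N (ty i)) a v)),
    fun i a => (asmG_emb (pc (ty i)).flag a).comp (em i i.2), fun i a v hv c hc => ?_,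
    fun w hw => ?_, ?_⟩
  · simp only [asmG, Function.comp_apply]
    rw [asmW_smul _ _ hv hc, ps_smul, Prog.fw_smul hc.le, ps_smul]
  · obtain ⟨k, hk, h1⟩ := asm_cn (fun n hn => (mem_cxY.1 hn).resolve_left List.not_mem_nil) hw
    have b := ((pc (ty k)).wm true).bij
    have h2 := (bj k hk).bw h1
    obtain ⟨a, v, hv, e⟩ := asmG_onto (pc (ty k)).flag (b.bw h2)
    refine ⟨⟨k, hk⟩, a, v, hv, ?_⟩
    change ps (R k) ((p (ty k)).fw (asmG (ty k) (N (ty k)) a v)) = w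
    rw [e, b.r _ h2, (bj k hk).r _ h1]
  · rintro ⟨i, hi⟩ ⟨j, hj⟩ a b x hx x' hx'
    change ps (R i) ((p (ty i)).fw (asmG (ty i) (N (ty i)) a x)) =
      ps (R j) ((p (ty j)).fw (asmG (ty j) (N (ty j)) b x')) ↔
        ((⟨i, hi⟩ : Fin 7) = ⟨j, hj⟩ ∧ x = x' ∧ Near (ty i) x a b) ∨ Up i a x j b x' ∨
          Up j b x' i a x
    change x ∈ PC (ty i) at hx
    change x' ∈ PC (ty j) at hx'
    rw [Fin.mk.injEq]
    have u1 : Up i a x j b x' → j = i + 1 := fun h => h.1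
    have u2 : Up j b x' i a x → i = j + 1 := fun h => h.1
    have hc : i = j ∨ j = i + 1 ∨ i = j + 1 ∨ i < j - 1 ∨ j < i - 1 := by omega
    rcases hc with rfl | rfl | rfl | hc | hc
    · have f := (pc (ty i)).flag
      rw [← asmG_same f a b hx hx']
      refine ⟨fun h => Or.inl ⟨rfl, (em i hi).inj ((asmG_emb f a).maps hx)
        ((asmG_emb f b).maps hx') h⟩, ?_⟩
      rintro (⟨-, h⟩ | h | h)
      · rw [h]
      · exact absurd (u1 h) (by omega)
      · exact absurd (u2 h) (by omega)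
    · rw [up i (by omega) a b x hx x' hx']
      refine ⟨fun h => Or.inr (Or.inl h), ?_⟩
      rintro (⟨h, -⟩ | h | h)
      · omega
      · exact h
      · exact absurd (u2 h) (by omega)
    · rw [eq_comm, up j (by omega) b a x' hx' x hx]
      refine ⟨fun h => Or.inr (Or.inr h), ?_⟩
      rintro (⟨h, -⟩ | h | h)
      · omega
      · exact absurd (u1 h) (by omega)
      · exact h
    · refine ⟨fun h => absurd h (fr j hj i hc a b x hx x' hx'), ?_⟩
      rintro (⟨h, -⟩ | h | h)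
      · omega
      · exact absurd (u1 h) (by omega)
      · exact absurd (u2 h) (by omega)
    · refine ⟨fun h => absurd h.symm (fr i hi j hc b a x' hx' x hx), ?_⟩
      rintro (⟨h, -⟩ | h | h)
      · omega
      · exact absurd (u1 h) (by omega)
      · exact absurd (u2 h) (by omega)

end Pool.Agent.Lib.MP_36248f_gt.Tp
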