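import Pool.Agent.Lib.MP_36248f_gt.Tp.B0
import Pool.Agent.Lib.MP_36248f_gt.Tp.GM7

/-!
Labels near the knot.
-/

set_option autoImplicit false
set_option maxRecDepth 100000
set_option exponentiation.threshold 100000

noncomputable section

namespace Pool.Agent.Lib.MP_36248f_gt.Tp

theorem b1 : labs (257 :: rapp KL VL) PR = true := by
  decide +kernel

theorem b2 : frc (Nat.mul (prd KL) (prd VL)) (fun P => allL (fun n => dv n P) U0) = true := by
  decide +kernel

theorem b5 : frc (prd KL) (fun PK => frc (prd VL) fun PV =>
    allL (fun n => cnd (dv 66049 n) false (cnd (cp n PK) true (cp n PV))) X2) = true := by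
  decide +kernel


end Pool.Agent.Lib.MP_36248f_gt.Tp
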