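import Pool.Agent.Lib.MP_36248f_gt.Tp.B0
import Pool.Agent.Lib.MP_36248f_gt.Tp.B6

/-!
Subdivision near the knot.
-/

set_option autoImplicit false
set_option maxRecDepth 100000
set_option exponentiation.threshold 100000

noncomputable section

namespace Pool.Agent.Lib.MP_36248f_gt.Tp

theorem b3 : chk pB (mapL (Nat.mul 257) U0) X2 = true := by
  decide +kernel


end Pool.Agent.Lib.MP_36248f_gt.Tp
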