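import Pool.Agent.Lib.MP_36248f_gt.Tp.B0
import Pool.Agent.Lib.MP_36248f_gt.Tp.GS3

/-!
The glued complex again.
-/

set_option autoImplicit false
set_option maxRecDepth 100000
set_option exponentiation.threshold 100000

noncomputable section

namespace Pool.Agent.Lib.MP_36248f_gt.Tp

theorem c9 : same (decX TG 4 XC4 [])
    (rapp (YY 0) (rapp (YY 1) (rapp (YY 2) (rapp (YY 3) (rapp (YY 4) (rapp (YY 5) (YY 6))))))) = true := by
  decide +kernel


end Pool.Agent.Lib.MP_36248f_gt.Tp
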