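import Pool.Agent.Lib.MP_36248f_gt.Tp.G0
import Pool.Agent.Lib.MP_36248f_gt.Tp.C1

/-!
The gluing along wall 1.
-/

set_option autoImplicit false
set_option maxRecDepth 100000
set_option exponentiation.threshold 100000

noncomputable section

namespace Pool.Agent.Lib.MP_36248f_gt.Tp

theorem hgl1 : frcT (TW 1) (fun T => frcL (XX (ty 1)) fun X => frcF (FF (ty 1) true) fun F =>
    glOk T (tj 1) (WL (ty 1) true) (WL (ty 2) false) X F (FF (ty 2) false) (MS 1)) = true := by
  decide +kernel


end Pool.Agent.Lib.MP_36248f_gt.Tp
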