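import Pool.Agent.Lib.MP_36248f_gt.Tp.G0
import Pool.Agent.Lib.MP_36248f_gt.Tp.C2

/-!
The pieces in the glued complex.
-/

set_option autoImplicit false
set_option maxRecDepth 100000
set_option exponentiation.threshold 100000

noncomputable section

namespace Pool.Agent.Lib.MP_36248f_gt.Tp

theorem hY1 : frcT (RR 1) (fun R => eqL (trL R (XX (ty 1)) []) (rapp (YY 1) [])) = true := by
  decide +kernel


end Pool.Agent.Lib.MP_36248f_gt.Tp
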