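import Pool.Agent.Lib.MP_36248f_gt.Tp.G0
import Pool.Agent.Lib.MP_36248f_gt.Tp.G24

/-!
The pieces in the glued complex.
-/

set_option autoImplicit false
set_option maxRecDepth 100000
set_option exponentiation.threshold 100000

noncomputable section

namespace Pool.Agent.Lib.MP_36248f_gt.Tp

theorem hY0 : frcT (RR 0) (fun R => eqL (trL R (XX (ty 0)) []) (rapp (YY 0) [])) = true := by
  decide +kernel

theorem hY2 : frcT (RR 2) (fun R => eqL (trL R (XX (ty 2)) []) (rapp (YY 2) [])) = true := by
  decide +kernel

theorem hY4 : frcT (RR 4) (fun R => eqL (trL R (XX (ty 4)) []) (rapp (YY 4) [])) = true := by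
  decide +kernel

theorem hY6 : frcT (RR 6) (fun R => eqL (trL R (XX (ty 6)) []) (rapp (YY 6) [])) = true := by
  decide +kernel


end Pool.Agent.Lib.MP_36248f_gt.Tp
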