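import Pool.Agent.Lib.MP_36248f_gt.Tp.PM1
import Pool.Agent.Lib.MP_36248f_gt.Tp.PM2
import Pool.Agent.Lib.MP_36248f_gt.Tp.PM3
import Pool.Agent.Lib.MP_36248f_gt.Tp.PM4
import Pool.Agent.Lib.MP_36248f_gt.Tp.PM5
import Pool.Agent.Lib.MP_36248f_gt.Tp.PM6
import Pool.Agent.Lib.MP_36248f_gt.Tp.PM7
import Pool.Agent.Lib.MP_36248f_gt.Tp.GM7
import Pool.Agent.Lib.MP_36248f_gt.Tp.PM8
import Pool.Agent.Lib.MP_36248f_gt.Tp.GM8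
import Pool.Agent.Lib.MP_36248f_gt.Tp.PM9
import Pool.Agent.Lib.MP_36248f_gt.Tp.GM9
import Pool.Agent.Lib.MP_36248f_gt.Tp.PM10
import Pool.Agent.Lib.MP_36248f_gt.Tp.GM10
import Pool.Agent.Lib.MP_36248f_gt.Tp.PM11
import Pool.Agent.Lib.MP_36248f_gt.Tp.PM12
import Pool.Agent.Lib.MP_36248f_gt.Tp.PM13
import Pool.Agent.Lib.MP_36248f_gt.Tp.PM14

/-!
The piece M.
-/

set_option autoImplicit false
set_option maxRecDepth 100000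
set_option exponentiation.threshold 100000

noncomputable section

namespace Pool.Agent.Lib.MP_36248f_gt.Tp

theorem pcM : ∃ p, Pc .M NM p (decX TM 4 XXM []) (cnd · WtM WbM) (cnd · FtM FbM) :=
  W2.pc (W2.trans ⟨_, wm_nw cM1 gbM1 _, wm_nw cM1 gtM1 _⟩
    (W2.trans ⟨_, wm_nw cM2 gbM2 _, wm_nw cM2 gtM2 _⟩
    (W2.trans ⟨_, wm_nw cM3 gbM3 _, wm_nw cM3 gtM3 _⟩
    (W2.trans ⟨_, wm_nw cM4 gbM4 _, wm_nw cM4 gtM4 _⟩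
    (W2.trans ⟨_, wm_nw cM5 gbM5 _, wm_nw cM5 gtM5 _⟩
    (W2.trans ⟨_, wm_nw cM6 gbM6 _, wm_nw cM6 gtM6 _⟩
    (W2.trans ⟨_, wm_geo cM7 gbM7, wm_nw cM7 gtM7 _⟩
    (W2.trans ⟨_, wm_geo cM8 gbM8, wm_nw cM8 gtM8 _⟩
    (W2.trans ⟨_, wm_nw cM9 gbM9 _, wm_geo cM9 gtM9⟩
    (W2.trans ⟨_, wm_nw cM10 gbM10 _, wm_geo cM10 gtM10⟩
    (W2.trans ⟨_, wm_nw cM11 gbM11 _, wm_nw cM11 gtM11 _⟩
    (W2.trans ⟨_, wm_nw cM12 gbM12 _, wm_nw cM12 gtM12 _⟩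
    (W2.trans ⟨_, wm_nw cM13 gbM13 _, wm_nw cM13 gtM13 _⟩
    ⟨_, wm_nw cM14 gbM14 _, wm_nw cM14 gtM14 _⟩))))))))))))) flagM wallbM walltM

end Pool.Agent.Lib.MP_36248f_gt.Tp
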