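import Pool.Agent.Lib.MP_36248f_gt.Tp.PN1
import Pool.Agent.Lib.MP_36248f_gt.Tp.PN2
import Pool.Agent.Lib.MP_36248f_gt.Tp.PN3
import Pool.Agent.Lib.MP_36248f_gt.Tp.GN3
import Pool.Agent.Lib.MP_36248f_gt.Tp.PN4
import Pool.Agent.Lib.MP_36248f_gt.Tp.GN4
import Pool.Agent.Lib.MP_36248f_gt.Tp.PN5
import Pool.Agent.Lib.MP_36248f_gt.Tp.GN5
import Pool.Agent.Lib.MP_36248f_gt.Tp.PN6
import Pool.Agent.Lib.MP_36248f_gt.Tp.GN6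
import Pool.Agent.Lib.MP_36248f_gt.Tp.PN7

/-!
The piece N.
-/

set_option autoImplicit false
set_option maxRecDepth 100000
set_option exponentiation.threshold 100000

noncomputable section

namespace Pool.Agent.Lib.MP_36248f_gt.Tp

theorem pcN : ∃ p, Pc .N NN p (decX TN 4 XXN []) (cnd · WtN WbN) (cnd · FtN FbN) :=
  W2.pc (W2.trans ⟨_, wm_nw cN1 gbN1 _, wm_nw cN1 gtN1 _⟩
    (W2.trans ⟨_, wm_nw cN2 gbN2 _, wm_nw cN2 gtN2 _⟩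
    (W2.trans ⟨_, wm_geo cN3 gbN3, wm_nw cN3 gtN3 _⟩
    (W2.trans ⟨_, wm_geo cN4 gbN4, wm_nw cN4 gtN4 _⟩
    (W2.trans ⟨_, wm_nw cN5 gbN5 _, wm_geo cN5 gtN5⟩
    (W2.trans ⟨_, wm_nw cN6 gbN6 _, wm_geo cN6 gtN6⟩
    ⟨_, wm_nw cN7 gbN7 _, wm_nw cN7 gtN7 _⟩)))))) flagN wallbN walltN

end Pool.Agent.Lib.MP_36248f_gt.Tp
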