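import Pool.Agent.Lib.MP_36248f_gt.Tp.PS1
import Pool.Agent.Lib.MP_36248f_gt.Tp.PS2
import Pool.Agent.Lib.MP_36248f_gt.Tp.PS3
import Pool.Agent.Lib.MP_36248f_gt.Tp.GS3
import Pool.Agent.Lib.MP_36248f_gt.Tp.PS4
import Pool.Agent.Lib.MP_36248f_gt.Tp.GS4
import Pool.Agent.Lib.MP_36248f_gt.Tp.PS5

/-!
The piece S.
-/

set_option autoImplicit false
set_option maxRecDepth 100000
set_option exponentiation.threshold 100000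

noncomputable section

namespace Pool.Agent.Lib.MP_36248f_gt.Tp

theorem pcS : ∃ p, Pc .S NS p (decX TS 4 XXS []) (cnd · WtS WbS) (cnd · FtS FbS) :=
  W2.pc (W2.trans ⟨_, wm_nw cS1 gbS1 _, wm_nw cS1 gbS1 _⟩
    (W2.trans ⟨_, wm_nw cS2 gbS2 _, wm_nw cS2 gbS2 _⟩
    (W2.trans ⟨_, wm_geo cS3 gbS3, wm_geo cS3 gbS3⟩
    (W2.trans ⟨_, wm_geo cS4 gbS4, wm_geo cS4 gbS4⟩
    ⟨_, wm_nw cS5 gbS5 _, wm_nw cS5 gbS5 _⟩)))) flagS wallbS walltS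

end Pool.Agent.Lib.MP_36248f_gt.Tp
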