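import Pool.Agent.Lib.MP_36248f_gt.Tp.G0
import Pool.Agent.Lib.MP_36248f_gt.Tp.PS5

/-!
Step 0 of the sphere, part 0.
-/

set_option autoImplicit false
set_option maxRecDepth 100000
set_option exponentiation.threshold 100000

noncomputable section

namespace Pool.Agent.Lib.MP_36248f_gt.Tp

theorem q00 : chkD (DD 0) (decT (TQ 0) QS0) (rapp (HH 0) (BB 0)) (decX (TQ 0) 4 ZS0 []) = true := by
  decide +kernel


end Pool.Agent.Lib.MP_36248f_gt.Tp
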