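import Pool.Agent.Lib.MP_36248f_gt.Tp.G0
import Pool.Agent.Lib.MP_36248f_gt.Tp.G3c

/-!
Step 1 of the sphere, part 0.
-/

set_option autoImplicit false
set_option maxRecDepth 100000
set_option exponentiation.threshold 100000

noncomputable section

namespace Pool.Agent.Lib.MP_36248f_gt.Tp

theorem q10 : chkD (DD 1) (decT (TQ 1) QM0) (rapp (HH 1) (BB 1)) (decX (TQ 1) 4 ZM0 []) = true := by
  decide +kernel


end Pool.Agent.Lib.MP_36248f_gt.Tp
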