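import Pool.Agent.Lib.MP_36248f_gt.Tp.G0
import Pool.Agent.Lib.MP_36248f_gt.Tp.Q52

/-!
Step 3 of the sphere, part 2.
-/

set_option autoImplicit false
set_option maxRecDepth 100000
set_option exponentiation.threshold 100000

noncomputable section

namespace Pool.Agent.Lib.MP_36248f_gt.Tp

theorem q32 : chkD (DD 3) (decT (TQ 3) QM2) (decX (TQ 3) 4 ZM1 []) (decX (TQ 3) 4 ZM2 []) = true := by
  decide +kernel


end Pool.Agent.Lib.MP_36248f_gt.Tp
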