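import Pool.Agent.Lib.MP_36248f_gt.Tp.G1
import Pool.Agent.Lib.MP_36248f_gt.Tp.G20
import Pool.Agent.Lib.MP_36248f_gt.Tp.G21
import Pool.Agent.Lib.MP_36248f_gt.Tp.G22
import Pool.Agent.Lib.MP_36248f_gt.Tp.G23
import Pool.Agent.Lib.MP_36248f_gt.Tp.G24
import Pool.Agent.Lib.MP_36248f_gt.Tp.G25
import Pool.Agent.Lib.MP_36248f_gt.Tp.G3a
import Pool.Agent.Lib.MP_36248f_gt.Tp.G3b
import Pool.Agent.Lib.MP_36248f_gt.Tp.G3c
import Pool.Agent.Lib.MP_36248f_gt.Tp.G3d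
import Pool.Agent.Lib.MP_36248f_gt.Tp.Q00
import Pool.Agent.Lib.MP_36248f_gt.Tp.Q10
import Pool.Agent.Lib.MP_36248f_gt.Tp.Q11
import Pool.Agent.Lib.MP_36248f_gt.Tp.Q12
import Pool.Agent.Lib.MP_36248f_gt.Tp.Q20
import Pool.Agent.Lib.MP_36248f_gt.Tp.Q30
import Pool.Agent.Lib.MP_36248f_gt.Tp.Q31
import Pool.Agent.Lib.MP_36248f_gt.Tp.Q32
import Pool.Agent.Lib.MP_36248f_gt.Tp.Q40
import Pool.Agent.Lib.MP_36248f_gt.Tp.Q50
import Pool.Agent.Lib.MP_36248f_gt.Tp.Q51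
import Pool.Agent.Lib.MP_36248f_gt.Tp.Q52
import Pool.Agent.Lib.MP_36248f_gt.Tp.Q60
import Pool.Agent.Lib.MP_36248f_gt.Tp.Q7
import Pool.Agent.Lib.MP_36248f_gt.Tp.Q8
import Pool.Agent.Lib.MP_36248f_gt.Tp.B1
import Pool.Agent.Lib.MP_36248f_gt.Tp.B3
import Pool.Agent.Lib.MP_36248f_gt.Tp.B4
import Pool.Agent.Lib.MP_36248f_gt.Tp.B6
import Pool.Agent.Lib.MP_36248f_gt.Tp.C0
import Pool.Agent.Lib.MP_36248f_gt.Tp.C1
import Pool.Agent.Lib.MP_36248f_gt.Tp.C2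
import Pool.Agent.Lib.MP_36248f_gt.Tp.C3
import Pool.Agent.Lib.MP_36248f_gt.Tp.C4
import Pool.Agent.Lib.MP_36248f_gt.Tp.C9
import Pool.Agent.Lib.MP_36248f_gt.Tp.PcS
import Pool.Agent.Lib.MP_36248f_gt.Tp.PcN
import Pool.Agent.Lib.MP_36248f_gt.Tp.PcM

/-!
All checks.
-/

set_option autoImplicit false
set_option maxRecDepth 100000
set_option exponentiation.threshold 100000

noncomputable section

namespace Pool.Agent.Lib.MP_36248f_gt.Tp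

theorem mv0 : Mv (DD 0) (rapp (HH 0) (BB 0)) (CO 0) :=
  (mv_of q00)

theorem mv1 : Mv (DD 1) (rapp (HH 1) (BB 1)) (CO 1) :=
  ((mv_of q10).trans ((mv_of q11).trans (mv_of q12)))

theorem mv2 : Mv (DD 2) (rapp (HH 2) (BB 2)) (CO 2) :=
  (mv_of q20)

theorem mv3 : Mv (DD 3) (rapp (HH 3) (BB 3)) (CO 3) :=
  ((mv_of q30).trans ((mv_of q31).trans (mv_of q32)))

theorem mv4 : Mv (DD 4) (rapp (HH 4) (BB 4)) (CO 4) :=
  (mv_of q40)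

theorem mv5 : Mv (DD 5) (rapp (HH 5) (BB 5)) (CO 5) :=
  ((mv_of q50).trans ((mv_of q51).trans (mv_of q52)))

theorem mv6 : Mv (DD 6) (rapp (HH 6) (BB 6)) (CO 6) :=
  (mv_of q60)

theorem col : Mq (outs (prd KL) X2 (flat (decG TG GB)))
    (rapp (YY 0) (rapp (YY 1) (rapp (YY 2) (rapp (YY 3) (rapp (YY 4) (rapp (YY 5) (YY 6))))))) :=
  ((mq_chk c0).trans ((mq_chk c1).trans ((mq_chk c2).trans ((mq_chk c3).trans (mq_chk c4))))).congr (same_mem c9)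

end Pool.Agent.Lib.MP_36248f_gt.Tp
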