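import Pool.Agent.Lib.MP_36248f_gt.Tp.Geo
import Pool.Agent.Lib.MP_36248f_gt.Tp.Emb

/-!
Collapsing a subcomplex to the cusp. `X` is a complex without the cusp, with labels in `KL` (the
subcomplex) and `VL` (the others).
-/

set_option autoImplicit false

noncomputable section

namespace Pool.Agent.Lib.MP_36248f_gt.Tp

open Set

/-- The first coordinate of `ev` is the weight on `VL` minus the weight on `KL`, the second one
is the weight of the cusp. -/
def bcfg (KL VL : List ℕ) : Cfg :=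
  (257, (0, 1, 0)) :: (KL.map (fun k => (k, (-1, 0, 0))) ++ VL.map fun v => (v, (1, 0, 0)))

/-- The simplices that miss the subcomplex, without the cusp, pushed on a list. -/
def outs (PK : ℕ) (X : List ℕ) : List ℕ → List ℕ :=
  List.rec (motive := fun _ => List ℕ → List ℕ) (fun a => a)
    (fun n _ ih a => cnd (cp n PK) (frc (Nat.div n (Nat.gcd n 257)) fun y => ih (y :: a)) (ih a)) X

def flat (G : List (ℕ × List ℕ)) : List ℕ :=
  List.rec (motive := fun _ => List ℕ) [] (fun e _ ih => rapp e.2 ih) G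

/-- Group by group, the faces without labels in `P` are the faces of the listed simplices. -/
def grp (P : ℕ) (G : List (ℕ × List ℕ)) : List ℕ → Bool :=
  List.rec (motive := fun _ => List ℕ → Bool)
    (fun X => allL (fun n => Nat.beq (Nat.div n (Nat.gcd n P)) 257) X)
    (fun e _ ih X => Prod.rec (motive := fun _ => Bool)
      (fun K O => cnd (allL (fun n => frc (Nat.div n (Nat.gcd n P)) fun x => anyL (dv x) e.2) O)
        (cnd (allL (fun y => cnd (cp y P) (anyL (dv y) O) false) e.2) (ih K) false) false)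
      (part (cp e.1) X [] [])) G

def blowOk (KL VL X : List ℕ) (p : Prog) (X2 : List ℕ) (G : List (ℕ × List ℕ)) : Bool :=
  frc (prd KL) fun PK => frc (prd VL) fun PV => frc (Nat.mul PK PV) fun P =>
    cnd (labs (257 :: rapp KL VL) PR) (cnd (allL (fun n => dv n P) X)
      (cnd (chk p (mapL (Nat.mul 257) X) X2) (cnd (balP (bcfg KL VL) p)
        (cnd (allL (fun n => cnd (dv 66049 n) false (cnd (cp n PK) true (cp n PV))) X2)
          (grp P G X2) false) false) false) false) false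

/-- The total weight on a list of labels. -/
def blS (L : List ℕ) (w : ℕ → ℝ) : ℝ := ∑ k ∈ L.toFinset, w k

def blG (KL VL : List ℕ) (w : ℕ → ℝ) (u : ℕ) : ℝ :=
  if u = 257 then max (blS KL w - blS VL w) 0
  else if u ∈ KL then blS VL w / max (blS KL w) (blS VL w) * w u else w u

def blH (KL VL : List ℕ) (w : ℕ → ℝ) (u : ℕ) : ℝ :=
  if u = 257 then 0 else if u ∈ KL then (1 + w 257 / blS VL w) * w u else w u

def blZ (KL VL F : List ℕ) : Set (ℕ → ℝ) :=
  {w | w ∈ Cn F ∧ 0 ≤ blS VL w - blS KL w ∧ w 257 * (blS VL w - blS KL w) = 0}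

structure BlL (KL VL : List ℕ) : Prop where
  k : ∀ u ∈ KL, Lab u
  v : ∀ u ∈ VL, Lab u
  ck : 257 ∉ KL
  cv : 257 ∉ VL
  kv : ∀ u ∈ KL, u ∉ VL

theorem bl_lab : Lab 257 := ⟨by norm_num, by norm_num⟩

theorem bl_labs {KL VL : List ℕ} (h : labs (257 :: rapp KL VL) PR = true) : BlL KL VL := by
  obtain ⟨h1, h0⟩ := labs_spec h
  have hp := (rapp_perm KL VL).cons 257
  have h2 := hp.pairwise h0 (fun h => h.symm)
  rw [List.pairwise_cons, List.pairwise_append] at h2
  have hL : ∀ u ∈ KL ++ VL, Lab u := fun u hu =>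
    have := h1 u (hp.mem_iff.2 (List.mem_cons_of_mem _ hu))
    lab_of this.1 this.2.1 this.2.2
  have hc : 257 ∉ KL ++ VL := fun hu => by
    have := (Nat.coprime_self 257).1 (h2.1 257 hu)
    omega
  refine ⟨fun u hu => hL u (List.mem_append_left _ hu), fun u hu => hL u (List.mem_append_right _ hu),
    fun hu => hc (List.mem_append_left _ hu), fun hu => hc (List.mem_append_right _ hu),
    fun u hu hv => ?_⟩
  exact (hL u (List.mem_append_left _ hu)).1.one_lt.ne' ((Nat.coprime_self u).1 (h2.2.2.2 u hu u hv))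

theorem bl_vec_cons (e : ℕ × Z3) (ξ : Cfg) (l : ℕ) :
    vec (e :: ξ) l = if e.1 = l then e.2 else vec ξ l := by
  change cnd (Nat.beq e.1 l) e.2 (vec ξ l) = _
  by_cases h : e.1 = l
  · rw [if_pos h, Nat.beq_eq.mpr h, cnd_true]
  · rw [if_neg h]
    have : Nat.beq e.1 l = false := by
      cases hb : Nat.beq e.1 l
      · rfl
      · exact absurd (Nat.beq_eq.mp hb) h
    rw [this, cnd_false]

theorem bl_vec_map (z : Z3) (ξ : Cfg) (l : ℕ) : ∀ L : List ℕ,
    vec (L.map (fun k => (k, z)) ++ ξ) l = if l ∈ L then z else vec ξ l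
  | [] => by simp
  | a :: L => by
    rw [List.map_cons, List.cons_append, bl_vec_cons, bl_vec_map z ξ l L]
    by_cases h : a = l
    · simp [h]
    · have h' : ¬ l = a := fun e => h e.symm
      simp [h, h']

theorem bl_vec (KL VL : List ℕ) (l : ℕ) : vec (bcfg KL VL) l =
    if 257 = l then (0, 1, 0) else if l ∈ KL then (-1, 0, 0) else if l ∈ VL then (1, 0, 0)
      else (0, 0, 0) := by
  rw [bcfg, bl_vec_cons, bl_vec_map, ← List.append_nil (VL.map _), bl_vec_map]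
  rfl

theorem bl_sum {L : List ℕ} (h : ∀ u ∈ L, Lab u) (w : ℕ → ℝ) :
    ∑ l ∈ Finset.range 65536, (if l ∈ L.toFinset then w l else 0) = blS L w := by
  rw [Finset.sum_ite_mem, Finset.inter_eq_right.2 fun u hu =>
    Finset.mem_range.2 (h u (List.mem_toFinset.1 hu)).2]
  rfl

theorem bl_ev {KL VL : List ℕ} (H : BlL KL VL) (w : ℕ → ℝ) :
    (ev (bcfg KL VL) w).1 = blS VL w - blS KL w ∧ (ev (bcfg KL VL) w).2.1 = w 257 := by
  constructor
  · rw [ev, Prod.fst_sum, ← bl_sum H.k, ← bl_sum H.v, ← Finset.sum_sub_distrib]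
    refine Finset.sum_congr rfl fun l _ => ?_
    rw [bl_vec]
    by_cases h : 257 = l
    · subst h
      simp [cst, H.ck, H.cv]
    · by_cases hk : l ∈ KL
      · simp [cst, h, hk, H.kv l hk]
      · by_cases hv : l ∈ VL <;> simp [cst, h, hk, hv]
  · rw [ev, Prod.snd_sum, Prod.fst_sum, Finset.sum_eq_single 257]
    · rw [bl_vec, if_pos rfl]
      simp [cst]
    · intro l _ hl
      rw [bl_vec, if_neg fun e => hl e.symm]
      split_ifs <;> simp [cst]
    · intro h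
      exact absurd (Finset.mem_range.2 (by norm_num)) h

theorem blS_nonneg (L : List ℕ) {w : ℕ → ℝ} (hw : ∀ u, 0 ≤ w u) : 0 ≤ blS L w :=
  Finset.sum_nonneg fun u _ => hw u

theorem blS_le {L : List ℕ} {w : ℕ → ℝ} (hw : ∀ u, 0 ≤ w u) {u : ℕ} (hu : u ∈ L) :
    w u ≤ blS L w :=
  Finset.single_le_sum (f := w) (fun u _ => hw u) (List.mem_toFinset.2 hu)

theorem blS_zero {L : List ℕ} {w : ℕ → ℝ} (h : ∀ u ∈ L, w u = 0) : blS L w = 0 :=
  Finset.sum_eq_zero fun u hu => h u (List.mem_toFinset.1 hu)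

theorem blS_congr {L : List ℕ} {w w' : ℕ → ℝ} {c : ℝ} (h : ∀ u ∈ L, w u = c * w' u) :
    blS L w = c * blS L w' := by
  rw [blS, blS, Finset.mul_sum]
  exact Finset.sum_congr rfl fun u hu => h u (List.mem_toFinset.1 hu)

theorem blS_cont (L : List ℕ) : Continuous (blS L) :=
  continuous_finsetSum _ fun u _ => continuous_apply u

theorem bl_dvd_prod {u : ℕ} (hu : u.Prime) {L : List ℕ} (h : ∀ a ∈ L, Lab a) (e : u ∣ L.prod) :
    u ∈ L := by
  obtain ⟨a, ha, e'⟩ := (Prime.dvd_prod_iff hu.prime).1 e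
  rwa [(Nat.prime_dvd_prime_iff_eq hu (h a ha).1).1 e']

section

variable {KL VL : List ℕ}

theorem BlL.mem (H : BlL KL VL) {u n : ℕ} (hu : u.Prime) (e : u ∣ n)
    (hn : n ∣ KL.prod * VL.prod) : u ∈ KL ∨ u ∈ VL :=
  (hu.dvd_mul.1 (e.trans hn)).imp (bl_dvd_prod hu H.k) (bl_dvd_prod hu H.v)

theorem BlL.G_v (H : BlL KL VL) (w : ℕ → ℝ) {u : ℕ} (hu : u ∈ VL) : blG KL VL w u = w u := by
  rw [blG, if_neg fun e : u = 257 => H.cv (e ▸ hu), if_neg fun e => H.kv u e hu]

theorem BlL.G_k (H : BlL KL VL) (w : ℕ → ℝ) {u : ℕ} (hu : u ∈ KL) :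
    blG KL VL w u = blS VL w / max (blS KL w) (blS VL w) * w u := by
  rw [blG, if_neg fun e : u = 257 => H.ck (e ▸ hu), if_pos hu]

theorem BlL.H_v (H : BlL KL VL) (w : ℕ → ℝ) {u : ℕ} (hu : u ∈ VL) : blH KL VL w u = w u := by
  rw [blH, if_neg fun e : u = 257 => H.cv (e ▸ hu), if_neg fun e => H.kv u e hu]

theorem BlL.H_k (H : BlL KL VL) (w : ℕ → ℝ) {u : ℕ} (hu : u ∈ KL) :
    blH KL VL w u = (1 + w 257 / blS VL w) * w u := by
  rw [blH, if_neg fun e : u = 257 => H.ck (e ▸ hu), if_pos hu]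

theorem BlL.S_G (H : BlL KL VL) (w : ℕ → ℝ) : blS VL (blG KL VL w) = blS VL w ∧
    blS KL (blG KL VL w) = blS VL w / max (blS KL w) (blS VL w) * blS KL w :=
  ⟨(blS_congr (c := 1) fun _ hu => by rw [H.G_v w hu, one_mul]).trans (one_mul _),
    blS_congr fun _ hu => H.G_k w hu⟩

theorem BlL.S_H (H : BlL KL VL) (w : ℕ → ℝ) : blS VL (blH KL VL w) = blS VL w ∧
    blS KL (blH KL VL w) = (1 + w 257 / blS VL w) * blS KL w :=
  ⟨(blS_congr (c := 1) fun _ hu => by rw [H.H_v w hu, one_mul]).trans (one_mul _),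
    blS_congr fun _ hu => H.H_k w hu⟩

theorem BlL.pos1 (H : BlL KL VL) {X : List ℕ} (hX : ∀ n ∈ X, n ∣ KL.prod * VL.prod) {w : ℕ → ℝ}
    (hw : w ∈ Cn X \ {w | ∀ u, w u ≠ 0 → u ∈ KL}) :
    w 257 = 0 ∧ 0 < blS VL w ∧ ∃ v ∈ VL, w v ≠ 0 := by
  obtain ⟨⟨h0, -, n, hn, hs⟩, h1⟩ := hw
  simp only [mem_ofPred_eq, not_forall] at h1
  obtain ⟨u, hu, hk⟩ := h1
  have hv := (H.mem (hs u hu).1.1 (hs u hu).2 (hX n hn)).resolve_left hk
  refine ⟨by_contra fun e => ?_, ((h0 u).lt_of_ne' hu).trans_le (blS_le h0 hv), u, hv, hu⟩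
  exact (H.mem (hs _ e).1.1 (hs _ e).2 (hX n hn)).elim H.ck H.cv

theorem bl_dvd_cusp {u n : ℕ} (hu : u.Prime) (h : u ≠ 257) (e : u ∣ 257 * n) : u ∣ n :=
  (hu.dvd_mul.1 e).resolve_left fun e' => h ((Nat.prime_dvd_prime_iff_eq hu bl_lab.1).1 e')

theorem BlL.pos2 (H : BlL KL VL) {X : List ℕ} (hX : ∀ n ∈ X, n ∣ KL.prod * VL.prod) {w : ℕ → ℝ}
    (hw : w ∈ blZ KL VL (X.map (257 * ·))) : 0 < blS VL w := by
  obtain ⟨⟨h0, ⟨u, h1, hu⟩, m, hm, hs⟩, h2, -⟩ := hw
  obtain ⟨n, hn, rfl⟩ := List.mem_map.1 hm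
  have h3 := (h0 u).lt_of_ne' hu
  rcases H.mem (hs u hu).1.1 (bl_dvd_cusp (hs u hu).1.1 h1 (hs u hu).2) (hX n hn) with h | h
  · have := blS_le h0 h
    linarith
  · exact h3.trans_le (blS_le h0 h)

theorem BlL.bij (H : BlL KL VL) {X : List ℕ} (hX : ∀ n ∈ X, n ∣ KL.prod * VL.prod) :
    Bij (blG KL VL) (blH KL VL) (Cn X \ {w | ∀ u, w u ≠ 0 → u ∈ KL})
      (blZ KL VL (X.map (257 * ·))) := by
  refine ⟨fun w hw => ?_, fun w hw => ?_, fun w hw => ?_, fun w hw => ?_⟩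
  · obtain ⟨-, hm, v, hv, hv0⟩ := H.pos1 hX hw
    obtain ⟨⟨h0, -, n, hn, hs⟩, -⟩ := hw
    have hM : 0 < max (blS KL w) (blS VL w) := lt_max_of_lt_right hm
    refine ⟨⟨fun u => ?_, ⟨v, fun e => H.cv (e ▸ hv), by rwa [H.G_v w hv]⟩, 257 * n,
      List.mem_map.2 ⟨n, hn, rfl⟩, fun u hu => ?_⟩, ?_, ?_⟩
    · rw [blG]
      split_ifs
      · exact le_max_right _ _
      · exact mul_nonneg (div_nonneg hm.le hM.le) (h0 u)
      · exact h0 u
    · by_cases e : u = 257
      · rw [e]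
        exact ⟨bl_lab, dvd_mul_right _ _⟩
      · have : w u ≠ 0 := by
          intro e'
          apply hu
          rw [blG, if_neg e, e', mul_zero, ite_self]
        exact ⟨(hs u this).1, (hs u this).2.mul_left _⟩
    · rw [(H.S_G w).1, (H.S_G w).2, sub_nonneg, div_mul_eq_mul_div, div_le_iff₀ hM]
      exact mul_le_mul_of_nonneg_left (le_max_left _ _) hm.le
    · rw [(H.S_G w).1, (H.S_G w).2, blG, if_pos rfl]
      rcases le_total (blS KL w) (blS VL w) with e | e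
      · rw [max_eq_right (sub_nonpos.2 e), zero_mul]
      · rw [max_eq_left e, div_mul_cancel₀ _ (hm.trans_le e).ne', sub_self, mul_zero]
  · have hm := H.pos2 hX hw
    obtain ⟨⟨h0, -, m, hm', hs⟩, -, -⟩ := hw
    obtain ⟨n, hn, rfl⟩ := List.mem_map.1 hm'
    obtain ⟨v, hv, hv0⟩ : ∃ v ∈ VL, w v ≠ 0 := by
      by_contra hc
      push Not at hc
      exact hm.ne' (blS_zero hc)
    refine ⟨⟨fun u => ?_, ⟨v, fun e => H.cv (e ▸ hv), by rwa [H.H_v w hv]⟩, n, hn,
      fun u hu => ?_⟩, fun hc => H.kv v (hc v (by rwa [H.H_v w hv])) hv⟩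
    · rw [blH]
      split_ifs
      · exact le_rfl
      · exact mul_nonneg (add_nonneg zero_le_one (div_nonneg (h0 _) hm.le)) (h0 u)
      · exact h0 u
    · have e : u ≠ 257 := fun e => hu (by rw [blH, if_pos e])
      have : w u ≠ 0 := by
        intro e'
        apply hu
        rw [blH, if_neg e, e', mul_zero, ite_self]
      exact ⟨(hs u this).1, bl_dvd_cusp (hs u this).1.1 e (hs u this).2⟩
  · obtain ⟨hc, hm, -⟩ := H.pos1 hX hw
    funext u
    by_cases e : u = 257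
    · rw [blH, if_pos e, e, hc]
    · by_cases hk : u ∈ KL
      · rw [H.H_k _ hk, (H.S_G w).1, H.G_k w hk, blG, if_pos rfl, ← mul_assoc]
        rcases le_total (blS KL w) (blS VL w) with e | e
        · rw [max_eq_right (sub_nonpos.2 e), max_eq_right e, zero_div, add_zero, div_self hm.ne',
            one_mul, one_mul]
        · rw [max_eq_left (sub_nonneg.2 e), max_eq_left e]
          have := (hm.trans_le e).ne'
          have := hm.ne'
          field_simp
          ring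
      · rw [blH, if_neg e, if_neg hk, blG, if_neg e, if_neg hk]
  · have hm := H.pos2 hX hw
    obtain ⟨⟨h0, -⟩, h1, h2⟩ := hw
    have ht := h0 257
    funext u
    by_cases e : u = 257
    · rw [blG, if_pos e, (H.S_H w).1, (H.S_H w).2, e]
      rcases mul_eq_zero.1 h2 with h | h
      · rw [h, zero_div, add_zero, one_mul, max_eq_right (by linarith)]
      · rw [← sub_eq_zero.1 h, add_mul, one_mul, div_mul_cancel₀ _ hm.ne', add_sub_cancel_left,
          max_eq_left ht]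
    · by_cases hk : u ∈ KL
      · rw [H.G_k _ hk, (H.S_H w).1, (H.S_H w).2, H.H_k w hk, ← mul_assoc]
        rcases mul_eq_zero.1 h2 with h | h
        · rw [h, zero_div, add_zero, one_mul, max_eq_right (by linarith), div_self hm.ne',
            one_mul, one_mul]
        · rw [← sub_eq_zero.1 h, add_mul, one_mul, div_mul_cancel₀ _ hm.ne',
            max_eq_left (by linarith)]
          have : blS VL w + w 257 ≠ 0 := by linarith
          have := hm.ne'
          field_simp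
      · rw [blG, if_neg e, if_neg hk, blH, if_neg e, if_neg hk]

theorem bl_dvd_div {u n m : ℕ} (hu : u.Prime) (e : u ∣ n) (h : ¬ u ∣ m) : u ∣ n / Nat.gcd n m := by
  rw [← Nat.div_mul_cancel (Nat.gcd_dvd_left n m)] at e
  exact (hu.dvd_mul.1 e).resolve_right fun e' => h (e'.trans (Nat.gcd_dvd_right n m))

theorem bl_cop {w : ℕ → ℝ} {n : ℕ} (hs : Sup w n) {L : List ℕ} (h : Nat.gcd n L.prod = 1) :
    ∀ u ∈ L, w u = 0 := fun u hu => by_contra fun e =>
  (hs u e).1.1.one_lt.ne' (Nat.eq_one_of_dvd_coprimes h (hs u e).2 (List.dvd_prod hu))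

theorem BlL.Z_eq (H : BlL KL VL) {X2 Y : List ℕ}
    (h1 : ∀ n ∈ X2, (Nat.gcd n KL.prod = 1 ∨ Nat.gcd n VL.prod = 1) ∧
      (Nat.gcd n KL.prod = 1 → ∃ y ∈ Y, n / Nat.gcd n 257 ∣ y) ∧
      (n / Nat.gcd n (KL.prod * VL.prod) = 257 ∨ ∃ y ∈ Y, n / Nat.gcd n (KL.prod * VL.prod) ∣ y))
    (h2 : ∀ y ∈ Y, (∃ n ∈ X2, y ∣ n) ∧ Nat.gcd y KL.prod = 1 ∧
      (257 ∣ y → Nat.gcd y VL.prod = 1)) : blZ KL VL X2 = Cn Y := by
  ext w
  constructor
  · rintro ⟨⟨h0, hne, n, hn, hs⟩, e1, e2⟩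
    obtain ⟨c1, c2, c3⟩ := h1 n hn
    have key : (∀ u ∈ KL, w u = 0) → (∀ u ∈ VL, w u = 0) → w ∈ Cn Y := fun hk hv => by
      have hd : ∀ u, w u ≠ 0 → u ∣ n / Nat.gcd n (KL.prod * VL.prod) := fun u hu =>
        bl_dvd_div (hs u hu).1.1 (hs u hu).2 fun e =>
          (H.mem (hs u hu).1.1 e dvd_rfl).elim (fun h => hu (hk u h)) fun h => hu (hv u h)
      rcases c3 with c3 | ⟨y, hy, c3⟩
      · obtain ⟨u, h3, hu⟩ := hne
        exact absurd ((Nat.prime_dvd_prime_iff_eq (hs u hu).1.1 bl_lab.1).1 (c3 ▸ hd u hu)) h3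
      · exact ⟨h0, hne, y, hy, fun u hu => ⟨(hs u hu).1, (hd u hu).trans c3⟩⟩
    rcases c1 with c | c
    · have hk := bl_cop hs c
      rw [blS_zero hk, sub_zero] at e2
      rcases mul_eq_zero.1 e2 with e | e
      · obtain ⟨y', hy', c4⟩ := c2 c
        refine ⟨h0, hne, y', hy', fun u hu => ⟨(hs u hu).1,
          (bl_dvd_div (hs u hu).1.1 (hs u hu).2 fun e' => hu ?_).trans c4⟩⟩
        rwa [(Nat.prime_dvd_prime_iff_eq (hs u hu).1.1 bl_lab.1).1 e']
      · exact key hk fun u hu => le_antisymm (e ▸ blS_le h0 hu) (h0 u)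
    · have hv := bl_cop hs c
      rw [blS_zero hv] at e1
      exact key (fun u hu => le_antisymm (by linarith [blS_le h0 hu]) (h0 u)) hv
  · rintro ⟨h0, hne, y, hy, hs⟩
    obtain ⟨⟨n, hn, c1⟩, c2, c3⟩ := h2 y hy
    refine ⟨⟨h0, hne, n, hn, fun u hu => ⟨(hs u hu).1, (hs u hu).2.trans c1⟩⟩, ?_, ?_⟩
    · rw [blS_zero (bl_cop hs c2), sub_zero]
      exact blS_nonneg _ h0
    · rw [blS_zero (bl_cop hs c2), sub_zero]
      by_cases e : w 257 = 0
      · rw [e, zero_mul]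
      · rw [blS_zero (bl_cop hs (c3 (hs _ e).2)), mul_zero]

theorem BlL.Z_bij (H : BlL KL VL) {p : Prog} {X X' : List ℕ} (h : chk p X X' = true)
    (hb : balP (bcfg KL VL) p = true) : Bij p.fw p.bw (blZ KL VL X) (blZ KL VL X') := by
  have b := chk_iso h
  refine ⟨fun w hw => ⟨b.fw hw.1, ?_⟩, fun w hw => ⟨b.bw hw.1, ?_⟩, fun w hw => b.l w hw.1,
    fun w hw => b.r w hw.1⟩
  · rw [← (bl_ev H _).1, ← (bl_ev H (p.fw w)).2, (balP_ev hb w).1, (bl_ev H _).1, (bl_ev H _).2]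
    exact hw.2
  · rw [← (bl_ev H _).1, ← (bl_ev H (p.bw w)).2, (balP_ev hb w).2, (bl_ev H _).1, (bl_ev H _).2]
    exact hw.2

theorem blG_cont {S : Set (ℕ → ℝ)} (h : ∀ w ∈ S, 0 < blS VL w) : ContinuousOn (blG KL VL) S := by
  refine continuousOn_pi.2 fun u => ?_
  simp only [blG]
  split_ifs
  · exact (((blS_cont KL).sub (blS_cont VL)).max continuous_const).continuousOn
  · exact ((blS_cont VL).continuousOn.div ((blS_cont KL).max (blS_cont VL)).continuousOn
      fun w hw => (lt_max_of_lt_right (h w hw)).ne').mul (continuous_apply u).continuousOn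
  · exact (continuous_apply u).continuousOn

theorem blH_cont {S : Set (ℕ → ℝ)} (h : ∀ w ∈ S, 0 < blS VL w) : ContinuousOn (blH KL VL) S := by
  refine continuousOn_pi.2 fun u => ?_
  simp only [blH]
  split_ifs
  · exact continuousOn_const
  · exact (continuousOn_const.add ((continuous_apply 257).continuousOn.div
      (blS_cont VL).continuousOn fun w hw => (h w hw).ne')).mul (continuous_apply u).continuousOn
  · exact (continuous_apply u).continuousOn

theorem blH_smul {c : ℝ} (hc : 0 < c) (w : ℕ → ℝ) : blH KL VL (c • w) = c • blH KL VL w := by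
  funext u
  have : blS VL (c • w) = c * blS VL w := blS_congr fun _ _ => rfl
  simp only [blH, this, Pi.smul_apply, smul_eq_mul, mul_div_mul_left _ _ hc.ne']
  split_ifs
  · rw [mul_zero]
  · ring
  · rfl

end

theorem bl_mapL (f : ℕ → ℕ) : ∀ l : List ℕ, mapL f l = l.map f
  | [] => rfl
  | e :: l => by
    change frc (f e) (fun y => y :: mapL f l) = _
    rw [frc_eq, bl_mapL f l, List.map_cons]

theorem bl_mem_outs {PK y : ℕ} : ∀ {X a : List ℕ},
    y ∈ outs PK X a ↔ y ∈ a ∨ ∃ n ∈ X, n.Coprime PK ∧ y = n / Nat.gcd n 257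
  | [], a => by simp [outs]
  | n :: X, a => by
    change y ∈ cnd (cp n PK) (frc (n / Nat.gcd n 257) fun z => outs PK X (z :: a)) (outs PK X a) ↔ _
    cases h : cp n PK
    · have h' : ¬ n.Coprime PK := fun e => by simp [cp_iff.2 e] at h
      rw [cnd_false, bl_mem_outs]
      simp only [List.mem_cons, exists_eq_or_imp, h', false_and, false_or]
    · have h' := cp_iff.1 h
      rw [cnd_true, frc_eq, bl_mem_outs]
      simp only [List.mem_cons, exists_eq_or_imp]
      tauto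

theorem bl_grp {P : ℕ} : ∀ {G : List (ℕ × List ℕ)} {X : List ℕ}, grp P G X = true →
    (∀ n ∈ X, n / Nat.gcd n P = 257 ∨ ∃ y ∈ flat G, n / Nat.gcd n P ∣ y) ∧
      ∀ y ∈ flat G, y.Coprime P ∧ ∃ n ∈ X, y ∣ n
  | [], X, h => by
    change allL (fun n => Nat.beq (n / Nat.gcd n P) 257) X = true at h
    rw [allL_iff] at h
    exact ⟨fun n hn => Or.inl (Nat.beq_eq.mp (h n hn)), fun y hy => absurd hy List.not_mem_nil⟩
  | e :: G, X, h => by
    change Prod.rec (motive := fun _ => Bool)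
      (fun K O => cnd (allL (fun n => frc (n / Nat.gcd n P) fun x => anyL (dv x) e.2) O)
        (cnd (allL (fun y => cnd (cp y P) (anyL (dv y) O) false) e.2) (grp P G K) false) false)
      (part (cp e.1) X [] []) = true at h
    have hs := fun x => @part_spec (cp e.1) x X [] []
    generalize part (cp e.1) X [] [] = z at h hs
    obtain ⟨K, O⟩ := z
    simp only [List.not_mem_nil, false_or] at hs
    simp only [cnd_and, allL_iff, anyL_iff, frc_eq, dv_iff, cp_iff] at h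
    obtain ⟨h1, h2, h3⟩ := h
    obtain ⟨i1, i2⟩ := bl_grp h3
    have hf : ∀ y, y ∈ flat (e :: G) ↔ y ∈ e.2 ∨ y ∈ flat G := fun y => mem_rapp
    refine ⟨fun n hn => ?_, fun y hy => ?_⟩
    · by_cases c : cp e.1 n = true
      · exact (i1 n ((hs n).1.2 ⟨hn, c⟩)).imp_right fun ⟨y, hy, d⟩ => ⟨y, (hf y).2 (Or.inr hy), d⟩
      · obtain ⟨y, hy, d⟩ := h1 n ((hs n).2.2 ⟨hn, c⟩)
        exact Or.inr ⟨y, (hf y).2 (Or.inl hy), d⟩
    · rcases (hf y).1 hy with hy | hy
      · obtain ⟨c, n, hn, d⟩ := h2 y hy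
        exact ⟨c, n, ((hs n).2.1 hn).1, d⟩
      · obtain ⟨c, n, hn, d⟩ := i2 y hy
        exact ⟨c, n, ((hs n).1.1 hn).1, d⟩

theorem blow {KL VL X : List ℕ} {p : Prog} {X2 : List ℕ} {G : List (ℕ × List ℕ)}
    (h : blowOk KL VL X p X2 G = true) :
    ∃ f g : (ℕ → ℝ) → ℕ → ℝ,
      Bij f g (Cn (outs (prd KL) X2 (flat G))) (Cn X \ {w | ∀ u, w u ≠ 0 → u ∈ KL}) ∧
      ContinuousOn f (Cn (outs (prd KL) X2 (flat G))) ∧
      ContinuousOn g (Cn X \ {w | ∀ u, w u ≠ 0 → u ∈ KL}) ∧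
      ∀ w ∈ Cn (outs (prd KL) X2 (flat G)), ∀ c : ℝ, 0 < c → f (c • w) = c • f w := by
  simp only [blowOk, frc_eq, cnd_and, cnd_not, cnd_or, allL_iff, dv_iff, cp_iff, prd_eq,
    bl_mapL] at h
  obtain ⟨h1, h2, h3, h4, h5, h6⟩ := h
  have H := bl_labs h1
  have b1 := H.bij h2
  have b2 := H.Z_bij h3 h4
  obtain ⟨g1, g2⟩ := bl_grp h6
  have e : blZ KL VL X2 = Cn (outs (prd KL) X2 (flat G)) := by
    rw [prd_eq]
    refine H.Z_eq (fun n hn => ⟨(h5 n hn).2, fun c => ⟨_, bl_mem_outs.2 (Or.inr ⟨n, hn, c, rfl⟩),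
      dvd_rfl⟩, (g1 n hn).imp_right fun ⟨y, hy, d⟩ => ⟨y, bl_mem_outs.2 (Or.inl hy), d⟩⟩)
      fun y hy => ?_
    rcases bl_mem_outs.1 hy with hy | ⟨n, hn, c, rfl⟩
    · exact ⟨(g2 y hy).2, (g2 y hy).1.coprime_mul_right_right,
        fun _ => (g2 y hy).1.coprime_mul_left_right⟩
    · have d := Nat.div_dvd_of_dvd (Nat.gcd_dvd_left n 257)
      refine ⟨⟨n, hn, d⟩, c.coprime_dvd_left d, fun d' => absurd ?_ (h5 n hn).1⟩
      have d2 := d'.trans d
      rw [Nat.gcd_eq_right d2] at d'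
      exact (Nat.dvd_div_iff_mul_dvd d2).1 d'
  rw [e] at b2
  refine ⟨_, _, (b1.trans b2).symm, ?_, ?_, fun w _ c hc => ?_⟩
  · exact (blH_cont fun w hw => H.pos2 h2 hw).comp p.bw_cont.continuousOn b2.bw
  · exact p.fw_cont.comp_continuousOn (blG_cont fun w hw => (H.pos1 h2 hw).2.1)
  · simp only [Function.comp, p.bw_smul hc.le, blH_smul hc]

end Pool.Agent.Lib.MP_36248f_gt.Tp
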