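import Pool.Agent.Lib.MP_36248f_gt.Box
import Pool.Agent.Lib.MP_36248f_gt.Tp.Pre
import Pool.Agent.Lib.MP_36248f_gt.ExEq

/-!
The cells of the three tiles and their centres. Faces are numbered: first the mirrors, then the
lower wall, then the upper wall. `zt` lists the cells with the bit masks of the faces through
them, `vs` lists their vertices, `ch` the maximal chains, `wcb` and `wct` the cells in the lower
and in the upper wall (without the cusp) with their centres in the standard wall.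
-/

set_option autoImplicit false

noncomputable section

namespace Pool.Agent.Lib.MP_36248f_gt.Tp

open Set

def fm : Ty → ℕ
  | .S => 5
  | .N => 6
  | .M => 9

def dead : Ty → List ℕ
  | .S => [7, 28]
  | .N => [36, 24, 7, 11]
  | .M => [65, 18, 34, 12, 260, 24, 136, 80, 144, 272, 160, 288, 192, 320, 7, 11, 37]

def inf : Ty → List ℕ
  | .S => [3, 24]
  | .N => [3, 48]
  | .M => [3, 384]

def vs : Ty → List (ℕ × List ℕ)
  | .S => [(263, [349, 353, 359, 367, 257]), (269, [349, 353, 257]), (271, [359, 367, 257]), (277,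
      [349, 353, 359, 367]), (281, [349, 359, 257]), (283, [353, 367, 257]), (293, [349, 353]),
      (307, [349, 257]), (311, [353, 257]), (313, [359, 367]), (317, [359, 257]), (331, [367,
      257]), (337, [349, 359]), (347, [353, 367]), (349, [349]), (353, [353]), (359, [359]), (367,
      [367]), (257, [257])]
  | .N => [(263, [373, 379, 383, 389, 397, 401, 257]), (269, [373, 379, 383, 257]), (271, [389,
      397, 401, 257]), (277, [373, 379, 389, 397]), (281, [373, 383, 389, 401]), (283, [379, 397,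
      257]), (293, [383, 401, 257]), (307, [373, 379]), (311, [373, 383]), (313, [379, 257]),
      (317, [383, 257]), (331, [389, 397]), (337, [389, 401]), (347, [397, 257]), (349, [401,
      257]), (353, [373, 389]), (359, [379, 397]), (367, [383, 401]), (373, [373]), (379, [379]),
      (383, [383]), (389, [389]), (397, [397]), (401, [401]), (257, [257])]
  | .M => [(263, [443, 449, 457, 461, 463, 467, 479, 487, 491, 499, 503, 509, 257]), (269, [443,
      449, 457, 461, 463, 257]), (271, [467, 479, 487, 491, 257]), (277, [443, 449, 467, 479, 499,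
      503]), (281, [457, 461, 487, 491, 509]), (283, [443, 463, 499]), (293, [457, 463, 499, 503,
      509]), (307, [467, 487, 503, 509]), (311, [449, 479, 257]), (313, [461, 491, 257]), (317,
      [443, 449]), (331, [457, 461]), (337, [443, 463]), (347, [457, 463]), (349, [449, 257]),
      (353, [461, 257]), (359, [467, 479]), (367, [487, 491]), (373, [467, 487]), (379, [479,
      257]), (383, [491, 257]), (389, [443, 499]), (397, [499, 503]), (401, [467, 503]), (409,
      [449, 479]), (419, [457, 509]), (421, [487, 509]), (431, [461, 491]), (433, [463, 499]),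
      (439, [503, 509]), (443, [443]), (449, [449]), (457, [457]), (461, [461]), (463, [463]),
      (467, [467]), (479, [479]), (487, [487]), (491, [491]), (499, [499]), (503, [503]), (509,
      [509]), (257, [257])]

def zz (t : Ty) (u : ℕ) : ℕ := lk (zt t) u

/-- The linear forms of the faces. -/
def fa (t : Ty) (s : ℕ) : V →ₗ[ℝ] ℝ :=
  if s < ng t then -Bm (nm t s) else if s = ng t then LinearMap.proj 1
  else ht t • LinearMap.proj 3 - LinearMap.proj 1

theorem fa_lt {t : Ty} {s : ℕ} (h : s < ng t) (v : V) : fa t s v = B v (nm t s) := by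
  rw [fa, if_pos h, LinearMap.neg_apply, Bm_apply, neg_neg, B_symm]

theorem fa_bot (t : Ty) (v : V) : fa t (ng t) v = v 1 := by
  rw [fa, if_neg (lt_irrefl _), if_pos rfl, LinearMap.proj_apply]

theorem fa_top (t : Ty) (v : V) : fa t (ng t + 1) v = ht t * v 3 - v 1 := by
  rw [fa, if_neg (by omega), if_neg (by omega)]
  rfl

theorem cellb_ng (t : Ty) : 3 < ng t ∧ ng t < fm t ∧ fm t ≤ ng t + 2 ∧
    (t ≠ .S → fm t = ng t + 2) := by
  cases t <;> decide

theorem cellb_S (v : V) : fa .S 3 v = ht .S * v 3 - v 1 := by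
  rw [fa_lt (by decide)]
  simp [B, nm, ht]
  ring

theorem cellb_cone {t : Ty} {v : V} :
    (∀ s < fm t, 0 ≤ fa t s v) ↔ v ∈ Ch t ∧ 0 ≤ v 1 ∧ v 1 ≤ ht t * v 3 := by
  obtain ⟨-, g1, g2, g3⟩ := cellb_ng t
  refine ⟨fun h => ⟨fun i => fa_lt i.2 v ▸ h i (i.2.trans g1), fa_bot t v ▸ h _ g1, ?_⟩,
    fun h s hs => ?_⟩
  · rw [← sub_nonneg]
    by_cases e : t = .S
    · subst e
      exact cellb_S v ▸ h 3 (by decide)
    · exact fa_top t v ▸ h _ (by have := g3 e; omega)
  · rcases lt_trichotomy s (ng t) with e | rfl | e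
    · exact (fa_lt e v).symm ▸ h.1 ⟨s, e⟩
    · exact (fa_bot t v).symm ▸ h.2.1
    · obtain rfl : s = ng t + 1 := by omega
      rw [fa_top, sub_nonneg]
      exact h.2.2

theorem PC_eq (t : Ty) : PC t = {v | 0 < v 3 ∧ ∀ s < fm t, 0 ≤ fa t s v} :=
  Set.ext fun _ => and_congr_right fun _ => cellb_cone.symm

/-- The standard wall `y = 0`. -/
def J (p : R3) : V := ![p.1, 0, p.2.1, p.2.2]

def unJ (v : V) : R3 := (v 0, v 2, v 3)

structure Ctr (t : Ty) (c : ℕ → V) : Prop where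
  pat : ∀ u ∈ cs t, ∀ s < fm t, 0 ≤ fa t s (c u) ∧ (fa t s (c u) = 0 ↔ (zz t u).testBit s = true)
  pos : ∀ u ∈ cs t, u ≠ 257 → 0 < c u 3
  cusp : c 257 = pinf
  bot : ∀ e ∈ wcb t, c e.1 = J (cst e.2)
  top : ∀ e ∈ wct t, c e.1 = tau t (J (cst e.2))

/-- The normal vectors of the faces. -/
def cellaN (t : Ty) (s : ℕ) : V := if s < ng t then nm t s else if s = ng t then nT else nU t

theorem cella_cases (t : Ty) {s : ℕ} (hs : s < fm t) :
    s < ng t ∨ s = ng t ∨ (s = ng t + 1 ∧ t ≠ .S) := by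
  cases t <;> simp only [fm, ng] at hs ⊢ <;> simp <;> omega

theorem cella_lt {t : Ty} {s : ℕ} (h : s < ng t) : cellaN t s = nm t s := if_pos h

theorem cella_bot (t : Ty) : cellaN t (ng t) = nT := by simp [cellaN]

theorem cella_top (t : Ty) : cellaN t (ng t + 1) = nU t := by simp [cellaN]

theorem cella_fa (t : Ty) {s : ℕ} (hs : s < fm t) (v : V) : fa t s v = B v (cellaN t s) := by
  rcases cella_cases t hs with h | rfl | ⟨rfl, -⟩
  · rw [fa_lt h, cella_lt h]
  · rw [fa_bot, cella_bot, B_nT]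
  · rw [fa_top, cella_top]
    simp [B, nU]
    ring

theorem cella_unit (t : Ty) {s : ℕ} (hs : s < fm t) : B (cellaN t s) (cellaN t s) = -1 := by
  rcases cella_cases t hs with h | rfl | ⟨rfl, -⟩
  · rw [cella_lt h]
    exact nm_unit t ⟨s, h⟩
  · rw [cella_bot]
    simp [B, nT]
  · rw [cella_top]
    simp [B, nU]

/-- Coxeter labels of mirrors and walls, for `i < j`. -/
def cellaL (t : Ty) (i j : ℕ) : ℕ :=
  if j < ng t then cox t i j else if j = ng t then (if i < 3 then 2 else 0)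
  else if i ≠ 2 ∧ i ≤ 3 then 2 else 0

/-- Four times the square of the cosine; `4` if nothing is claimed. -/
def cellaW (m : ℕ) : ℕ := if m = 2 then 0 else if m = 3 then 1 else if m = 6 then 3 else 4

theorem cella_gram (t : Ty) {i j : ℕ} (hij : i < j) (hj : j < fm t) :
    0 ≤ B (cellaN t i) (cellaN t j) ∧ (cellaW (cellaL t i j) < 4 →
      4 * B (cellaN t i) (cellaN t j) ^ 2 = cellaW (cellaL t i j)) := by
  have h4 : 3 < ng t := by cases t <;> decide
  rcases cella_cases t hj with h | rfl | ⟨rfl, hS⟩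
  · rw [cella_lt h, cella_lt (hij.trans h), cellaL, if_pos h]
    rcases gram t ⟨i, hij.trans h⟩ ⟨j, h⟩ (fun e => hij.ne (congrArg Fin.val e)) with
      ⟨h1, h2⟩ | ⟨h1, h2⟩
    · dsimp only at h1 h2
      refine ⟨by linarith, fun h3 => ?_⟩
      rw [h1] at h3
      exact absurd h3 (by decide)
    · dsimp only at h1 h2
      rw [h2]
      have h5 : (2 : ℝ) ≤ cox t i j := by exact_mod_cast h1
      refine ⟨Real.cos_nonneg_of_mem_Icc ⟨?_, ?_⟩, fun h3 => ?_⟩
      · have : 0 ≤ Real.pi / cox t i j := by positivity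
        linarith [Real.pi_pos]
      · exact div_le_div_of_nonneg_left Real.pi_pos.le (by norm_num) h5
      · unfold cellaW at h3 ⊢
        split_ifs at h3 ⊢ with a b c
        · rw [a]
          simp
        · rw [b, Nat.cast_ofNat, Real.cos_pi_div_three]
          norm_num
        · rw [c, Nat.cast_ofNat, Real.cos_pi_div_six, div_pow, Real.sq_sqrt (by norm_num)]
          norm_num
        · omega
  · rw [cella_bot, cella_lt hij, B_symm, cellaL, if_neg (lt_irrefl _), if_pos rfl]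
    rcases gram_nT t ⟨i, hij⟩ with ⟨h1, h2⟩ | ⟨h1, h2⟩
    · dsimp only at h1 h2
      rw [h2, if_pos h1]
      simp [cellaW]
    · dsimp only at h1 h2
      rw [if_neg (by omega)]
      exact ⟨by linarith, fun h3 => absurd h3 (by decide)⟩
  · rw [cella_top, cellaL, if_neg (by omega), if_neg (by omega)]
    rcases Nat.lt_succ_iff_lt_or_eq.1 hij with h | rfl
    · rw [cella_lt h, B_symm]
      rcases gram_nU t hS ⟨i, h⟩ with ⟨h1, h1', h2⟩ | ⟨h1, h2⟩
      · dsimp only at h1 h1' h2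
        rw [h2, if_pos ⟨h1, h1'⟩]
        simp [cellaW]
      · dsimp only at h1 h2
        rw [if_neg (by omega)]
        exact ⟨by linarith, fun h3 => absurd h3 (by decide)⟩
    · rw [cella_bot, if_neg (by omega)]
      exact ⟨by simp [B, nT, nU], fun h3 => absurd h3 (by decide)⟩

theorem cella_nonneg (t : Ty) {i j : ℕ} (hi : i < fm t) (hj : j < fm t) (h : i ≠ j) :
    0 ≤ B (cellaN t i) (cellaN t j) := by
  rcases lt_or_gt_of_ne h with h | h
  · exact (cella_gram t h hj).1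
  · rw [B_symm]
    exact (cella_gram t h hi).1

theorem cella_inner (t : Ty) : ∃ o : V, ∀ s < fm t, 0 < B o (cellaN t s) := by
  obtain ⟨o, -, h1, h2, h3⟩ := exists_inner t
  refine ⟨o, fun s hs => ?_⟩
  rw [← cella_fa t hs]
  rcases cella_cases t hs with h | rfl | ⟨rfl, -⟩
  · rw [fa_lt h]
    exact h1 ⟨s, h⟩
  · rwa [fa_bot]
  · rw [fa_top]
    linarith

/-- The three faces meet in a point. -/
def cellaOk (t : Ty) (i j k : ℕ) : Prop :=
  i < j ∧ j < k ∧ k < fm t ∧
    cellaW (cellaL t i j) + cellaW (cellaL t i k) + cellaW (cellaL t j k) < 4 ∧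
    cellaW (cellaL t i j) * cellaW (cellaL t i k) * cellaW (cellaL t j k) = 0

instance (t : Ty) (i j k : ℕ) : Decidable (cellaOk t i j k) := by
  unfold cellaOk
  infer_instance

theorem cella_vertex {t : Ty} {i j k : ℕ} (h : cellaOk t i j k) : ∃ v : V, ∀ s < fm t,
    0 ≤ fa t s v ∧ (fa t s v = 0 ↔ s = i ∨ s = j ∨ s = k) := by
  obtain ⟨hij, hjk, hk, hs, hp⟩ := h
  have hj := hjk.trans hk
  have hi := hij.trans hj
  obtain ⟨o, ho⟩ := cella_inner t
  obtain ⟨a0, a1⟩ := cella_gram t hij hj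
  obtain ⟨b0, b1⟩ := cella_gram t (hij.trans hjk) hk
  obtain ⟨c0, c1⟩ := cella_gram t hjk hk
  replace a1 := a1 (by omega)
  replace b1 := b1 (by omega)
  replace c1 := c1 (by omega)
  have ui := cella_unit t hi
  have uj := cella_unit t hj
  have uk := cella_unit t hk
  have hx := ho i hi
  have hy := ho j hj
  have hz := ho k hk
  have hs' : ((cellaW (cellaL t i j) : ℝ) + cellaW (cellaL t i k) + cellaW (cellaL t j k)) < 4 := by
    exact_mod_cast hs
  have hp' : ((cellaW (cellaL t i j) : ℝ) * cellaW (cellaL t i k) * cellaW (cellaL t j k)) = 0 := by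
    exact_mod_cast hp
  rw [← a1, ← b1, ← c1] at hs' hp'
  have sji := B_symm (cellaN t j) (cellaN t i)
  have ski := B_symm (cellaN t k) (cellaN t i)
  have skj := B_symm (cellaN t k) (cellaN t j)
  generalize ea : B (cellaN t i) (cellaN t j) = a at *
  generalize eb : B (cellaN t i) (cellaN t k) = b at *
  generalize ec : B (cellaN t j) (cellaN t k) = c at *
  generalize ex : B o (cellaN t i) = x at *
  generalize ey : B o (cellaN t j) = y at *
  generalize ez : B o (cellaN t k) = z at *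
  have habc : a * b * c = 0 := by
    have : (a * b * c) ^ 2 = 0 := by linear_combination hp' / 64
    exact pow_eq_zero_iff two_ne_zero |>.1 this
  have hD : 0 < 1 - a ^ 2 - b ^ 2 - c ^ 2 - 2 * (a * b * c) := by linarith
  have ha : 0 ≤ 1 - a ^ 2 := by nlinarith [sq_nonneg b, sq_nonneg c]
  have hb : 0 ≤ 1 - b ^ 2 := by nlinarith [sq_nonneg a, sq_nonneg c]
  have hc : 0 ≤ 1 - c ^ 2 := by nlinarith [sq_nonneg a, sq_nonneg b]
  refine ⟨(1 - a ^ 2 - b ^ 2 - c ^ 2 - 2 * (a * b * c)) • o +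
    ((1 - c ^ 2) * x + (a + b * c) * y + (b + a * c) * z) • cellaN t i +
    ((a + b * c) * x + (1 - b ^ 2) * y + (c + a * b) * z) • cellaN t j +
    ((b + a * c) * x + (c + a * b) * y + (1 - a ^ 2) * z) • cellaN t k, fun s hs => ?_⟩
  rw [cella_fa t hs, B_add, B_add, B_add, B_smul, B_smul, B_smul, B_smul]
  by_cases h : s = i ∨ s = j ∨ s = k
  · rw [iff_true_intro h, iff_true]
    refine (fun e : _ = (0 : ℝ) => ⟨e.ge, e⟩) ?_
    rcases h with rfl | rfl | rfl
    · rw [ex, ui, sji, ski]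
      ring
    · rw [ey, uj, ea, skj]
      ring
    · rw [ez, uk, eb, ec]
      ring
  · rw [iff_false_intro h, iff_false]
    refine (fun e : (0 : ℝ) < _ => ⟨e.le, e.ne'⟩) ?_
    have p0 := ho s hs
    have p1 := cella_nonneg t hi hs fun e => h (Or.inl e.symm)
    have p2 := cella_nonneg t hj hs fun e => h (Or.inr (Or.inl e.symm))
    have p3 := cella_nonneg t hk hs fun e => h (Or.inr (Or.inr e.symm))
    positivity

/-- The sign pattern of a vector. -/
def cellaP (t : Ty) (m : ℕ) (v : V) : Prop :=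
  ∀ s < fm t, 0 ≤ fa t s v ∧ (fa t s v = 0 ↔ m.testBit s = true)

theorem cella_pos {t : Ty} {m : ℕ} {v : V} (h : cellaP t m v)
    (hm : ¬(m.testBit 0 = true ∧ m.testBit 1 = true)) : 0 < v 3 := by
  have h4 : 3 < ng t := by cases t <;> decide
  have h5 : 4 < fm t := by cases t <;> decide
  obtain ⟨a0, a1⟩ := h 0 (by omega)
  obtain ⟨b0, b1⟩ := h 1 (by omega)
  have e : fa t 0 v + fa t 1 v = v 3 / 2 := by
    rw [fa_lt (by omega), fa_lt (by omega)]
    cases t <;> simp [nm, B]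
  by_contra h3
  exact hm ⟨a1.1 (by linarith), b1.1 (by linarith)⟩

theorem cella_smul {t : Ty} {m : ℕ} {v : V} (h : cellaP t m v) {r : ℝ} (hr : 0 < r) :
    cellaP t m (r • v) := fun s hs => by
  rw [map_smul, smul_eq_mul, mul_eq_zero, or_iff_right hr.ne']
  exact ⟨mul_nonneg hr.le (h s hs).1, (h s hs).2⟩

theorem cella_pinf (t : Ty) : cellaP t (zz t 257) pinf := by
  intro s hs
  have e : fa t s pinf = cellaN t s 3 / 2 := by
    rw [cella_fa t hs]
    simp [B, pinf]
  have h5 : 0 < r5 := by linarith [spec.r5_lo]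
  have h6 : 0 < r6 := by linarith [spec.r6_lo]
  have h3 : 0 < s3 := spec.s_pos
  have ho : 0 < om := by linarith [par_bounds.2.2.2.2.2.1]
  have key : ((zz t 257).testBit s = true ∧ cellaN t s 3 = 0) ∨
      ((zz t 257).testBit s = false ∧ 0 < cellaN t s 3) := by
    cases t <;> simp only [fm] at hs <;> interval_cases s <;>
      first
        | exact Or.inl ⟨by decide, by simp [cellaN, ng, nm, nT, nU]⟩
        | exact Or.inr ⟨by decide, by simp [cellaN, ng, nm, n5, eS] <;> positivity⟩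
  rw [e]
  rcases key with ⟨h1, h2⟩ | ⟨h1, h2⟩
  · simp [h1, h2]
  · rw [h1]
    exact ⟨by positivity, fun h => absurd h (by positivity), fun h => absurd h (by decide)⟩

theorem cella_af (t : Ty) : ∃ e f a b : ℝ, IsAf (tau t) e f 1 a b := by
  cases t
  · exact ⟨_, _, _, _, isAf_cj⟩
  · have h := (isAf_tr 0 hN).mul (isAf_Rx (1 / 2))
    rw [mul_one (1 : ℝ)] at h
    exact ⟨_, _, _, _, h⟩
  · exact ⟨_, _, _, _, isAf_tr 0 hM⟩

theorem cella_rho {w : V} (h0 : B w (nm .S 0) = 0) (h2 : B w (nm .S 2) = 0) (hT : B w nT = 0)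
    (h3 : w 3 = 2) : w = J (cst (1, 2, 2)) := by
  simp [B, nm, nT, h3] at h0 h2 hT
  ext i
  fin_cases i <;> simp [J, cst] <;> linarith

theorem cella_i {w : V} (h0 : B w (nm .S 1) = 0) (h2 : B w (nm .S 2) = 0) (hT : B w nT = 0)
    (h3 : w 3 = 1) : w = J (cst (0, 1, 1)) := by
  simp [B, nm, nT, h3] at h0 h2 hT
  ext i
  fin_cases i <;> simp [J, cst] <;> linarith

/-- The finite vertices with their faces. -/
def cellaV : Ty → List (ℕ × ℕ × ℕ × ℕ)
  | .S => [(349, 0, 2, 3), (353, 0, 2, 4), (359, 1, 2, 3), (367, 1, 2, 4)]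
  | .N => [(373, 0, 2, 3), (379, 0, 2, 4), (383, 0, 3, 5), (389, 1, 2, 3), (397, 1, 2, 4),
      (401, 1, 3, 5)]
  | .M => [(443, 0, 2, 4), (449, 0, 2, 7), (457, 0, 3, 5), (461, 0, 3, 8), (463, 0, 4, 5),
      (467, 1, 2, 6), (479, 1, 2, 7), (487, 1, 3, 6), (491, 1, 3, 8), (499, 2, 4, 5),
      (503, 2, 5, 6), (509, 3, 5, 6)]

/-- The wall vertices: two in the lower wall, two in the upper wall; the upper wall face. -/
def cellaX : Ty → ℕ × ℕ × ℕ × ℕ × ℕ
  | .S => (353, 367, 353, 367, 4)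
  | .N => (379, 397, 401, 383, 5)
  | .M => (449, 479, 461, 491, 8)

theorem cella_V (t : Ty) : ∀ e ∈ cellaV t, cellaOk t e.2.1 e.2.2.1 e.2.2.2 ∧
    (∀ s < fm t, (s = e.2.1 ∨ s = e.2.2.1 ∨ s = e.2.2.2) ↔ (zz t e.1).testBit s = true) ∧
    ¬((zz t e.1).testBit 0 = true ∧ (zz t e.1).testBit 1 = true) ∧ e.1 ≠ 257 := by
  cases t <;> decide +kernel

theorem cella_wall {t : Ty} {m : ℕ} {v : V} (h : cellaP t m v) :
    (∀ i : Fin 3, m.testBit i = true → B v (nm .S i) = 0) ∧
    (m.testBit (ng t) = true → B v nT = 0) ∧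
    (∀ i : Fin 3, m.testBit (up t i) = true → B ((tau t)⁻¹ v) (nm .S i) = 0) ∧
    (m.testBit (cellaX t).2.2.2.2 = true → B ((tau t)⁻¹ v) nT = 0) ∧ (tau t)⁻¹ v 3 = v 3 := by
  have hz : ∀ s < fm t, m.testBit s = true → B v (cellaN t s) = 0 := fun s hs hm => by
    rw [← cella_fa t hs]
    exact (h s hs).2.2 hm
  have e1 : tau t ((tau t)⁻¹ v) = v := (tau t).apply_symm_apply v
  have e2 : ∀ n, B ((tau t)⁻¹ v) n = B v (tau t n) := fun n => by
    rw [← (tau_mem t).1, e1]
  refine ⟨fun i hi => ?_, fun hi => ?_, fun i hi => ?_, fun hi => ?_, ?_⟩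
  · have h1 : (i : ℕ) < ng t ∧ (i : ℕ) < fm t := by clear hi; revert i; cases t <;> decide
    have h2 := hz i h1.2 hi
    rw [cella_lt h1.1] at h2
    fin_cases i <;> cases t <;> exact h2
  · rw [← cella_bot t]
    exact hz _ (by cases t <;> decide) hi
  · have h1 : up t i < ng t ∧ up t i < fm t := by clear hi; revert i; cases t <;> decide
    rw [e2, tau_nm, ← cella_lt h1.1]
    exact hz _ h1.2 hi
  · rw [e2, tau_nT, B_neg', neg_eq_zero]
    have h2 := hz _ (by cases t <;> decide) hi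
    cases t <;> exact h2
  · obtain ⟨e, f, a, b, -, -, -, h1⟩ := cella_af t
    conv_rhs => rw [← e1, h1]
    simp [afv]

theorem cella_all (t : Ty) (x : ℕ) (hx : x = 257 ∨ x ∈ (cellaV t).map Prod.fst) : ∃ v : V,
    cellaP t (zz t x) v ∧ (x = 257 → v = pinf) ∧ (x = (cellaX t).1 → v = J (cst (1, 2, 2))) ∧
    (x = (cellaX t).2.1 → v = J (cst (0, 1, 1))) ∧
    (x = (cellaX t).2.2.1 → v = tau t (J (cst (1, 2, 2)))) ∧
    (x = (cellaX t).2.2.2.1 → v = tau t (J (cst (0, 1, 1)))) := by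
  rcases hx with rfl | hx
  · refine ⟨pinf, cella_pinf t, fun _ => rfl, ?_, ?_, ?_, ?_⟩ <;>
      exact fun h => absurd h (by cases t <;> decide)
  · obtain ⟨e, he, rfl⟩ := List.mem_map.1 hx
    obtain ⟨h1, h2, h3, h4⟩ := cella_V t e he
    obtain ⟨v, hv⟩ := cella_vertex h1
    have hP : cellaP t (zz t e.1) v := fun s hs => ⟨(hv s hs).1, (hv s hs).2.trans (h2 s hs)⟩
    have h5 := cella_pos hP h3
    obtain ⟨w, hw, w3⟩ : ∃ w : V, cellaP t (zz t e.1) w ∧
        w 3 = if e.1 = (cellaX t).1 ∨ e.1 = (cellaX t).2.2.1 then 2 else 1 := by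
      refine ⟨_, cella_smul hP (r := (if e.1 = (cellaX t).1 ∨ e.1 = (cellaX t).2.2.1 then 2
        else 1) / v 3) (div_pos (by split_ifs <;> norm_num) h5), ?_⟩
      rw [Pi.smul_apply, smul_eq_mul, div_mul_cancel₀ _ h5.ne']
    obtain ⟨a1, a2, a3, a4, a5⟩ := cella_wall hw
    have e1 : tau t ((tau t)⁻¹ w) = w := (tau t).apply_symm_apply w
    refine ⟨w, hw, fun h => absurd h h4, fun h => ?_, fun h => ?_, fun h => ?_, fun h => ?_⟩
    · rw [if_pos (Or.inl h)] at w3
      rw [h] at a1 a2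
      exact cella_rho (a1 0 (by cases t <;> decide)) (a1 2 (by cases t <;> decide))
        (a2 (by cases t <;> decide)) w3
    · rw [if_neg (by rw [h]; cases t <;> decide)] at w3
      rw [h] at a1 a2
      exact cella_i (a1 1 (by cases t <;> decide)) (a1 2 (by cases t <;> decide))
        (a2 (by cases t <;> decide)) w3
    · rw [if_pos (Or.inr h)] at w3
      rw [h] at a3 a4
      rw [← cella_rho (a3 0 (by cases t <;> decide)) (a3 2 (by cases t <;> decide))
        (a4 (by cases t <;> decide)) (a5.trans w3), e1]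
    · rw [if_neg (by rw [h]; cases t <;> decide)] at w3
      rw [h] at a3 a4
      rw [← cella_i (a3 1 (by cases t <;> decide)) (a3 2 (by cases t <;> decide))
        (a4 (by cases t <;> decide)) (a5.trans w3), e1]

/-- The vertices of a cell. -/
def cellaS (t : Ty) (u : ℕ) : List ℕ := ((vs t).lookup u).getD []

theorem cella_sum {t : Ty} {c : ℕ → V} {s : ℕ} (hs : s < fm t) : ∀ l : List ℕ,
    (∀ x ∈ l, cellaP t (zz t x) (c x)) → 0 ≤ fa t s (l.map c).sum ∧
      (fa t s (l.map c).sum = 0 ↔ ∀ x ∈ l, (zz t x).testBit s = true)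
  | [], _ => by simp
  | x :: l, h => by
    obtain ⟨h1, h2⟩ := cella_sum hs l fun y hy => h y (List.mem_cons_of_mem _ hy)
    obtain ⟨h3, h4⟩ := h x List.mem_cons_self s hs
    rw [List.map_cons, List.sum_cons, map_add, List.forall_mem_cons, ← h2, ← h4]
    exact ⟨add_nonneg h3 h1, add_eq_zero_iff_of_nonneg h3 h1⟩

/-- The integral vector of a vertex of a wall. -/
def cellaZ (r x : ℕ) : Z3 := if x = 257 then (0, 1, 0) else if x = r then (1, 2, 2) else (0, 1, 1)

theorem cella_wsum {c : ℕ → V} (T : GV) {r i : ℕ} (h0 : c 257 = pinf) (hT : T pinf = pinf)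
    (hr : c r = T (J (cst (1, 2, 2)))) (hi : c i = T (J (cst (0, 1, 1)))) : ∀ l : List ℕ,
    (∀ x ∈ l, x = 257 ∨ x = r ∨ x = i) →
      (l.map c).sum = T (J (cst (l.map (cellaZ r)).sum))
  | [], _ => by
    have : J (cst 0) = 0 := by
      ext k
      fin_cases k <;> simp [J, cst]
    simp [this]
  | x :: l, h => by
    have e : ∀ a b : Z3, J (cst (a + b)) = J (cst a) + J (cst b) := fun a b => by
      ext k
      fin_cases k <;> simp [J, cst]
    rw [List.map_cons, List.sum_cons, List.map_cons, List.sum_cons, e, map_add,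
      cella_wsum T h0 hT hr hi l fun y hy => h y (List.mem_cons_of_mem _ hy)]
    congr 1
    unfold cellaZ
    split_ifs with a b
    · rw [a, h0, ← hT]
      congr 1
      ext k
      fin_cases k <;> simp [J, cst, pinf]
    · rw [b, hr]
    · rcases h x List.mem_cons_self with e | e | e
      · exact absurd e a
      · exact absurd e b
      · rw [e, hi]

theorem cella_tab (t : Ty) :
    (∀ u ∈ cs t, (∀ x ∈ cellaS t u, x = 257 ∨ x ∈ (cellaV t).map Prod.fst) ∧
      (∀ s < fm t, (∀ x ∈ cellaS t u, (zz t x).testBit s = true) ↔ (zz t u).testBit s = true) ∧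
      (u ≠ 257 → ¬((zz t u).testBit 0 = true ∧ (zz t u).testBit 1 = true))) ∧
    cellaS t 257 = [257] ∧
    (∀ e ∈ wcb t, (∀ x ∈ cellaS t e.1, x = 257 ∨ x = (cellaX t).1 ∨ x = (cellaX t).2.1) ∧
      ((cellaS t e.1).map (cellaZ (cellaX t).1)).sum = e.2) ∧
    (∀ e ∈ wct t, (∀ x ∈ cellaS t e.1, x = 257 ∨ x = (cellaX t).2.2.1 ∨ x = (cellaX t).2.2.2.1) ∧
      ((cellaS t e.1).map (cellaZ (cellaX t).2.2.1)).sum = e.2) ∧
    (cellaX t).1 ∈ (cellaV t).map Prod.fst ∧ (cellaX t).2.1 ∈ (cellaV t).map Prod.fst ∧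
    (cellaX t).2.2.1 ∈ (cellaV t).map Prod.fst ∧ (cellaX t).2.2.2.1 ∈ (cellaV t).map Prod.fst := by
  cases t <;> decide +kernel

theorem exists_ctr (t : Ty) : ∃ c, Ctr t c := by
  choose! c c1 c2 c3 c4 c5 c6 using cella_all t
  obtain ⟨t1, t2, t3, t4, m1, m2, m3, m4⟩ := cella_tab t
  have h0 : c 257 = pinf := c2 257 (Or.inl rfl) rfl
  have hP : ∀ u ∈ cs t, cellaP t (zz t u) ((cellaS t u).map c).sum := fun u hu s hs => by
    obtain ⟨h1, h2⟩ := cella_sum hs (cellaS t u) fun x hx => c1 x ((t1 u hu).1 x hx)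
    exact ⟨h1, h2.trans ((t1 u hu).2.1 s hs)⟩
  refine ⟨fun u => ((cellaS t u).map c).sum, hP, fun u hu h => cella_pos (hP u hu)
    ((t1 u hu).2.2 h), ?_, fun e he => ?_, fun e he => ?_⟩
  · simp [t2, h0]
  · rw [← (t3 e he).2]
    exact cella_wsum 1 h0 rfl (c3 _ (Or.inr m1) rfl) (c4 _ (Or.inr m2) rfl) _ (t3 e he).1
  · obtain ⟨e', f, a, b, h1⟩ := cella_af t
    rw [← (t4 e he).2]
    exact cella_wsum (tau t) h0 (by rw [h1.pinf, one_smul]) (c5 _ (Or.inr m3) rfl)
      (c6 _ (Or.inr m4) rfl) _ (t4 e he).1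

theorem cellb_ht (t : Ty) : 0 < ht t := by
  cases t
  · exact one_half_pos
  · exact lt_trans (by norm_num) par_bounds.2.1.1
  · exact lt_trans (by norm_num) spec.h_lo

theorem cellb_0 (t : Ty) (v : V) : fa t 0 v = v 3 / 2 - v 0 := by
  rw [fa_lt (by have := (cellb_ng t).1; omega)]
  cases t <;> simp [B, nm]

theorem cellb_1 (t : Ty) (v : V) : fa t 1 v = v 0 := by
  rw [fa_lt (by have := (cellb_ng t).1; omega)]
  cases t <;> simp [B, nm]

/-- A point of the closed cone of height at most zero is a multiple of the cusp vector. -/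
theorem cellb_inf {t : Ty} {r : V} (h : ∀ s < fm t, 0 ≤ fa t s r) (h3 : ¬ 0 < r 3) :
    r = r 2 • pinf := by
  obtain ⟨g0, g1, -, -⟩ := cellb_ng t
  have h0 := h 0 (by omega)
  have h1 := h 1 (by omega)
  obtain ⟨-, h4, h5⟩ := cellb_cone.1 h
  rw [cellb_0] at h0
  rw [cellb_1] at h1
  have e3 : r 3 = 0 := by linarith
  have e0 : r 0 = 0 := by linarith
  rw [e3, mul_zero] at h5
  have e1 : r 1 = 0 := le_antisymm h5 h4
  funext i
  fin_cases i <;> simp [pinf, e0, e1, e3]

theorem cellb_pos {t : Ty} {r c : V} (h : ∀ s < fm t, 0 ≤ fa t s r) (h3 : 0 < r 3)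
    (hc : 0 ≤ B c c) (hc' : 0 < c 2 + c 3) : B r c ≠ 0 := by
  have h1 := disc_cover t (v := r) ⟨h3, cellb_cone.1 h⟩
  have h2 : 0 < B r r := by nlinarith
  have h4 := B_pos_causal (smul_mem_HH h2 h3) hc hc'
  intro e
  rw [B_smul, e, mul_zero] at h4
  exact lt_irrefl _ h4

theorem cellb_pair {t : Ty} {r n n' : V} (h : ∀ s < fm t, 0 ≤ fa t s r) (hn : B n n = -1)
    (hn' : B n' n' = -1) (hb : 1 ≤ B n n') (hf : 0 < n 2 + n 3 + (n' 2 + n' 3)) (e : B r n = 0)
    (e' : B r n' = 0) : ¬ 0 < r 3 := fun h3 => by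
  refine cellb_pos (c := n + n') h h3 ?_ ?_ ?_
  · rw [B_add, B_add', B_add', hn, hn', B_symm n' n]
    linarith
  · rw [Pi.add_apply, Pi.add_apply]
    linarith
  · rw [B_add', e, e', add_zero]

theorem cellb_three {t : Ty} {s : ℕ} (h2 : 2 ≤ s) (h : t = .S → s = 2) : 0 < nm t s 3 := by
  have h5 : 0 < r5 := lt_trans (by norm_num) spec.r5_lo
  have h6 : 0 < r6 := lt_trans (by norm_num) spec.r6_lo
  have h3 : 0 < s3 := spec.s_pos
  have ho : 0 < om := lt_trans (by norm_num) par_bounds.2.2.2.2.2.1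
  match t, s, h2, h with
  | .S, _, _, h => simp [h rfl, nm]
  | .N, 2, _, _ => simp [nm]
  | .N, _ + 3, _, _ => simp [nm]
  | .M, 2, _, _ => simp [nm]
  | .M, 3, _, _ => simp [nm]
  | .M, 4, _, _ =>
    simp [nm, n5, eS]
    positivity
  | .M, 5, _, _ => simp [nm, n5, h5]
  | .M, _ + 6, _, _ => simp [nm, h6]

theorem cellb_dead (t : Ty) : ∀ N ∈ dead t,
    (∃ s : Fin (ng t), 2 ≤ s.1 ∧ (t = .S → s.1 = 2) ∧ N.testBit s = true) ∧
    ((∃ i j : Fin (ng t), i ≠ j ∧ cox t i j = 0 ∧ i.1 ≠ 1 ∧ i.1 ≠ 2 ∧ N.testBit i = true ∧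
        N.testBit j = true) ∨
      (∃ i : Fin (ng t), 3 ≤ i.1 ∧ N.testBit i = true ∧ N.testBit (ng t) = true) ∨
      (∃ i : Fin (ng t), t ≠ .S ∧ (i.1 = 2 ∨ 3 < i.1) ∧ N.testBit i = true ∧
        N.testBit (ng t + 1) = true) ∨ (t = .M ∧ N = 37)) := by
  cases t <;> decide +kernel

theorem cellb_cos {i j : Fin (ng .M)} {m : ℕ} (h : i ≠ j) (e : cox .M i j = m + 1) :
    B (nm .M i) (nm .M j) = Real.cos (Real.pi / (m + 1 : ℕ)) := by
  rcases gram .M i j h with k | k
  · omega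
  · rw [k.2, e]

theorem cellb_37 {r : V} (h : ∀ s < fm .M, 0 ≤ fa .M s r) (e0 : B r (nm .M 0) = 0)
    (e2 : B r (nm .M 2) = 0) (e5 : B r (nm .M 5) = 0) : ¬ 0 < r 3 := fun h3 => by
  have u0 : B (nm .M 0) (nm .M 0) = -1 := nm_unit .M ⟨0, by decide⟩
  have u2 : B (nm .M 2) (nm .M 2) = -1 := nm_unit .M ⟨2, by decide⟩
  have u5 : B (nm .M 5) (nm .M 5) = -1 := nm_unit .M ⟨5, by decide⟩
  have g02 : B (nm .M 0) (nm .M 2) = _ :=
    cellb_cos (i := ⟨0, by decide⟩) (j := ⟨2, by decide⟩) (m := 2) (by decide) rfl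
  have g05 : B (nm .M 0) (nm .M 5) = _ :=
    cellb_cos (i := ⟨0, by decide⟩) (j := ⟨5, by decide⟩) (m := 2) (by decide) rfl
  have g25 : B (nm .M 2) (nm .M 5) = _ :=
    cellb_cos (i := ⟨2, by decide⟩) (j := ⟨5, by decide⟩) (m := 5) (by decide) rfl
  have f0 : 0 < nm .M 0 2 + nm .M 0 3 := nm_future' .M ⟨0, by decide⟩ (by decide) (by decide)
  have f2 : 0 ≤ nm .M 2 2 + nm .M 2 3 := nm_future .M ⟨2, by decide⟩
  have f5 : 0 ≤ nm .M 5 2 + nm .M 5 3 := nm_future .M ⟨5, by decide⟩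
  have hs : 1.73205 < √3 := par_bounds.1.1
  norm_num at g02 g05 g25
  refine cellb_pos (c := nm .M 0 + (2 : ℝ) • (nm .M 2 + nm .M 5)) h h3 ?_ ?_ ?_
  · simp only [B_add, B_add', B_smul, B_smul', B_symm (nm .M 2) (nm .M 0),
      B_symm (nm .M 5) (nm .M 0), B_symm (nm .M 5) (nm .M 2), u0, u2, u5, g02, g05, g25]
    linarith
  · simp only [Pi.add_apply, Pi.smul_apply, smul_eq_mul]
    linarith
  · rw [B_add', B_smul', B_add', e0, e2, e5]
    norm_num

theorem dead_spec (t : Ty) : ∀ N ∈ dead t, ∀ r : V, (∀ s < fm t, 0 ≤ fa t s r) →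
    (∀ s < fm t, N.testBit s = true → fa t s r = 0) → r = 0 := by
  intro N hN r h hz
  obtain ⟨g0, g1, -, g3⟩ := cellb_ng t
  obtain ⟨⟨s, s1, s2, s3⟩, k⟩ := cellb_dead t N hN
  have z : ∀ i : Fin (ng t), N.testBit i = true → B r (nm t i) = 0 := fun i hi =>
    fa_lt i.2 r ▸ hz i (i.2.trans g1) hi
  have h3 : ¬ 0 < r 3 := by
    rcases k with ⟨i, j, k1, k2, k3, k4, k5, k6⟩ | ⟨i, k1, k2, k3⟩ | ⟨i, k1, k2, k3, k4⟩ | ⟨rfl, rfl⟩
    · refine cellb_pair h (nm_unit t i) (nm_unit t j) ?_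
        (add_pos_of_pos_of_nonneg (nm_future' t i k3 k4) (nm_future t j)) (z i k5) (z j k6)
      exact (gram t i j k1).elim (·.2) fun k => by omega
    · refine cellb_pair (n := nT) h (by simp [B, nT]) (nm_unit t i) ?_ ?_ ?_ (z i k2)
      · exact (gram_nT t i).elim (fun k => by omega) (·.2)
      · simpa [nT] using nm_future' t i (by omega) (by omega)
      · rw [← hz _ g1 k3, fa_bot]
        simp [B, nT]
    · refine cellb_pair (n := nU t) h (by simp [B, nU]) (nm_unit t i) ?_ ?_ ?_ (z i k3)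
      · exact (gram_nU t k1 i).elim (fun k => by omega) (·.2.le)
      · refine add_pos_of_pos_of_nonneg ?_ (nm_future t i)
        simpa [nU] using cellb_ht t
      · rw [← hz (ng t + 1) (by have := g3 k1; omega) k4, fa_top]
        simp [B, nU]
        ring
    · exact cellb_37 h (z ⟨0, by decide⟩ (by decide)) (z ⟨2, by decide⟩ (by decide))
        (z ⟨5, by decide⟩ (by decide))
  have e := cellb_inf h h3
  have e2 := z s s3
  rw [e, B_smul] at e2
  have e3 : B pinf (nm t s) = nm t s 3 / 2 := by simp [B, pinf]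
  have e4 := cellb_three s1 s2
  rw [e, (mul_eq_zero.1 e2).resolve_right (by rw [e3]; positivity), zero_smul]

theorem cellb_mask (t : Ty) : ∀ N ∈ inf t, (N.testBit 0 = true ∧ N.testBit 1 = true) ∨
    (N.testBit (ng t) = true ∧ ((t = .S ∧ N.testBit 3 = true) ∨
      (t ≠ .S ∧ N.testBit (ng t + 1) = true))) := by
  cases t <;> decide +kernel

theorem cellb_cusp (t : Ty) : 257 ∈ cs t := by
  cases t <;> decide +kernel

theorem inf_spec (t : Ty) : ∀ N ∈ inf t, ∀ r : V, (∀ s < fm t, 0 ≤ fa t s r) →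
    (∀ s < fm t, N.testBit s = true → fa t s r = 0) →
      ∀ s < fm t, (zz t 257).testBit s = true → fa t s r = 0 := by
  intro N hN r h hz s hs hb
  obtain ⟨g0, g1, -, g3⟩ := cellb_ng t
  have h3 : ¬ 0 < r 3 := fun h3 => by
    rcases cellb_mask t N hN with ⟨k0, k1⟩ | ⟨k0, k1⟩
    · have e0 := hz 0 (by omega) k0
      have e1 := hz 1 (by omega) k1
      rw [cellb_0] at e0
      rw [cellb_1] at e1
      linarith
    · have e0 := hz _ g1 k0
      have e1 : ht t * r 3 - r 1 = 0 := by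
        rcases k1 with ⟨rfl, k1⟩ | ⟨e, k1⟩
        · exact cellb_S r ▸ hz 3 (by decide) k1
        · exact fa_top t r ▸ hz _ (by have := g3 e; omega) k1
      rw [fa_bot] at e0
      have := mul_pos (cellb_ht t) h3
      linarith
  obtain ⟨c, hc⟩ := exists_ctr t
  rw [cellb_inf h h3, map_smul, ← hc.cusp, (hc.pat 257 (cellb_cusp t) s hs).2.2 hb, smul_zero]

def ctr (t : Ty) : ℕ → V := (exists_ctr t).choose

theorem ctr_spec (t : Ty) : Ctr t (ctr t) := (exists_ctr t).choose_spec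

/-- The centres, with the vector of the cusp scaled by `σ`. -/
def cc (t : Ty) (σ : ℕ) (u : ℕ) : V := if u = 257 then (σ : ℝ) • pinf else ctr t u

theorem cs_lab (t : Ty) : ∀ u ∈ cs t, Lab u := by
  unfold Lab
  cases t <;> decide +kernel

theorem cs_nodup (t : Ty) : (cs t).Nodup := by
  cases t <;> decide +kernel

theorem fsts_zt (t : Ty) : fsts (zt t) = cs t := by
  cases t <;> rfl

theorem cc_pat (t : Ty) {σ : ℕ} (hσ : 0 < σ) : ∀ u ∈ cs t, ∀ s < fm t,
    0 ≤ fa t s (cc t σ u) ∧ (fa t s (cc t σ u) = 0 ↔ (zz t u).testBit s = true) := by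
  intro u hu s hs
  have h := (ctr_spec t).pat u hu s hs
  unfold cc
  split_ifs with e
  · have h0 : (0 : ℝ) < σ := Nat.cast_pos.2 hσ
    rw [e, (ctr_spec t).cusp] at h
    rw [e, map_smul, smul_eq_mul, mul_eq_zero, or_iff_right h0.ne']
    exact ⟨mul_nonneg h0.le h.1, h.2⟩
  · exact h

theorem cellb_ok (t : Ty) : polyOk (fm t) (cs t) (zz t) (ch t) (dead t) (inf t) = true := by
  cases t <;> decide +kernel

theorem cellb_ch (t : Ty) : ∀ n ∈ ch t, (cs t).prod % n = 0 := by
  cases t <;> decide +kernel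

theorem tile (t : Ty) {σ : ℕ} (hσ : 0 < σ) : ∃ Ψ : V → ℕ → ℝ, Continuous Ψ ∧
    Bij (cen (cs t) (cc t σ)) Ψ (Cn (ch t)) (PC t) := by
  rw [PC_eq]
  refine poly (cellb_ok t) (cs_lab t) (cs_nodup t) (fa t) _ (cc_pat t hσ) (dead_spec t)
    (inf_spec t) (fun u hu e => ?_) ?_
  · rw [cc, if_neg e]
    exact (ctr_spec t).pos u hu e
  · simp [cc, pinf]

/-- A face vanishes at a point exactly if it contains all cells of the support. -/
theorem tile_zero (t : Ty) {σ : ℕ} (hσ : 0 < σ) {w : ℕ → ℝ} (hw : w ∈ Cn (ch t)) {s : ℕ}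
    (hs : s < fm t) : fa t s (cen (cs t) (cc t σ) w) = 0 ↔
      ∀ u, w u ≠ 0 → (zz t u).testBit s = true := by
  obtain ⟨h0, -, n, hn, hS⟩ := hw
  have mem : ∀ u, w u ≠ 0 → u ∈ cs t := fun u hu => by
    obtain ⟨x, hx, e⟩ := (hS u hu).1.1.prime.dvd_prod_iff.1
      ((hS u hu).2.trans (Nat.dvd_of_mod_eq_zero (cellb_ch t n hn)))
    exact (Nat.prime_dvd_prime_iff_eq (hS u hu).1.1 (cs_lab t x hx).1).1 e ▸ hx
  rw [cen_zero h0 fun u hu => (cc_pat t hσ u hu s hs).1]
  exact ⟨fun h u hu => (cc_pat t hσ u (mem u hu) s hs).2.1 (h u (mem u hu) hu),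
    fun h u hu hw => (cc_pat t hσ u hu s hs).2.2 (h u hw)⟩

end Pool.Agent.Lib.MP_36248f_gt.Tp
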