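import Pool.Agent.Lib.MP_36248f_gt.Tp.Seg
import Pool.Agent.Lib.MP_36248f_gt.Tp.Emb
import Pool.Agent.Lib.MP_36248f_gt.Defs

/-!
A complex that moves to the boundary of the four-simplex is the sphere, and a full subcomplex
that moves to the boundary of a triangle is a knot.
-/

set_option autoImplicit false

noncomputable section

namespace Pool.Agent.Lib.MP_36248f_gt.Tp

open Set

/-- `KE` is the list of the edges of the full subcomplex of `X` on the labels `KL`. -/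
def subOk (KL X : List ℕ) (KE : List (ℕ × ℕ)) : Bool :=
  frc (prd KL) fun PK => frcL (KE.map fun e => e.1 * e.2) fun E =>
    cnd (labs (257 :: KL) PR) (cnd (KE.all fun e => e.1 ∈ KL && e.2 ∈ KL && e.1 != e.2)
      (cnd (allL (fun e => anyL (dv e) X) E)
        (allL (fun n => cnd (dv 257 n) false (frc (Nat.gcd n PK) fun x => anyL (dv x) E)) X)
        false) false) false

def triOk (KE : List (ℕ × ℕ)) (q : Prog) (b0 b1 b2 : ℕ) (D : List ℕ) : Bool :=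
  labs [257, b0, b1, b2] PR && chk q (KE.map fun e => e.1 * e.2) D &&
  D.all (fun n => n ∈ [b1 * b2, b0 * b2, b0 * b1]) && [b1 * b2, b0 * b2, b0 * b1].all fun n => n ∈ D

def simOk (a0 a1 a2 a3 a4 : ℕ) (D : List ℕ) : Bool :=
  labs [257, a0, a1, a2, a3, a4] PR &&
  D.all (fun n => n ∈ [a1 * a2 * a3 * a4, a0 * a2 * a3 * a4, a0 * a1 * a3 * a4, a0 * a1 * a2 * a4,
    a0 * a1 * a2 * a3]) &&
  [a1 * a2 * a3 * a4, a0 * a2 * a3 * a4, a0 * a1 * a3 * a4, a0 * a1 * a2 * a4,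
    a0 * a1 * a2 * a3].all fun n => n ∈ D

/-- The weights that live on a set of labels. -/
def sph_Z (l : List ℕ) : Set (ℕ → ℝ) := {w | ∀ u, w u ≠ 0 → u ∈ l}

/-- The cone over the boundary of the simplex with vertices `l`. -/
def sph_C (l : List ℕ) : Set (ℕ → ℝ) :=
  {w | (∀ u, 0 ≤ w u) ∧ (∀ u, w u ≠ 0 → u ∈ l) ∧ (∃ u, w u ≠ 0) ∧ ∃ u ∈ l, w u = 0}

theorem sph_Z_closed (l : List ℕ) : IsClosed (sph_Z l) := by
  have : sph_Z l = ⋂ u ∈ {u | u ∉ l}, {w : ℕ → ℝ | w u = 0} := by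
    ext w
    simp only [sph_Z, mem_iInter, mem_ofPred_eq]
    exact forall_congr' fun u => not_imp_comm
  rw [this]
  exact isClosed_biInter fun u _ => isClosed_eq (continuous_apply u) continuous_const

theorem sph_Z_smul {l : List ℕ} {c : ℝ} (hc : 0 < c) {w : ℕ → ℝ} : c • w ∈ sph_Z l ↔ w ∈ sph_Z l := by
  simp [sph_Z, hc.ne']

theorem sph_cn {l X : List ℕ} (hl : ∀ u ∈ l, Lab u ∧ u ≠ 257) (h1 : ∀ n ∈ X, ∃ u ∈ l, ¬ u ∣ n)
    (h2 : ∀ u ∈ l, ∃ n ∈ X, ∀ v ∈ l, v ≠ u → v ∣ n) : Cn X ∩ sph_Z l = sph_C l := by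
  ext w
  constructor
  · rintro ⟨⟨a, ⟨u, -, hu⟩, n, hn, hs⟩, hz⟩
    obtain ⟨v, hv, e⟩ := h1 n hn
    exact ⟨a, hz, ⟨u, hu⟩, v, hv, by_contra fun h => e (hs v h).2⟩
  · rintro ⟨a, hz, ⟨u, hu⟩, v, hv, e⟩
    obtain ⟨n, hn, hd⟩ := h2 v hv
    exact ⟨⟨a, ⟨u, (hl u (hz u hu)).2, hu⟩, n, hn, fun t ht =>
      ⟨(hl t (hz t ht)).1, hd t (hz t ht) fun h => ht (h ▸ e)⟩⟩, hz⟩

theorem sph_simplex {n : ℕ} (b : Fin (n + 1) → ℕ) (hb : Function.Injective b) {V : Type}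
    [NormedAddCommGroup V] [NormedSpace ℝ V] (e : V ≃L[ℝ] (Fin n → ℝ)) :
    ∃ (T : (ℕ → ℝ) →ₗ[ℝ] V) (S : V → ℕ → ℝ), Continuous T ∧ Continuous S ∧
      Bij T S (sph_C (List.ofFn b)) {0}ᶜ := by
  classical
  let T0 : (ℕ → ℝ) →ₗ[ℝ] (Fin n → ℝ) :=
    { toFun := fun w i => w (b i.succ) - w (b 0)
      map_add' := fun w w' => funext fun i => by simp only [Pi.add_apply]; ring
      map_smul' := fun c w => funext fun i => by
        simp only [Pi.smul_apply, smul_eq_mul, RingHom.id_apply]; ring }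
  have T0a : ∀ w i, T0 w i = w (b i.succ) - w (b 0) := fun _ _ => rfl
  let x : (Fin n → ℝ) → Fin (n + 1) → ℝ := fun y => Fin.cons 0 y
  have xc : ∀ j, Continuous fun y => x y j := fun j => by
    refine Fin.cases ?_ (fun i => ?_) j
    · exact continuous_const
    · exact continuous_apply i
  let m : (Fin n → ℝ) → ℝ := fun y => Finset.univ.sup' Finset.univ_nonempty fun j => -x y j
  have m1 : ∀ y j, -x y j ≤ m y := fun y j =>
    Finset.le_sup' (fun j => -x y j) (Finset.mem_univ j)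
  have m2 : ∀ y, ∃ j, m y = -x y j := fun y => by
    obtain ⟨j, -, h⟩ := Finset.exists_mem_eq_sup' Finset.univ_nonempty fun j => -x y j
    exact ⟨j, h⟩
  have mc : Continuous m := Continuous.finset_sup'_apply _ fun j _ => (xc j).neg
  let S0 : (Fin n → ℝ) → ℕ → ℝ := fun y u => ∑ j, if u = b j then x y j + m y else 0
  have S1 : ∀ y j, S0 y (b j) = x y j + m y := fun y j => by
    simp [S0, hb.eq_iff]
  have S2 : ∀ y u, u ∉ List.ofFn b → S0 y u = 0 := fun y u h =>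
    Finset.sum_eq_zero fun j _ => if_neg fun e => h (List.mem_ofFn.2 ⟨j, e.symm⟩)
  have Sc : Continuous S0 := continuous_pi fun u => continuous_finsetSum _ fun j _ => by
    split_ifs
    · exact (xc j).add mc
    · exact continuous_const
  have TS : ∀ y, T0 (S0 y) = y := fun y => funext fun i => by
    rw [T0a, S1, S1]
    simp [x]
  have xT : ∀ w j, x (T0 w) j = w (b j) - w (b 0) := fun w j => by
    refine Fin.cases ?_ (fun i => rfl) j
    simp [x]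
  have ST : ∀ w ∈ sph_C (List.ofFn b), S0 (T0 w) = w := by
    rintro w ⟨a, hz, -, v, hv, e⟩
    obtain ⟨j, rfl⟩ := List.mem_ofFn.1 hv
    have hm : m (T0 w) = w (b 0) := by
      obtain ⟨i, hi⟩ := m2 (T0 w)
      have h1 := m1 (T0 w) j
      have h2 := a (b i)
      rw [xT] at hi h1
      linarith
    funext u
    by_cases hu : u ∈ List.ofFn b
    · obtain ⟨i, rfl⟩ := List.mem_ofFn.1 hu
      rw [S1, xT, hm, sub_add_cancel]
    · rw [S2 _ _ hu]
      exact (by_contra fun h => hu (hz u h) : w u = 0).symm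
  have S00 : S0 0 = 0 := by
    have h0 : ∀ j, x 0 j = 0 := fun j => Fin.cases rfl (fun _ => rfl) j
    obtain ⟨i, hi⟩ := m2 0
    funext u
    simp [S0, h0, hi]
  refine ⟨(e.symm : (Fin n → ℝ) →ₗ[ℝ] V).comp T0, S0 ∘ e, e.symm.continuous.comp
    (continuous_pi fun i => (continuous_apply _).sub (continuous_apply _)), Sc.comp e.continuous,
    fun w hw h => ?_, fun y hy => ⟨fun u => ?_, fun u hu => by_contra fun h => hu (S2 _ _ h), ?_, ?_⟩,
    fun w hw => ?_, fun y _ => ?_⟩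
  · have h1 : T0 w = 0 := e.symm.injective (h.trans (map_zero _).symm)
    have h2 := ST w hw
    obtain ⟨u, hu⟩ := hw.2.2.1
    rw [h1, S00] at h2
    exact hu (by rw [← h2]; rfl)
  · by_cases hu : u ∈ List.ofFn b
    · obtain ⟨i, rfl⟩ := List.mem_ofFn.1 hu
      have := m1 (e y) i
      rw [Function.comp_apply, S1]
      linarith
    · exact (S2 _ _ hu).ge
  · by_contra h
    have h1 : S0 (e y) = 0 := funext fun u => by_contra fun h' => h ⟨u, h'⟩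
    have h2 := TS (e y)
    rw [h1, map_zero] at h2
    exact hy (e.injective (h2.symm.trans (map_zero e).symm))
  · obtain ⟨i, hi⟩ := m2 (e y)
    exact ⟨b i, List.mem_ofFn.2 ⟨i, rfl⟩, by rw [Function.comp_apply, S1, hi, add_neg_cancel]⟩
  · change S0 (e (e.symm (T0 w))) = w
    rw [e.apply_symm_apply, ST w hw]
  · change e.symm (T0 (S0 (e y))) = y
    rw [TS, e.symm_apply_apply]

theorem sph_seg {a b : ℕ} (hab : a ≠ b) {w : ℕ → ℝ} :
    w ∈ seg (Pi.single a 1 : ℕ → ℝ) (Pi.single b 1) ↔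
      (∀ u, 0 ≤ w u) ∧ (∀ u, w u ≠ 0 → u = a ∨ u = b) ∧ ∃ u, w u ≠ 0 := by
  constructor
  · rintro ⟨s, t, hs, ht, h, rfl⟩
    refine ⟨fun u => ?_, fun u hu => ?_, ?_⟩
    · simp only [Pi.add_apply, Pi.smul_apply, Pi.single_apply, smul_eq_mul]
      split_ifs <;> positivity
    · by_contra h'
      rw [not_or] at h'
      simp [h'.1, h'.2] at hu
    · by_cases h0 : s = 0
      · exact ⟨b, by simpa [h0] using (show 0 < t by linarith).ne'⟩
      · exact ⟨a, by simpa [hab] using h0⟩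
  · rintro ⟨h1, h2, u, hu⟩
    refine ⟨w a, w b, h1 a, h1 b, ?_, funext fun v => ?_⟩
    · have := h1 a
      have := h1 b
      have := lt_of_le_of_ne (h1 u) hu.symm
      rcases h2 u hu with rfl | rfl <;> linarith
    · by_cases e1 : v = a
      · simp [e1, hab]
      · by_cases e2 : v = b
        · simp [e2, hab.symm]
        · simpa [e1, e2] using (by_contra fun h => (h2 v h).elim e1 e2 : w v = 0)

theorem sph_ne (y : S3) : y.1 ≠ 0 := ne_zero_of_mem_unit_sphere y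

theorem sph_nm : ∃ nm : EuclideanSpace ℝ (Fin 4) → S3, ContinuousOn nm {0}ᶜ ∧
    ∀ y, y ≠ 0 → (nm y).1 = ‖y‖⁻¹ • y := by
  classical
  have h : ∀ y : EuclideanSpace ℝ (Fin 4), y ≠ 0 → ‖y‖⁻¹ • y ∈ Metric.sphere 0 1 := fun y hy => by
    simp [norm_smul, hy]
  let nm : EuclideanSpace ℝ (Fin 4) → S3 := fun y =>
    if hy : y = 0 then ⟨EuclideanSpace.single 0 1, by simp⟩ else ⟨_, h y hy⟩
  have h2 : ∀ y, y ≠ 0 → (nm y).1 = ‖y‖⁻¹ • y := fun y hy => by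
    simp only [nm, dif_neg hy]
  refine ⟨nm, Topology.IsInducing.subtypeVal.continuousOn_iff.2 ?_, h2⟩
  refine ContinuousOn.congr (f := fun y => ‖y‖⁻¹ • y) ?_ fun y hy => h2 y hy
  exact (continuous_norm.continuousOn.inv₀ fun y hy => norm_ne_zero_iff.2 hy).smul continuousOn_id

theorem sph_main {X l : List ℕ} {T : (ℕ → ℝ) → ℂ} {S : ℂ → ℕ → ℝ} (Sc : Continuous S)
    (B2 : Bij T S (Cn X ∩ sph_Z l) {0}ᶜ) (Ts : ∀ c : ℝ, 0 ≤ c → ∀ w, T (c • w) = c • T w)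
    {F : (ℕ → ℝ) → EuclideanSpace ℝ (Fin 4)} {G : EuclideanSpace ℝ (Fin 4) → ℕ → ℝ}
    (Fc : Continuous F) (Gc : Continuous G) (B : Bij F G (Cn X) {0}ᶜ)
    (Fs : ∀ c : ℝ, 0 ≤ c → ∀ w, F (c • w) = c • F w) (Fu : FU (F '' (Cn X ∩ sph_Z l))) :
    ∃ (K : Set S3) (h : (ℕ → ℝ) → S3) (g : S3 → ℕ → ℝ), IsKnot K ∧ IsClosed K ∧
      Prj h g (Cn X \ sph_Z l) Kᶜ := by
  obtain ⟨nm, nc, nv⟩ := sph_nm
  have n1 : ∀ y : S3, nm y.1 = y := fun y => Subtype.ext (by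
    rw [nv _ (sph_ne y), norm_eq_of_mem_sphere y, inv_one, one_smul])
  have n2 : ∀ c : ℝ, 0 < c → ∀ y, y ≠ 0 → nm (c • y) = nm y := fun c hc y hy => Subtype.ext (by
    rw [nv _ (smul_ne_zero hc.ne' hy), nv _ hy, norm_smul, Real.norm_of_nonneg hc.le, smul_smul,
      mul_inv, mul_right_comm, inv_mul_cancel₀ hc.ne', one_mul])
  have np : ∀ w ∈ Cn X, 0 < ‖F w‖⁻¹ := fun w hw => inv_pos.2 (norm_pos_iff.2 (B.fw hw))
  have key : ∀ w ∈ Cn X, G (nm (F w)).1 = ‖F w‖⁻¹ • w := fun w hw => by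
    rw [nv _ (B.fw hw), ← Fs _ (np w hw).le, B.l _ (cn_cone w hw _ (np w hw))]
  have hcont : ContinuousOn (nm ∘ F) (Cn X) := nc.comp Fc.continuousOn B.fw
  have hsc : ∀ w ∈ Cn X, ∀ c : ℝ, 0 < c → nm (F (c • w)) = nm (F w) := fun w hw c hc => by
    rw [Fs c hc.le, n2 c hc _ (B.fw hw)]
  have hr : ∀ y : S3, nm (F (G y.1)) = y := fun y => by rw [B.r _ (sph_ne y), n1]
  refine ⟨{y | G y.1 ∈ sph_Z l}, nm ∘ F, fun y => G y.1, ⟨?_, ?_⟩,
    (sph_Z_closed _).preimage (Gc.comp continuous_subtype_val),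
    fun w hw c hc => ⟨cn_cone w hw.1 c hc, fun h => hw.2 ((sph_Z_smul hc).1 h)⟩,
    hcont.mono sdiff_subset, fun w hw h => hw.2 ?_, (Gc.comp continuous_subtype_val).continuousOn,
    fun y hy => ⟨B.bw (sph_ne y), hy⟩, fun y _ => hr y, fun w hw => ⟨_, np w hw.1, key w hw.1⟩,
    fun w hw c hc => hsc w hw.1 c hc⟩
  · have m : ∀ z : Circle, S z ∈ Cn X ∩ sph_Z l := fun z => B2.bw z.coe_ne_zero
    refine ⟨fun z => nm (F (S z)), hcont.comp_continuous (Sc.comp continuous_subtype_val)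
      fun z => (m z).1, fun z z' e => ?_, Subset.antisymm ?_ fun y hy => ?_⟩
    · have e1 := congrArg (fun y : S3 => T (G y.1)) e
      simp only [key _ (m _).1, Ts _ (np _ (m _).1).le, B2.r _ z.coe_ne_zero,
        B2.r _ z'.coe_ne_zero] at e1
      have e2 := congrArg norm e1
      rw [norm_smul, norm_smul, z.norm_coe, z'.norm_coe, mul_one, mul_one,
        Real.norm_of_nonneg (np _ (m z).1).le, Real.norm_of_nonneg (np _ (m z').1).le] at e2
      rw [← e2] at e1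
      exact Circle.ext (smul_right_injective _ (np _ (m z).1).ne' e1)
    · rintro _ ⟨z, rfl⟩
      change G (nm (F (S z))).1 ∈ sph_Z l
      rw [key _ (m z).1, sph_Z_smul (np _ (m z).1)]
      exact (m z).2
    · have h1 : G y.1 ∈ Cn X ∩ sph_Z l := ⟨B.bw (sph_ne y), hy⟩
      have h2 : T (G y.1) ≠ 0 := B2.fw h1
      have h3 : 0 < ‖T (G y.1)‖⁻¹ := inv_pos.2 (norm_pos_iff.2 h2)
      refine ⟨⟨‖T (G y.1)‖⁻¹ • T (G y.1), by simp [Submonoid.unitSphere, h2]⟩, ?_⟩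
      change nm (F (S (‖T (G y.1)‖⁻¹ • T (G y.1)))) = y
      rw [← Ts _ h3.le, B2.l _ ⟨cn_cone _ h1.1 _ h3, (sph_Z_smul h3).2 h1.2⟩, hsc _ h1.1 _ h3, hr]
  · obtain ⟨A, hA, e⟩ := Fu
    have h0 : ∀ y ∈ F '' (Cn X ∩ sph_Z l), y ≠ 0 := by
      rintro _ ⟨w, hw, rfl⟩
      exact B.fw hw.1
    have h1 : ∀ q ∈ A, q.1 ≠ 0 ∧ q.2 ≠ 0 := fun q hq =>
      ⟨h0 _ (e ▸ mem_biUnion hq ⟨1, 0, zero_le_one, le_rfl, by simp, by simp⟩),
        h0 _ (e ▸ mem_biUnion hq ⟨0, 1, le_rfl, zero_le_one, by simp, by simp⟩)⟩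
    refine ⟨(fun q => (nm q.1, nm q.2)) '' A, hA.image _, ?_⟩
    rw [biUnion_image]
    ext y
    have h2 : G y.1 ∈ sph_Z l ↔ y.1 ∈ F '' (Cn X ∩ sph_Z l) := by
      refine ⟨fun h => ⟨_, ⟨B.bw (sph_ne y), h⟩, B.r _ (sph_ne y)⟩, ?_⟩
      rintro ⟨w, hw, e⟩
      rw [← e, B.l w hw.1]
      exact hw.2
    rw [mem_ofPred_eq, h2, e, mem_iUnion₂, mem_iUnion₂]
    refine exists_congr fun q => exists_congr fun hq => ?_
    have p1 := norm_pos_iff.2 (h1 q hq).1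
    have p2 := norm_pos_iff.2 (h1 q hq).2
    constructor
    · rintro ⟨s, t, hs, ht, -, e⟩
      refine ⟨s * ‖q.1‖, t * ‖q.2‖, by positivity, by positivity, ?_⟩
      rw [nv _ (h1 q hq).1, nv _ (h1 q hq).2, smul_smul, smul_smul, mul_inv_cancel_right₀ p1.ne',
        mul_inv_cancel_right₀ p2.ne', e]
    · rintro ⟨s, t, hs, ht, e⟩
      rw [nv _ (h1 q hq).1, nv _ (h1 q hq).2, smul_smul, smul_smul] at e
      have q1 : 0 ≤ s * ‖q.1‖⁻¹ := by positivity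
      have q2 : 0 ≤ t * ‖q.2‖⁻¹ := by positivity
      refine ⟨_, _, q1, q2, lt_of_le_of_ne (add_nonneg q1 q2) fun h => sph_ne y ?_, e⟩
      rw [e, show s * ‖q.1‖⁻¹ = 0 by linarith, show t * ‖q.2‖⁻¹ = 0 by linarith]
      simp
  · rw [← sph_Z_smul (np w hw.1), ← key w hw.1]
    exact h

theorem sph_labs {l : List ℕ} (h : labs (257 :: l) PR = true) :
    (∀ u ∈ l, Lab u ∧ u ≠ 257) ∧ l.Pairwise Nat.Coprime ∧ l.Nodup := by
  obtain ⟨h1, h2⟩ := labs_spec h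
  rw [List.pairwise_cons] at h2
  have h3 : ∀ u ∈ l, Lab u := fun u hu =>
    have := h1 u (List.mem_cons_of_mem _ hu)
    lab_of this.1 this.2.1 this.2.2
  refine ⟨fun u hu => ⟨h3 u hu, ?_⟩, h2.2, h2.2.imp_of_mem fun ha _ hc e => ?_⟩
  · rintro rfl
    exact absurd (h2.1 _ hu) (by decide)
  · subst e
    exact (h3 _ ha).1.one_lt.ne' ((Nat.coprime_self _).1 hc)

theorem sph_sub {KL X : List ℕ} {KE : List (ℕ × ℕ)} (h : subOk KL X KE = true) :
    Cn X ∩ sph_Z KL = Cn (KE.map fun e => e.1 * e.2) ∧ FU (Cn (KE.map fun e => e.1 * e.2)) := by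
  simp only [subOk, frc_eq, frcL_eq, prd_eq, cnd_and, cnd_not, allL_iff, anyL_iff, dv_iff,
    List.all_eq_true, Bool.and_eq_true, decide_eq_true_eq, bne_iff_ne, ne_eq] at h
  obtain ⟨l1, hE, h1, h2⟩ := h
  obtain ⟨hl, -, -⟩ := sph_labs l1
  have key : ∀ e ∈ KE, ∀ w, Sup w (e.1 * e.2) ↔ ∀ u, w u ≠ 0 → u = e.1 ∨ u = e.2 := by
    intro e he w
    have a1 := (hl _ (hE e he).1.1).1
    have a2 := (hl _ (hE e he).1.2).1
    refine forall_congr' fun u => imp_congr_right fun _ => ⟨fun h => ?_, ?_⟩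
    · exact (h.1.1.dvd_mul.1 h.2).imp (Nat.prime_dvd_prime_iff_eq h.1.1 a1.1).1
        (Nat.prime_dvd_prime_iff_eq h.1.1 a2.1).1
    · rintro (rfl | rfl)
      · exact ⟨a1, dvd_mul_right _ _⟩
      · exact ⟨a2, dvd_mul_left _ _⟩
  constructor
  · ext w
    constructor
    · rintro ⟨⟨a, b, n, hn, hs⟩, hz⟩
      obtain ⟨x, hx, e⟩ := (h2 n hn).2
      exact ⟨a, b, x, hx, fun u hu => ⟨(hs u hu).1,
        (Nat.dvd_gcd (hs u hu).2 (List.dvd_prod (hz u hu))).trans e⟩⟩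
    · rintro ⟨a, b, x, hx, hs⟩
      obtain ⟨n, hn, hd⟩ := h1 x hx
      refine ⟨⟨a, b, n, hn, fun u hu => ⟨(hs u hu).1, (hs u hu).2.trans hd⟩⟩, fun u hu => ?_⟩
      obtain ⟨e, he, rfl⟩ := List.mem_map.1 hx
      rcases (key e he w).1 hs u hu with rfl | rfl
      · exact (hE e he).1.1
      · exact (hE e he).1.2
  · refine ⟨(fun e : ℕ × ℕ => (Pi.single e.1 1, Pi.single e.2 1)) '' {e | e ∈ KE},
      KE.finite_toSet.image _, ?_⟩
    rw [biUnion_image]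
    ext w
    rw [mem_iUnion₂]
    constructor
    · rintro ⟨a, ⟨u, -, hu⟩, x, hx, hs⟩
      obtain ⟨e, he, rfl⟩ := List.mem_map.1 hx
      exact ⟨e, he, (sph_seg (hE e he).2).2 ⟨a, (key e he w).1 hs, u, hu⟩⟩
    · rintro ⟨e, he, hw⟩
      obtain ⟨a, b, u, hu⟩ := (sph_seg (hE e he).2).1 hw
      refine ⟨a, ⟨u, ?_, hu⟩, _, List.mem_map.2 ⟨e, he, rfl⟩, (key e he w).2 b⟩
      rcases b u hu with rfl | rfl
      · exact (hl _ (hE e he).1.1).2
      · exact (hl _ (hE e he).1.2).2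

theorem sph_tri {b0 b1 b2 : ℕ} {D : List ℕ} (l : labs [257, b0, b1, b2] PR = true)
    (d1 : ∀ n ∈ D, n ∈ [b1 * b2, b0 * b2, b0 * b1]) (d2 : ∀ n ∈ [b1 * b2, b0 * b2, b0 * b1], n ∈ D) :
    Cn D = sph_C [b0, b1, b2] := by
  obtain ⟨a5, -, a8⟩ := sph_labs l
  have pr : ∀ a ∈ [b0, b1, b2], ∀ u : ℕ, u.Prime → (u ∣ a ↔ u = a) := fun a ha u hu =>
    Nat.prime_dvd_prime_iff_eq hu (a5 a ha).1.1
  have hdv : ∀ u : ℕ, u.Prime → (u ∣ b1 * b2 ↔ u = b1 ∨ u = b2) ∧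
      (u ∣ b0 * b2 ↔ u = b0 ∨ u = b2) ∧ (u ∣ b0 * b1 ↔ u = b0 ∨ u = b1) := fun u hu => by
    simp only [hu.dvd_mul, pr b0 (by simp) u hu, pr b1 (by simp) u hu, pr b2 (by simp) u hu,
      and_self]
  simp only [List.nodup_cons, List.mem_cons, List.not_mem_nil, or_false, not_or] at a8 d1
  rw [← sph_cn a5 (X := D) (fun n hn => ?_) fun u hu => ?_]
  · refine (inter_eq_left.2 ?_).symm
    rintro w ⟨-, -, n, hn, hs⟩ u hu
    have h1 := hdv u (hs u hu).1.1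
    have h2 := (hs u hu).2
    simp only [List.mem_cons, List.not_mem_nil, or_false]
    rcases d1 n hn with rfl | rfl | rfl
    · have := h1.1.1 h2; omega
    · have := h1.2.1.1 h2; omega
    · have := h1.2.2.1 h2; omega
  · rcases d1 n hn with rfl | rfl | rfl
    · refine ⟨b0, by simp, fun h => ?_⟩
      have := (hdv b0 (a5 b0 (by simp)).1.1).1.1 h; omega
    · refine ⟨b1, by simp, fun h => ?_⟩
      have := (hdv b1 (a5 b1 (by simp)).1.1).2.1.1 h; omega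
    · refine ⟨b2, by simp, fun h => ?_⟩
      have := (hdv b2 (a5 b2 (by simp)).1.1).2.2.1 h; omega
  · have hv : ∀ v ∈ [b0, b1, b2], v = b0 ∨ v = b1 ∨ v = b2 := fun v h => by simpa using h
    rcases hv u hu with e | e | e
    · refine ⟨_, d2 (b1 * b2) (by simp), fun v h h' => ?_⟩
      have := hv v h
      exact (hdv v (a5 v h).1.1).1.2 (by omega)
    · refine ⟨_, d2 (b0 * b2) (by simp), fun v h h' => ?_⟩
      have := hv v h
      exact (hdv v (a5 v h).1.1).2.1.2 (by omega)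
    · refine ⟨_, d2 (b0 * b1) (by simp), fun v h h' => ?_⟩
      have := hv v h
      exact (hdv v (a5 v h).1.1).2.2.2 (by omega)

theorem sph {KL X : List ℕ} {KE : List (ℕ × ℕ)} (h1 : subOk KL X KE = true) {q : Prog}
    {b0 b1 b2 : ℕ} {D' : List ℕ} (h2 : triOk KE q b0 b1 b2 D' = true) {a0 a1 a2 a3 a4 : ℕ}
    {D : List ℕ} (h3 : simOk a0 a1 a2 a3 a4 D = true) {p : Prog}
    (h4 : Bij p.fw p.bw (Cn X) (Cn D)) :
    ∃ (K : Set S3) (h : (ℕ → ℝ) → S3) (g : S3 → ℕ → ℝ), IsKnot K ∧ IsClosed K ∧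
      Prj h g (Cn X \ {w | ∀ u, w u ≠ 0 → u ∈ KL}) Kᶜ := by
  simp only [triOk, simOk, Bool.and_eq_true, List.all_eq_true, decide_eq_true_eq] at h2 h3
  obtain ⟨⟨⟨l1, hq⟩, c1⟩, c2⟩ := h2
  obtain ⟨⟨l2, d1⟩, d2⟩ := h3
  obtain ⟨hC, hU⟩ := sph_sub h1
  obtain ⟨a5, -, a7⟩ := sph_labs l2
  have e3 : List.ofFn ![b0, b1, b2] = [b0, b1, b2] := by simp
  obtain ⟨T', S', -, Sc', B'⟩ := sph_simplex ![b0, b1, b2]
    (List.nodup_ofFn.1 (e3 ▸ (sph_labs l1).2.2))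
    (Complex.equivRealProdCLM.trans (ContinuousLinearEquiv.finTwoArrow ℝ ℝ).symm)
  rw [e3, ← sph_tri l1 c1 c2] at B'
  have pr : ∀ a ∈ [a0, a1, a2, a3, a4], ∀ u : ℕ, u.Prime → (u ∣ a ↔ u = a) := fun a ha u hu =>
    Nat.prime_dvd_prime_iff_eq hu (a5 a ha).1.1
  have hdv : ∀ u : ℕ, u.Prime →
      (u ∣ a1 * a2 * a3 * a4 ↔ u = a1 ∨ u = a2 ∨ u = a3 ∨ u = a4) ∧
      (u ∣ a0 * a2 * a3 * a4 ↔ u = a0 ∨ u = a2 ∨ u = a3 ∨ u = a4) ∧
      (u ∣ a0 * a1 * a3 * a4 ↔ u = a0 ∨ u = a1 ∨ u = a3 ∨ u = a4) ∧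
      (u ∣ a0 * a1 * a2 * a4 ↔ u = a0 ∨ u = a1 ∨ u = a2 ∨ u = a4) ∧
      (u ∣ a0 * a1 * a2 * a3 ↔ u = a0 ∨ u = a1 ∨ u = a2 ∨ u = a3) := fun u hu => by
    simp only [hu.dvd_mul, pr a0 (by simp) u hu, pr a1 (by simp) u hu, pr a2 (by simp) u hu,
      pr a3 (by simp) u hu, pr a4 (by simp) u hu, or_assoc, and_self]
  have a8 := a7
  simp only [List.nodup_cons, List.mem_cons, List.not_mem_nil, or_false, not_or] at a8 d1
  have hD : Cn D = sph_C [a0, a1, a2, a3, a4] := by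
    rw [← sph_cn a5 (X := D) (fun n hn => ?_) fun u hu => ?_]
    · refine (inter_eq_left.2 ?_).symm
      rintro w ⟨-, -, n, hn, hs⟩ u hu
      have h1 := hdv u (hs u hu).1.1
      have h2 := (hs u hu).2
      simp only [List.mem_cons, List.not_mem_nil, or_false]
      rcases d1 n hn with rfl | rfl | rfl | rfl | rfl
      · have := h1.1.1 h2; omega
      · have := h1.2.1.1 h2; omega
      · have := h1.2.2.1.1 h2; omega
      · have := h1.2.2.2.1.1 h2; omega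
      · have := h1.2.2.2.2.1 h2; omega
    · rcases d1 n hn with rfl | rfl | rfl | rfl | rfl
      · refine ⟨a0, by simp, fun h => ?_⟩
        have := (hdv a0 (a5 a0 (by simp)).1.1).1.1 h; omega
      · refine ⟨a1, by simp, fun h => ?_⟩
        have := (hdv a1 (a5 a1 (by simp)).1.1).2.1.1 h; omega
      · refine ⟨a2, by simp, fun h => ?_⟩
        have := (hdv a2 (a5 a2 (by simp)).1.1).2.2.1.1 h; omega
      · refine ⟨a3, by simp, fun h => ?_⟩
        have := (hdv a3 (a5 a3 (by simp)).1.1).2.2.2.1.1 h; omega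
      · refine ⟨a4, by simp, fun h => ?_⟩
        have := (hdv a4 (a5 a4 (by simp)).1.1).2.2.2.2.1 h; omega
    · have hv : ∀ v ∈ [a0, a1, a2, a3, a4], v = a0 ∨ v = a1 ∨ v = a2 ∨ v = a3 ∨ v = a4 :=
        fun v h => by simpa using h
      rcases hv u hu with e | e | e | e | e
      · refine ⟨_, d2 (a1 * a2 * a3 * a4) (by simp), fun v h h' => ?_⟩
        have := hv v h
        exact (hdv v (a5 v h).1.1).1.2 (by omega)
      · refine ⟨_, d2 (a0 * a2 * a3 * a4) (by simp), fun v h h' => ?_⟩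
        have := hv v h
        exact (hdv v (a5 v h).1.1).2.1.2 (by omega)
      · refine ⟨_, d2 (a0 * a1 * a3 * a4) (by simp), fun v h h' => ?_⟩
        have := hv v h
        exact (hdv v (a5 v h).1.1).2.2.1.2 (by omega)
      · refine ⟨_, d2 (a0 * a1 * a2 * a4) (by simp), fun v h h' => ?_⟩
        have := hv v h
        exact (hdv v (a5 v h).1.1).2.2.2.1.2 (by omega)
      · refine ⟨_, d2 (a0 * a1 * a2 * a3) (by simp), fun v h h' => ?_⟩
        have := hv v h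
        exact (hdv v (a5 v h).1.1).2.2.2.2.2 (by omega)
  have e5 : List.ofFn ![a0, a1, a2, a3, a4] = [a0, a1, a2, a3, a4] := by simp
  obtain ⟨T, S, Tc, Sc, B⟩ := sph_simplex ![a0, a1, a2, a3, a4]
    (List.nodup_ofFn.1 (e5 ▸ a7)) (EuclideanSpace.equiv (Fin 4) ℝ)
  rw [e5, ← hD] at B
  refine sph_main (l := KL) (q.bw_cont.comp Sc') (hC ▸ (chk_iso hq).trans B') (fun c hc w => ?_)
    (Tc.comp p.fw_cont) (p.bw_cont.comp Sc) (h4.trans B) (fun c hc w => ?_) ?_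
  · rw [Function.comp_apply, q.fw_smul hc, map_smul]
    rfl
  · rw [Function.comp_apply, p.fw_smul hc, map_smul]
    rfl
  · rw [image_comp, hC]
    exact (hU.fw p).lin T

end Pool.Agent.Lib.MP_36248f_gt.Tp
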