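import Pool.Agent.Lib.MP_36248f_gt.Tp.Pre
import Pool.Agent.Lib.MP_36248f_gt.Tp.Blow
import Pool.Agent.Lib.MP_36248f_gt.Tp.Sph

/-!
Decoding programs, complexes and certificates from numbers, and chaining the checks. The number
`T` is a table of labels.
-/

set_option autoImplicit false

noncomputable section

namespace Pool.Agent.Lib.MP_36248f_gt.Tp

open Set

def nx {α : Type} (s : ℕ) (k : ℕ → ℕ → α) : α :=
  frc (Nat.mod s 4096) fun d => frc (Nat.shiftRight s 12) fun s' => k d s'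

def nl {α : Type} (T s : ℕ) (k : ℕ → ℕ → α) : α :=
  frc (Nat.mod (Nat.shiftRight T (Nat.mul 16 (Nat.mod s 4096))) 65536) fun d =>
    frc (Nat.shiftRight s 12) fun s' => k d s'

/-- Read `n` labels. -/
def rdl {α : Type} (T n : ℕ) : ℕ → List ℕ → (List ℕ → ℕ → α) → α :=
  Nat.rec (motive := fun _ => ℕ → List ℕ → (List ℕ → ℕ → α) → α) (fun s a k => k a s)
    (fun _ ih s a k => nl T s fun d s' => ih s' (d :: a) k) n

/-- Read `n` digits. -/
def rdw {α : Type} (n : ℕ) : ℕ → List ℕ → (List ℕ → ℕ → α) → α :=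
  Nat.rec (motive := fun _ => ℕ → List ℕ → (List ℕ → ℕ → α) → α) (fun s a k => k a s)
    (fun _ ih s a k => nx s fun d s' => ih s' (d :: a) k) n

/-- Read the product of `n` labels. -/
def rdp {α : Type} (T n : ℕ) : ℕ → ℕ → (ℕ → ℕ → α) → α :=
  Nat.rec (motive := fun _ => ℕ → ℕ → (ℕ → ℕ → α) → α) (fun s a k => k a s)
    (fun _ ih s a k => nl T s fun d s' => frc (Nat.mul d a) fun a' => ih s' a' k) n

/-- Read `n` products of `m` labels. -/
def rdq {α : Type} (T m n : ℕ) : ℕ → List ℕ → (List ℕ → ℕ → α) → α :=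
  Nat.rec (motive := fun _ => ℕ → List ℕ → (List ℕ → ℕ → α) → α) (fun s a k => k a s)
    (fun _ ih s a k => rdp T m s 1 fun d s' => ih s' (d :: a) k) n

def mkS {α : Type} (l w : List ℕ) (k : Sd → α) : α :=
  List.rec (motive := fun _ => α) (k ⟨0, [], []⟩) (fun a t _ => k ⟨a, t, w⟩) l

def dec (T f : ℕ) : ℕ → Prog :=
  Nat.rec (motive := fun _ => ℕ → Prog) (fun _ => .nil)
    (fun _ ih s => nx s fun h s => cnd (Nat.beq h 0) .nil (cnd (Nat.beq h 2048)
      (nx s fun n s => nx s fun l s => rdp T n s 1 fun E s => frc (Nat.mul 12 l) fun l =>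
        frc (Nat.mod s (Nat.pow 2 l)) fun s1 => frc (Nat.shiftRight s l) fun s2 =>
          .blk E (ih s1) (ih s2))
      (frc (Nat.mod h 4) fun na => frc (Nat.mod (Nat.div h 4) 8) fun nb =>
        rdl T na s [] fun A s => rdl T nb s [] fun B s =>
          cnd (Nat.ble h 31) (mkS A [] fun A => mkS B [] fun B => .mv A B [1] (ih s))
          (frc (Nat.mod (Nat.div h 32) 2) fun w => rdw (Nat.mul w na) s [] fun wa s =>
            rdw (Nat.mul w nb) s [] fun wb s => nx s fun n s =>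
              rdq T (Nat.div h 64) n s [] fun L s =>
                mkS A wa fun A => mkS B wb fun B => .mv A B L (ih s))))) f

/-- A program is a list of blocks. -/
def decT (T : ℕ) (c : List ℕ) : Prog :=
  List.rec (motive := fun _ => Prog) .nil
    (fun s _ ih => nx s fun n s => rdp T n s 1 fun E s => .blk E (dec T 100000 s) ih) c

/-- A list of simplices with `m` labels each. -/
def decX (T m : ℕ) (c : List ℕ) : List ℕ → List ℕ :=
  List.rec (motive := fun _ => List ℕ → List ℕ) (fun a => a)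
    (fun s _ ih a => nx s fun n s => rdq T m n s a fun a' _ => ih a') c

def nz {α : Type} (s : ℕ) (k : ℤ → ℕ → α) : α :=
  frcZ (Int.subNatNat (Nat.mod s 65536) 32768) fun d =>
    frc (Nat.shiftRight s 24) fun s' => k d s'

def rdc {α : Type} (T n : ℕ) : ℕ → Cfg → (Cfg → ℕ → α) → α :=
  Nat.rec (motive := fun _ => ℕ → Cfg → (Cfg → ℕ → α) → α) (fun s a k => k a s)
    (fun _ ih s a k => nl T s fun l s => nz s fun x s => nz s fun u s => nz s fun w s =>
      ih s ((l, (x, u, w)) :: a) k) n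

def rdm {α : Type} (n : ℕ) : ℕ → List M2 → (List M2 → ℕ → α) → α :=
  Nat.rec (motive := fun _ => ℕ → List M2 → (List M2 → ℕ → α) → α) (fun s a k => k a s)
    (fun _ ih s a k => nz s fun x s => nz s fun y s => nz s fun u s => nz s fun w s =>
      ih s ((x, y, u, w) :: a) k) n

def decC1 (T n : ℕ) : ℕ → List Crt → List Crt :=
  Nat.rec (motive := fun _ => ℕ → List Crt → List Crt) (fun _ r => r)
    (fun _ ih s r => nx s fun n s => rdc T n s [] fun ξ s => nx s fun m s => nx s fun n s =>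
      rdq T m n s [] fun L s => nx s fun n s => rdm n s [] fun ms s => (ξ, L, ms) :: ih s r) n

/-- Certificates. -/
def decC (T : ℕ) (c : List ℕ) : List Crt :=
  List.rec (motive := fun _ => List Crt) [] (fun s _ ih => nx s fun n s => decC1 T n s ih) c

def decF1 (T n : ℕ) : ℕ → List (ℕ × Cfg) → List (ℕ × Cfg) :=
  Nat.rec (motive := fun _ => ℕ → List (ℕ × Cfg) → List (ℕ × Cfg)) (fun _ r => r)
    (fun _ ih s r => rdp T 3 s 1 fun y s => nx s fun n s => rdc T n s [] fun ξ s =>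
      ih s ((y, ξ) :: r)) n

/-- Lifted triangles. -/
def decF (T : ℕ) (c : List ℕ) : List (ℕ × Cfg) → List (ℕ × Cfg) :=
  List.rec (motive := fun _ => List (ℕ × Cfg) → List (ℕ × Cfg)) (fun a => a)
    (fun s _ ih a => nx s fun n s => frcF (decF1 T n s a) ih) c

def decM (s : ℕ) : List M2 := nx s fun n s => rdm n s [] fun ms _ => ms

def decP1 (T T' n : ℕ) : ℕ → List (ℕ × ℕ) → List (ℕ × ℕ) :=
  Nat.rec (motive := fun _ => ℕ → List (ℕ × ℕ) → List (ℕ × ℕ)) (fun _ r => r)
    (fun _ ih s r => nl T s fun u s => nl T' s fun v s => ih s ((u, v) :: r)) n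

/-- Tables. -/
def decP (T T' s : ℕ) : List (ℕ × ℕ) := nx s fun n s => decP1 T T' n s []

def decL (T s : ℕ) : List ℕ := nx s fun n s => rdl T n s [] fun l _ => l

def eqC (l : Cfg) : Cfg → Bool :=
  List.rec (motive := fun _ => Cfg → Bool)
    (fun m => List.rec (motive := fun _ => Bool) true (fun _ _ _ => false) m)
    (fun e _ ih m => List.rec (motive := fun _ => Bool) false
      (fun x t _ => cnd (Nat.beq e.1 x.1) (cnd (eqZ e.2 x.2) (ih t) false) false) m) l

def eqF (l : List (ℕ × Cfg)) : List (ℕ × Cfg) → Bool :=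
  List.rec (motive := fun _ => List (ℕ × Cfg) → Bool)
    (fun m => List.rec (motive := fun _ => Bool) true (fun _ _ _ => false) m)
    (fun e _ ih m => List.rec (motive := fun _ => Bool) false
      (fun x t _ => cnd (Nat.beq e.1 x.1) (cnd (eqC e.2 x.2) (ih t) false) false) m) l

theorem eqC_eq : ∀ {l m : Cfg}, eqC l m = true → l = m
  | [], [], _ => rfl
  | [], _ :: _, h => by cases h
  | _ :: _, [], h => by cases h
  | e :: l, x :: m, h => by
    change cnd (Nat.beq e.1 x.1) (cnd (eqZ e.2 x.2) (eqC l m) false) false = true at h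
    rw [cnd_and, cnd_and, Nat.beq_eq, eqZ, decide_eq_true_eq] at h
    rw [Prod.ext h.1 h.2.1, eqC_eq h.2.2]

theorem eqF_eq : ∀ {l m : List (ℕ × Cfg)}, eqF l m = true → l = m
  | [], [], _ => rfl
  | [], _ :: _, h => by cases h
  | _ :: _, [], h => by cases h
  | e :: l, x :: m, h => by
    change cnd (Nat.beq e.1 x.1) (cnd (eqC e.2 x.2) (eqF l m) false) false = true at h
    rw [cnd_and, cnd_and, Nat.beq_eq] at h
    rw [Prod.ext h.1 (eqC_eq h.2.1), eqF_eq h.2.2]

def geoChk (W : ℕ) (p : Prog) (C : List Crt) (F F' : List (ℕ × Cfg)) : Bool :=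
  frc W fun W => Option.rec (motive := fun _ => Bool) false (fun z => eqF z.2 F') (geo W p C F)

def nwChk (W : ℕ) (p : Prog) : Bool := frc W fun W => nw W p

theorem wm_geo {p : Prog} {X X' : List ℕ} (h : chk p X X' = true) {W : ℕ} {C : List Crt}
    {F F' : List (ℕ × Cfg)} (g : geoChk W p C F F' = true) : Wm p X X' W F F' := by
  rw [geoChk, frc_eq] at g
  cases e : geo W p C F with
  | none => rw [e] at g; cases g
  | some z =>
    rw [e] at g
    obtain rfl : z.2 = F' := eqF_eq g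
    exact ⟨chk_iso h, (geo_spec (C' := z.1) e).1, (geo_spec (C' := z.1) e).2⟩

theorem wm_nw {p : Prog} {X X' : List ℕ} (h : chk p X X' = true) {W : ℕ}
    (g : nwChk W p = true) (F : List (ℕ × Cfg)) : Wm p X X' W F F := by
  rw [nwChk, frc_eq] at g
  exact ⟨chk_iso h, (nw_spec g F).1, (nw_spec g F).2⟩

/-- Both walls. -/
def W2 (X X' : List ℕ) (W W' : ℕ) (F F1 F' F1' : List (ℕ × Cfg)) : Prop :=
  ∃ p, Wm p X X' W F F1 ∧ Wm p X X' W' F' F1'

theorem W2.trans {X X' X'' : List ℕ} {W W' : ℕ} {F F1 F2 F' F1' F2' : List (ℕ × Cfg)}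
    (h : W2 X X' W W' F F1 F' F1') (h' : W2 X' X'' W W' F1 F2 F1' F2') :
    W2 X X'' W W' F F2 F' F2' :=
  let ⟨_, a, b⟩ := h
  let ⟨_, c, d⟩ := h'
  ⟨_, a.trans c, b.trans d⟩

theorem W2.pc {t : Ty} {N : ℕ} {X : List ℕ} {W W' : ℕ} {F F' : List (ℕ × Cfg)}
    (h : W2 (cx0 N (zt t) (ch t) 120 []) X W W' (fa0 t false N 120 []) F (fa0 t true N 120 []) F')
    (f : flagOk N (zt t) (ng t) (pn t) sg = true) (w : wallOk t false N W = true)
    (w' : wallOk t true N W' = true) : ∃ p, Pc t N p X (cnd · W' W) (cnd · F' F) :=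
  let ⟨p, a, b⟩ := h
  ⟨p, f, fun c => by cases c; exacts [w, w'], fun c => by cases c; exacts [a, b]⟩

/-- Moves inside the part of a complex that is not coprime to `D`. -/
def Mv (D : ℕ) (A A' : List ℕ) : Prop :=
  ∃ p : Prog, ∀ R : List ℕ, (∀ n ∈ R, n.Coprime D) → Bij p.fw p.bw (Cn (A ++ R)) (Cn (A' ++ R))

def Mq (Z Z' : List ℕ) : Prop := ∃ p : Prog, Bij p.fw p.bw (Cn Z) (Cn Z')

def chkD (D : ℕ) (p : Prog) (X Y : List ℕ) : Bool :=
  frc D fun D => Option.rec (motive := fun _ => Bool) false (fun Z => eqL Z Y) (run p D X)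

theorem mv_of {D : ℕ} {p : Prog} {X Y : List ℕ} (h : chkD D p X Y = true) : Mv D X Y := by
  rw [chkD, frc_eq] at h
  cases hr : run p D X with
  | none => rw [hr] at h; cases h
  | some Z =>
    rw [hr] at h
    obtain rfl : Z = Y := eqL_eq h
    exact ⟨p, fun R hR => run_iso p hr hR⟩

theorem Mv.trans {D : ℕ} {A A' A'' : List ℕ} (h : Mv D A A') (h' : Mv D A' A'') : Mv D A A'' :=
  let ⟨p, hp⟩ := h
  let ⟨q, hq⟩ := h'
  ⟨.blk 0 p q, fun R hR => (hp R hR).trans (hq R hR)⟩

theorem Mq.trans {A A' A'' : List ℕ} (h : Mq A A') (h' : Mq A' A'') : Mq A A'' :=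
  let ⟨p, hp⟩ := h
  let ⟨q, hq⟩ := h'
  ⟨.blk 0 p q, hp.trans hq⟩

def cop (D : ℕ) (R : List ℕ) : Bool := frc D fun D => allL (cp D) R

theorem Mv.mq {D : ℕ} {A A' R Z Z' : List ℕ} (h : Mv D A A') (c : cop D R = true)
    (e : ∀ n, n ∈ Z ↔ n ∈ A ∨ n ∈ R) (e' : ∀ n, n ∈ Z' ↔ n ∈ A' ∨ n ∈ R) : Mq Z Z' := by
  obtain ⟨p, hp⟩ := h
  rw [cop, frc_eq, allL_iff] at c
  have := hp R fun n hn => (cp_iff.1 (c n hn)).symm
  rw [Cn_congr (Y := Z) fun n => by rw [e, List.mem_append],
    Cn_congr (X := A' ++ R) (Y := Z') fun n => by rw [e', List.mem_append]] at this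
  exact ⟨p, this⟩

theorem cop_rapp {D : ℕ} {R R' : List ℕ} (h : cop D R = true) (h' : cop D R' = true) :
    cop D (rapp R R') = true := by
  rw [cop, frc_eq, allL_iff] at *
  exact fun n hn => (mem_rapp.1 hn).elim (h n) (h' n)

theorem same_mem {X Y : List ℕ} (h : same X Y = true) (n : ℕ) : n ∈ X ↔ n ∈ Y := by
  have e := eqL_eq h
  have h1 := @mem_srt 100 n X []
  rw [e, mem_srt] at h1
  simpa using h1.symm

def chkS (p : Prog) (X Y : List ℕ) : Bool :=
  Option.rec (motive := fun _ => Bool) false (fun Z => same Z Y) (run p 0 X)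

theorem mq_of {p : Prog} {X Y : List ℕ} (h : chkS p X Y = true) : Mq X Y := by
  unfold chkS at h
  cases hr : run p 0 X with
  | none => rw [hr] at h; cases h
  | some Z =>
    rw [hr] at h
    exact ⟨p, same_cn h ▸ by simpa using run_iso p hr (R := []) (by simp)⟩

/-- Groups of simplices. -/
def decG (T : ℕ) (c : List ℕ) : List (ℕ × List ℕ) :=
  List.rec (motive := fun _ => List (ℕ × List ℕ)) []
    (fun s _ ih => nx s fun n s => rdp T n s 1 fun E s => nx s fun n s => rdq T 4 n s [] fun M _ =>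
      (E, M) :: ih) c

theorem blowOk_of {KL VL X : List ℕ} {p : Prog} {X2 : List ℕ} {G : List (ℕ × List ℕ)}
    (h1 : labs (257 :: rapp KL VL) PR = true)
    (h2 : frc (Nat.mul (prd KL) (prd VL)) (fun P => allL (fun n => dv n P) X) = true)
    (h3 : chk p (mapL (Nat.mul 257) X) X2 = true) (h4 : balP (bcfg KL VL) p = true)
    (h5 : frc (prd KL) (fun PK => frc (prd VL) fun PV =>
      allL (fun n => cnd (dv 66049 n) false (cnd (cp n PK) true (cp n PV))) X2) = true)
    (h6 : frc (Nat.mul (prd KL) (prd VL)) (fun P => grp P G X2) = true) :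
    blowOk KL VL X p X2 G = true := by
  simp only [blowOk, frc_eq, cnd_and] at *
  exact ⟨h1, h2, h3, h4, h5, h6⟩

theorem mq_chk {p : Prog} {X Y : List ℕ} (h : chk p X Y = true) : Mq X Y := ⟨p, chk_iso h⟩

theorem Mq.congr {X Y Z : List ℕ} (h : Mq X Y) (e : ∀ n, n ∈ Y ↔ n ∈ Z) : Mq X Z :=
  let ⟨p, hp⟩ := h
  ⟨p, Cn_congr e ▸ hp⟩

end Pool.Agent.Lib.MP_36248f_gt.Tp
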