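import Pool.Agent.Lib.MP_36248f_gt.Tp.Move

/-!
Barycentric coordinates on a polyhedral cone. Faces are numbered `s < m`, cells are labels `u` in
the list `cs` (by decreasing dimension), `z u` is the bit mask of the faces that contain `u`.
-/

set_option autoImplicit false

noncomputable section

namespace Pool.Agent.Lib.MP_36248f_gt.Tp

open Set

/-- Inclusion of bit masks below `m`. -/
def sub (m N N' : ℕ) : Bool := (List.range m).all fun s => !N.testBit s || N'.testBit s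

/-- The faces that vanish at a point of the cone at which the faces of `N` vanish. -/
def clo (m zi : ℕ) (dead inf : List ℕ) (N : ℕ) : ℕ :=
  if dead.any (fun D => sub m D N) then 2 ^ m - 1
  else if inf.any (fun D => sub m D N) then N ||| zi else N

/-- Every chain with code `k` that ends at the cell `u` can be continued. -/
def ext (m : ℕ) (cs : List ℕ) (z : ℕ → ℕ) (ch dead inf : List ℕ) : ℕ → ℕ → ℕ → Bool
  | 0, u, k => ch.any (fun n => n % k == 0) && !sub m (2 ^ m - 1) (z u) &&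
      (List.range m).all fun s => (z u).testBit s || dead.any fun D => sub m D (z u ||| 2 ^ s)
  | d + 1, u, k => !sub m (2 ^ m - 1) (z u) && (List.range m).all fun s => (z u).testBit s ||
      cs.any fun u' => u' != u && sub m (z u) (z u') &&
        sub m (z u') (clo m (z 257) dead inf (z u ||| 2 ^ s)) && ext m cs z ch dead inf d u' (k * u')

/-- The faces that contain all cells of the list that divide `n`. -/
def low (m : ℕ) (z : ℕ → ℕ) (n : ℕ) : List ℕ → ℕ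
  | [] => 2 ^ m - 1
  | u :: l => if n % u = 0 then z u &&& low m z n l else low m z n l

def sep (m : ℕ) (z : ℕ → ℕ) (n : ℕ) : List ℕ → Bool
  | [] => true
  | u :: l => !sub m (low m z n l) (z u) && sep m z n l

def polyOk (m : ℕ) (cs : List ℕ) (z : ℕ → ℕ) (ch dead inf : List ℕ) : Bool :=
  cs.headD 0 ∈ cs && z (cs.headD 0) == 0 && ext m cs z ch dead inf 3 (cs.headD 0) (cs.headD 0) &&
    ch.all fun n => cs.prod % n == 0 && sep m z n cs

/-- The point with the given weights on the centres. -/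
def cen (cs : List ℕ) (c : ℕ → Fin 4 → ℝ) (w : ℕ → ℝ) : Fin 4 → ℝ := (cs.map fun u => w u • c u).sum

theorem poly_nil (c : ℕ → Fin 4 → ℝ) (w : ℕ → ℝ) : cen [] c w = 0 := rfl

theorem poly_cons (u : ℕ) (l : List ℕ) (c : ℕ → Fin 4 → ℝ) (w : ℕ → ℝ) :
    cen (u :: l) c w = w u • c u + cen l c w := rfl

theorem cen_cont (cs : List ℕ) (c : ℕ → Fin 4 → ℝ) : Continuous (cen cs c) := by
  induction cs with
  | nil => exact continuous_const
  | cons u l ih => exact ((continuous_apply u).smul continuous_const).add ih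

theorem cen_smul (cs : List ℕ) (c : ℕ → Fin 4 → ℝ) (t : ℝ) (w : ℕ → ℝ) :
    cen cs c (t • w) = t • cen cs c w := by
  induction cs with
  | nil => exact (smul_zero t).symm
  | cons u l ih => rw [poly_cons, poly_cons, ih, smul_add, Pi.smul_apply, smul_assoc]

theorem poly_add (cs : List ℕ) (c : ℕ → Fin 4 → ℝ) (w w' : ℕ → ℝ) :
    cen cs c (w + w') = cen cs c w + cen cs c w' := by
  induction cs with
  | nil => exact (add_zero _).symm
  | cons u l ih =>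
    rw [poly_cons, poly_cons, poly_cons, ih, Pi.add_apply, add_smul, add_add_add_comm]

theorem poly_single0 {l : List ℕ} (c : ℕ → Fin 4 → ℝ) {u : ℕ} (hu : u ∉ l) (t : ℝ) :
    cen l c (Pi.single u t) = 0 := by
  induction l with
  | nil => rfl
  | cons x l ih =>
    rw [List.mem_cons, not_or] at hu
    rw [poly_cons, ih hu.2, Pi.single_eq_of_ne' hu.1, zero_smul, add_zero]

theorem poly_single {l : List ℕ} (nd : l.Nodup) (c : ℕ → Fin 4 → ℝ) {u : ℕ} (hu : u ∈ l)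
    (t : ℝ) : cen l c (Pi.single u t) = t • c u := by
  induction l with
  | nil => cases hu
  | cons x l ih =>
    rw [List.nodup_cons] at nd
    rw [poly_cons]
    rcases List.mem_cons.1 hu with rfl | h
    · rw [poly_single0 c nd.1, Pi.single_eq_same, add_zero]
    · have e : x ≠ u := fun e => nd.1 (e ▸ h)
      rw [ih nd.2 h, Pi.single_eq_of_ne e, zero_smul, zero_add]

theorem poly_nonneg {a : (Fin 4 → ℝ) →ₗ[ℝ] ℝ} {cs : List ℕ} {c : ℕ → Fin 4 → ℝ} {w : ℕ → ℝ}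
    (hw : ∀ u, 0 ≤ w u) (ha : ∀ u ∈ cs, 0 ≤ a (c u)) : 0 ≤ a (cen cs c w) := by
  induction cs with
  | nil => exact (map_zero a).ge
  | cons u l ih =>
    rw [List.forall_mem_cons] at ha
    rw [poly_cons, map_add, map_smul, smul_eq_mul]
    exact add_nonneg (mul_nonneg (hw u) ha.1) (ih ha.2)

/-- A face vanishes at a point exactly if it contains all cells of the support. -/
theorem cen_zero {a : (Fin 4 → ℝ) →ₗ[ℝ] ℝ} {cs : List ℕ} {c : ℕ → Fin 4 → ℝ} {w : ℕ → ℝ}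
    (hw : ∀ u, 0 ≤ w u) (ha : ∀ u ∈ cs, 0 ≤ a (c u)) :
    a (cen cs c w) = 0 ↔ ∀ u ∈ cs, w u ≠ 0 → a (c u) = 0 := by
  induction cs with
  | nil => simp [poly_nil]
  | cons u l ih =>
    rw [List.forall_mem_cons] at ha
    rw [poly_cons, map_add, map_smul, smul_eq_mul, List.forall_mem_cons,
      add_eq_zero_iff_of_nonneg (mul_nonneg (hw u) ha.1) (poly_nonneg hw ha.2), ih ha.2,
      mul_eq_zero, or_iff_not_imp_left]

theorem poly_sub {m N N' : ℕ} :
    sub m N N' = true ↔ ∀ s < m, N.testBit s = true → N'.testBit s = true := by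
  simp only [sub, List.all_eq_true, List.mem_range, Bool.or_eq_true, Bool.not_eq_true',
    ← Bool.not_eq_true, ← imp_iff_not_or]

theorem poly_nsub {m N N' : ℕ} (h : (!sub m N N') = true) :
    ∃ s < m, N.testBit s = true ∧ ¬ N'.testBit s = true := by
  rw [Bool.not_eq_true', ← Bool.not_eq_true, poly_sub] at h
  push Not at h
  exact h

theorem poly_low {m n s : ℕ} {z : ℕ → ℕ} {l : List ℕ} (h : (low m z n l).testBit s = true) :
    ∀ u ∈ l, u ∣ n → (z u).testBit s = true := by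
  induction l with
  | nil => simp
  | cons x l ih =>
    rw [low] at h
    rw [List.forall_mem_cons]
    split_ifs at h with e
    · rw [Nat.testBit_and, Bool.and_eq_true] at h
      exact ⟨fun _ => h.1, ih h.2⟩
    · exact ⟨fun d => absurd (Nat.mod_eq_zero_of_dvd d) e, ih h⟩

/-- The faces that do not contain the cell. -/
def poly_out (m N : ℕ) : List ℕ := (List.range m).filter fun s => !N.testBit s

theorem poly_mem {m N s : ℕ} : s ∈ poly_out m N ↔ s < m ∧ ¬ N.testBit s = true := by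
  simp [poly_out]

/-- The largest multiple of `p` that can be subtracted. -/
def poly_t (m N : ℕ) (a : ℕ → (Fin 4 → ℝ) →ₗ[ℝ] ℝ) (p v : Fin 4 → ℝ) : ℝ :=
  mn (fun s => a s v / a s p) ((poly_out m N).headD 0) (poly_out m N)

theorem poly_t_le {m N s : ℕ} (a : ℕ → (Fin 4 → ℝ) →ₗ[ℝ] ℝ) (p v : Fin 4 → ℝ) (hs : s < m)
    (h : ¬ N.testBit s = true) : poly_t m N a p v ≤ a s v / a s p :=
  mn_le (fun s => a s v / a s p) _ _ (List.mem_cons_of_mem _ (poly_mem.2 ⟨hs, h⟩))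

theorem poly_t_ex {m N s : ℕ} (a : ℕ → (Fin 4 → ℝ) →ₗ[ℝ] ℝ) (p v : Fin 4 → ℝ) (hs : s < m)
    (h : ¬ N.testBit s = true) :
    ∃ s' < m, ¬ N.testBit s' = true ∧ poly_t m N a p v = a s' v / a s' p := by
  obtain ⟨u, hu, e⟩ := mn_ex (fun s => a s v / a s p) ((poly_out m N).headD 0) (poly_out m N)
  have h1 : u ∈ poly_out m N := by
    have h2 := poly_mem.2 ⟨hs, h⟩
    generalize poly_out m N = l at hu h2
    cases l with
    | nil => cases h2
    | cons x l => simpa using hu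
  exact ⟨u, (poly_mem.1 h1).1, (poly_mem.1 h1).2, e⟩

theorem poly_t_cont (m N : ℕ) (a : ℕ → (Fin 4 → ℝ) →ₗ[ℝ] ℝ) (p : Fin 4 → ℝ) :
    Continuous (poly_t m N a p) :=
  mn_cont (f := fun v s => a s v / a s p)
    (fun s => (a s).continuous_of_finiteDimensional.div_const _) _ _

/-- The weights of a point. -/
def poly_pull (m : ℕ) (z : ℕ → ℕ) (a : ℕ → (Fin 4 → ℝ) →ₗ[ℝ] ℝ) (c : ℕ → Fin 4 → ℝ) :
    List ℕ → (Fin 4 → ℝ) → ℕ → ℝ
  | [], _ => 0
  | u :: l, v => Function.update (poly_pull m z a c l (v - poly_t m (z u) a (c u) v • c u)) u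
      (poly_t m (z u) a (c u) v)

theorem poly_pull_cont (m : ℕ) (z : ℕ → ℕ) (a : ℕ → (Fin 4 → ℝ) →ₗ[ℝ] ℝ) (c : ℕ → Fin 4 → ℝ)
    (l : List ℕ) : Continuous (poly_pull m z a c l) := by
  induction l with
  | nil => exact continuous_const
  | cons u l ih =>
    exact (ih.comp (continuous_id.sub ((poly_t_cont _ _ _ _).smul continuous_const))).update u
      (poly_t_cont _ _ _ _)

theorem poly_pull_cen {m n : ℕ} {z : ℕ → ℕ} {a : ℕ → (Fin 4 → ℝ) →ₗ[ℝ] ℝ} {c : ℕ → Fin 4 → ℝ}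
    {w : ℕ → ℝ} (hw : ∀ u, 0 ≤ w u) (hn : ∀ u, w u ≠ 0 → u ∣ n) {l : List ℕ}
    (h1 : ∀ u ∈ l, ∀ s < m, 0 ≤ a s (c u) ∧ (a s (c u) = 0 ↔ (z u).testBit s = true))
    (hs : sep m z n l = true) (x : ℕ) :
    poly_pull m z a c l (cen l c w) x = if x ∈ l then w x else 0 := by
  induction l with
  | nil => rfl
  | cons u l ih =>
    rw [List.forall_mem_cons] at h1
    rw [sep, Bool.and_eq_true] at hs
    obtain ⟨s, hsm, s1, s2⟩ := poly_nsub hs.1
    have key : ∀ s < m, ¬ (z u).testBit s = true → a s (cen (u :: l) c w) / a s (c u) =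
        w u + a s (cen l c w) / a s (c u) := fun s hs h => by
      rw [poly_cons, map_add, map_smul, smul_eq_mul, add_div,
        mul_div_cancel_right₀ _ (mt (h1.1 s hs).2.1 h)]
    have ht : poly_t m (z u) a (c u) (cen (u :: l) c w) = w u := by
      refine le_antisymm ?_ ?_
      · refine (poly_t_le a _ _ hsm s2).trans ?_
        rw [key s hsm s2, (cen_zero hw fun x hx => (h1.2 x hx s hsm).1).2 fun x hx h =>
          (h1.2 x hx s hsm).2.2 (poly_low s1 x hx (hn x h)), zero_div, add_zero]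
      · obtain ⟨s', h2, h3, e⟩ := poly_t_ex a (c u) (cen (u :: l) c w) hsm s2
        rw [e, key s' h2 h3]
        exact le_add_of_nonneg_right (div_nonneg
          (poly_nonneg hw fun x hx => (h1.2 x hx s' h2).1) (h1.1 s' h2).1)
    rw [poly_pull, ht, poly_cons, add_sub_cancel_left]
    by_cases e : x = u
    · rw [e, Function.update_self, if_pos List.mem_cons_self]
    · rw [Function.update_of_ne e, ih h1.2 hs.2]
      simp only [List.mem_cons, e, false_or]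

theorem poly_step {m N s : ℕ} {a : ℕ → (Fin 4 → ℝ) →ₗ[ℝ] ℝ} {p r : Fin 4 → ℝ}
    (h1 : ∀ s < m, 0 ≤ a s p ∧ (a s p = 0 ↔ N.testBit s = true)) (hs : s < m)
    (hN : ¬ N.testBit s = true) (h2 : ∀ s < m, 0 ≤ a s r)
    (h3 : ∀ s < m, N.testBit s = true → a s r = 0) :
    ∃ t : ℝ, 0 ≤ t ∧ ∃ s' < m, ¬ N.testBit s' = true ∧ (∀ s < m, 0 ≤ a s (r - t • p)) ∧
      ∀ s < m, (N ||| 2 ^ s').testBit s = true → a s (r - t • p) = 0 := by
  obtain ⟨s', k1, k2, e⟩ := poly_t_ex a p r hs hN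
  have k3 : ∀ s < m, N.testBit s = true → a s (r - poly_t m N a p r • p) = 0 := fun s hs h => by
    rw [map_sub, map_smul, h3 s hs h, (h1 s hs).2.2 h, smul_zero, sub_zero]
  refine ⟨poly_t m N a p r, e ▸ div_nonneg (h2 s' k1) (h1 s' k1).1, s', k1, k2,
    fun s hs => ?_, fun s hs h => ?_⟩
  · by_cases h : N.testBit s = true
    · exact (k3 s hs h).ge
    · rw [map_sub, map_smul, smul_eq_mul, sub_nonneg]
      exact (le_div_iff₀ ((h1 s hs).1.lt_of_ne' (mt (h1 s hs).2.1 h))).1 (poly_t_le a p r hs h)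
  · rw [Nat.testBit_or, Bool.or_eq_true, Nat.testBit_two_pow, decide_eq_true_iff] at h
    rcases h with h | rfl
    · exact k3 s hs h
    · rw [map_sub, map_smul, smul_eq_mul, e, div_mul_cancel₀ _ (mt (h1 s' k1).2.1 k2), sub_self]

theorem poly_clo {m zi N : ℕ} {dead inf : List ℕ} {a : ℕ → (Fin 4 → ℝ) →ₗ[ℝ] ℝ}
    (h2 : ∀ N ∈ dead, ∀ r, (∀ s < m, 0 ≤ a s r) → (∀ s < m, N.testBit s = true → a s r = 0) → r = 0)
    (h3 : ∀ N ∈ inf, ∀ r, (∀ s < m, 0 ≤ a s r) → (∀ s < m, N.testBit s = true → a s r = 0) →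
      ∀ s < m, zi.testBit s = true → a s r = 0) {r : Fin 4 → ℝ} (k1 : ∀ s < m, 0 ≤ a s r)
    (k2 : ∀ s < m, N.testBit s = true → a s r = 0) :
    ∀ s < m, (clo m zi dead inf N).testBit s = true → a s r = 0 := by
  intro s hs h
  unfold clo at h
  split_ifs at h with e1 e2
  · obtain ⟨D, hD, e⟩ := List.any_eq_true.1 e1
    rw [h2 D hD r k1 fun s hs h => k2 s hs (poly_sub.1 e s hs h), map_zero]
  · obtain ⟨D, hD, e⟩ := List.any_eq_true.1 e2
    rw [Nat.testBit_or, Bool.or_eq_true] at h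
    exact h.elim (k2 s hs) (h3 D hD r k1 (fun s hs h => k2 s hs (poly_sub.1 e s hs h)) s hs)
  · exact k2 s hs h

theorem poly_onto {m : ℕ} {cs : List ℕ} {z : ℕ → ℕ} {ch dead inf : List ℕ}
    (lab : ∀ u ∈ cs, Lab u) (nd : cs.Nodup) {a : ℕ → (Fin 4 → ℝ) →ₗ[ℝ] ℝ} {c : ℕ → Fin 4 → ℝ}
    (h1 : ∀ u ∈ cs, ∀ s < m, 0 ≤ a s (c u) ∧ (a s (c u) = 0 ↔ (z u).testBit s = true))
    (h2 : ∀ N ∈ dead, ∀ r, (∀ s < m, 0 ≤ a s r) → (∀ s < m, N.testBit s = true → a s r = 0) → r = 0)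
    (h3 : ∀ N ∈ inf, ∀ r, (∀ s < m, 0 ≤ a s r) → (∀ s < m, N.testBit s = true → a s r = 0) →
      ∀ s < m, (z 257).testBit s = true → a s r = 0) (d : ℕ) :
    ∀ u k, ext m cs z ch dead inf d u k = true → u ∈ cs → u ∣ k → ∀ r, (∀ s < m, 0 ≤ a s r) →
      (∀ s < m, (z u).testBit s = true → a s r = 0) →
      ∃ w : ℕ → ℝ, (∀ x, 0 ≤ w x) ∧ (∃ n ∈ ch, k ∣ n ∧ Sup w n) ∧ cen cs c w = r := by
  have fin : ∀ {u k : ℕ} {r : Fin 4 → ℝ} {t : ℝ}, u ∈ cs → u ∣ k → 0 ≤ t →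
      (∃ w : ℕ → ℝ, (∀ x, 0 ≤ w x) ∧ (∃ n ∈ ch, k ∣ n ∧ Sup w n) ∧ cen cs c w = r - t • c u) →
      ∃ w : ℕ → ℝ, (∀ x, 0 ≤ w x) ∧ (∃ n ∈ ch, k ∣ n ∧ Sup w n) ∧ cen cs c w = r := by
    rintro u k r t hu hk ht ⟨w, w1, ⟨n, hn, kn, w2⟩, e⟩
    have h0 : (0 : ℕ → ℝ) ≤ Pi.single u t := Pi.single_nonneg.2 ht
    refine ⟨w + Pi.single u t, fun x => add_nonneg (w1 x) (h0 x),
      ⟨n, hn, kn, fun x hx => ?_⟩, by rw [poly_add, e, poly_single nd c hu, sub_add_cancel]⟩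
    by_cases ex : x = u
    · exact ex ▸ ⟨lab u hu, hk.trans kn⟩
    · rw [Pi.add_apply, Pi.single_eq_of_ne ex, add_zero] at hx
      exact w2 x hx
  induction d with
  | zero =>
    intro u k h hu hk r k1 k2
    rw [ext, Bool.and_eq_true, Bool.and_eq_true, List.all_eq_true, List.any_eq_true] at h
    obtain ⟨⟨⟨n, hn, e⟩, e1⟩, e2⟩ := h
    obtain ⟨s, hs, -, s2⟩ := poly_nsub e1
    obtain ⟨t, ht, s', j1, j2, j3, j4⟩ := poly_step (h1 u hu) hs s2 k1 k2
    obtain ⟨D, hD, e3⟩ := List.any_eq_true.1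
      (((Bool.or_eq_true _ _).mp (e2 s' (List.mem_range.2 j1))).resolve_left j2)
    refine fin hu hk ht ⟨0, fun _ => le_rfl, ⟨n, hn, Nat.dvd_of_mod_eq_zero (beq_iff_eq.1 e),
      fun x hx => absurd rfl hx⟩, ?_⟩
    rw [h2 D hD _ j3 fun s hs h => j4 s hs (poly_sub.1 e3 s hs h), ← zero_smul ℝ (0 : ℕ → ℝ),
      cen_smul, zero_smul]
  | succ d ih =>
    intro u k h hu hk r k1 k2
    rw [ext, Bool.and_eq_true, List.all_eq_true] at h
    obtain ⟨e1, e2⟩ := h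
    obtain ⟨s, hs, -, s2⟩ := poly_nsub e1
    obtain ⟨t, ht, s', j1, j2, j3, j4⟩ := poly_step (h1 u hu) hs s2 k1 k2
    obtain ⟨u', hu', e3⟩ := List.any_eq_true.1
      (((Bool.or_eq_true _ _).mp (e2 s' (List.mem_range.2 j1))).resolve_left j2)
    rw [Bool.and_eq_true, Bool.and_eq_true] at e3
    obtain ⟨w, w1, ⟨n, hn, kn, w2⟩, e⟩ := ih u' (k * u') e3.2 hu' (dvd_mul_left u' k) _ j3
      fun s hs h => poly_clo h2 h3 j3 j4 s hs (poly_sub.1 e3.1.2 s hs h)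
    exact fin hu hk ht ⟨w, w1, ⟨n, hn, (dvd_mul_right k u').trans kn, w2⟩, e⟩

theorem poly {m : ℕ} {cs : List ℕ} {z : ℕ → ℕ} {ch dead inf : List ℕ}
    (ok : polyOk m cs z ch dead inf = true) (lab : ∀ u ∈ cs, Lab u) (nd : cs.Nodup)
    (a : ℕ → (Fin 4 → ℝ) →ₗ[ℝ] ℝ) (c : ℕ → Fin 4 → ℝ)
    (h1 : ∀ u ∈ cs, ∀ s < m, 0 ≤ a s (c u) ∧ (a s (c u) = 0 ↔ (z u).testBit s = true))
    (h2 : ∀ N ∈ dead, ∀ r, (∀ s < m, 0 ≤ a s r) → (∀ s < m, N.testBit s = true → a s r = 0) → r = 0)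
    (h3 : ∀ N ∈ inf, ∀ r, (∀ s < m, 0 ≤ a s r) → (∀ s < m, N.testBit s = true → a s r = 0) →
      ∀ s < m, (z 257).testBit s = true → a s r = 0)
    (h4 : ∀ u ∈ cs, u ≠ 257 → 0 < c u 3) (h5 : c 257 3 = 0) :
    ∃ Ψ : (Fin 4 → ℝ) → ℕ → ℝ, Continuous Ψ ∧
      Bij (cen cs c) Ψ (Cn ch) {v | 0 < v 3 ∧ ∀ s < m, 0 ≤ a s v} := by
  simp only [polyOk, Bool.and_eq_true, List.all_eq_true, decide_eq_true_iff, beq_iff_eq] at ok
  obtain ⟨⟨⟨o1, o2⟩, o3⟩, o4⟩ := ok
  have mem : ∀ {w : ℕ → ℝ} {n : ℕ}, n ∈ ch → Sup w n → ∀ u, w u ≠ 0 → u ∈ cs := by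
    intro w n hn hs u hu
    obtain ⟨x, hx, e⟩ := (hs u hu).1.1.prime.dvd_prod_iff.1
      ((hs u hu).2.trans (Nat.dvd_of_mod_eq_zero (o4 n hn).1))
    exact (Nat.prime_dvd_prime_iff_eq (hs u hu).1.1 (lab x hx).1).1 e ▸ hx
  have h6 : ∀ u ∈ cs, 0 ≤ (LinearMap.proj 3 : (Fin 4 → ℝ) →ₗ[ℝ] ℝ) (c u) := fun u hu => by
    by_cases e : u = 257
    · exact (e ▸ h5).ge
    · exact (h4 u hu e).le
  have left : ∀ w ∈ Cn ch, poly_pull m z a c cs (cen cs c w) = w := by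
    rintro w ⟨hw, -, n, hn, hs⟩
    funext x
    rw [poly_pull_cen hw (fun u hu => (hs u hu).2) h1 (o4 n hn).2]
    split_ifs with e
    · rfl
    · exact (not_not.1 (mt (mem hn hs x) e)).symm
  have onto : ∀ v : Fin 4 → ℝ, 0 < v 3 ∧ (∀ s < m, 0 ≤ a s v) → ∃ w ∈ Cn ch, cen cs c w = v := by
    intro v hv
    obtain ⟨w, w1, ⟨n, hn, -, w2⟩, e⟩ := poly_onto lab nd h1 h2 h3 3 _ _ o3 o1 dvd_rfl v hv.2
      fun s _ h => by
        rw [o2, Nat.zero_testBit] at h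
        cases h
    refine ⟨w, ⟨w1, by_contra fun h => hv.1.ne' ?_, n, hn, w2⟩, e⟩
    rw [← e]
    refine (cen_zero w1 h6).2 fun u _ hu => ?_
    obtain rfl : u = 257 := by_contra fun e => h ⟨u, e, hu⟩
    exact h5
  refine ⟨poly_pull m z a c cs, poly_pull_cont m z a c cs, ?_, fun v hv => ?_, left,
    fun v hv => ?_⟩
  · rintro w ⟨hw, ⟨u, u1, u2⟩, n, hn, hs⟩
    have hu := mem hn hs u u2
    exact ⟨(poly_nonneg hw h6).lt_of_ne' fun h =>
      (h4 u hu u1).ne' ((cen_zero hw h6).1 h u hu u2),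
      fun s hs => poly_nonneg hw fun x hx => (h1 x hx s hs).1⟩
  · obtain ⟨w, hw, rfl⟩ := onto v hv
    rwa [left w hw]
  · obtain ⟨w, hw, rfl⟩ := onto v hv
    rw [left w hw]

end Pool.Agent.Lib.MP_36248f_gt.Tp
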