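import Pool.Agent.Lib.MP_36248f_gt.Tp.Tab
import Pool.Agent.Lib.MP_36248f_gt.Tp.Poly

/-!
The labels of the cells of the 120 tiles of a piece. `zt` lists the cells with their masks, `π s`
is the action of mirror `s < g` on the flags, the number `N` packs for each flag `x` and each cell
`j` a label and a depth.
-/

set_option autoImplicit false

noncomputable section

namespace Pool.Agent.Lib.MP_36248f_gt.Tp

open Set

def dg (N b i : ℕ) : ℕ := Nat.mod (Nat.shiftRight N (Nat.mul b i)) (Nat.pow 2 b)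

def upTo (f : ℕ → Bool) (n : ℕ) : Bool :=
  Nat.rec (motive := fun _ => Bool) true (fun k ih => cnd (f k) ih false) n

def exTo (f : ℕ → Bool) (n : ℕ) : Bool :=
  Nat.rec (motive := fun _ => Bool) false (fun k ih => cnd (f k) true ih) n

def lab (N x j : ℕ) : ℕ := Nat.mod (dg N 20 (Nat.add (Nat.mul 43 x) j)) 65536

def dep (N x j : ℕ) : ℕ := Nat.div (dg N 20 (Nat.add (Nat.mul 43 x) j)) 65536

def tabI (N x : ℕ) (zt : List (ℕ × ℕ)) : ℕ → List (ℕ × ℕ) → List (ℕ × ℕ) :=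
  List.rec (motive := fun _ => ℕ → List (ℕ × ℕ) → List (ℕ × ℕ)) (fun _ a => a)
    (fun e _ ih j a => frc e.1 fun u => frc (lab N x j) fun y => frc (Nat.succ j) fun j' =>
      ih j' ((u, y) :: a)) zt

/-- The labels of the cells of the tile with flag `x`. -/
def tab (N : ℕ) (zt : List (ℕ × ℕ)) (x : ℕ) : List (ℕ × ℕ) := tabI N x zt 0 []

def frcT {α : Type} (l : List (ℕ × ℕ)) (f : List (ℕ × ℕ) → α) : α :=
  List.rec (motive := fun _ => α) (f []) (fun a t _ => f (a :: t)) l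

def allI (f : ℕ → ℕ → ℕ → Bool) (zt : List (ℕ × ℕ)) : ℕ → Bool :=
  List.rec (motive := fun _ => ℕ → Bool) (fun _ => true)
    (fun e _ ih j => cnd (f j e.1 e.2) (frc (Nat.succ j) ih) false) zt

def rootI (N x : ℕ) (zt : List (ℕ × ℕ)) : ℕ → List ℕ → List ℕ :=
  List.rec (motive := fun _ => ℕ → List ℕ → List ℕ) (fun _ a => a)
    (fun e _ ih j a => frc (Nat.succ j) fun j' => cnd (Nat.beq e.1 257) (ih j' a)
      (cnd (Nat.beq (dep N x j) 0) (frc (lab N x j) fun y => ih j' (y :: a)) (ih j' a))) zt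

/-- The labels of depth zero. -/
def roots (N : ℕ) (zt : List (ℕ × ℕ)) (n : ℕ) : List ℕ → List ℕ :=
  Nat.rec (motive := fun _ => List ℕ → List ℕ) (fun a => a)
    (fun x ih a => frcL (rootI N x zt 0 a) ih) n

def flagOk (N : ℕ) (zt : List (ℕ × ℕ)) (g : ℕ) (π : ℕ → ℕ → ℕ) (sg : ℕ → ℕ) : Bool :=
  cnd (labs (roots N zt 120 []) (Nat.mul PR 257)) (upTo (fun x =>
    cnd (frcT (tab N zt x) tabOk) (cnd (upTo (fun s => frc (π s x) fun y =>
        cnd (Nat.ble y 119) (cnd (Nat.beq (π s y) x)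
          (cnd (cnd (Nat.testBit (lk zt 257) s) (Nat.beq (sg y) (sg x)) true)
            (allI (fun j _ m => cnd (Nat.testBit m s) (Nat.beq (lab N y j) (lab N x j)) true) zt 0)
            false) false) false) g)
      (allI (fun j u m => cnd (Nat.beq u 257) true (frc (dep N x j) fun d => cnd (Nat.beq d 0) true
        (exTo (fun s => cnd (Nat.testBit m s) (Nat.ble (Nat.succ (dep N (π s x) j)) d) false) g)))
        zt 0) false) false) 120) false

/-- The cells that divide `n` have increasing masks, and the cusp comes last. -/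
def chain1 (g n : ℕ) : List (ℕ × ℕ) → Bool
  | [] => true
  | e :: l => (l.isEmpty || e.1 != 257) &&
      (n % e.1 != 0 || l.all fun e' => n % e'.1 != 0 || sub g e.2 e'.2) && chain1 g n l

def chainOk (g : ℕ) (zt : List (ℕ × ℕ)) (ch : List ℕ) : Bool :=
  ch.all fun n => (fsts zt).prod % n == 0 && chain1 g n zt

/-- The complex of the piece. -/
def cx0 (N : ℕ) (zt : List (ℕ × ℕ)) (ch : List ℕ) (n : ℕ) : List ℕ → List ℕ :=
  Nat.rec (motive := fun _ => List ℕ → List ℕ) (fun a => a)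
    (fun x ih a => frcT (tab N zt x) fun T => frcL (trL T ch a) ih) n

theorem upTo_iff {f : ℕ → Bool} {n : ℕ} : upTo f n = true ↔ ∀ k < n, f k = true := by
  induction n with
  | zero => simp [upTo]
  | succ n ih =>
    change cnd (f n) (upTo f n) false = true ↔ _
    rw [cnd_and, ih, Nat.forall_lt_succ_right, and_comm]

theorem exTo_iff {f : ℕ → Bool} {n : ℕ} : exTo f n = true ↔ ∃ k < n, f k = true := by
  induction n with
  | zero => simp [exTo]
  | succ n ih =>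
    change cnd (f n) true (exTo f n) = true ↔ _
    rw [cnd_or, ih, Nat.exists_lt_succ_right, or_comm]

@[simp] theorem frcT_eq {α : Type} (l : List (ℕ × ℕ)) (f : List (ℕ × ℕ) → α) : frcT l f = f l := by
  cases l <;> rfl

theorem mem_cx0 {N : ℕ} {zt : List (ℕ × ℕ)} {ch : List ℕ} {n y : ℕ} {a : List ℕ} :
    y ∈ cx0 N zt ch n a ↔ y ∈ a ∨ ∃ x < n, y ∈ trL (tab N zt x) ch [] := by
  induction n generalizing a with
  | zero => simp [cx0]
  | succ n ih =>
    change y ∈ frcT (tab N zt n) (fun T => frcL (trL T ch a) (cx0 N zt ch n)) ↔ _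
    rw [frcT_eq, frcL_eq, ih, Nat.exists_lt_succ_right, mem_trL, mem_trL (T := tab N zt n)]
    simp only [List.not_mem_nil, false_or, or_assoc]
    exact or_congr_right or_comm

theorem flag_tabI_cons (N x : ℕ) (e : ℕ × ℕ) (l : List (ℕ × ℕ)) (j : ℕ) (a : List (ℕ × ℕ)) :
    tabI N x (e :: l) j a = tabI N x l (j + 1) ((e.1, lab N x j) :: a) := by
  change frc e.1 (fun u => frc (lab N x j) fun y => frc (Nat.succ j) fun j' =>
    tabI N x l j' ((u, y) :: a)) = _
  simp only [frc_eq]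

theorem flag_ex_cons {e : ℕ × ℕ} {l : List (ℕ × ℕ)} {P : ℕ → ℕ × ℕ → Prop} :
    (∃ i c, (e :: l)[i]? = some c ∧ P i c) ↔ P 0 e ∨ ∃ i c, l[i]? = some c ∧ P (i + 1) c := by
  constructor
  · rintro ⟨_ | i, c, h, k⟩
    · obtain rfl : e = c := by simpa using h
      exact Or.inl k
    · exact Or.inr ⟨i, c, by simpa using h, k⟩
  · rintro (h | ⟨i, c, h, k⟩)
    · exact ⟨0, e, rfl, h⟩
    · exact ⟨i + 1, c, by simpa using h, k⟩

theorem flag_mem_tabI {N x : ℕ} {p : ℕ × ℕ} : ∀ {zt : List (ℕ × ℕ)} {j : ℕ} {a : List (ℕ × ℕ)},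
    p ∈ tabI N x zt j a ↔ p ∈ a ∨ ∃ i c, zt[i]? = some c ∧ p = (c.1, lab N x (j + i))
  | [], j, a => by simp [tabI]
  | e :: l, j, a => by
    rw [flag_tabI_cons, flag_mem_tabI, flag_ex_cons (P := fun i c => p = (c.1, lab N x (j + i)))]
    simp only [List.mem_cons, Nat.add_zero, Nat.add_assoc, Nat.add_comm 1]
    tauto

theorem flag_mem_tab {N x : ℕ} {zt : List (ℕ × ℕ)} {p : ℕ × ℕ} :
    p ∈ tab N zt x ↔ ∃ i c, zt[i]? = some c ∧ p = (c.1, lab N x i) := by
  simp [tab, flag_mem_tabI]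

theorem flag_fsts_tabI {N x : ℕ} : ∀ (zt : List (ℕ × ℕ)) (j : ℕ) (a : List (ℕ × ℕ)),
    fsts (tabI N x zt j a) = rapp (fsts zt) (fsts a)
  | [], _, _ => rfl
  | e :: l, j, a => by
    rw [flag_tabI_cons, flag_fsts_tabI]
    rfl

theorem flag_perm (N : ℕ) (zt : List (ℕ × ℕ)) (x : ℕ) : (fsts (tab N zt x)).Perm (fsts zt) := by
  rw [tab, flag_fsts_tabI]
  simpa [fsts] using rapp_perm (fsts zt) []

theorem mem_tab {N : ℕ} {zt : List (ℕ × ℕ)} {x u : ℕ} :
    (∃ y, (u, y) ∈ tab N zt x) ↔ u ∈ fsts zt := by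
  rw [← (flag_perm N zt x).mem_iff, fsts_eq]
  simp

theorem flag_allI {f : ℕ → ℕ → ℕ → Bool} : ∀ {zt : List (ℕ × ℕ)} {j : ℕ}, allI f zt j = true →
    ∀ i c, zt[i]? = some c → f (j + i) c.1 c.2 = true
  | [], _, _, i, c, h => by simp at h
  | e :: l, j, h, i, c, k => by
    change cnd (f j e.1 e.2) (frc (Nat.succ j) (allI f l)) false = true at h
    rw [cnd_and, frc_eq] at h
    cases i with
    | zero =>
      obtain rfl : e = c := by simpa using k
      exact h.1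
    | succ i =>
      have := flag_allI h.2 i c (by simpa using k)
      rwa [Nat.succ_add_eq_add_succ] at this

/-- `y` is the label of a cell of depth zero of the flag `x`. -/
def Rt (N : ℕ) (zt : List (ℕ × ℕ)) (x j y : ℕ) : Prop :=
  ∃ i c, zt[i]? = some c ∧ c.1 ≠ 257 ∧ dep N x (j + i) = 0 ∧ y = lab N x (j + i)

theorem flag_rootI {N x : ℕ} : ∀ (zt : List (ℕ × ℕ)) (j : ℕ) (a : List ℕ),
    ∃ L, rootI N x zt j a = L ++ a ∧ ∀ y, Rt N zt x j y → y ∈ L
  | [], _, a => ⟨[], rfl, fun y h => by simp [Rt] at h⟩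
  | e :: l, j, a => by
    have e0 : rootI N x (e :: l) j a = frc (Nat.succ j) fun j' =>
      cnd (Nat.beq e.1 257) (rootI N x l j' a) (cnd (Nat.beq (dep N x j) 0)
        (frc (lab N x j) fun y => rootI N x l j' (y :: a)) (rootI N x l j' a)) := rfl
    have e1 : ∀ y, Rt N (e :: l) x j y →
        (e.1 ≠ 257 ∧ dep N x j = 0 ∧ y = lab N x j) ∨ Rt N l x (j + 1) y := fun y h => by
      have := (flag_ex_cons (P := fun i c => c.1 ≠ 257 ∧ dep N x (j + i) = 0 ∧
        y = lab N x (j + i))).1 h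
      simpa only [Rt, Nat.add_zero, Nat.add_assoc, Nat.add_comm 1] using this
    simp only [frc_eq] at e0
    by_cases h : e.1 ≠ 257 ∧ dep N x j = 0
    · obtain ⟨L, h1, h2⟩ := flag_rootI (N := N) (x := x) l (j + 1) (lab N x j :: a)
      refine ⟨L ++ [lab N x j], ?_, fun y k => ?_⟩
      · rw [e0, Bool.eq_false_iff.2 (fun k => h.1 (Nat.beq_eq.mp k)), Nat.beq_eq.mpr h.2]
        simpa using h1
      · rcases e1 y k with k | k
        · simp [k.2.2]
        · exact List.mem_append_left _ (h2 y k)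
    · obtain ⟨L, h1, h2⟩ := flag_rootI (N := N) (x := x) l (j + 1) a
      refine ⟨L, ?_, fun y k => h2 y ((e1 y k).resolve_left fun k => h ⟨k.1, k.2.1⟩)⟩
      rw [e0]
      by_cases k : e.1 = 257
      · rw [Nat.beq_eq.mpr k]
        exact h1
      · rw [Bool.eq_false_iff.2 (fun k' => k (Nat.beq_eq.mp k')),
          Bool.eq_false_iff.2 (fun k' => h ⟨k, Nat.beq_eq.mp k'⟩)]
        exact h1

theorem flag_roots {N : ℕ} {zt : List (ℕ × ℕ)} {y : ℕ} : ∀ (n : ℕ) (a : List ℕ),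
    (roots N zt n a).Nodup → a.Nodup ∧ ∀ x < n, Rt N zt x 0 y →
      y ∉ a ∧ ∀ x' < x, ¬ Rt N zt x' 0 y
  | 0, _, h => ⟨h, fun _ k => absurd k (Nat.not_lt_zero _)⟩
  | n + 1, a, h => by
    change (frcL (rootI N n zt 0 a) (roots N zt n)).Nodup at h
    obtain ⟨L, h1, h2⟩ := flag_rootI (N := N) (x := n) zt 0 a
    rw [frcL_eq, h1] at h
    obtain ⟨h3, h4⟩ := flag_roots (y := y) n _ h
    rw [List.nodup_append] at h3
    refine ⟨h3.2.1, fun x hx k => ?_⟩
    rcases (Nat.lt_succ_iff.1 hx).eq_or_lt with rfl | hx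
    · exact ⟨fun k' => h3.2.2 y (h2 y k) y k' rfl,
        fun x' hx' k' => (h4 x' hx' k').1 (List.mem_append_left _ (h2 y k))⟩
    · exact ⟨fun k' => (h4 x hx k).1 (List.mem_append_right _ k'), (h4 x hx k).2⟩

theorem flag_nodup {l : List ℕ} {R : ℕ} (h : labs l R = true) : l.Nodup := by
  obtain ⟨h1, h2⟩ := labs_spec h
  refine h2.imp_of_mem fun {a b} ha _ k e => ?_
  rw [← e, Nat.coprime_self] at k
  have := (h1 a ha).1
  omega

variable {N : ℕ} {zt : List (ℕ × ℕ)} {g : ℕ} {π : ℕ → ℕ → ℕ} {sg : ℕ → ℕ} {ch : List ℕ}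

theorem flag_spec (h : flagOk N zt g π sg = true) : (roots N zt 120 []).Nodup ∧ ∀ x < 120,
    tabOk (tab N zt x) = true ∧ (∀ s < g, π s x < 120 ∧ π s (π s x) = x ∧
      ((lk zt 257).testBit s = true → sg (π s x) = sg x) ∧
        ∀ i c, zt[i]? = some c → c.2.testBit s = true → lab N (π s x) i = lab N x i) ∧
      ∀ i c, zt[i]? = some c → c.1 ≠ 257 → dep N x i ≠ 0 →
        ∃ s < g, c.2.testBit s = true ∧ dep N (π s x) i < dep N x i := by
  simp only [flagOk, cnd_and, upTo_iff, frcT_eq, frc_eq, Nat.ble_eq, Nat.beq_eq] at h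
  refine ⟨flag_nodup h.1, fun x hx => ?_⟩
  obtain ⟨h1, h2, h3⟩ := h.2 x hx
  refine ⟨h1, fun s hs => ?_, fun i c k k1 k2 => ?_⟩
  · obtain ⟨a1, a2, a3, a4⟩ := h2 s hs
    refine ⟨by omega, a2, fun k => ?_, fun i c k k1 => ?_⟩
    · rwa [k, cnd_true, Nat.beq_eq] at a3
    · have := flag_allI a4 i c k
      rwa [k1, cnd_true, Nat.beq_eq, Nat.zero_add] at this
  · have := flag_allI h3 i c k
    simp only [cnd_or, Nat.beq_eq, exTo_iff, cnd_and, Nat.ble_eq, Nat.zero_add] at this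
    exact (this.resolve_left k1).resolve_left k2

theorem flag_tab (h : flagOk N zt g π sg = true) {x : ℕ} (hx : x < 120) : TabOk (tab N zt x) :=
  tabOk_spec ((flag_spec h).2 x hx).1

theorem flag_in (h : flagOk N zt g π sg = true) (hc : chainOk g zt ch = true) {x : ℕ}
    (hx : x < 120) : inTab (tab N zt x) ch = true := by
  have _ := flag_tab h hx
  simp only [chainOk, List.all_eq_true, Bool.and_eq_true, beq_iff_eq] at hc
  simp only [inTab, frc_eq, allL_iff, dv_iff, prd_eq, (flag_perm N zt x).prod_eq]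
  exact fun n hn => Nat.dvd_of_mod_eq_zero (hc n hn).1

theorem flag_nd (h : flagOk N zt g π sg = true) : (zt.map Prod.fst).Nodup := by
  have := ((flag_spec h).2 0 (by omega)).1
  rw [tabOk, cnd_and] at this
  rw [← fsts_eq]
  exact (flag_perm N zt 0).nodup_iff.1 (flag_nodup this.1)

theorem flag_lk (h : flagOk N zt g π sg = true) {c : ℕ × ℕ} (hc : c ∈ zt) : lk zt c.1 = c.2 :=
  congrArg Prod.snd (List.inj_on_of_nodup_map (flag_nd h) (tab_lk_ex (v := c.2) hc) hc rfl)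

theorem flag_idx (h : flagOk N zt g π sg = true) {i j : ℕ} {c d : ℕ × ℕ} (hi : zt[i]? = some c)
    (hj : zt[j]? = some d) (e : c.1 = d.1) : i = j := by
  refine (List.getElem?_inj (l := zt.map Prod.fst) ?_ (flag_nd h)).1 (by simp [hi, hj, e])
  rw [List.length_map]
  exact (List.getElem?_eq_some_iff.1 hi).1

/-- One step along a mirror through all cells of the support of `w`. -/
def Stp (zt : List (ℕ × ℕ)) (g : ℕ) (π : ℕ → ℕ → ℕ) (w : ℕ → ℝ) (a b : ℕ) : Prop :=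
  a < 120 ∧ ∃ s < g, (∀ u, w u ≠ 0 → (lk zt u).testBit s = true) ∧ b = π s a

theorem flag_ps {T T' : List (ℕ × ℕ)} (h : TabOk T) (h' : TabOk T') {w : ℕ → ℝ}
    (e : ∀ u v, w u ≠ 0 → ((u, v) ∈ T ↔ (u, v) ∈ T')) : ps T w = ps T' w := by
  funext v
  by_cases k : ps T w v = 0
  · by_contra k'
    obtain ⟨u, a, b⟩ := ps_ne (T := T') (w := w) (v := v) fun x => k' (k.trans x.symm)
    exact k' (by rw [b, h.ps_eq ((e u v fun x => k' (by rw [k, b, x])).2 a)])
  · obtain ⟨u, a, b⟩ := ps_ne k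
    rw [b, h'.ps_eq ((e u v (b ▸ k)).1 a)]

theorem flag_bw (h : flagOk N zt g π sg = true) {x x' : ℕ} (hx : x < 120) {w : ℕ → ℝ}
    (r : Relation.ReflTransGen (Stp zt g π w) x x') :
    x' < 120 ∧ ps (tab N zt x) w = ps (tab N zt x') w := by
  induction r with
  | refl => exact ⟨hx, rfl⟩
  | tail _ k ih =>
    obtain ⟨ha, s, hs, k, rfl⟩ := k
    obtain ⟨a1, -, -, a4⟩ := ((flag_spec h).2 _ ha).2.1 s hs
    refine ⟨a1, ih.2.trans (flag_ps (flag_tab h ha) (flag_tab h a1) fun u v hu => ?_)⟩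
    simp only [flag_mem_tab]
    refine exists_congr fun i => exists_congr fun c => and_congr_right fun e => ?_
    by_cases e' : u = c.1
    · rw [a4 i c e (by rw [← flag_lk h (List.mem_of_getElem? e), ← e']; exact k u hu)]
    · simp [e']

theorem flag_down (h : flagOk N zt g π sg = true) {i : ℕ} {c : ℕ × ℕ}
    (e : zt[i]? = some c) (hc : c.1 ≠ 257) (Q : ℕ → ℕ → Prop) (q0 : ∀ x, Q x x)
    (q1 : ∀ x < 120, ∀ s < g, c.2.testBit s = true → ∀ r, Q (π s x) r → Q x r) :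
    ∀ d, ∀ x < 120, dep N x i = d → ∃ r < 120, dep N r i = 0 ∧ lab N r i = lab N x i ∧ Q x r := by
  intro d
  induction d using Nat.strong_induction_on with
  | _ d ih =>
    intro x hx hd
    by_cases k : dep N x i = 0
    · exact ⟨x, hx, k, rfl, q0 x⟩
    · obtain ⟨-, a2, a3⟩ := (flag_spec h).2 x hx
      obtain ⟨s, hs, b1, b2⟩ := a3 i c e hc k
      obtain ⟨r, hr, c1, c2, c3⟩ := ih _ (hd ▸ b2) _ (a2 s hs).1 rfl
      exact ⟨r, hr, c1, c2.trans ((a2 s hs).2.2.2 i c e b1), q1 x hx s hs b1 r c3⟩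

theorem flag_first {n : ℕ} {w : ℕ → ℝ} (hs : ∀ u, w u ≠ 0 → u ∣ n) : ∀ {l : List (ℕ × ℕ)},
    chain1 g n l = true → (∃ e ∈ l, e.1 ≠ 257 ∧ w e.1 ≠ 0) → ∃ e ∈ l, e.1 ≠ 257 ∧ w e.1 ≠ 0 ∧
      ∀ e' ∈ l, w e'.1 ≠ 0 → ∀ s < g, e.2.testBit s = true → e'.2.testBit s = true
  | [], _, h => by simp at h
  | e :: l, hc, h => by
    simp only [chain1, Bool.and_eq_true, Bool.or_eq_true, List.all_eq_true, bne_iff_ne, poly_sub,
      List.isEmpty_iff] at hc
    obtain ⟨⟨c1, c2⟩, c3⟩ := hc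
    have dz : ∀ u, w u ≠ 0 → ¬ n % u ≠ 0 := fun u hu k => k (Nat.mod_eq_zero_of_dvd (hs u hu))
    by_cases k : w e.1 = 0
    · obtain ⟨a, ha, k1, k2⟩ := h
      obtain ⟨b, hb, b1, b2, b3⟩ := flag_first hs c3
        ⟨a, (List.mem_cons.1 ha).resolve_left fun x => k2 (x ▸ k), k1, k2⟩
      exact ⟨b, List.mem_cons_of_mem _ hb, b1, b2,
        List.forall_mem_cons.2 ⟨fun x => absurd k x, b3⟩⟩
    · refine ⟨e, List.mem_cons_self, ?_, k, List.forall_mem_cons.2 ⟨fun _ _ _ x => x,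
        fun a ha k' => ((c2.resolve_left (dz _ k)) a ha).resolve_left (dz _ k')⟩⟩
      rcases c1 with rfl | c1
      · obtain ⟨a, ha, k1, -⟩ := h
        rwa [← List.mem_singleton.1 ha]
      · exact c1

theorem flag_eq (h : flagOk N zt g π sg = true) (hc : chainOk g zt ch = true) {x x' : ℕ}
    (hx : x < 120) (hx' : x' < 120) {w w' : ℕ → ℝ} (hw : w ∈ Cn ch) (hw' : w' ∈ Cn ch) :
    ps (tab N zt x) w = ps (tab N zt x') w' ↔
      w = w' ∧ Relation.ReflTransGen (Stp zt g π w) x x' := by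
  refine ⟨fun E => ?_, fun k => k.1 ▸ (flag_bw h hx k.2).2⟩
  have T := flag_tab h hx
  have T' := flag_tab h hx'
  suffices r : Relation.ReflTransGen (Stp zt g π w) x x' by
    have B := T'.bij (flag_in h hc hx')
    refine ⟨?_, r⟩
    rw [← B.l w hw, ← B.l w' hw', ← E, (flag_bw h hx r).2]
  obtain ⟨-, ⟨u0, hu0, hu1⟩, n, hn, hs⟩ := hw
  have hz : ∀ u, w u ≠ 0 → ∃ e ∈ zt, e.1 = u := fun u hu => by
    have := mem_tab.1 (T.inTab_spec (flag_in h hc hx) n hn u (hs u hu).1.1 (hs u hu).2)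
    rwa [fsts_eq, List.mem_map] at this
  simp only [chainOk, List.all_eq_true, Bool.and_eq_true] at hc
  obtain ⟨c, hc0, c1, c2, c3⟩ := flag_first (fun u hu => (hs u hu).2) (hc n hn).2
    (by
      obtain ⟨e, he, rfl⟩ := hz u0 hu1
      exact ⟨e, he, hu0, hu1⟩)
  have hm : ∀ s < g, c.2.testBit s = true → ∀ u, w u ≠ 0 → (lk zt u).testBit s = true := by
    intro s hs k u hu
    obtain ⟨e, he, rfl⟩ := hz u hu
    rw [flag_lk h he]
    exact c3 e he hu s hs k
  obtain ⟨i, hi⟩ := List.getElem?_of_mem hc0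
  have m1 : (c.1, lab N x i) ∈ tab N zt x := flag_mem_tab.2 ⟨i, c, hi, rfl⟩
  obtain ⟨u', m2, -⟩ := ps_ne (T := tab N zt x') (w := w') (v := lab N x i)
    (by rwa [← E, T.ps_eq m1])
  obtain ⟨j, d, hj, e⟩ := flag_mem_tab.1 m2
  rw [Prod.mk.injEq] at e
  obtain ⟨rfl, e⟩ := e
  have d1 : d.1 ≠ 257 := fun k => c1 (Prod.mk.inj (T.i2 _ m1 _ T.cusp
    (Prod.mk.inj (T'.i1 _ m2 _ T'.cusp k)).2)).1
  obtain ⟨r, hr, a1, a2, a3⟩ := flag_down h hi c1
    (Relation.ReflTransGen (Stp zt g π w)) (fun _ => .refl)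
    (fun y hy s hs k _ q => .head ⟨hy, s, hs, hm s hs k, rfl⟩ q) _ x hx rfl
  obtain ⟨r', hr', b1, b2, b3⟩ := flag_down h hj d1
    (fun a b => j = i → Relation.ReflTransGen (Stp zt g π w) b a) (fun _ _ => .refl)
    (fun y hy s hs k _ q ji => by
      obtain ⟨p1, p2, -⟩ := ((flag_spec h).2 y hy).2.1 s hs
      obtain rfl : d = c := Option.some.inj (by rw [← hj, ← hi, ji])
      exact (q ji).tail ⟨p1, s, hs, hm s hs k, p2.symm⟩) _ x' hx' rfl
  have R := (flag_roots (y := lab N x i) 120 [] (flag_spec h).1).2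
  have R1 : Rt N zt r 0 (lab N x i) := ⟨i, c, hi, c1, by simpa using a1, by simpa using a2.symm⟩
  have R2 : Rt N zt r' 0 (lab N x i) :=
    ⟨j, d, hj, d1, by simpa using b1, by simpa using e.trans b2.symm⟩
  obtain rfl : r = r' := le_antisymm (not_lt.1 fun k => (R r hr R1).2 _ k R2)
    (not_lt.1 fun k => (R r' hr' R2).2 _ k R1)
  refine a3.trans (b3 (flag_idx h hj hi (Prod.mk.inj ((flag_tab h hr).i2 _
    (flag_mem_tab.2 ⟨j, d, hj, rfl⟩) _ (flag_mem_tab.2 ⟨i, c, hi, rfl⟩) ?_)).1))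
  exact b2.trans (e.symm.trans a2.symm)

theorem flag_sg (h : flagOk N zt g π sg = true) {x x' : ℕ} {w : ℕ → ℝ} (hw : w 257 ≠ 0)
    (r : Relation.ReflTransGen (Stp zt g π w) x x') : sg x = sg x' := by
  induction r with
  | refl => rfl
  | tail _ k ih =>
    obtain ⟨ha, s, hs, k, rfl⟩ := k
    exact ih.trans ((((flag_spec h).2 _ ha).2.1 s hs).2.2.1 (k 257 hw)).symm

end Pool.Agent.Lib.MP_36248f_gt.Tp
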