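import Pool.Agent.Lib.MP_36248f_gt.Tp.G0
import Pool.Agent.Lib.MP_36248f_gt.Tp.Q11

/-!
The tables of the glued complex.
-/

set_option autoImplicit false
set_option maxRecDepth 100000
set_option exponentiation.threshold 100000

noncomputable section

namespace Pool.Agent.Lib.MP_36248f_gt.Tp

theorem hRR : upTo (fun k => frcT (RR k) fun R => cnd (tabOk R) (inTab R (XX (ty k))) false) 7 = true := by
  decide +kernel

theorem hfar : upTo (fun j => upTo (fun i => farOk (RR i) (RR j)) (j - 1)) 7 = true := by
  decide +kernel

theorem hnear : upTo (fun k => frcT (RR k) fun R => frcT (RR (k + 1)) fun R' => frcT (TW k) fun T =>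
    nearOk R R' T) 6 = true := by
  decide +kernel


end Pool.Agent.Lib.MP_36248f_gt.Tp
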