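import Pool.Agent.Lib.MP_36248f_gt.Tp.Tab

/-!
Moves on a wall. A triangle of the wall comes with a lift: integral symmetric matrices
`[[u, x], [x, w]]`, written `(x, u, w)`, for its labels. Lifts are taken up to the group `inL`.
-/

set_option autoImplicit false

noncomputable section

namespace Pool.Agent.Lib.MP_36248f_gt.Tp

open Set

abbrev Z3 : Type := ℤ × ℤ × ℤ
abbrev R3 : Type := ℝ × ℝ × ℝ
abbrev M2 : Type := ℤ × ℤ × ℤ × ℤ
abbrev Cfg : Type := List (ℕ × Z3)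

/-- `S ↦ m S mᵀ` for `m = [[a, b], [c, d]]`, on integral vectors. -/
def mz (m : M2) (v : Z3) : Z3 :=
  Prod.rec (fun a m => Prod.rec (fun b m => Prod.rec (fun c d => Prod.rec (fun x v =>
    Prod.rec (fun u w =>
      ((a * c * u + (a * d + b * c) * x + b * d * w, a * a * u + 2 * a * b * x + b * b * w,
        c * c * u + 2 * c * d * x + d * d * w) : Z3)) v) v) m) m) m

/-- The same on real vectors. -/
def mr (m : M2) (v : R3) : R3 :=
  (m.1 * m.2.2.1 * v.2.1 + (m.1 * m.2.2.2 + m.2.1 * m.2.2.1) * v.1 + m.2.1 * m.2.2.2 * v.2.2,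
    m.1 * m.1 * v.2.1 + 2 * m.1 * m.2.1 * v.1 + m.2.1 * m.2.1 * v.2.2,
    m.2.2.1 * m.2.2.1 * v.2.1 + 2 * m.2.2.1 * m.2.2.2 * v.1 + m.2.2.2 * m.2.2.2 * v.2.2)

def cst (v : Z3) : R3 := (v.1, v.2.1, v.2.2)

/-- The group of the wall. -/
def inL (m : M2) : Prop :=
  m.1 * m.2.2.2 - m.2.1 * m.2.2.1 = 1 ∧ m.2.2.1 % 25 = 0 ∧ (m.1 % 5 = 1 ∨ m.1 % 5 = 4) ∧
    (m.1 - m.2.2.2) % 5 = 0

instance : DecidablePred inL := fun m => by unfold inL; infer_instance

def Eqv (p p' : R3) : Prop := ∃ m, inL m ∧ p = mr m p'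

/-- The product of two matrices. -/
def mm (m m' : M2) : M2 :=
  (m.1 * m'.1 + m.2.1 * m'.2.2.1, m.1 * m'.2.1 + m.2.1 * m'.2.2.2,
    m.2.2.1 * m'.1 + m.2.2.2 * m'.2.2.1, m.2.2.1 * m'.2.1 + m.2.2.2 * m'.2.2.2)

theorem mr_mr (m m' : M2) (v : R3) : mr m (mr m' v) = mr (mm m m') v := by
  refine Prod.ext ?_ (Prod.ext ?_ ?_) <;> simp only [mr, mm] <;> push_cast <;> ring

theorem mr_one (v : R3) : mr (1, 0, 0, 1) v = v := by
  refine Prod.ext ?_ (Prod.ext ?_ ?_) <;> simp [mr]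

theorem mr_smul (m : M2) (c : ℝ) (v : R3) : mr m (c • v) = c • mr m v := by
  refine Prod.ext ?_ (Prod.ext ?_ ?_) <;>
    simp only [mr, Prod.smul_fst, Prod.smul_snd, smul_eq_mul] <;> ring

theorem mr_add (m : M2) (v v' : R3) : mr m (v + v') = mr m v + mr m v' := by
  refine Prod.ext ?_ (Prod.ext ?_ ?_) <;> simp only [mr, Prod.fst_add, Prod.snd_add] <;> ring

theorem inL_iff {a b c d : ℤ} : inL (a, b, c, d) ↔ a * d - b * c = 1 ∧
    ∃ k p r e : ℤ, (e = 1 ∨ e = -1) ∧ c = 25 * k ∧ a = 5 * p + e ∧ d = 5 * r + e := by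
  unfold inL
  refine and_congr_right fun _ => ⟨?_, ?_⟩
  · rintro ⟨h1, h2 | h2, h3⟩ <;> dsimp only at h1 h2 h3
    · exact ⟨c / 25, a / 5, d / 5, 1, Or.inl rfl, by omega, by omega, by omega⟩
    · exact ⟨c / 25, a / 5 + 1, d / 5 + 1, -1, Or.inr rfl, by omega, by omega, by omega⟩
  · rintro ⟨k, p, r, e, he, h1, h2, h3⟩
    dsimp only
    omega

theorem inL.mul {m m' : M2} (h : inL m) (h' : inL m') : inL (mm m m') := by
  obtain ⟨a, b, c, d⟩ := m
  obtain ⟨a', b', c', d'⟩ := m'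
  obtain ⟨h0, k, p, r, e, he, h1, h2, h3⟩ := inL_iff.1 h
  obtain ⟨h0', k', p', r', e', he', h1', h2', h3'⟩ := inL_iff.1 h'
  refine inL_iff.2 ⟨?_, k * a' + d * k', 5 * p * p' + p * e' + e * p' + 5 * b * k',
    5 * k * b' + 5 * r * r' + r * e' + e * r', e * e', ?_, ?_, ?_, ?_⟩
  · dsimp only
    linear_combination (a' * d' - b' * c') * h0 + h0'
  · rcases he with rfl | rfl <;> rcases he' with rfl | rfl <;> norm_num
  · dsimp only
    rw [h1, h1']
    ring
  · dsimp only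
    rw [h2, h2', h1']
    ring
  · dsimp only
    rw [h3, h3', h1]
    ring

theorem Eqv.refl (p : R3) : Eqv p p := ⟨(1, 0, 0, 1), by decide, (mr_one p).symm⟩

theorem Eqv.symm {p p' : R3} (h : Eqv p p') : Eqv p' p := by
  obtain ⟨⟨a, b, c, d⟩, hm, rfl⟩ := h
  obtain ⟨h0, k, q, r, e, he, h1, h2, h3⟩ := inL_iff.1 hm
  refine ⟨(d, -b, -c, a), inL_iff.2 ⟨by linear_combination h0, -k, r, q, e, he,
    by linear_combination -h1, h3, h2⟩, ?_⟩
  have : mm (d, -b, -c, a) (a, b, c, d) = (1, 0, 0, 1) := by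
    refine Prod.ext ?_ (Prod.ext ?_ (Prod.ext ?_ ?_)) <;> simp only [mm]
    · linear_combination h0
    · ring
    · ring
    · linear_combination h0
  rw [mr_mr, this, mr_one]

theorem Eqv.trans {p p' p'' : R3} (h : Eqv p p') (h' : Eqv p' p'') : Eqv p p'' := by
  obtain ⟨m, hm, rfl⟩ := h
  obtain ⟨m', hm', rfl⟩ := h'
  exact ⟨mm m m', hm.mul hm', mr_mr m m' p''⟩

theorem Eqv.smul {p p' : R3} (h : Eqv p p') (c : ℝ) : Eqv (c • p) (c • p') := by
  obtain ⟨m, hm, rfl⟩ := h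
  exact ⟨m, hm, (mr_smul m c p').symm⟩

/-- The gluing maps `z ↦ z - j / 5`. -/
def tw (j : ℤ) (p : R3) : R3 := (25 : ℝ)⁻¹ • mr (5, -j, 0, 5) p

theorem Eqv.tw {p p' : R3} (h : Eqv p p') (j : ℤ) : Eqv (tw j p) (tw j p') := by
  obtain ⟨⟨a, b, c, d⟩, hm, rfl⟩ := h
  obtain ⟨h0, k, q, r, e, he, rfl, rfl, rfl⟩ := inL_iff.1 hm
  refine ⟨(5 * (q - j * k) + e, b + j * (q - r) - j * j * k, 25 * k, 5 * (r + j * k) + e),
    inL_iff.2 ⟨by linear_combination h0, k, q - j * k, r + j * k, e, he, rfl, rfl, rfl⟩, ?_⟩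
  unfold Tp.tw
  rw [mr_smul, mr_mr, mr_mr]
  congr 2
  refine Prod.ext ?_ (Prod.ext ?_ (Prod.ext ?_ ?_)) <;> simp only [mm] <;> ring

theorem cst_mz (m : M2) (v : Z3) : cst (mz m v) = mr m (cst v) := by
  obtain ⟨a, b, c, d⟩ := m
  obtain ⟨x, u, w⟩ := v
  refine Prod.ext ?_ (Prod.ext ?_ ?_) <;> simp only [cst, mz, mr] <;> push_cast <;> ring

theorem cst_add (v v' : Z3) : cst (v + v') = cst v + cst v' := by
  refine Prod.ext ?_ (Prod.ext ?_ ?_) <;> simp [cst]

theorem cst_smul (n : ℤ) (v : Z3) : cst (n • v) = (n : ℝ) • cst v := by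
  refine Prod.ext ?_ (Prod.ext ?_ ?_) <;> simp [cst]

/-- The first vector listed for a label, or zero. -/
def vec (ξ : Cfg) (l : ℕ) : Z3 :=
  List.rec (motive := fun _ => Z3) (0, 0, 0) (fun e _ ih => cnd (Nat.beq e.1 l) e.2 ih) ξ

def ev (ξ : Cfg) (w : ℕ → ℝ) : R3 := ∑ l ∈ Finset.range 65536, w l • cst (vec ξ l)

theorem ev_list (ξ : Cfg) {w : ℕ → ℝ} {ls : List ℕ} (nd : ls.Nodup) (h : ∀ l ∈ ls, l < 65536)
    (hw : ∀ u, w u ≠ 0 → u ∈ ls) : ev ξ w = (ls.map fun l => w l • cst (vec ξ l)).sum := by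
  rw [← List.sum_toFinset _ nd, ev]
  refine (Finset.sum_subset (fun l hl => Finset.mem_range.2 (h l (List.mem_toFinset.1 hl)))
    fun l _ hl => ?_).symm
  have : w l = 0 := by_contra fun e => hl (List.mem_toFinset.2 (hw l e))
  rw [this, zero_smul]

theorem ev_smul (ξ : Cfg) (c : ℝ) (w : ℕ → ℝ) : ev ξ (c • w) = c • ev ξ w := by
  simp only [ev, Finset.smul_sum, Pi.smul_apply, smul_eq_mul, mul_smul]

theorem ev_add (ξ : Cfg) (w w' : ℕ → ℝ) : ev ξ (w + w') = ev ξ w + ev ξ w' := by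
  simp only [ev, Pi.add_apply, add_smul, Finset.sum_add_distrib]

theorem ev_sub (ξ : Cfg) (w w' : ℕ → ℝ) : ev ξ (w - w') = ev ξ w - ev ξ w' := by
  simp only [ev, Pi.sub_apply, sub_smul, Finset.sum_sub_distrib]

theorem ev_single (ξ : Cfg) {a : ℕ} (ha : a < 65536) (c : ℝ) :
    ev ξ (fun u => if u = a then c else 0) = c • cst (vec ξ a) := by
  rw [ev_list ξ (ls := [a]) (List.nodup_singleton a) (by simpa using ha) fun u hu => by
    by_contra e
    exact hu (if_neg fun e' => e (List.mem_singleton.2 e'))]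
  simp

/-- The weight `w` lives on a triangle of `F` and describes the point `p`. -/
def Rl (F : List (ℕ × Cfg)) (w : ℕ → ℝ) (p : R3) : Prop := ∃ e ∈ F, Sup w e.1 ∧ Eqv p (ev e.2 w)

/-- The weight lives on the labels of the wall. -/
def Wl (L : ℕ) (w : ℕ → ℝ) : Prop := ∀ u, w u ≠ 0 → u ∣ L

def eqZ (v v' : Z3) : Bool := decide (v = v')

/-- The weighted sum of the vectors of one side of a move. -/
def wsum (ξ : Cfg) (A : List ℕ) : List ℕ → Z3 :=
  List.rec (motive := fun _ => List ℕ → Z3) (fun _ => (0, 0, 0))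
    (fun a _ ih P => ((P.headD 0 + 1 : ℕ) : ℤ) • vec ξ a + ih P.tail) A

/-- The move does not change the point described by `ξ`. -/
def bal (ξ : Cfg) (A B : Sd) : Bool :=
  cnd (labs (rapp A.l B.l) PR) (eqZ (wsum ξ A.l A.ws) (wsum ξ B.l B.ws)) false

theorem ev_wt (ξ : Cfg) : ∀ (A P : List ℕ), A.Nodup → (∀ a ∈ A, a < 65536) →
    ev ξ (wt A P) = cst (wsum ξ A P)
  | [], P, _, _ => by
    have : wt [] P = (0 : ℝ) • fun _ => (0 : ℝ) := by
      funext u
      simp [wt]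
    rw [this, ev_smul, zero_smul]
    refine Prod.ext ?_ (Prod.ext ?_ ?_) <;> simp [cst, wsum]
  | a :: A, P, nd, h => by
    rw [List.nodup_cons] at nd
    rw [List.forall_mem_cons] at h
    have : wt (a :: A) P = (fun u => if u = a then (P.headD 0 : ℝ) + 1 else 0) + wt A P.tail := by
      funext u
      rw [wt, Pi.add_apply]
      split_ifs with e
      · rw [e, wt_zero A _ nd.1, add_zero]
      · rw [zero_add]
    rw [this, ev_add, ev_single ξ h.1, ev_wt ξ A _ nd.2 h.2]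
    change _ = cst (((P.headD 0 + 1 : ℕ) : ℤ) • vec ξ a + wsum ξ A P.tail)
    rw [cst_add, cst_smul]
    push_cast
    rfl

theorem ev_phi (ξ : Cfg) (A B : Sd) (w : ℕ → ℝ) :
    ev ξ (phi A B w) = ev ξ w + A.t w • (ev ξ B.w - ev ξ A.w) := by
  rw [← ev_sub, ← ev_smul, ← ev_add]
  rfl

theorem bal_ev {ξ : Cfg} {A B : Sd} (h : bal ξ A B = true) (w : ℕ → ℝ) :
    ev ξ (phi A B w) = ev ξ w ∧ ev ξ (phi B A w) = ev ξ w := by
  rw [bal, cnd_and, eqZ, decide_eq_true_iff] at h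
  obtain ⟨l1, l2⟩ := labs_spec h.1
  have nd : (rapp A.l B.l).Nodup := by
    refine List.Pairwise.imp_of_mem (fun {a b} ha _ hc e => ?_) l2
    have := (l1 a ha).1
    rw [← e, Nat.coprime_self] at hc
    omega
  have nd' := List.nodup_append.1 ((rapp_perm A.l B.l).nodup_iff.1 nd)
  have hA : ev ξ A.w = cst (wsum ξ A.l A.ws) := ev_wt ξ _ _ nd'.1 fun a ha => by
    have := (l1 a (mem_rapp.2 (Or.inl ha))).2.1
    omega
  have hB : ev ξ B.w = cst (wsum ξ B.l B.ws) := ev_wt ξ _ _ nd'.2.1 fun a ha => by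
    have := (l1 a (mem_rapp.2 (Or.inr ha))).2.1
    omega
  rw [ev_phi, ev_phi, hA, hB, h.2, sub_self, smul_zero, smul_zero, add_zero]
  exact ⟨rfl, rfl⟩

/-- All moves of the program are balanced. -/
def balP (ξ : Cfg) (p : Prog) : Bool :=
  Prog.rec (motive := fun _ => Bool) true (fun A B _ _ ih => cnd (bal ξ A B) ih false)
    (fun _ _ _ ip ir => cnd ip ir false) p

theorem balP_ev {ξ : Cfg} {p : Prog} (h : balP ξ p = true) (w : ℕ → ℝ) :
    ev ξ (p.fw w) = ev ξ w ∧ ev ξ (p.bw w) = ev ξ w := by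
  induction p generalizing w with
  | nil => exact ⟨rfl, rfl⟩
  | mv A B L r ih =>
    change cnd (bal ξ A B) (balP ξ r) false = true at h
    rw [cnd_and] at h
    exact ⟨(ih h.2 _).1.trans (bal_ev h.1 w).1, (bal_ev h.1 _).2.trans (ih h.2 w).2⟩
  | blk D p r ip ir =>
    change cnd (balP ξ p) (balP ξ r) false = true at h
    rw [cnd_and] at h
    exact ⟨(ir h.2 _).1.trans (ip h.1 w).1, (ip h.1 _).2.trans (ir h.2 w).2⟩

def allC (f : ℕ → Bool) (ξ : Cfg) : Bool :=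
  List.rec (motive := fun _ => Bool) true (fun e _ ih => cnd (f e.1) ih false) ξ

/-- On the labels that divide `n` the lift `ξ'` is the image of `ξ` under `m`. -/
def cmp (n : ℕ) (ξ' : Cfg) (m : M2) (ξ : Cfg) : Bool :=
  cnd (decide (inL m))
    (cnd (allC (fun l => cnd (dv l n) (eqZ (vec ξ' l) (mz m (vec ξ l))) true) ξ')
      (allC (fun l => cnd (dv l n) (eqZ (vec ξ' l) (mz m (vec ξ l))) true) ξ) false) false

def cmpL (ξ : Cfg) (O : List (ℕ × Cfg)) : List M2 → Bool :=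
  List.rec (motive := fun _ => List M2 → Bool) (fun _ => true)
    (fun e _ ih ms => List.rec (motive := fun _ => Bool) false
      (fun m t _ => cnd (cmp e.1 e.2 m ξ) (ih t) false) ms) O

def codes (F : List (ℕ × Cfg)) : List ℕ :=
  List.rec (motive := fun _ => List ℕ) [] (fun e _ ih => e.1 :: ih) F

/-- Split by divisibility by `P`; fails if an element of the rest is divisible by `Q`. -/
def partF (P Q : ℕ) (F : List (ℕ × Cfg)) :
    List (ℕ × Cfg) → List (ℕ × Cfg) → Option (List (ℕ × Cfg) × List (ℕ × Cfg)) :=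
  List.rec (motive := fun _ => List (ℕ × Cfg) → List (ℕ × Cfg) →
      Option (List (ℕ × Cfg) × List (ℕ × Cfg))) (fun a p => some (a, p))
    (fun e _ ih a p => cnd (dv P e.1) (ih (e :: a) p) (cnd (dv Q e.1) none (ih a (e :: p)))) F

def pushF (ξ : Cfg) (l : List ℕ) : List (ℕ × Cfg) → List (ℕ × Cfg) :=
  List.rec (motive := fun _ => List (ℕ × Cfg) → List (ℕ × Cfg)) (fun a => a)
    (fun n _ ih a => ih ((n, ξ) :: a)) l

/-- The certificate of a move: common lift, link, matrices for the old triangles. -/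
abbrev Crt : Type := Cfg × List ℕ × List M2

def gstep (A B : Sd) (c : Crt) (F : List (ℕ × Cfg)) : Option (List (ℕ × Cfg)) :=
  Prod.rec (fun ξ c => Prod.rec (fun L ms => frc (prd A.l) fun P => frc (prd B.l) fun Q =>
    Option.rec (motive := fun _ => Option (List (ℕ × Cfg))) none
      (fun z => Prod.rec (motive := fun _ => Option (List (ℕ × Cfg)))
        (fun O K => cnd (bal ξ A B) (cnd (cmpL ξ O ms) (frcL (codes O) fun O' =>
          cnd (allL (fun o => anyL (fun e => dv o (Nat.mul (Nat.mul P Q) e)) L) O')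
            (cnd (allL (fun x => anyL (fun o => dv x o) O') (news Q P B.l L []))
              (some (pushF ξ (news P Q A.l L []) K)) none) none) none) none) z)
      (partF P Q F [] [])) c) c

/-- Follow a program on the wall whose labels are the divisors of `W`. -/
def geo (W : ℕ) (p : Prog) : List Crt → List (ℕ × Cfg) → Option (List Crt × List (ℕ × Cfg)) :=
  Prog.rec (motive := fun _ => List Crt → List (ℕ × Cfg) → Option (List Crt × List (ℕ × Cfg)))
    (fun C F => some (C, F))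
    (fun A B _ _ ih C F => cnd (allL (fun a => dv a W) A.l)
      (cnd (allL (fun a => dv a W) B.l)
        (List.rec (motive := fun _ => Option (List Crt × List (ℕ × Cfg))) none
          (fun c C' _ => Option.rec (motive := fun _ => Option (List Crt × List (ℕ × Cfg))) none
            (fun F' => ih C' F') (gstep A B c F)) C) none)
      (cnd (allL (fun a => dv a W) B.l) none (ih C F)))
    (fun _ _ _ ip ir C F => Option.rec (motive := fun _ => Option (List Crt × List (ℕ × Cfg))) none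
      (fun z => Prod.rec (motive := fun _ => Option (List Crt × List (ℕ × Cfg))) ir z) (ip C F)) p

/-- One direction. -/
def Gh (f : (ℕ → ℝ) → ℕ → ℝ) (W : ℕ) (F F' : List (ℕ × Cfg)) : Prop :=
  ∀ w, (∀ u, 0 ≤ w u) → Wl W w → (∀ u, 0 ≤ f w u) ∧ Wl W (f w) ∧ ∀ p, Rl F w p → Rl F' (f w) p

theorem geob_allC {f : ℕ → Bool} : ∀ {ξ : Cfg}, allC f ξ = true ↔ ∀ e ∈ ξ, f e.1 = true
  | [] => by simp [allC]
  | e :: l => by
    change cnd (f e.1) (allC f l) false = true ↔ _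
    rw [cnd_and, geob_allC, List.forall_mem_cons]

theorem geob_vec {l : ℕ} : ∀ {ξ : Cfg}, (∀ e ∈ ξ, e.1 ≠ l) → vec ξ l = (0, 0, 0)
  | [], _ => rfl
  | e :: ξ, h => by
    rw [List.forall_mem_cons] at h
    change cnd (Nat.beq e.1 l) e.2 (vec ξ l) = _
    cases hb : Nat.beq e.1 l
    · exact geob_vec h.2
    · exact absurd (Nat.eq_of_beq_eq_true hb) h.1

/-- The action of a matrix as a linear map. -/
def geob_lin (m : M2) : R3 →ₗ[ℝ] R3 where
  toFun := mr m
  map_add' v v' := by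
    refine Prod.ext ?_ (Prod.ext ?_ ?_) <;> simp only [mr, Prod.fst_add, Prod.snd_add] <;> ring
  map_smul' c v := by
    refine Prod.ext ?_ (Prod.ext ?_ ?_) <;>
      simp only [mr, Prod.smul_fst, Prod.smul_snd, smul_eq_mul, RingHom.id_apply] <;> ring

theorem geob_cmp {n : ℕ} {ξ' ξ : Cfg} {m : M2} (h : cmp n ξ' m ξ = true) {w : ℕ → ℝ}
    (hw : Sup w n) : Eqv (ev ξ' w) (ev ξ w) := by
  simp only [cmp, cnd_and, geob_allC, decide_eq_true_eq] at h
  refine ⟨m, h.1, ?_⟩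
  change _ = geob_lin m _
  rw [ev, ev, map_sum]
  refine Finset.sum_congr rfl fun l _ => ?_
  rw [map_smul]
  by_cases h0 : w l = 0
  · rw [h0, zero_smul, zero_smul]
  have hd := dv_iff.2 (hw l h0).2
  have key : vec ξ' l = mz m (vec ξ l) := by
    by_cases h1 : ∃ e ∈ ξ', e.1 = l
    · obtain ⟨e, he, rfl⟩ := h1
      have := h.2.1 e he
      rw [hd, cnd_true] at this
      exact of_decide_eq_true this
    by_cases h2 : ∃ e ∈ ξ, e.1 = l
    · obtain ⟨e, he, rfl⟩ := h2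
      have := h.2.2 e he
      rw [hd, cnd_true] at this
      exact of_decide_eq_true this
    push Not at h1 h2
    rw [geob_vec h1, geob_vec h2]
    obtain ⟨a, b, c, d⟩ := m
    simp [mz]
  rw [key, cst_mz]
  rfl

theorem geob_cmpL {ξ : Cfg} : ∀ {O : List (ℕ × Cfg)} {ms : List M2}, cmpL ξ O ms = true →
    ∀ e ∈ O, ∃ m, cmp e.1 e.2 m ξ = true
  | [], _, _ => by simp
  | _ :: _, [], h => by cases h
  | e :: O, m :: ms, h => by
    change cnd (cmp e.1 e.2 m ξ) (cmpL ξ O ms) false = true at h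
    rw [cnd_and] at h
    exact List.forall_mem_cons.2 ⟨⟨m, h.1⟩, geob_cmpL h.2⟩

theorem geob_codes : ∀ F : List (ℕ × Cfg), codes F = F.map Prod.fst
  | [] => rfl
  | e :: F => congrArg (e.1 :: ·) (geob_codes F)

theorem geob_partF {P Q : ℕ} {O K : List (ℕ × Cfg)} : ∀ {F a p : List (ℕ × Cfg)},
    partF P Q F a p = some (O, K) → (∀ e, e ∈ O ↔ e ∈ a ∨ (e ∈ F ∧ P ∣ e.1)) ∧
      (∀ e, e ∈ K ↔ e ∈ p ∨ (e ∈ F ∧ ¬ P ∣ e.1)) ∧ ∀ e ∈ F, ¬ P ∣ e.1 → ¬ Q ∣ e.1
  | [], a, p, h => by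
    obtain ⟨rfl, rfl⟩ : a = O ∧ p = K := Prod.mk.inj (Option.some.inj h)
    simp
  | x :: F, a, p, h => by
    change cnd (dv P x.1) (partF P Q F (x :: a) p) (cnd (dv Q x.1) none (partF P Q F a (x :: p))) =
      _ at h
    cases h1 : dv P x.1
    · have h1' : ¬ P ∣ x.1 := fun e => by simp [dv_iff.2 e] at h1
      cases h2 : dv Q x.1
      · have h2' : ¬ Q ∣ x.1 := fun e => by simp [dv_iff.2 e] at h2
        rw [h1, h2] at h
        obtain ⟨k1, k2, k3⟩ := geob_partF h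
        refine ⟨fun e => ?_, fun e => ?_, List.forall_mem_cons.2 ⟨fun _ => h2', k3⟩⟩
        · rw [k1]
          by_cases he : e = x <;> simp [he, h1']
        · rw [k2]
          by_cases he : e = x <;> simp [he, h1']
      · rw [h1, h2] at h
        cases h
    · have h1' := dv_iff.1 h1
      rw [h1] at h
      obtain ⟨k1, k2, k3⟩ := geob_partF h
      refine ⟨fun e => ?_, fun e => ?_, List.forall_mem_cons.2 ⟨fun e => absurd h1' e, k3⟩⟩
      · rw [k1]
        by_cases he : e = x <;> simp [he, h1']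
      · rw [k2]
        by_cases he : e = x <;> simp [he, h1']

theorem geob_pushF {ξ : Cfg} {e : ℕ × Cfg} : ∀ {l : List ℕ} {a : List (ℕ × Cfg)},
    e ∈ pushF ξ l a ↔ e ∈ a ∨ ∃ n ∈ l, e = (n, ξ)
  | [], a => by simp [pushF]
  | n :: l, a => by
    change e ∈ pushF ξ l ((n, ξ) :: a) ↔ _
    rw [geob_pushF]
    simp only [List.mem_cons, exists_eq_or_imp]
    tauto

theorem geob_wl {A B : Sd} {W : ℕ} (hA : ∀ a ∈ A.l, a ∣ W) (hB : ∀ a ∈ B.l, a ∣ W) {w : ℕ → ℝ}
    (hw : Wl W w) : Wl W (phi A B w) := by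
  intro u hu
  by_cases h1 : u ∈ A.l
  · exact hA u h1
  by_cases h2 : u ∈ B.l
  · exact hB u h2
  exact hw u (by simpa [phi, A.w_zero h1, B.w_zero h2] using hu)

theorem geob_id {A : Sd} (B : Sd) (pA : A.l.Pairwise Nat.Coprime) {w : ℕ → ℝ} (h0 : ∀ u, 0 ≤ w u)
    {n : ℕ} (hw : Sup w n) (hn : ¬ A.l.prod ∣ n) : phi A B w = w := by
  by_contra hc
  refine hn (prod_dvd_of pA fun a ha => (hw a fun e => hc (phi_id A B h0 ha e)).2)

theorem geob_sup {A B : Sd} (hA : ∀ a ∈ A.l, Lab a) (hB : ∀ a ∈ B.l, Lab a) {w : ℕ → ℝ}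
    (h0 : ∀ u, 0 ≤ w u) {n : ℕ} (hw : Sup w n) :
    ∃ a ∈ A.l, ∀ n', n ∣ a * n' → B.l.prod ∣ n' → Sup (phi A B w) n' := by
  obtain ⟨a, ha, e⟩ := phi_sup (A := A) hB h0 hw
  refine ⟨a, ha, fun n' h1 h2 => e n' (fun u hp hu hne => ?_)
    fun _ b hb => (List.dvd_prod hb).trans h2⟩
  exact (hp.dvd_mul.1 (hu.trans h1)).resolve_left fun h =>
    hne ((Nat.prime_dvd_prime_iff_eq hp (hA a ha).1).1 h)

theorem geob_step {A B : Sd} {c : Crt} {F F' : List (ℕ × Cfg)} (h : gstep A B c F = some F')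
    {W : ℕ} (wA : ∀ a ∈ A.l, a ∣ W) (wB : ∀ a ∈ B.l, a ∣ W) :
    Gh (phi A B) W F F' ∧ Gh (phi B A) W F' F := by
  obtain ⟨ξ, L, ms⟩ := c
  simp only [gstep, frc_eq, frcL_eq, prd_eq] at h
  set P := A.l.prod with hP
  set Q := B.l.prod with hQ
  cases hz : partF P Q F [] [] with
  | none => rw [hz] at h; cases h
  | some z =>
  obtain ⟨O, K⟩ := z
  obtain ⟨s1, s2, s3⟩ := geob_partF hz
  simp only [List.not_mem_nil, false_or] at s1 s2
  rw [hz] at h
  dsimp only at h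
  generalize hk1 : bal ξ A B = x1 at h
  generalize hk2 : cmpL ξ O ms = x2 at h
  generalize hk3 : allL (fun o => anyL (fun e => dv o (Nat.mul (Nat.mul P Q) e)) L) (codes O) = x3
    at h
  generalize hk4 : allL (fun x => anyL (fun o => dv x o) (codes O)) (news Q P B.l L []) = x4 at h
  cases x1
  · cases h
  cases x2
  · cases h
  cases x3
  · cases h
  cases x4
  · cases h
  obtain rfl : pushF ξ (news P Q A.l L []) K = F' := Option.some.inj h
  have k2 := geob_cmpL hk2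
  simp only [allL_iff, anyL_iff, dv_iff, mem_news, List.not_mem_nil, false_or, geob_codes,
    List.forall_mem_map] at hk3 hk4
  obtain ⟨l1, l2⟩ := labs_spec (cnd_and.1 hk1).1
  have l3 := (rapp_perm A.l B.l).pairwise l2 (fun h => h.symm)
  rw [List.pairwise_append] at l3
  have hA : ∀ a ∈ A.l, Lab a := fun a ha =>
    have := l1 a (mem_rapp.2 (Or.inl ha))
    lab_of this.1 this.2.1 this.2.2
  have hB : ∀ a ∈ B.l, Lab a := fun a ha =>
    have := l1 a (mem_rapp.2 (Or.inr ha))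
    lab_of this.1 this.2.1 this.2.2
  have mF : ∀ e, e ∈ pushF ξ (news P Q A.l L []) K ↔
      e ∈ K ∨ ∃ m ∈ L, ∃ a ∈ A.l, e = (P / a * (Q * m), ξ) := fun e => by
    simp only [geob_pushF, mem_news, List.not_mem_nil, false_or]
    refine or_congr_right ⟨?_, ?_⟩
    · rintro ⟨_, ⟨m, hm, a, ha, rfl⟩, e⟩
      exact ⟨m, hm, a, ha, e⟩
    · rintro ⟨m, hm, a, ha, e⟩
      exact ⟨_, ⟨m, hm, a, ha, rfl⟩, e⟩
  refine ⟨fun w h0 hw => ⟨phi_nonneg A B h0, geob_wl wA wB hw, ?_⟩,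
    fun w h0 hw => ⟨phi_nonneg B A h0, geob_wl wB wA hw, ?_⟩⟩
  · rintro p ⟨e, he, hs, hp⟩
    by_cases hd : P ∣ e.1
    · have ho := (s1 e).2 ⟨he, hd⟩
      obtain ⟨m, hm⟩ := k2 e ho
      obtain ⟨x, hx, hx'⟩ := hk3 e ho
      obtain ⟨a, ha, k⟩ := geob_sup hA hB h0 hs
      refine ⟨_, (mF _).2 (Or.inr ⟨x, hx, a, ha, rfl⟩), k _ ?_ ⟨P / a * x, by ring⟩, ?_⟩
      · rw [← mul_assoc, Nat.mul_div_cancel' (List.dvd_prod ha), ← mul_assoc]
        exact hx'
      · rw [(bal_ev hk1 w).1]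
        exact hp.trans (geob_cmp hm hs)
    · rw [geob_id B l3.1 h0 hs hd]
      exact ⟨e, (mF e).2 (Or.inl ((s2 e).2 ⟨he, hd⟩)), hs, hp⟩
  · rintro p ⟨e, he, hs, hp⟩
    rcases (mF e).1 he with he | ⟨x, hx, a, ha, rfl⟩
    · have h1 := (s2 e).1 he
      rw [geob_id A l3.2.1 h0 hs (s3 e h1.1 h1.2)]
      exact ⟨e, h1.1, hs, hp⟩
    · obtain ⟨b, hb, k⟩ := geob_sup hB hA h0 hs
      obtain ⟨_, ho', e⟩ := hk4 _ ⟨x, hx, b, hb, rfl⟩
      obtain ⟨o, ho, rfl⟩ := List.mem_map.1 ho'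
      obtain ⟨m, hm⟩ := k2 o ho
      have k' : Sup (phi B A w) o.1 := by
        refine k _ (Dvd.dvd.trans ?_ (Nat.mul_dvd_mul_left b e)) ((s1 o).1 ho).2
        rw [← mul_assoc b, Nat.mul_div_cancel' (List.dvd_prod hb)]
        refine ⟨a, ?_⟩
        have e2 : P / a * a = P := Nat.div_mul_cancel (List.dvd_prod ha)
        calc Q * (P * x) = Q * (P / a * a * x) := by rw [e2]
          _ = _ := by ring
      refine ⟨o, ((s1 o).1 ho).1, k', hp.trans ?_⟩
      rw [← (bal_ev hk1 w).2]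
      exact (geob_cmp hm k').symm

theorem geob_off {A : Sd} (B : Sd) {W : ℕ} (h : allL (fun a => dv a W) A.l = false)
    (F : List (ℕ × Cfg)) : Gh (phi A B) W F F := by
  intro w h0 hw
  have : phi A B w = w := by
    by_contra hc
    rw [allL_iff.2 fun a ha => dv_iff.2 (hw a fun e => hc (phi_id A B h0 ha e))] at h
    cases h
  rw [this]
  exact ⟨h0, hw, fun _ h => h⟩

theorem geob_refl (W : ℕ) (F : List (ℕ × Cfg)) : Gh id W F F :=
  fun _ h0 hw => ⟨h0, hw, fun _ h => h⟩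

theorem Gh.comp {f g : (ℕ → ℝ) → ℕ → ℝ} {W : ℕ} {F F' F'' : List (ℕ × Cfg)} (h : Gh f W F F')
    (h' : Gh g W F' F'') : Gh (g ∘ f) W F F'' := by
  intro w h0 hw
  obtain ⟨a1, a2, a3⟩ := h w h0 hw
  obtain ⟨b1, b2, b3⟩ := h' _ a1 a2
  exact ⟨b1, b2, fun p hp => b3 p (a3 p hp)⟩

theorem geo_spec {W : ℕ} {p : Prog} {C C' : List Crt} {F F' : List (ℕ × Cfg)}
    (h : geo W p C F = some (C', F')) : Gh p.fw W F F' ∧ Gh p.bw W F' F := by
  induction p generalizing C C' F F' with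
  | nil =>
    obtain rfl : F = F' := (Prod.mk.inj (Option.some.inj h)).2
    exact ⟨geob_refl W F, geob_refl W F⟩
  | mv A B L r ih =>
    change cnd (allL (fun a => dv a W) A.l) (cnd (allL (fun a => dv a W) B.l)
      (List.rec (motive := fun _ => Option (List Crt × List (ℕ × Cfg))) none
        (fun c C' _ => Option.rec (motive := fun _ => Option (List Crt × List (ℕ × Cfg))) none
          (fun F' => geo W r C' F') (gstep A B c F)) C) none)
      (cnd (allL (fun a => dv a W) B.l) none (geo W r C F)) = _ at h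
    cases h1 : allL (fun a => dv a W) A.l <;> cases h2 : allL (fun a => dv a W) B.l <;>
      rw [h1, h2] at h
    · obtain ⟨a1, a2⟩ := ih h
      exact ⟨(geob_off B h1 F).comp a1, a2.comp (geob_off A h2 F)⟩
    · cases h
    · cases h
    · cases C with
      | nil => cases h
      | cons c C =>
        change Option.rec (motive := fun _ => Option (List Crt × List (ℕ × Cfg))) none
          (fun F' => geo W r C F') (gstep A B c F) = _ at h
        cases hs : gstep A B c F with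
        | none => rw [hs] at h; cases h
        | some Z =>
          rw [hs] at h
          obtain ⟨a1, a2⟩ := ih h
          obtain ⟨b1, b2⟩ := geob_step hs (W := W) (fun a ha => dv_iff.1 (allL_iff.1 h1 a ha))
            fun a ha => dv_iff.1 (allL_iff.1 h2 a ha)
          exact ⟨b1.comp a1, a2.comp b2⟩
  | blk D p r ip ir =>
    change Option.rec (motive := fun _ => Option (List Crt × List (ℕ × Cfg))) none
      (fun z => Prod.rec (motive := fun _ => Option (List Crt × List (ℕ × Cfg))) (geo W r) z)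
      (geo W p C F) = _ at h
    cases hs : geo W p C F with
    | none => rw [hs] at h; cases h
    | some z =>
      obtain ⟨C1, F1⟩ := z
      rw [hs] at h
      obtain ⟨a1, a2⟩ := ip hs
      obtain ⟨b1, b2⟩ := ir h
      exact ⟨a1.comp b1, b2.comp a2⟩

/-- No move of the program touches the wall. -/
def nw (W : ℕ) (p : Prog) : Bool :=
  Prog.rec (motive := fun _ => Bool) true
    (fun A B _ _ ih => cnd (allL (fun a => dv a W) A.l) false
      (cnd (allL (fun a => dv a W) B.l) false ih))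
    (fun _ _ _ ip ir => cnd ip ir false) p

theorem nw_spec {W : ℕ} {p : Prog} (h : nw W p = true) (F : List (ℕ × Cfg)) :
    Gh p.fw W F F ∧ Gh p.bw W F F := by
  induction p with
  | nil => exact ⟨geob_refl W F, geob_refl W F⟩
  | mv A B L r ih =>
    change cnd (allL (fun a => dv a W) A.l) false
      (cnd (allL (fun a => dv a W) B.l) false (nw W r)) = true at h
    rw [cnd_not, cnd_not, Bool.not_eq_true, Bool.not_eq_true] at h
    obtain ⟨a1, a2⟩ := ih h.2.2
    exact ⟨(geob_off B h.1 F).comp a1, a2.comp (geob_off A h.2.1 F)⟩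
  | blk D p r ip ir =>
    change cnd (nw W p) (nw W r) false = true at h
    rw [cnd_and] at h
    obtain ⟨a1, a2⟩ := ip h.1
    obtain ⟨b1, b2⟩ := ir h.2
    exact ⟨a1.comp b1, b2.comp a2⟩

def keep (n : ℕ) (ξ : Cfg) : List ℕ :=
  List.rec (motive := fun _ => List ℕ) [] (fun e _ ih => cnd (dv e.1 n) (e.1 :: ih) ih) ξ

def mapL (f : ℕ → ℕ) (l : List ℕ) : List ℕ :=
  List.rec (motive := fun _ => List ℕ) [] (fun e _ ih => frc (f e) fun y => y :: ih) l

def anyF (f : ℕ × Cfg → Bool) (F : List (ℕ × Cfg)) : Bool :=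
  List.rec (motive := fun _ => Bool) false (fun e _ ih => cnd (f e) true ih) F

/-- The triangle `e'`, moved by the twist `j` and relabelled by `T`, is a triangle of `F`. -/
def mat1 (T : List (ℕ × ℕ)) (j : ℤ) (F : List (ℕ × Cfg)) (e' : ℕ × Cfg) (m : M2) : Bool :=
  frcL (keep e'.1 e'.2) fun ls => cnd (Nat.beq (prd ls) e'.1) (cnd (labs ls PR)
    (cnd (allL (fun l => Nat.ble 1 (lk T l)) ls) (cnd (decide (inL m)) (frc (tr T e'.1) fun n =>
      anyF (fun e => cnd (Nat.beq e.1 n) (allL (fun l =>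
        eqZ ((25 : ℤ) • mz m (vec e.2 (lk T l))) (mz (5, -j, 0, 5) (vec e'.2 l))) ls) false) F)
      false) false) false) false

def mat (T : List (ℕ × ℕ)) (j : ℤ) (F F' : List (ℕ × Cfg)) : List M2 → Bool :=
  List.rec (motive := fun _ => List M2 → Bool) (fun _ => true)
    (fun e _ ih ms => List.rec (motive := fun _ => Bool) false
      (fun m t _ => cnd (mat1 T j F e m) (ih t) false) ms) F'

theorem geob_anyF {f : ℕ × Cfg → Bool} : ∀ {F : List (ℕ × Cfg)},
    anyF f F = true ↔ ∃ e ∈ F, f e = true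
  | [] => by simp [anyF]
  | e :: F => by
    change cnd (f e) true (anyF f F) = true ↔ _
    rw [cnd_or, geob_anyF, List.exists_mem_cons_iff]

theorem geob_mat {T : List (ℕ × ℕ)} {j : ℤ} {F : List (ℕ × Cfg)} :
    ∀ {F' : List (ℕ × Cfg)} {ms : List M2}, mat T j F F' ms = true →
      ∀ e ∈ F', ∃ m, mat1 T j F e m = true
  | [], _, _ => by simp
  | _ :: _, [], h => by cases h
  | e :: F', m :: ms, h => by
    change cnd (mat1 T j F e m) (mat T j F F' ms) false = true at h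
    rw [cnd_and] at h
    exact List.forall_mem_cons.2 ⟨⟨m, h.1⟩, geob_mat h.2⟩

theorem geob_tw {j : ℤ} {m : M2} {v v' : Z3} (h : (25 : ℤ) • mz m v = mz (5, -j, 0, 5) v') :
    (25 : ℝ)⁻¹ • mr (5, -j, 0, 5) (cst v') = mr m (cst v) := by
  rw [← cst_mz, ← cst_mz, ← h]
  generalize mz m v = y
  refine Prod.ext ?_ (Prod.ext ?_ ?_) <;> simp [cst]

theorem mat_spec {T : List (ℕ × ℕ)} (hT : TabOk T) {j : ℤ} {F F' : List (ℕ × Cfg)} {ms : List M2}
    (h : mat T j F F' ms = true) {w : ℕ → ℝ} {p : R3} (hw : Rl F' w p) :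
    Rl F (ps T w) (tw j p) ∧ ∀ u, w u ≠ 0 → ∃ v, (u, v) ∈ T := by
  obtain ⟨e', he', hs, hp⟩ := hw
  obtain ⟨m, hm⟩ := geob_mat h e' he'
  simp only [mat1, frcL_eq, frc_eq, cnd_and, Nat.beq_eq, allL_iff, Nat.ble_eq, decide_eq_true_eq,
    geob_anyF, prd_eq, eqZ] at hm
  generalize keep e'.1 e'.2 = ls at hm
  obtain ⟨k1, k2, k3, k4, e, he, k5, k6⟩ := hm
  obtain ⟨l1, l2⟩ := labs_spec k2
  have hl : ∀ l ∈ ls, Lab l := fun l hl => lab_of (l1 l hl).1 (l1 l hl).2.1 (l1 l hl).2.2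
  have hu : ∀ u, w u ≠ 0 → u ∈ ls := fun u hu => by
    obtain ⟨h1, h2⟩ := hs u hu
    rw [← k1] at h2
    obtain ⟨l, h3, h4⟩ := (Prime.dvd_prod_iff h1.1.prime).1 h2
    rwa [(Nat.prime_dvd_prime_iff_eq h1.1 (hl l h3).1).1 h4]
  have hT' : ∀ l ∈ ls, (l, lk T l) ∈ T := fun l hl => lk_mem (Nat.one_le_iff_ne_zero.1 (k3 l hl))
  have nd : ls.Nodup := l2.imp_of_mem fun {a b} ha _ hc e => by
    subst e
    exact (hl a ha).1.one_lt.ne' ((Nat.coprime_self a).1 hc)
  have nd' : (ls.map (lk T)).Nodup := nd.map_on fun a ha b hb e =>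
    congrArg Prod.fst (hT.i2 _ (hT' a ha) _ (hT' b hb) e)
  refine ⟨⟨e, he, k5 ▸ hT.sup_ps hs, (hp.tw j).trans ⟨m, k4, ?_⟩⟩, fun u h0 => ⟨_, hT' u (hu u h0)⟩⟩
  rw [ev_list e'.2 nd (fun l h => (hl l h).2) hu, ev_list e.2 nd' (List.forall_mem_map.2
    fun l h => (hT.l2 _ (hT' l h)).2) fun v hv => by
      obtain ⟨u, h1, h2⟩ := ps_ne hv
      exact List.mem_map.2 ⟨u, hu u (h2 ▸ hv), hT.lk_eq h1⟩]
  change ((25 : ℝ)⁻¹ • geob_lin (5, -j, 0, 5)) _ = geob_lin m _
  rw [map_list_sum, map_list_sum, List.map_map, List.map_map, List.map_map]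
  refine congrArg List.sum (List.map_congr_left fun l h => ?_)
  simp only [Function.comp_apply, map_smul]
  rw [hT.ps_eq (hT' l h)]
  exact congrArg (w l • ·) (geob_tw (k6 l h))

/-- The lifted triangles of `F` all occur in `F'` up to the choice of the lift. -/
theorem Rl.mono {F F' : List (ℕ × Cfg)} (h : ∀ e ∈ F, e ∈ F') {w : ℕ → ℝ} {p : R3}
    (hw : Rl F w p) : Rl F' w p := by
  obtain ⟨e, he, k⟩ := hw
  exact ⟨e, h e he, k⟩

end Pool.Agent.Lib.MP_36248f_gt.Tp
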