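import Pool.Agent.Lib.MP_36248f_gt.Tp.Geo

/-!
Two pieces in the glued complex, and sorting.
-/

set_option autoImplicit false

noncomputable section

namespace Pool.Agent.Lib.MP_36248f_gt.Tp

open Set

def allP (f : ℕ → ℕ → Bool) (T : List (ℕ × ℕ)) : Bool :=
  List.rec (motive := fun _ => Bool) true (fun e _ ih => cnd (f e.1 e.2) ih false) T

theorem allP_iff {f : ℕ → ℕ → Bool} {T : List (ℕ × ℕ)} :
    allP f T = true ↔ ∀ e ∈ T, f e.1 e.2 = true := by
  induction T with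
  | nil => simp [allP]
  | cons e T ih =>
    change cnd (f e.1 e.2) (allP f T) false = true ↔ _
    rw [cnd_and, ih, List.forall_mem_cons]

theorem join_tab {R : List (ℕ × ℕ)} (hR : TabOk R) {X : List ℕ} (hX : inTab R X = true)
    {w : ℕ → ℝ} (hw : w ∈ Cn X) {u : ℕ} (hu : w u ≠ 0) : ∃ v, (u, v) ∈ R := by
  obtain ⟨n, hn, hs⟩ := hw.2.2
  exact hR.inTab_spec hX n hn u (hs u hu).1.1 (hs u hu).2

theorem join_dvd {R : List (ℕ × ℕ)} {u v : ℕ} (h : (u, v) ∈ R) : v ∣ prd (snds R) := by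
  rw [prd_eq, snds_eq]
  exact List.dvd_prod (List.mem_map_of_mem (f := Prod.snd) h)

/-- Only the cusp is common. -/
def farOk (R R' : List (ℕ × ℕ)) : Bool := Nat.beq (Nat.gcd (prd (snds R)) (prd (snds R'))) 257

theorem far_ne {R R' : List (ℕ × ℕ)} (hR : TabOk R) (hR' : TabOk R') (h : farOk R R' = true)
    {X X' : List ℕ} (hX : inTab R X = true) {w w' : ℕ → ℝ} (hw : w ∈ Cn X) (hw' : w' ∈ Cn X') :
    ps R w ≠ ps R' w' := by
  intro e
  obtain ⟨u, hu, hu'⟩ := hw.2.1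
  obtain ⟨v, e1⟩ := join_tab hR hX hw hu'
  obtain ⟨u', e2, -⟩ := ps_ne (T := R') (w := w') (v := v) (by rwa [← e, hR.ps_eq e1])
  have k := Nat.dvd_gcd (join_dvd e1) (join_dvd e2)
  rw [Nat.beq_eq.mp h, Nat.prime_dvd_prime_iff_eq (hR.l2 _ e1).1 (hR.l2 _ hR.cusp).1] at k
  exact hu (congrArg Prod.fst (hR.i2 _ e1 _ hR.cusp k))

/-- The common labels are those of the table `T` from the second piece to the first. -/
def nearOk (R R' T : List (ℕ × ℕ)) : Bool :=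
  cnd (tabOk T) (cnd (allP (fun u v => frc (lk R v) fun y =>
      cnd (Nat.ble 1 y) (Nat.beq y (lk R' u)) false) T)
    (frc (prd (snds R)) fun P => allP (fun u y => cnd (dv y P) (Nat.ble 1 (lk T u)) true) R')
    false) false

theorem near_iff {R R' T : List (ℕ × ℕ)} (hR : TabOk R) (hR' : TabOk R')
    (h : nearOk R R' T = true) {X X' : List ℕ} (hX : inTab R X = true) (hX' : inTab R' X' = true)
    {w w' : ℕ → ℝ} (hw : w ∈ Cn X) (hw' : w' ∈ Cn X') :
    ps R w = ps R' w' ↔ (∀ u, w' u ≠ 0 → ∃ v, (u, v) ∈ T) ∧ w = ps T w' := by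
  simp only [nearOk, cnd_and, allP_iff, frc_eq, Nat.beq_eq, Nat.ble_eq] at h
  obtain ⟨hT, h1, h2⟩ := h
  have hT := tabOk_spec hT
  have key : ∀ {u v}, (u, v) ∈ T → ∃ y, (v, y) ∈ R ∧ (u, y) ∈ R' := fun {u v} e => by
    have k : 1 ≤ lk R v ∧ lk R v = lk R' u := h1 _ e
    exact ⟨_, lk_mem (by omega), k.2 ▸ lk_mem (by omega)⟩
  constructor
  · intro e
    have s : ∀ u, w' u ≠ 0 → ∃ v, (u, v) ∈ T := fun u hu => by
      obtain ⟨y, e1⟩ := join_tab hR' hX' hw' hu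
      obtain ⟨v, e2, -⟩ := ps_ne (T := R) (w := w) (v := y) (by rwa [e, hR'.ps_eq e1])
      have k := h2 _ e1
      rw [dv_iff.2 (join_dvd e2), cnd_true, Nat.ble_eq] at k
      exact ⟨_, lk_mem (Nat.one_le_iff_ne_zero.1 k)⟩
    refine ⟨s, funext fun v => by_contra fun hne => ?_⟩
    have n : ∀ u, (u, v) ∉ T := fun u e1 => by
      obtain ⟨y, e2, e3⟩ := key e1
      exact hne (by rw [hT.ps_eq e1, ← hR.ps_eq e2 w, e, hR'.ps_eq e3])
    have z : ps T w' v = 0 := by_contra fun k => (ps_ne k).elim fun u k => n u k.1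
    obtain ⟨y, e1⟩ := join_tab hR hX hw (z ▸ hne)
    have k : ps R' w' y ≠ 0 := by rwa [← e, hR.ps_eq e1, ← z]
    obtain ⟨u, e2, e3⟩ := ps_ne k
    obtain ⟨v', e4⟩ := s u (e3 ▸ k)
    obtain ⟨y', e5, e6⟩ := key e4
    obtain rfl : y' = y := congrArg Prod.snd (hR'.i1 _ e6 _ e2 rfl)
    obtain rfl : v' = v := congrArg Prod.fst (hR.i2 _ e5 _ e1 rfl)
    exact n u e4
  · rintro ⟨s, rfl⟩
    refine funext fun y => by_contra fun hne => ?_
    have n : ∀ u v, (u, v) ∈ T → (v, y) ∈ R → (u, y) ∉ R' := fun u v e1 e2 e3 =>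
      hne (by rw [hR.ps_eq e2, hT.ps_eq e1, hR'.ps_eq e3])
    by_cases k : ps R' w' y = 0
    · obtain ⟨v, e1, e2⟩ := ps_ne (k ▸ hne)
      obtain ⟨u, e3, -⟩ := ps_ne (T := T) (w := w') (v := v) (by rwa [← e2, ← k])
      obtain ⟨y', e4, e5⟩ := key e3
      obtain rfl : y' = y := congrArg Prod.snd (hR.i1 _ e4 _ e1 rfl)
      exact n u v e3 e4 e5
    · obtain ⟨u, e1, e2⟩ := ps_ne k
      obtain ⟨v, e3⟩ := s u (e2 ▸ k)
      obtain ⟨y', e4, e5⟩ := key e3
      obtain rfl : y' = y := congrArg Prod.snd (hR'.i1 _ e5 _ e1 rfl)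
      exact n u v e3 e4 e5

/-- A piece moved from `X` to `X'` by `p`, with a wall moved from `F` to `F'`. -/
structure Wm (p : Prog) (X X' : List ℕ) (W : ℕ) (F F' : List (ℕ × Cfg)) : Prop where
  bij : Bij p.fw p.bw (Cn X) (Cn X')
  fw : Gh p.fw W F F'
  bw : Gh p.bw W F' F

theorem Wm.trans {p q : Prog} {X X' X'' : List ℕ} {W : ℕ} {F F' F'' : List (ℕ × Cfg)}
    (h : Wm p X X' W F F') (h' : Wm q X' X'' W F' F'') : Wm (.blk 0 p q) X X'' W F F'' :=
  ⟨h.bij.trans h'.bij, h.fw.comp h'.fw, h'.bw.comp h.bw⟩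

/-- On the wall, weights and points up to the group determine each other. -/
def Fn (X : List ℕ) (F : List (ℕ × Cfg)) : Prop :=
  ∀ w ∈ Cn X, ∀ w' ∈ Cn X, ∀ p p', Rl F w p → Rl F w' p' → (w = w' ↔ Eqv p p')

/-- The wall labels divide `W`, the triangles of `F` are faces of `X`. -/
def glOk (T : List (ℕ × ℕ)) (j : ℤ) (W W' : ℕ) (X : List ℕ) (F F' : List (ℕ × Cfg))
    (ms : List M2) : Bool :=
  cnd (allP (fun u v => cnd (dv u W') (dv v W) false) T)
    (cnd (allL (fun n => anyL (dv n) X) (codes F)) (mat T j F F' ms) false) false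

/-- The gluing of the upper wall of one piece (no primes) to the lower wall of the next. -/
theorem glue_iff {p p' : Prog} {X X1 X' X1' : List ℕ} {W W' : ℕ} {F F1 F' F1' : List (ℕ × Cfg)}
    (h : Wm p X X1 W F F1) (h' : Wm p' X' X1' W' F' F1') (fn : Fn X F) {T : List (ℕ × ℕ)}
    (hT : TabOk T) {j : ℤ} {ms : List M2} (ok : glOk T j W W' X1 F1 F1' ms = true)
    {w w' : ℕ → ℝ} (hw : w ∈ Cn X) (hw' : w' ∈ Cn X') {P P' : R3} (r : Wl W w → Rl F w P)
    (r' : Wl W' w' → Rl F' w' P') :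
    ((∀ u, p'.fw w' u ≠ 0 → ∃ v, (u, v) ∈ T) ∧ p.fw w = ps T (p'.fw w')) ↔
      Wl W w ∧ Wl W' w' ∧ Eqv P (tw j P') := by
  simp only [glOk, cnd_and, allP_iff, allL_iff, anyL_iff, dv_iff] at ok
  obtain ⟨h1, h2, h3⟩ := ok
  have z := h'.bij.fw hw'
  have wl : Wl W (ps T (p'.fw w')) := fun v hv => (ps_ne hv).elim fun u k => (h1 _ k.1).2
  constructor
  · rintro ⟨s, e⟩
    have a' := (h'.bw _ z.1 fun u hu => (s u hu).elim fun v k => (h1 _ k).1).2.1
    rw [h'.bij.l _ hw'] at a'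
    have a := (h.bw _ (h.bij.fw hw).1 (e ▸ wl)).2
    rw [h.bij.l _ hw] at a
    exact ⟨a.1, a', (fn w hw w hw _ _ (r a.1)
      (a.2 _ (e ▸ (mat_spec hT h3 ((h'.fw _ hw'.1 a').2.2 _ (r' a'))).1))).1 rfl⟩
  · rintro ⟨a, a', e⟩
    obtain ⟨b, s⟩ := mat_spec hT h3 ((h'.fw _ hw'.1 a').2.2 _ (r' a'))
    have m : ps T (p'.fw w') ∈ Cn X1 := by
      obtain ⟨u, hu, hu'⟩ := z.2.1
      obtain ⟨v, e1⟩ := s u hu'
      obtain ⟨c, hc, hs, -⟩ := b
      obtain ⟨n, hn, hd⟩ := h2 c.1 (geob_codes F1 ▸ List.mem_map_of_mem hc)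
      exact ⟨tab_nonneg _ z.1, ⟨v, fun k => hu (congrArg Prod.fst (hT.i2 _ e1 _ hT.cusp k)),
        by rwa [hT.ps_eq e1]⟩, n, hn, fun x hx => ⟨(hs x hx).1, (hs x hx).2.trans hd⟩⟩
    refine ⟨s, ?_⟩
    rw [(fn w hw _ (h.bij.bw m) _ _ (r a) ((h.bw _ m.1 wl).2.2 _ b)).2 e, h.bij.r _ m]

/-- Sorting; only the membership matters. -/
def srt (f : ℕ) : List ℕ → List ℕ → List ℕ :=
  Nat.rec (motive := fun _ => List ℕ → List ℕ → List ℕ) (fun l a => rapp l a)
    (fun _ ih l a => List.rec (motive := fun _ => List ℕ) a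
      (fun e t _ => frc (Nat.mod e 1000003) fun k => Prod.rec (motive := fun _ => List ℕ)
        (fun lo hi => frcL (ih hi a) fun a' => ih lo (e :: a'))
        (part (fun n => frc (Nat.mod n 1000003) fun k' =>
          cnd (Nat.beq k' k) (Nat.ble n e) (Nat.ble k' k)) t [] [])) l) f

theorem mem_srt {f x : ℕ} {l a : List ℕ} : x ∈ srt f l a ↔ x ∈ l ∨ x ∈ a := by
  induction f generalizing l a with
  | zero => exact mem_rapp
  | succ f ih =>
    rcases l with _ | ⟨e, t⟩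
    · change x ∈ a ↔ _
      simp
    obtain ⟨g, hg⟩ : ∃ g, srt (f + 1) (e :: t) a =
        srt f (part g t [] []).1 (e :: srt f (part g t [] []).2 a) := by
      refine ⟨fun n => frc (Nat.mod n 1000003) fun k' => cnd (Nat.beq k' (Nat.mod e 1000003))
        (Nat.ble n e) (Nat.ble k' (Nat.mod e 1000003)), ?_⟩
      simp only [srt, frc_eq, frcL_eq]
    rw [hg, ih, List.mem_cons, ih, part_spec.1, part_spec.2, List.mem_cons]
    by_cases k : g x = true <;> simp [k] <;> tauto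

def same (X Y : List ℕ) : Bool := eqL (srt 100 X []) (srt 100 Y [])

theorem same_cn {X Y : List ℕ} (h : same X Y = true) : Cn X = Cn Y :=
  Cn_congr fun n => by
    have a := mem_srt (f := 100) (x := n) (l := X) (a := [])
    rw [eqL_eq h, mem_srt] at a
    simpa using a.symm

end Pool.Agent.Lib.MP_36248f_gt.Tp
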