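import Mathlib

/-!
Weight cones over lists of simplices, and the elementary move
`w ↦ w + min_A (w / α) (β - α)`. A vertex label is a prime below `65536`, a simplex is coded by
the product of its labels. The label `257` is the cusp.
-/

set_option autoImplicit false

noncomputable section

namespace Pool.Agent.Lib.MP_36248f_gt.Tp

open Set

/-- Vertex labels. -/
def Lab (u : ℕ) : Prop := u.Prime ∧ u < 65536

/-- The weight `w` lives on the simplex with code `n`. -/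
def Sup (w : ℕ → ℝ) (n : ℕ) : Prop := ∀ u, w u ≠ 0 → Lab u ∧ u ∣ n

/-- The cone over a list of simplices, without the ray of the cusp. -/
def Cn (F : List ℕ) : Set (ℕ → ℝ) :=
  {w | (∀ u, 0 ≤ w u) ∧ (∃ u, u ≠ 257 ∧ w u ≠ 0) ∧ ∃ n ∈ F, Sup w n}

/-- The weight vector with support `A`. -/
def wt : List ℕ → List ℕ → ℕ → ℝ
  | [], _, _ => 0
  | a :: A, P, u => if u = a then (P.headD 0 : ℝ) + 1 else wt A P.tail u

def mn (f : ℕ → ℝ) (a : ℕ) : List ℕ → ℝ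
  | [] => f a
  | b :: l => min (f b) (mn f a l)

/-- One side of a move: a nonempty list of labels with weights. -/
structure Sd where
  hd : ℕ
  tl : List ℕ
  ws : List ℕ

def Sd.l (A : Sd) : List ℕ := A.hd :: A.tl

def Sd.w (A : Sd) : ℕ → ℝ := wt A.l A.ws

def Sd.t (A : Sd) (w : ℕ → ℝ) : ℝ := mn (fun a => w a / A.w a) A.hd A.tl

/-- The elementary move. -/
def phi (A B : Sd) (w : ℕ → ℝ) : ℕ → ℝ := fun u => w u + A.t w * (B.w u - A.w u)

theorem wt_pos : ∀ (A P : List ℕ) {u : ℕ}, u ∈ A → 0 < wt A P u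
  | a :: A, P, u, h => by
    rw [wt]
    split_ifs with e
    · positivity
    · exact wt_pos A _ ((List.mem_cons.1 h).resolve_left e)

theorem wt_zero : ∀ (A P : List ℕ) {u : ℕ}, u ∉ A → wt A P u = 0
  | [], _, _, _ => rfl
  | a :: A, P, u, h => by
    rw [List.mem_cons, not_or] at h
    rw [wt, if_neg h.1, wt_zero A _ h.2]

theorem Sd.w_pos (A : Sd) {u : ℕ} (h : u ∈ A.l) : 0 < A.w u := wt_pos _ _ h

theorem Sd.w_zero (A : Sd) {u : ℕ} (h : u ∉ A.l) : A.w u = 0 := wt_zero _ _ h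

theorem Sd.w_nonneg (A : Sd) (u : ℕ) : 0 ≤ A.w u := by
  by_cases h : u ∈ A.l
  · exact (A.w_pos h).le
  · exact (A.w_zero h).ge

theorem mn_le (f : ℕ → ℝ) (a : ℕ) : ∀ (l : List ℕ) {u : ℕ}, u ∈ a :: l → mn f a l ≤ f u
  | [], u, h => by
    rw [List.mem_singleton.1 h]
    exact le_rfl
  | b :: l, u, h => by
    rw [mn]
    by_cases e : u = b
    · rw [e]
      exact min_le_left _ _
    · refine (min_le_right _ _).trans (mn_le f a l ?_)
      simp only [List.mem_cons] at h ⊢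
      tauto

theorem mn_ex (f : ℕ → ℝ) (a : ℕ) : ∀ l : List ℕ, ∃ u ∈ a :: l, mn f a l = f u
  | [] => ⟨a, by simp, rfl⟩
  | b :: l => by
    rw [mn]
    rcases min_choice (f b) (mn f a l) with h | h
    · exact ⟨b, by simp, h⟩
    · obtain ⟨u, hu, e⟩ := mn_ex f a l
      refine ⟨u, ?_, h.trans e⟩
      simp only [List.mem_cons] at hu ⊢
      tauto

theorem Sd.t_le (A : Sd) (w : ℕ → ℝ) {u : ℕ} (h : u ∈ A.l) : A.t w * A.w u ≤ w u :=
  (le_div_iff₀ (A.w_pos h)).1 (mn_le (fun a => w a / A.w a) A.hd A.tl h)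

theorem Sd.t_ex (A : Sd) (w : ℕ → ℝ) : ∃ u ∈ A.l, A.t w * A.w u = w u := by
  obtain ⟨u, hu, e⟩ := mn_ex (fun a => w a / A.w a) A.hd A.tl
  exact ⟨u, hu, by rw [Sd.t, e, div_mul_cancel₀ _ (A.w_pos hu).ne']⟩

theorem Sd.t_eq (A : Sd) (w : ℕ → ℝ) {t : ℝ} (h1 : ∀ u ∈ A.l, t * A.w u ≤ w u)
    (h2 : ∃ u ∈ A.l, t * A.w u = w u) : A.t w = t := by
  obtain ⟨u, hu, e⟩ := h2
  obtain ⟨v, hv, e'⟩ := A.t_ex w
  refine le_antisymm (le_of_mul_le_mul_right ?_ (A.w_pos hu))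
    (le_of_mul_le_mul_right ?_ (A.w_pos hv))
  · rw [e]
    exact A.t_le w hu
  · rw [e']
    exact h1 v hv

theorem Sd.t_nonneg (A : Sd) {w : ℕ → ℝ} (h : ∀ u, 0 ≤ w u) : 0 ≤ A.t w := by
  obtain ⟨u, hu, e⟩ := A.t_ex w
  exact nonneg_of_mul_nonneg_left (e ▸ h u) (A.w_pos hu)

theorem Sd.t_zero (A : Sd) {w : ℕ → ℝ} (h : ∀ u, 0 ≤ w u) {a : ℕ} (ha : a ∈ A.l) (e : w a = 0) :
    A.t w = 0 :=
  A.t_eq w (fun u _ => by simpa using h u) ⟨a, ha, by simp [e]⟩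

theorem phi_id (A B : Sd) {w : ℕ → ℝ} (h : ∀ u, 0 ≤ w u) {a : ℕ} (ha : a ∈ A.l) (e : w a = 0) :
    phi A B w = w := by
  funext u
  simp [phi, A.t_zero h ha e]

theorem phi_nonneg (A B : Sd) {w : ℕ → ℝ} (h : ∀ u, 0 ≤ w u) (u : ℕ) : 0 ≤ phi A B w u := by
  have h1 := mul_nonneg (A.t_nonneg h) (B.w_nonneg u)
  have h2 : A.t w * A.w u ≤ w u := by
    by_cases hu : u ∈ A.l
    · exact A.t_le w hu
    · simpa [A.w_zero hu] using h u
  simp only [phi]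
  linarith

theorem phi_inv {A B : Sd} (hd : ∀ a ∈ A.l, a ∉ B.l) {w : ℕ → ℝ} (h : ∀ u, 0 ≤ w u) {b : ℕ}
    (hb : b ∈ B.l) (e : w b = 0) : phi B A (phi A B w) = w := by
  have hA : ∀ u ∈ B.l, A.w u = 0 := fun u hu => A.w_zero fun ha => hd u ha hu
  have : B.t (phi A B w) = A.t w := by
    refine B.t_eq _ (fun u hu => ?_) ⟨b, hb, ?_⟩
    · simpa [phi, hA u hu] using h u
    · simp [phi, hA b hb, e]
  funext u
  rw [phi, this, phi]
  ring

theorem mn_cont {X : Type} [TopologicalSpace X] {f : X → ℕ → ℝ} (hf : ∀ u, Continuous fun x => f x u)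
    (a : ℕ) : ∀ l : List ℕ, Continuous fun x => mn (f x) a l
  | [] => hf a
  | b :: l => (hf b).min (mn_cont hf a l)

theorem phi_cont (A B : Sd) : Continuous (phi A B) :=
  continuous_pi fun u => (continuous_apply u).add
    ((mn_cont (fun a => (continuous_apply a).div_const _) _ _).mul continuous_const)

theorem phi_smul (A B : Sd) {c : ℝ} (hc : 0 ≤ c) (w : ℕ → ℝ) : phi A B (c • w) = c • phi A B w := by
  have : A.t (c • w) = c * A.t w := by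
    obtain ⟨v, hv, e⟩ := A.t_ex w
    refine A.t_eq _ (fun u hu => ?_) ⟨v, hv, ?_⟩
    · rw [mul_assoc]
      exact mul_le_mul_of_nonneg_left (A.t_le w hu) hc
    · rw [mul_assoc, e]
      rfl
  funext u
  simp only [phi, this, Pi.smul_apply, smul_eq_mul]
  ring

/-- Every simplex of `X`, with a vertex of `A` removed and with `B` added if it contains `A`, is
covered in `X'`. -/
def Cov (A B : Sd) (X X' : List ℕ) : Prop :=
  ∀ n ∈ X, ∀ a ∈ A.l, ∃ n' ∈ X', (∀ u, u.Prime → u ∣ n → u ≠ a → u ∣ n') ∧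
    ((∀ a' ∈ A.l, a' ∣ n) → ∀ b ∈ B.l, b ∣ n')

theorem phi_sup {A B : Sd} (hB : ∀ b ∈ B.l, Lab b) {w : ℕ → ℝ} (hw : ∀ u, 0 ≤ w u) {n : ℕ}
    (hs : Sup w n) : ∃ a ∈ A.l, ∀ n', (∀ u, u.Prime → u ∣ n → u ≠ a → u ∣ n') →
      ((∀ a' ∈ A.l, a' ∣ n) → ∀ b ∈ B.l, b ∣ n') → Sup (phi A B w) n' := by
  obtain ⟨a, ha, e⟩ := A.t_ex w
  refine ⟨a, ha, fun n' c1 c2 => ?_⟩
  rcases (A.t_nonneg hw).eq_or_lt with ht | ht
  · have ea : w a = 0 := by rw [← e, ← ht, zero_mul]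
    rw [phi_id A B hw ha ea]
    exact fun u hu => ⟨(hs u hu).1, c1 u (hs u hu).1.1 (hs u hu).2 fun h => hu (h ▸ ea)⟩
  · have hp : ∀ a' ∈ A.l, w a' ≠ 0 := fun a' h =>
      ((mul_pos ht (A.w_pos h)).trans_le (A.t_le w h)).ne'
    intro u hu
    by_cases hb : u ∈ B.l
    · exact ⟨hB u hb, c2 (fun a' h => (hs a' (hp a' h)).2) u hb⟩
    · have h1 : w u ≠ 0 := by
        by_cases h : u ∈ A.l
        · exact hp u h
        · simpa [phi, B.w_zero hb, A.w_zero h] using hu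
      refine ⟨(hs u h1).1, c1 u (hs u h1).1.1 (hs u h1).2 ?_⟩
      rintro rfl
      apply hu
      simp only [phi, B.w_zero hb]
      linarith

theorem phi_mem {A B : Sd} (hd : ∀ a ∈ A.l, a ∉ B.l) (hB : ∀ b ∈ B.l, Lab b) (h0 : B.hd ≠ 257)
    {X X' : List ℕ} (hc : Cov A B X X') : MapsTo (phi A B) (Cn X) (Cn X') := by
  rintro w ⟨hw, hne, n, hn, hs⟩
  obtain ⟨a, ha, e⟩ := phi_sup (A := A) hB hw hs
  obtain ⟨n', hn', c1, c2⟩ := hc n hn a ha
  refine ⟨phi_nonneg A B hw, ?_, n', hn', e n' c1 c2⟩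
  rcases (A.t_nonneg hw).eq_or_lt with ht | ht
  · obtain ⟨u, h1, h2⟩ := hne
    exact ⟨u, h1, by simpa [phi, ← ht] using h2⟩
  · have hb0 : B.hd ∈ B.l := List.mem_cons_self
    refine ⟨B.hd, h0, ne_of_gt ?_⟩
    have := mul_pos ht (B.w_pos hb0)
    have := hw B.hd
    simp only [phi, A.w_zero fun h => hd _ h hb0]
    linarith

/-- Mutually inverse maps between two sets. -/
structure Bij {α β : Type} (f : α → β) (g : β → α) (S : Set α) (T : Set β) : Prop where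
  fw : MapsTo f S T
  bw : MapsTo g T S
  l : ∀ x ∈ S, g (f x) = x
  r : ∀ y ∈ T, f (g y) = y

theorem Bij.refl {α : Type} (S : Set α) : Bij id id S S :=
  ⟨fun _ h => h, fun _ h => h, fun _ _ => rfl, fun _ _ => rfl⟩

theorem Bij.symm {α β : Type} {f : α → β} {g : β → α} {S : Set α} {T : Set β} (h : Bij f g S T) :
    Bij g f T S := ⟨h.bw, h.fw, h.r, h.l⟩

theorem Bij.trans {α β γ : Type} {f : α → β} {g : β → α} {S : Set α} {T : Set β} {f' : β → γ}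
    {g' : γ → β} {U : Set γ} (h : Bij f g S T) (h' : Bij f' g' T U) :
    Bij (f' ∘ f) (g ∘ g') S U :=
  ⟨h'.fw.comp h.fw, h.bw.comp h'.bw,
    fun x hx => by simp [h'.l _ (h.fw hx), h.l x hx],
    fun y hy => by simp [h.r _ (h'.bw hy), h'.r y hy]⟩

theorem phi_iso {A B : Sd} (hd : ∀ a ∈ A.l, a ∉ B.l) (hA : ∀ a ∈ A.l, Lab a)
    (hB : ∀ b ∈ B.l, Lab b) (h0 : A.hd ≠ 257) (h1 : B.hd ≠ 257) {X X' : List ℕ}
    (c : Cov A B X X') (c' : Cov B A X' X) (s : ∀ n ∈ X, ∃ b ∈ B.l, ¬ b ∣ n)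
    (s' : ∀ n ∈ X', ∃ a ∈ A.l, ¬ a ∣ n) : Bij (phi A B) (phi B A) (Cn X) (Cn X') := by
  have hd' : ∀ b ∈ B.l, b ∉ A.l := fun b hb ha => hd b ha hb
  refine ⟨phi_mem hd hB h1 c, phi_mem hd' hA h0 c', ?_, ?_⟩
  · rintro w ⟨hw, -, n, hn, hs⟩
    obtain ⟨b, hb, e⟩ := s n hn
    exact phi_inv hd hw hb (by_contra fun h => e (hs b h).2)
  · rintro w ⟨hw, -, n, hn, hs⟩
    obtain ⟨a, ha, e⟩ := s' n hn
    exact phi_inv hd' hw ha (by_contra fun h => e (hs a h).2)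

theorem Cn_congr {X Y : List ℕ} (h : ∀ n, n ∈ X ↔ n ∈ Y) : Cn X = Cn Y := by
  ext w
  simp only [Cn, mem_ofPred_eq, h]

end Pool.Agent.Lib.MP_36248f_gt.Tp
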