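import Pool.Agent.Lib.MP_36248f_gt.Tp.G0
import Pool.Agent.Lib.MP_36248f_gt.Tp.GN4

/-!
Step 5 of the sphere, part 1.
-/

set_option autoImplicit false
set_option maxRecDepth 100000
set_option exponentiation.threshold 100000

noncomputable section

namespace Pool.Agent.Lib.MP_36248f_gt.Tp

theorem q51 : chkD (DD 5) (decT (TQ 5) QM1) (decX (TQ 5) 4 ZM0 []) (decX (TQ 5) 4 ZM1 []) = true := by
  decide +kernel


end Pool.Agent.Lib.MP_36248f_gt.Tp
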