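import Pool.Agent.Lib.MP_36248f_gt.Tp.Move

/-!
A checker for lists of moves, written with raw recursors, and its soundness.
-/

set_option autoImplicit false

noncomputable section

namespace Pool.Agent.Lib.MP_36248f_gt.Tp

open Set

/-- Programs: a move with its link, or a block that only looks at the simplices that are not
coprime to `D`. -/
inductive Prog where
  | nil : Prog
  | mv (A B : Sd) (L : List ℕ) (r : Prog) : Prog
  | blk (D : ℕ) (p r : Prog) : Prog

def Prog.fw : Prog → (ℕ → ℝ) → ℕ → ℝ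
  | nil => id
  | mv A B _ r => r.fw ∘ phi A B
  | blk _ p r => r.fw ∘ p.fw

def Prog.bw : Prog → (ℕ → ℝ) → ℕ → ℝ
  | nil => id
  | mv A B _ r => phi B A ∘ r.bw
  | blk _ p r => p.bw ∘ r.bw

def frc {α : Type} (x : ℕ) (f : ℕ → α) : α :=
  Nat.rec (motive := fun _ => α) (f 0) (fun n _ => f (Nat.succ n)) x

def frcL {α : Type} (l : List ℕ) (f : List ℕ → α) : α :=
  List.rec (motive := fun _ => α) (f []) (fun a t _ => f (a :: t)) l

def cnd {α : Type} (c : Bool) (x y : α) : α := Bool.rec (motive := fun _ => α) y x c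

def dv (a n : ℕ) : Bool := Nat.beq (Nat.mod n a) 0

def cp (a n : ℕ) : Bool := Nat.beq (Nat.gcd a n) 1

def allL (f : ℕ → Bool) (l : List ℕ) : Bool :=
  List.rec (motive := fun _ => Bool) true (fun e _ ih => cnd (f e) ih false) l

def anyL (f : ℕ → Bool) (l : List ℕ) : Bool :=
  List.rec (motive := fun _ => Bool) false (fun e _ ih => cnd (f e) true ih) l

def rapp (l : List ℕ) : List ℕ → List ℕ :=
  List.rec (motive := fun _ => List ℕ → List ℕ) (fun a => a) (fun e _ ih a => ih (e :: a)) l

def prd (l : List ℕ) : ℕ :=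
  List.rec (motive := fun _ => ℕ) 1 (fun e _ ih => Nat.mul e ih) l

/-- Split a list by a test. -/
def part (f : ℕ → Bool) (l : List ℕ) : List ℕ → List ℕ → List ℕ × List ℕ :=
  List.rec (motive := fun _ => List ℕ → List ℕ → List ℕ × List ℕ) (fun a p => (a, p))
    (fun e _ ih a p => cnd (f e) (ih (e :: a) p) (ih a (e :: p))) l

/-- The labels are in range and pairwise coprime, and coprime to `R`. -/
def labs (l : List ℕ) : ℕ → Bool :=
  List.rec (motive := fun _ => ℕ → Bool) (fun _ => true)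
    (fun e _ ih R => cnd (Nat.ble 2 e) (cnd (Nat.ble e 65535) (cnd (cp e R)
      (frc (Nat.mul e R) ih) false) false) false) l

/-- Push the numbers `P / a * m`, `a ∈ l`. -/
def push (P m : ℕ) (l : List ℕ) : List ℕ → List ℕ :=
  List.rec (motive := fun _ => List ℕ → List ℕ) (fun a => a)
    (fun e _ ih a => frc (Nat.mul (Nat.div P e) m) fun x => ih (x :: a)) l

def news (P Q : ℕ) (A L : List ℕ) : List ℕ → List ℕ :=
  List.rec (motive := fun _ => List ℕ → List ℕ) (fun a => a)
    (fun e _ ih a => frc (Nat.mul Q e) fun m => frcL (push P m A a) ih) L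

/-- The product of the primes below `256`. -/
def PR : ℕ := 64266330917908644872330635228106713310880186591609208114244758680898150367880703152525200743234420230

def mvOk (D P Q : ℕ) (A B : Sd) (L O X : List ℕ) : Bool :=
  cnd (labs (rapp A.l B.l) PR) (cnd (Nat.beq A.hd 257) false (cnd (Nat.beq B.hd 257) false
    (cnd (cp P D) false (cnd (cp Q D) false
      (cnd (allL (fun e => cp P e) L)
        (cnd (allL (fun o => anyL (fun e => dv o (Nat.mul (Nat.mul P Q) e)) L) O)
          (cnd (allL (fun x => anyL (fun o => dv x o) O) (news Q P B.l L []))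
            (cnd (anyL (dv Q) X) false true) false) false) false))))) false

def step (D : ℕ) (A B : Sd) (L X : List ℕ) : Option (List ℕ) :=
  frc (prd A.l) fun P => frc (prd B.l) fun Q =>
    Prod.rec (motive := fun _ => Option (List ℕ))
      (fun O K => cnd (mvOk D P Q A B L O X) (frcL (news P Q A.l L K) some) none)
      (part (dv P) X [] [])

def bnd (x : Option (List ℕ)) (f : List ℕ → Option (List ℕ)) : Option (List ℕ) :=
  Option.rec (motive := fun _ => Option (List ℕ)) none f x

def run (p : Prog) : ℕ → List ℕ → Option (List ℕ) :=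
  Prog.rec (motive := fun _ => ℕ → List ℕ → Option (List ℕ)) (fun _ X => some X)
    (fun A B L _ ih D X => bnd (step D A B L X) (ih D))
    (fun E _ _ ip ir D X => cnd (dv E D)
      (Prod.rec (motive := fun _ => Option (List ℕ))
        (fun K O => bnd (ip E O) fun Y => frcL (rapp Y K) (ir D)) (part (cp E) X [] [])) none) p

def eqL (l : List ℕ) : List ℕ → Bool :=
  List.rec (motive := fun _ => List ℕ → Bool)
    (fun m => List.rec (motive := fun _ => Bool) true (fun _ _ _ => false) m)
    (fun e _ ih m => List.rec (motive := fun _ => Bool) false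
      (fun x t _ => cnd (Nat.beq e x) (ih t) false) m) l

/-- The program transforms `X` into `Y`. -/
def chk (p : Prog) (X Y : List ℕ) : Bool :=
  Option.rec (motive := fun _ => Bool) false (fun Z => eqL Z Y) (run p 0 X)

@[simp] theorem frc_eq {α : Type} (x : ℕ) (f : ℕ → α) : frc x f = f x := by cases x <;> rfl

@[simp] theorem frcL_eq {α : Type} (l : List ℕ) (f : List ℕ → α) : frcL l f = f l := by
  cases l <;> rfl

@[simp] theorem cnd_true {α : Type} (x y : α) : cnd true x y = x := rfl

@[simp] theorem cnd_false {α : Type} (x y : α) : cnd false x y = y := rfl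

theorem cnd_and {c x : Bool} : cnd c x false = true ↔ c = true ∧ x = true := by
  cases c <;> simp

theorem cnd_not {c x : Bool} : cnd c false x = true ↔ ¬ c = true ∧ x = true := by
  cases c <;> simp

theorem cnd_or {c x : Bool} : cnd c true x = true ↔ c = true ∨ x = true := by
  cases c <;> simp

theorem dv_iff {a n : ℕ} : dv a n = true ↔ a ∣ n := by
  rw [dv, Nat.beq_eq, Nat.dvd_iff_mod_eq_zero]
  rfl

theorem cp_iff {a n : ℕ} : cp a n = true ↔ a.Coprime n := by rw [cp, Nat.beq_eq]

theorem allL_iff {f : ℕ → Bool} : ∀ {l : List ℕ}, allL f l = true ↔ ∀ x ∈ l, f x = true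
  | [] => by simp [allL]
  | e :: l => by
    change cnd (f e) (allL f l) false = true ↔ _
    rw [cnd_and, allL_iff, List.forall_mem_cons]

theorem anyL_iff {f : ℕ → Bool} : ∀ {l : List ℕ}, anyL f l = true ↔ ∃ x ∈ l, f x = true
  | [] => by simp [anyL]
  | e :: l => by
    change cnd (f e) true (anyL f l) = true ↔ _
    rw [cnd_or, anyL_iff, List.exists_mem_cons_iff]

theorem mem_rapp {x : ℕ} : ∀ {l a : List ℕ}, x ∈ rapp l a ↔ x ∈ l ∨ x ∈ a
  | [], a => by simp [rapp]
  | e :: l, a => by
    change x ∈ rapp l (e :: a) ↔ _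
    rw [mem_rapp]
    simp only [List.mem_cons]
    tauto

theorem rapp_perm : ∀ l a : List ℕ, (rapp l a).Perm (l ++ a)
  | [], _ => List.Perm.refl _
  | e :: l, a => (rapp_perm l (e :: a)).trans List.perm_middle

theorem prd_eq : ∀ l : List ℕ, prd l = l.prod
  | [] => rfl
  | e :: l => by
    change e * prd l = _
    rw [prd_eq l, List.prod_cons]

theorem part_spec {f : ℕ → Bool} {x : ℕ} : ∀ {l a p : List ℕ},
    (x ∈ (part f l a p).1 ↔ x ∈ a ∨ (x ∈ l ∧ f x = true)) ∧
      (x ∈ (part f l a p).2 ↔ x ∈ p ∨ (x ∈ l ∧ ¬ f x = true))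
  | [], a, p => by simp [part]
  | e :: l, a, p => by
    have : part f (e :: l) a p = cnd (f e) (part f l (e :: a) p) (part f l a (e :: p)) := rfl
    rw [this]
    cases h : f e <;> simp only [cnd_true, cnd_false, part_spec, List.mem_cons] <;>
      by_cases hx : x = e <;> simp [hx, h]

theorem labs_spec : ∀ {l : List ℕ} {R : ℕ}, labs l R = true →
    (∀ a ∈ l, 2 ≤ a ∧ a ≤ 65535 ∧ a.Coprime R) ∧ l.Pairwise Nat.Coprime
  | [], _, _ => by simp
  | e :: l, R, h => by
    change cnd (Nat.ble 2 e) (cnd (Nat.ble e 65535) (cnd (cp e R)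
      (frc (e * R) (labs l)) false) false) false = true at h
    simp only [cnd_and, Nat.ble_eq, cp_iff, frc_eq] at h
    obtain ⟨h1, h2⟩ := labs_spec h.2.2.2
    refine ⟨List.forall_mem_cons.2 ⟨⟨h.1, h.2.1, h.2.2.1⟩, fun a ha => ⟨(h1 a ha).1, (h1 a ha).2.1,
      (h1 a ha).2.2.coprime_mul_left_right⟩⟩, List.pairwise_cons.2 ⟨fun a ha => ?_, h2⟩⟩
    exact (h1 a ha).2.2.coprime_mul_right_right.symm

theorem lab_of {a : ℕ} (h2 : 2 ≤ a) (h3 : a ≤ 65535) (h : a.Coprime PR) : Lab a := by
  refine ⟨by_contra fun hp => ?_, by omega⟩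
  have h4 := Nat.minFac_sq_le_self (by omega) hp
  have h5 : a.minFac < 256 := by nlinarith
  have h6 := Nat.minFac_prime (n := a) (by omega)
  have key : ∀ p < 256, p.Prime → p ∣ PR := by decide +kernel
  exact h6.one_lt.ne' (Nat.eq_one_of_dvd_coprimes h (Nat.minFac_dvd a) (key _ h5 h6))

theorem mem_push {P m x : ℕ} : ∀ {l a : List ℕ},
    x ∈ push P m l a ↔ x ∈ a ∨ ∃ e ∈ l, x = P / e * m
  | [], a => by simp [push]
  | e :: l, a => by
    change x ∈ frc (P / e * m) (fun y => push P m l (y :: a)) ↔ _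
    rw [frc_eq, mem_push]
    simp only [List.mem_cons, exists_eq_or_imp]
    tauto

theorem mem_news {P Q x : ℕ} {A : List ℕ} : ∀ {L a : List ℕ},
    x ∈ news P Q A L a ↔ x ∈ a ∨ ∃ m ∈ L, ∃ e ∈ A, x = P / e * (Q * m)
  | [], a => by simp [news]
  | m :: L, a => by
    change x ∈ frc (Q * m) (fun y => frcL (push P y A a) (news P Q A L)) ↔ _
    rw [frc_eq, frcL_eq, mem_news, mem_push]
    simp only [List.mem_cons, exists_eq_or_imp, or_assoc]

theorem prod_dvd_of {n : ℕ} : ∀ {l : List ℕ}, l.Pairwise Nat.Coprime → (∀ a ∈ l, a ∣ n) →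
    l.prod ∣ n
  | [], _, _ => by simp
  | e :: l, h, h' => by
    rw [List.pairwise_cons] at h
    rw [List.forall_mem_cons] at h'
    rw [List.prod_cons]
    exact (Nat.coprime_list_prod_right_iff.2 h.1).mul_dvd_of_dvd_of_dvd h'.1 (prod_dvd_of h.2 h'.2)

theorem cop_div {a : ℕ} : ∀ {l : List ℕ}, l.Pairwise Nat.Coprime → (∀ x ∈ l, 0 < x) → a ∈ l →
    a.Coprime (l.prod / a)
  | e :: l, h, h0, ha => by
    rw [List.pairwise_cons] at h
    rw [List.forall_mem_cons] at h0
    rw [List.prod_cons]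
    by_cases he : a = e
    · rw [he, Nat.mul_div_cancel_left _ h0.1]
      exact Nat.coprime_list_prod_right_iff.2 h.1
    · have ha' := (List.mem_cons.1 ha).resolve_left he
      rw [Nat.mul_div_assoc _ (List.dvd_prod ha')]
      exact (h.1 a ha').symm.mul_right (cop_div h.2 h0.2 ha')

theorem cov_half {A B : Sd} (hA : ∀ a ∈ A.l, Lab a) (pA : A.l.Pairwise Nat.Coprime)
    {X X' : List ℕ} (h : ∀ n ∈ X, (n ∈ X' ∧ ¬ A.l.prod ∣ n) ∨ ∀ a ∈ A.l, ∃ n' ∈ X',
      B.l.prod ∣ n' ∧ n ∣ a * n') : Cov A B X X' := by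
  intro n hn a ha
  rcases h n hn with h | h
  · exact ⟨n, h.1, fun _ _ hu _ => hu, fun ha => absurd (prod_dvd_of pA ha) h.2⟩
  · obtain ⟨n', hn', h1, h2⟩ := h a ha
    refine ⟨n', hn', fun u hp hu hne => ?_, fun _ b hb => (List.dvd_prod hb).trans h1⟩
    exact ((hp.dvd_mul.1 (hu.trans h2)).resolve_left fun h =>
      hne ((Nat.prime_dvd_prime_iff_eq hp (hA a ha).1).1 h))

theorem step_iso {D : ℕ} {A B : Sd} {L X Y : List ℕ} (h : step D A B L X = some Y) {R : List ℕ}
    (hR : ∀ n ∈ R, n.Coprime D) : Bij (phi A B) (phi B A) (Cn (X ++ R)) (Cn (Y ++ R)) := by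
  simp only [step, frc_eq, frcL_eq, prd_eq] at h
  set P := A.l.prod with hP
  set Q := B.l.prod with hQ
  have hs := fun x => @part_spec (dv P) x X [] []
  generalize part (dv P) X [] [] = z at h hs
  obtain ⟨O, K⟩ := z
  simp only [List.not_mem_nil, false_or, dv_iff] at hs
  change cnd (mvOk D P Q A B L O X) (some (news P Q A.l L K)) none = some Y at h
  cases hk : mvOk D P Q A B L O X
  · simp [hk] at h
  rw [hk, cnd_true, Option.some.injEq] at h
  simp only [mvOk, cnd_and, cnd_not, allL_iff, anyL_iff, dv_iff, cp_iff, Nat.beq_eq, mem_news,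
    List.not_mem_nil, false_or, and_true, not_exists, not_and] at hk
  obtain ⟨k1, k2, k3, k4, k5, k6, k7, k8, k9⟩ := hk
  obtain ⟨l1, l2⟩ := labs_spec k1
  have l3 := (rapp_perm A.l B.l).pairwise l2 (fun h => h.symm)
  rw [List.pairwise_append] at l3
  have hA : ∀ a ∈ A.l, Lab a := fun a ha =>
    have := l1 a (mem_rapp.2 (Or.inl ha))
    lab_of this.1 this.2.1 this.2.2
  have hB : ∀ a ∈ B.l, Lab a := fun a ha =>
    have := l1 a (mem_rapp.2 (Or.inr ha))
    lab_of this.1 this.2.1 this.2.2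
  have hd : ∀ a ∈ A.l, a ∉ B.l := fun a ha hb =>
    (hA a ha).1.one_lt.ne' ((Nat.coprime_self a).1 (l3.2.2 a ha a hb))
  have hRP : ∀ n ∈ R, ¬ P ∣ n := fun n hn e => k4 ((hR n hn).coprime_dvd_left e)
  have hRQ : ∀ n ∈ R, ¬ Q ∣ n := fun n hn e => k5 ((hR n hn).coprime_dvd_left e)
  have mY : ∀ n, n ∈ Y ↔ n ∈ K ∨ ∃ m ∈ L, ∃ e ∈ A.l, n = P / e * (Q * m) := fun n => by
    rw [← h, mem_news]
  have nd : ∀ {l : List ℕ} {n : ℕ}, l.Pairwise Nat.Coprime → ¬ l.prod ∣ n → ∃ a ∈ l, ¬ a ∣ n :=
    fun p e => by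
      by_contra hc
      push Not at hc
      exact e (prod_dvd_of p hc)
  refine phi_iso hd hA hB k2 k3 (cov_half hA l3.1 fun n hn => ?_)
    (cov_half hB l3.2.1 fun n hn => ?_) (fun n hn => nd l3.2.1 ?_) (fun n hn => ?_)
  · rcases List.mem_append.1 hn with hn | hn
    · by_cases e : P ∣ n
      · obtain ⟨m, hm, e'⟩ := k7 n ((hs n).1.2 ⟨hn, e⟩)
        refine Or.inr fun a ha => ⟨P / a * (Q * m), List.mem_append_left _
          ((mY _).2 (Or.inr ⟨m, hm, a, ha, rfl⟩)), ⟨P / a * m, by ring⟩, ?_⟩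
        rw [← mul_assoc, Nat.mul_div_cancel' (List.dvd_prod ha), ← mul_assoc]
        exact e'
      · exact Or.inl ⟨List.mem_append_left _ ((mY n).2 (Or.inl ((hs n).2.2 ⟨hn, e⟩))), e⟩
    · exact Or.inl ⟨List.mem_append_right _ hn, hRP n hn⟩
  · rcases List.mem_append.1 hn with hn | hn
    · rcases (mY n).1 hn with hn | ⟨m, hm, a, ha, rfl⟩
      · exact Or.inl ⟨List.mem_append_left _ ((hs n).2.1 hn).1, k9 n ((hs n).2.1 hn).1⟩
      · refine Or.inr fun b hb => ?_
        obtain ⟨o, ho, e⟩ := k8 _ ⟨m, hm, b, hb, rfl⟩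
        refine ⟨o, List.mem_append_left _ ((hs o).1.1 ho).1, ((hs o).1.1 ho).2,
          Dvd.dvd.trans ?_ (Nat.mul_dvd_mul_left b e)⟩
        rw [← mul_assoc b, Nat.mul_div_cancel' (List.dvd_prod hb)]
        refine ⟨a, ?_⟩
        have e2 : P / a * a = P := Nat.div_mul_cancel (List.dvd_prod ha)
        calc Q * (P * m) = Q * (P / a * a * m) := by rw [e2]
          _ = _ := by ring
    · exact Or.inl ⟨List.mem_append_right _ hn, hRQ n hn⟩
  · rcases List.mem_append.1 hn with hn | hn
    · exact k9 n hn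
    · exact hRQ n hn
  · rcases List.mem_append.1 hn with hn | hn
    · rcases (mY n).1 hn with hn | ⟨m, hm, a, ha, rfl⟩
      · exact nd l3.1 ((hs n).2.1 hn).2
      · refine ⟨a, ha, fun e => (hA a ha).1.one_lt.ne' (Nat.Coprime.eq_one_of_dvd ?_ e)⟩
        exact (cop_div l3.1 (fun x hx => (hA x hx).1.pos) ha).mul_right
          ((Nat.coprime_list_prod_right_iff.2 (l3.2.2 a ha)).mul_right
            ((k6 m hm).coprime_dvd_left (List.dvd_prod ha)))
    · exact nd l3.1 (hRP n hn)

theorem run_iso : ∀ (p : Prog) {D : ℕ} {X Y : List ℕ}, run p D X = some Y → ∀ {R : List ℕ},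
    (∀ n ∈ R, n.Coprime D) → Bij p.fw p.bw (Cn (X ++ R)) (Cn (Y ++ R))
  | .nil, D, X, Y, h, R, _ => by
    obtain rfl : X = Y := Option.some.inj h
    exact Bij.refl _
  | .mv A B L r, D, X, Y, h, R, hR => by
    change bnd (step D A B L X) (run r D) = some Y at h
    cases hs : step D A B L X with
    | none => simp [hs, bnd] at h
    | some Z =>
      rw [hs] at h
      exact (step_iso hs hR).trans (run_iso r h hR)
  | .blk E p r, D, X, Y, h, R, hR => by
    change cnd (dv E D) (Prod.rec (motive := fun _ => Option (List ℕ))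
      (fun K O => bnd (run p E O) fun Y => frcL (rapp Y K) (run r D)) (part (cp E) X [] [])) none =
        some Y at h
    have hs := fun x => @part_spec (cp E) x X [] []
    generalize part (cp E) X [] [] = z at h hs
    obtain ⟨K, O⟩ := z
    simp only [List.not_mem_nil, false_or, cp_iff] at hs
    cases hd : dv E D
    · simp [hd] at h
    rw [hd, cnd_true] at h
    change bnd (run p E O) (fun Y => frcL (rapp Y K) (run r D)) = some Y at h
    cases hp : run p E O with
    | none => simp [hp, bnd] at h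
    | some Z =>
      rw [hp] at h
      change frcL (rapp Z K) (run r D) = some Y at h
      rw [frcL_eq] at h
      have i1 := run_iso p hp (R := K ++ R) fun n hn => by
        rcases List.mem_append.1 hn with hn | hn
        · exact ((hs n).1.1 hn).2.symm
        · exact (hR n hn).coprime_dvd_right (dv_iff.1 hd)
      have i2 := run_iso r h hR
      rw [Cn_congr (X := O ++ (K ++ R)) (Y := X ++ R) fun n => by
          simp only [List.mem_append, (hs n).1, (hs n).2]
          tauto,
        Cn_congr (X := Z ++ (K ++ R)) (Y := rapp Z K ++ R) fun n => by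
          simp only [List.mem_append, mem_rapp, or_assoc]] at i1
      exact i1.trans i2

theorem eqL_eq : ∀ {l m : List ℕ}, eqL l m = true → l = m
  | [], [], _ => rfl
  | [], _ :: _, h => by cases h
  | _ :: _, [], h => by cases h
  | e :: l, x :: m, h => by
    change cnd (Nat.beq e x) (eqL l m) false = true at h
    rw [cnd_and, Nat.beq_eq] at h
    rw [h.1, eqL_eq h.2]

theorem chk_iso {p : Prog} {X Y : List ℕ} (h : chk p X Y = true) : Bij p.fw p.bw (Cn X) (Cn Y) := by
  unfold chk at h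
  cases hr : run p 0 X with
  | none => rw [hr] at h; cases h
  | some Z =>
    rw [hr] at h
    obtain rfl : Z = Y := eqL_eq h
    simpa using run_iso p hr (R := []) (by simp)

theorem Prog.fw_cont : ∀ p : Prog, Continuous p.fw
  | nil => continuous_id
  | mv A B _ r => r.fw_cont.comp (phi_cont A B)
  | blk _ p r => r.fw_cont.comp p.fw_cont

theorem Prog.bw_cont : ∀ p : Prog, Continuous p.bw
  | nil => continuous_id
  | mv A B _ r => (phi_cont B A).comp r.bw_cont
  | blk _ p r => p.bw_cont.comp r.bw_cont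

theorem Prog.fw_smul {c : ℝ} (hc : 0 ≤ c) : ∀ (p : Prog) (w : ℕ → ℝ), p.fw (c • w) = c • p.fw w
  | nil, _ => rfl
  | mv A B _ r, w => by simp only [fw, Function.comp, phi_smul A B hc, r.fw_smul hc]
  | blk _ p r, w => by simp only [fw, Function.comp, p.fw_smul hc, r.fw_smul hc]

theorem Prog.bw_smul {c : ℝ} (hc : 0 ≤ c) : ∀ (p : Prog) (w : ℕ → ℝ), p.bw (c • w) = c • p.bw w
  | nil, _ => rfl
  | mv A B _ r, w => by simp only [bw, Function.comp, r.bw_smul hc, phi_smul B A hc]
  | blk _ p r, w => by simp only [bw, Function.comp, p.bw_smul hc, r.bw_smul hc]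

end Pool.Agent.Lib.MP_36248f_gt.Tp
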