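import Pool.Agent.Lib.MP_36248f_gt.Tp.Run

/-!
Finite unions of planar cones are preserved by moves.
-/

set_option autoImplicit false

noncomputable section

namespace Pool.Agent.Lib.MP_36248f_gt.Tp

open Set

/-- The planar cone spanned by two vectors, without the coefficients `(0, 0)`. -/
def seg {V : Type} [AddCommGroup V] [Module ℝ V] (u v : V) : Set V :=
  {x | ∃ s t : ℝ, 0 ≤ s ∧ 0 ≤ t ∧ 0 < s + t ∧ x = s • u + t • v}

def FU {V : Type} [AddCommGroup V] [Module ℝ V] (S : Set V) : Prop :=
  ∃ A : Set (V × V), A.Finite ∧ S = ⋃ e ∈ A, seg e.1 e.2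

section
variable {V W : Type} [AddCommGroup V] [Module ℝ V] [AddCommGroup W] [Module ℝ W]

/-- The map is linear on the cone. -/
def segLin (f : V → W) (u v : V) : Prop :=
  ∀ s t : ℝ, 0 ≤ s → 0 ≤ t → 0 < s + t → f (s • u + t • v) = s • f u + t • f v

/-- A finite union of cones with a property. -/
def segPW (P : V → V → Prop) (S : Set V) : Prop :=
  ∃ A : Set (V × V), A.Finite ∧ S = (⋃ e ∈ A, seg e.1 e.2) ∧ ∀ e ∈ A, P e.1 e.2

theorem segPW_one {P : V → V → Prop} {u v : V} (h : P u v) : segPW P (seg u v) :=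
  ⟨{(u, v)}, finite_singleton _, by simp, by simpa using h⟩

theorem segPW_two {P : V → V → Prop} {u v u' v' : V} (h : P u v) (h' : P u' v') :
    segPW P (seg u v ∪ seg u' v') :=
  ⟨{(u, v), (u', v')}, toFinite _, by simp, by simpa using ⟨h, h'⟩⟩

theorem segPW_bind {P Q : V → V → Prop} {S : Set V} (h : segPW P S)
    (H : ∀ u v, P u v → segPW Q (seg u v)) : segPW Q S := by
  obtain ⟨A, hA, rfl, hP⟩ := h
  choose! F h1 h2 h3 using H
  refine ⟨⋃ e ∈ A, F e.1 e.2, hA.biUnion fun e he => h1 _ _ (hP e he), ?_, ?_⟩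
  · ext x
    simp only [mem_iUnion, exists_prop]
    constructor
    · rintro ⟨e, he, hx⟩
      rw [h2 _ _ (hP e he)] at hx
      simp only [mem_iUnion, exists_prop] at hx
      obtain ⟨e', he', hx⟩ := hx
      exact ⟨e', ⟨e, he, he'⟩, hx⟩
    · rintro ⟨e', ⟨e, he, he'⟩, hx⟩
      refine ⟨e, he, ?_⟩
      rw [h2 _ _ (hP e he)]
      simp only [mem_iUnion, exists_prop]
      exact ⟨e', he', hx⟩
  · intro e' he'
    simp only [mem_iUnion, exists_prop] at he'
    obtain ⟨e, he, he'⟩ := he'
    exact h3 _ _ (hP e he) e' he'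

theorem seg_image {f : V → W} {u v : V} (h : segLin f u v) : f '' seg u v = seg (f u) (f v) := by
  ext y
  constructor
  · rintro ⟨_, ⟨s, t, hs, ht, hst, rfl⟩, rfl⟩
    exact ⟨s, t, hs, ht, hst, h s t hs ht hst⟩
  · rintro ⟨s, t, hs, ht, hst, rfl⟩
    exact ⟨_, ⟨s, t, hs, ht, hst, rfl⟩, h s t hs ht hst⟩

theorem segPW_image {f : V → W} {S : Set V} (h : segPW (segLin f) S) : FU (f '' S) := by
  obtain ⟨A, hA, rfl, hP⟩ := h
  refine ⟨(fun e => (f e.1, f e.2)) '' A, hA.image _, ?_⟩
  rw [biUnion_image, image_iUnion₂]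
  exact iUnion₂_congr fun e he => seg_image (hP e he)

theorem segLin_left {f : V → W} {u v : V} (h : segLin f u v) {a b : ℝ} (ha : 0 < a) (hb : 0 < b) :
    segLin f u (a • u + b • v) := by
  intro s t hs ht hst
  have e : s • u + t • (a • u + b • v) = (s + t * a) • u + (t * b) • v := by module
  have h1 : 0 < s + t * a + t * b := by
    rcases ht.eq_or_lt with rfl | h2
    · simpa using hst
    · positivity
  rw [e, h _ _ (by positivity) (by positivity) h1, h a b ha.le hb.le (by positivity)]
  module

theorem segLin_symm {f : V → W} {u v : V} (h : segLin f u v) : segLin f v u := by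
  intro s t hs ht hst
  rw [add_comm, h t s ht hs (by linarith), add_comm]

theorem segLin_right {f : V → W} {u v : V} (h : segLin f u v) {a b : ℝ} (ha : 0 < a)
    (hb : 0 < b) : segLin f (a • u + b • v) v := by
  rw [add_comm]
  exact segLin_symm (segLin_left (segLin_symm h) hb ha)

theorem seg_cut (u v : V) {a b : ℝ} (ha : 0 < a) (hb : 0 < b) :
    seg u v = seg u (a • u + b • v) ∪ seg (a • u + b • v) v := by
  ext x
  constructor
  · rintro ⟨s, t, hs, ht, hst, rfl⟩
    rcases le_total (t / b) (s / a) with h | h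
    · have h1 : 0 ≤ s - t / b * a := sub_nonneg.2 ((le_div_iff₀ ha).1 h)
      refine Or.inl ⟨s - t / b * a, t / b, h1, by positivity, ?_, ?_⟩
      · rcases ht.eq_or_lt with rfl | h2
        · simpa using hst
        · positivity
      · have : t = t / b * b := (div_mul_cancel₀ t hb.ne').symm
        generalize t / b = c at this ⊢
        subst this
        module
    · have h1 : 0 ≤ t - s / a * b := sub_nonneg.2 ((le_div_iff₀ hb).1 h)
      refine Or.inr ⟨s / a, t - s / a * b, by positivity, h1, ?_, ?_⟩
      · rcases hs.eq_or_lt with rfl | h2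
        · simpa using hst
        · positivity
      · have : s = s / a * a := (div_mul_cancel₀ s ha.ne').symm
        generalize s / a = c at this ⊢
        subst this
        module
  · rintro (⟨s, t, hs, ht, hst, rfl⟩ | ⟨s, t, hs, ht, hst, rfl⟩)
    · refine ⟨s + t * a, t * b, by positivity, by positivity, ?_, by module⟩
      rcases ht.eq_or_lt with rfl | h2
      · simpa using hst
      · positivity
    · refine ⟨s * a, s * b + t, by positivity, by positivity, ?_, by module⟩
      rcases hs.eq_or_lt with rfl | h2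
      · simpa using hst
      · positivity

theorem segLin_min {g h : V → ℝ} {u v : V} (hg : segLin g u v) (hh : segLin h u v)
    (h1 : g u ≤ h u) (h2 : g v ≤ h v) : segLin (fun x => min (g x) (h x)) u v := by
  intro s t hs ht hst
  show min (g _) (h _) = s • min (g u) (h u) + t • min (g v) (h v)
  rw [hg s t hs ht hst, hh s t hs ht hst, min_eq_left h1, min_eq_left h2]
  exact min_eq_left (add_le_add (mul_le_mul_of_nonneg_left h1 hs) (mul_le_mul_of_nonneg_left h2 ht))

theorem segLin_min' {g h : V → ℝ} {u v : V} (hg : segLin g u v) (hh : segLin h u v)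
    (h1 : h u ≤ g u) (h2 : h v ≤ g v) : segLin (fun x => min (g x) (h x)) u v := by
  simpa only [min_comm] using segLin_min hh hg h1 h2

theorem segPW_min {g h : V → ℝ} {u v : V} (hg : segLin g u v) (hh : segLin h u v) :
    segPW (segLin fun x => min (g x) (h x)) (seg u v) := by
  rcases lt_trichotomy (g u) (h u) with h1 | h1 | h1
  · rcases le_or_gt (g v) (h v) with h2 | h2
    · exact segPW_one (segLin_min hg hh h1.le h2)
    · have ha : 0 < g v - h v := sub_pos.2 h2
      have hb : 0 < h u - g u := sub_pos.2 h1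
      have e : g ((g v - h v) • u + (h u - g u) • v) = h ((g v - h v) • u + (h u - g u) • v) := by
        rw [hg _ _ ha.le hb.le (by positivity), hh _ _ ha.le hb.le (by positivity)]
        simp only [smul_eq_mul]
        ring
      rw [seg_cut u v ha hb]
      exact segPW_two (segLin_min (segLin_left hg ha hb) (segLin_left hh ha hb) h1.le e.le)
        (segLin_min' (segLin_right hg ha hb) (segLin_right hh ha hb) e.ge h2.le)
  · rcases le_total (g v) (h v) with h2 | h2
    · exact segPW_one (segLin_min hg hh h1.le h2)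
    · exact segPW_one (segLin_min' hg hh h1.ge h2)
  · rcases le_or_gt (h v) (g v) with h2 | h2
    · exact segPW_one (segLin_min' hg hh h1.le h2)
    · have ha : 0 < h v - g v := sub_pos.2 h2
      have hb : 0 < g u - h u := sub_pos.2 h1
      have e : g ((h v - g v) • u + (g u - h u) • v) = h ((h v - g v) • u + (g u - h u) • v) := by
        rw [hg _ _ ha.le hb.le (by positivity), hh _ _ ha.le hb.le (by positivity)]
        simp only [smul_eq_mul]
        ring
      rw [seg_cut u v ha hb]
      exact segPW_two (segLin_min' (segLin_left hg ha hb) (segLin_left hh ha hb) h1.le e.ge)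
        (segLin_min (segLin_right hg ha hb) (segLin_right hh ha hb) e.le h2.le)

theorem segPW_of_FU {P : V → V → Prop} {S : Set V} (h : FU S) (H : ∀ u v, P u v) : segPW P S := by
  obtain ⟨A, hA, e⟩ := h
  exact ⟨A, hA, e, fun e _ => H _ _⟩

theorem segPW_mn {S : Set V} (h : FU S) {f : ℕ → V → ℝ} (hf : ∀ a u v, segLin (f a) u v) (a : ℕ) :
    ∀ l : List ℕ, segPW (segLin fun x => mn (fun b => f b x) a l) S
  | [] => segPW_of_FU h (hf a)
  | b :: l => segPW_bind (segPW_mn h hf a l) fun u v huv => segPW_min (hf b u v) huv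

end

theorem FU.lin {V W : Type} [AddCommGroup V] [Module ℝ V] [AddCommGroup W] [Module ℝ W] {S : Set V}
    (h : FU S) (f : V →ₗ[ℝ] W) : FU (f '' S) :=
  segPW_image (segPW_of_FU h fun u v s t _ _ _ => by rw [map_add, map_smul, map_smul])

theorem FU.phi {S : Set (ℕ → ℝ)} (h : FU S) (A B : Sd) : FU (phi A B '' S) := by
  have h1 : segPW (segLin A.t) S := segPW_mn h (f := fun a w => w a / A.w a)
    (fun a u v s t _ _ _ => by
      simp only [Pi.add_apply, Pi.smul_apply, smul_eq_mul]
      ring) A.hd A.tl
  refine segPW_image (segPW_bind h1 fun u v huv => segPW_one fun s t hs ht hst => ?_)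
  funext x
  simp only [Tp.phi, huv s t hs ht hst, Pi.add_apply, Pi.smul_apply, smul_eq_mul]
  ring

theorem FU.fw {S : Set (ℕ → ℝ)} (h : FU S) (p : Prog) : FU (p.fw '' S) := by
  induction p generalizing S with
  | nil => simpa [Prog.fw] using h
  | mv A B L r ih =>
    rw [Prog.fw, image_comp]
    exact ih (h.phi A B)
  | blk D p r ihp ihr =>
    rw [Prog.fw, image_comp]
    exact ihr (ihp h)

end Pool.Agent.Lib.MP_36248f_gt.Tp
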