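import Pool.Agent.Lib.MP_36248f_gt.Tp.Run

/-!
Relabelling along a table.
-/

set_option autoImplicit false

noncomputable section

namespace Pool.Agent.Lib.MP_36248f_gt.Tp

open Set

/-- The first entry for `u`, or `0`. -/
def lk (T : List (ℕ × ℕ)) (u : ℕ) : ℕ :=
  List.rec (motive := fun _ => ℕ) 0 (fun e _ ih => cnd (Nat.beq e.1 u) e.2 ih) T

def fsts (T : List (ℕ × ℕ)) : List ℕ :=
  List.rec (motive := fun _ => List ℕ) [] (fun e _ ih => e.1 :: ih) T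

def snds (T : List (ℕ × ℕ)) : List ℕ :=
  List.rec (motive := fun _ => List ℕ) [] (fun e _ ih => e.2 :: ih) T

def sw (T : List (ℕ × ℕ)) : List (ℕ × ℕ) :=
  List.rec (motive := fun _ => List (ℕ × ℕ)) [] (fun e _ ih => (e.2, e.1) :: ih) T

/-- Pull weights back along the table. -/
def pb (T : List (ℕ × ℕ)) (w : ℕ → ℝ) (u : ℕ) : ℝ := if lk T u = 0 then 0 else w (lk T u)

/-- Push weights forward along the table. -/
def ps (T : List (ℕ × ℕ)) : (ℕ → ℝ) → ℕ → ℝ := pb (sw T)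

/-- The code of the relabelled simplex. -/
def tr (T : List (ℕ × ℕ)) (n : ℕ) : ℕ :=
  List.rec (motive := fun _ => ℕ) 1 (fun e _ ih => cnd (dv e.1 n) (Nat.mul e.2 ih) ih) T

/-- Push the relabelled simplices on the list `a`. -/
def trL (T : List (ℕ × ℕ)) (X : List ℕ) : List ℕ → List ℕ :=
  List.rec (motive := fun _ => List ℕ → List ℕ) (fun a => a)
    (fun n _ ih a => frc (tr T n) fun y => ih (y :: a)) X

/-- The table is a bijection between two sets of labels that fixes the cusp. -/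
structure TabOk (T : List (ℕ × ℕ)) : Prop where
  l1 : ∀ e ∈ T, Lab e.1
  l2 : ∀ e ∈ T, Lab e.2
  i1 : ∀ e ∈ T, ∀ e' ∈ T, e.1 = e'.1 → e = e'
  i2 : ∀ e ∈ T, ∀ e' ∈ T, e.2 = e'.2 → e = e'
  cusp : (257, 257) ∈ T

def tabOk (T : List (ℕ × ℕ)) : Bool :=
  cnd (labs (fsts T) PR) (cnd (labs (snds T) PR) (Nat.beq (lk T 257) 257) false) false

/-- All simplices of the list only have labels from the table. -/
def inTab (T : List (ℕ × ℕ)) (X : List ℕ) : Bool := frc (prd (fsts T)) fun P => allL (fun n => dv n P) X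

theorem fsts_eq (T : List (ℕ × ℕ)) : fsts T = T.map Prod.fst := by
  induction T with
  | nil => rfl
  | cons e T ih => exact congrArg (e.1 :: ·) ih

theorem snds_eq (T : List (ℕ × ℕ)) : snds T = T.map Prod.snd := by
  induction T with
  | nil => rfl
  | cons e T ih => exact congrArg (e.2 :: ·) ih

theorem sw_eq (T : List (ℕ × ℕ)) : sw T = T.map Prod.swap := by
  induction T with
  | nil => rfl
  | cons e T ih => exact congrArg ((e.2, e.1) :: ·) ih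

theorem sw_sw (T : List (ℕ × ℕ)) : sw (sw T) = T := by
  simp [sw_eq]

theorem tab_mem_sw {T : List (ℕ × ℕ)} {u v : ℕ} : (u, v) ∈ sw T ↔ (v, u) ∈ T := by
  rw [sw_eq, List.mem_map]
  constructor
  · rintro ⟨⟨a, b⟩, h, e⟩
    obtain ⟨rfl, rfl⟩ := Prod.mk.inj e
    exact h
  · exact fun h => ⟨_, h, rfl⟩

theorem tab_lk_cons (e : ℕ × ℕ) (T : List (ℕ × ℕ)) (u : ℕ) :
    lk (e :: T) u = if e.1 = u then e.2 else lk T u := by
  change cnd (Nat.beq e.1 u) e.2 (lk T u) = _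
  split_ifs with h
  · rw [Nat.beq_eq.mpr h, cnd_true]
  · rw [Bool.eq_false_iff.mpr (fun k => h (Nat.beq_eq.mp k)), cnd_false]

theorem lk_mem {T : List (ℕ × ℕ)} {u : ℕ} (h : lk T u ≠ 0) : (u, lk T u) ∈ T := by
  induction T with
  | nil => exact absurd rfl h
  | cons e T ih =>
    rw [tab_lk_cons] at h ⊢
    split_ifs at h ⊢ with k
    · rw [← k]
      exact List.mem_cons_self
    · exact List.mem_cons_of_mem _ (ih h)

theorem tab_lk_ex {T : List (ℕ × ℕ)} {u v : ℕ} (h : (u, v) ∈ T) : (u, lk T u) ∈ T := by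
  induction T with
  | nil => simp at h
  | cons e T ih =>
    rw [tab_lk_cons]
    split_ifs with k
    · rw [← k]
      exact List.mem_cons_self
    · refine List.mem_cons_of_mem _ (ih ((List.mem_cons.1 h).resolve_left ?_))
      rintro rfl
      exact k rfl

theorem tab_inj {T : List (ℕ × ℕ)} {f : ℕ × ℕ → ℕ} (h : labs (T.map f) PR = true) :
    (∀ e ∈ T, Lab (f e)) ∧ ∀ e ∈ T, ∀ e' ∈ T, f e = f e' → e = e' := by
  obtain ⟨h1, h2⟩ := labs_spec h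
  have h3 : ∀ e ∈ T, Lab (f e) := fun e he =>
    have := h1 _ (List.mem_map_of_mem (f := f) he)
    lab_of this.1 this.2.1 this.2.2
  refine ⟨h3, fun e he e' he' k => by_contra fun hne => ?_⟩
  rw [List.pairwise_map] at h2
  have : Std.Symm fun a b : ℕ × ℕ => (f a).Coprime (f b) := ⟨fun _ _ => Nat.Coprime.symm⟩
  have h4 : (f e).Coprime (f e') := h2.forall he he' hne
  rw [← k, Nat.coprime_self] at h4
  exact (h3 e he).1.one_lt.ne' h4

theorem tabOk_spec {T : List (ℕ × ℕ)} (h : tabOk T = true) : TabOk T := by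
  simp only [tabOk, cnd_and, Nat.beq_eq, fsts_eq, snds_eq] at h
  obtain ⟨h1, h2, h3⟩ := h
  refine ⟨(tab_inj h1).1, (tab_inj h2).1, (tab_inj h1).2, (tab_inj h2).2, ?_⟩
  have := lk_mem (T := T) (u := 257) (by omega)
  rwa [h3] at this

theorem TabOk.sw {T : List (ℕ × ℕ)} (h : TabOk T) : TabOk (sw T) :=
  ⟨fun e he => h.l2 (e.2, e.1) (tab_mem_sw.1 he), fun e he => h.l1 (e.2, e.1) (tab_mem_sw.1 he),
    fun e he e' he' k => Prod.swap_injective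
      (h.i2 (e.2, e.1) (tab_mem_sw.1 he) (e'.2, e'.1) (tab_mem_sw.1 he') k),
    fun e he e' he' k => Prod.swap_injective
      (h.i1 (e.2, e.1) (tab_mem_sw.1 he) (e'.2, e'.1) (tab_mem_sw.1 he') k),
    tab_mem_sw.2 h.cusp⟩

theorem TabOk.lk_eq {T : List (ℕ × ℕ)} (h : TabOk T) {u v : ℕ} (e : (u, v) ∈ T) : lk T u = v :=
  congrArg Prod.snd (h.i1 _ (tab_lk_ex e) _ e rfl)

theorem TabOk.pb_eq {T : List (ℕ × ℕ)} (h : TabOk T) {u v : ℕ} (e : (u, v) ∈ T) (w : ℕ → ℝ) :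
    pb T w u = w v := by
  rw [pb, h.lk_eq e, if_neg (h.l2 _ e).1.ne_zero]

theorem TabOk.ps_eq {T : List (ℕ × ℕ)} (h : TabOk T) {u v : ℕ} (e : (u, v) ∈ T) (w : ℕ → ℝ) :
    ps T w v = w u := h.sw.pb_eq (tab_mem_sw.2 e) w

theorem pb_ne {T : List (ℕ × ℕ)} {w : ℕ → ℝ} {u : ℕ} (h : pb T w u ≠ 0) :
    ∃ v, (u, v) ∈ T ∧ pb T w u = w v := by
  by_cases k : lk T u = 0
  · exact absurd (if_pos k) h
  · exact ⟨_, lk_mem k, if_neg k⟩

theorem ps_ne {T : List (ℕ × ℕ)} {w : ℕ → ℝ} {v : ℕ} (h : ps T w v ≠ 0) :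
    ∃ u, (u, v) ∈ T ∧ ps T w v = w u :=
  (pb_ne h).imp fun _ k => ⟨tab_mem_sw.1 k.1, k.2⟩

theorem pb_cont (T : List (ℕ × ℕ)) : Continuous (pb T) := by
  refine continuous_pi fun u => ?_
  unfold pb
  split_ifs
  · exact continuous_const
  · exact continuous_apply _

theorem ps_cont (T : List (ℕ × ℕ)) : Continuous (ps T) := pb_cont _

theorem pb_smul (T : List (ℕ × ℕ)) (c : ℝ) (w : ℕ → ℝ) : pb T (c • w) = c • pb T w := by
  funext u
  simp only [pb, Pi.smul_apply, smul_eq_mul]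
  split_ifs <;> simp

theorem ps_smul (T : List (ℕ × ℕ)) (c : ℝ) (w : ℕ → ℝ) : ps T (c • w) = c • ps T w :=
  pb_smul _ c w

theorem tab_dvd_tr {T : List (ℕ × ℕ)} (h : ∀ e ∈ T, Lab e.2) {n v : ℕ} (hv : v.Prime) :
    v ∣ tr T n ↔ ∃ u, (u, v) ∈ T ∧ u ∣ n := by
  induction T with
  | nil => simpa [tr] using hv.one_lt.ne'
  | cons e T ih =>
    obtain ⟨a, b⟩ := e
    have h1 := ih fun e he => h e (List.mem_cons_of_mem _ he)
    have h2 : b.Prime := (h _ List.mem_cons_self).1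
    change v ∣ cnd (dv a n) (b * tr T n) (tr T n) ↔ _
    simp only [List.mem_cons, Prod.mk.injEq, or_and_right, exists_or, ← h1]
    cases k : dv a n
    · have k' : ¬ a ∣ n := fun x => by simp [dv_iff.2 x] at k
      rw [cnd_false]
      refine ⟨Or.inr, fun x => x.resolve_left ?_⟩
      rintro ⟨u, y, z⟩
      exact k' (y.1 ▸ z)
    · rw [cnd_true, hv.dvd_mul, Nat.prime_dvd_prime_iff_eq hv h2]
      exact or_congr ⟨fun x => ⟨a, ⟨rfl, x⟩, dv_iff.1 k⟩, fun ⟨_, x, _⟩ => x.2⟩ Iff.rfl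

theorem TabOk.dvd_tr {T : List (ℕ × ℕ)} (h : TabOk T) {n v : ℕ} (hv : v.Prime) :
    v ∣ tr T n ↔ ∃ u, (u, v) ∈ T ∧ u ∣ n := tab_dvd_tr h.l2 hv

theorem mem_trL {T : List (ℕ × ℕ)} {y : ℕ} {X a : List ℕ} :
    y ∈ trL T X a ↔ y ∈ a ∨ ∃ n ∈ X, y = tr T n := by
  induction X generalizing a with
  | nil => simp [trL]
  | cons n X ih =>
    change y ∈ frc (tr T n) (fun x => trL T X (x :: a)) ↔ _
    rw [frc_eq, ih]
    simp only [List.mem_cons, exists_eq_or_imp]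
    tauto

theorem TabOk.inTab_spec {T : List (ℕ × ℕ)} (h : TabOk T) {X : List ℕ} (hX : inTab T X = true) :
    ∀ n ∈ X, ∀ u, u.Prime → u ∣ n → ∃ v, (u, v) ∈ T := by
  simp only [inTab, frc_eq, allL_iff, dv_iff, prd_eq, fsts_eq] at hX
  intro n hn u hu hd
  obtain ⟨a, ha, k⟩ := (Prime.dvd_prod_iff hu.prime).1 (hd.trans (hX n hn))
  obtain ⟨e, he, rfl⟩ := List.mem_map.1 ha
  obtain rfl := (Nat.prime_dvd_prime_iff_eq hu (h.l1 e he).1).1 k
  exact ⟨e.2, he⟩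

theorem TabOk.pb_ps {T : List (ℕ × ℕ)} (h : TabOk T) {w : ℕ → ℝ}
    (hw : ∀ u, w u ≠ 0 → ∃ v, (u, v) ∈ T) : pb T (ps T w) = w := by
  funext u
  by_cases k : ∃ v, (u, v) ∈ T
  · obtain ⟨v, e⟩ := k
    rw [h.pb_eq e, h.ps_eq e]
  · have h1 : w u = 0 := by_contra fun x => k (hw u x)
    rw [h1]
    by_contra x
    exact k ((pb_ne x).imp fun _ y => y.1)

theorem TabOk.sup_ps {T : List (ℕ × ℕ)} (h : TabOk T) {w : ℕ → ℝ} {n : ℕ} (hw : Sup w n) :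
    Sup (ps T w) (tr T n) := by
  intro v hv
  obtain ⟨u, e, k⟩ := ps_ne hv
  exact ⟨h.l2 _ e, (h.dvd_tr (h.l2 _ e).1).2 ⟨u, e, (hw u (k ▸ hv)).2⟩⟩

theorem tab_nonneg (T : List (ℕ × ℕ)) {w : ℕ → ℝ} (hw : ∀ u, 0 ≤ w u) (u : ℕ) : 0 ≤ pb T w u := by
  unfold pb
  split_ifs
  · exact le_rfl
  · exact hw _

theorem TabOk.bij {T : List (ℕ × ℕ)} (h : TabOk T) {X : List ℕ} (hX : inTab T X = true) :
    Bij (ps T) (pb T) (Cn X) (Cn (trL T X [])) := by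
  have h1 : ∀ w ∈ Cn X, ∀ u, w u ≠ 0 → ∃ v, (u, v) ∈ T := by
    rintro w ⟨-, -, n, hn, hs⟩ u hu
    exact h.inTab_spec hX n hn u (hs u hu).1.1 (hs u hu).2
  have h2 : ∀ w ∈ Cn (trL T X []), ∃ n ∈ X, ∀ v, w v ≠ 0 → ∃ u, (u, v) ∈ T ∧ u ∣ n := by
    rintro w ⟨-, -, y, hy, hs⟩
    obtain ⟨n, hn, rfl⟩ := (mem_trL.1 hy).resolve_left List.not_mem_nil
    exact ⟨n, hn, fun v hv => (h.dvd_tr (hs v hv).1.1).1 (hs v hv).2⟩
  refine ⟨fun w hw => ?_, fun w hw => ?_, fun w hw => h.pb_ps (h1 w hw), fun w hw => ?_⟩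
  · have k := h1 w hw
    obtain ⟨h0, ⟨u, hu, hu'⟩, n, hn, hs⟩ := hw
    obtain ⟨v, e⟩ := k u hu'
    refine ⟨tab_nonneg _ h0, ⟨v, ?_, by rwa [h.ps_eq e]⟩, _, mem_trL.2 (Or.inr ⟨n, hn, rfl⟩),
      h.sup_ps hs⟩
    rintro rfl
    exact hu (congrArg Prod.fst (h.i2 _ e _ h.cusp rfl))
  · obtain ⟨n, hn, k⟩ := h2 w hw
    obtain ⟨h0, ⟨v, hv, hv'⟩, -⟩ := hw
    obtain ⟨u, e, -⟩ := k v hv'
    refine ⟨tab_nonneg _ h0, ⟨u, ?_, by rwa [h.pb_eq e]⟩, n, hn, fun a ha => ?_⟩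
    · rintro rfl
      exact hv (congrArg Prod.snd (h.i1 _ e _ h.cusp rfl))
    · obtain ⟨b, e1, e2⟩ := pb_ne ha
      obtain ⟨a', e3, e4⟩ := k b (e2 ▸ ha)
      obtain rfl : a' = a := congrArg Prod.fst (h.i2 _ e3 _ e1 rfl)
      exact ⟨h.l1 _ e1, e4⟩
  · obtain ⟨n, -, k⟩ := h2 w hw
    have := h.sw.pb_ps (w := w) fun v hv => (k v hv).imp fun _ x => tab_mem_sw.2 x.1
    rwa [ps, sw_sw] at this

end Pool.Agent.Lib.MP_36248f_gt.Tp
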