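import Pool.Agent.Lib.MP_36248f_gt.Cone
import Pool.Agent.Lib.MP_36248f_gt.WallGp
import Pool.Agent.Lib.MP_36248f_gt.Tp.Cell
import Pool.Agent.Lib.MP_36248f_gt.Tp.Flag
import Pool.Agent.Lib.MP_36248f_gt.Tp.Join

/-!
The lower wall (`b = false`) and the upper wall (`b = true`) of a piece.
-/

set_option autoImplicit false

noncomputable section

namespace Pool.Agent.Lib.MP_36248f_gt.Tp

open Set

theorem sg_pos (x : ℕ) : 0 < sg x := by
  unfold sg
  cases Nat.testBit 305655870472655101814016258112225276 x <;> decide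

theorem pn_eq (t : Ty) (s : ℕ) (a : Fin 120) : pn t s a = (pf t s a : ℕ) := rfl

/-- The matrices of the three mirrors of the standard wall. -/
def waF : Fin 3 → M2 := ![(-1, 1, 0, 1), (-1, 0, 0, 1), (0, 1, 1, 0)]

theorem wa_lt (t : Ty) (i : Fin 3) : i.1 < ng t := i.2.trans (three_le_ng t)

theorem wa_R (i : Fin 3) (p : R3) : R (nm .S i) (J p) = J (mr (waF i) p) := by
  rw [R_apply (nm_unit .S ⟨i, wa_lt .S i⟩)]
  fin_cases i <;> ext k <;> fin_cases k <;> simp [nm, J, mr, waF, B] <;> ring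

theorem wa_coe (l : List (Fin 3)) :
    (do let a ← l; pure (a : ℕ) : List ℕ) = l.map fun i : Fin 3 => (i : ℕ) := by
  induction l with
  | nil => rfl
  | cons i l ih => rw [List.map_cons, ← ih]; rfl

theorem wa_rep : ∀ a : Fin 120,
    (word a).foldr (fun i m => mm (waF i) m) (1, 0, 0, 1) = rep a := by
  decide +kernel

theorem rp_J (a : Fin 120) (p : R3) : rp a (J p) = J (mr (rep a) p) := by
  rw [← wa_rep, rp, wa_coe, List.map_map]
  induction word a with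
  | nil => rw [List.foldr_nil, mr_one]; rfl
  | cons i l ih =>
    rw [List.map_cons, List.prod_cons, LinearEquiv.mul_apply, ih, List.foldr_cons, ← mr_mr]
    exact wa_R i _

theorem J_unJ {v : V} (h : v 1 = 0) : J (unJ v) = v := by
  ext k
  fin_cases k <;> simp [J, unJ, h]

theorem unJ_J (p : R3) : unJ (J p) = p := rfl

theorem wa_EZ (m : Matrix.SpecialLinearGroup (Fin 2) ℤ) (v : V) :
    unJ (EZ m v) = mr (m 0 0, m 0 1, m 1 0, m 1 1) (unJ v) ∧ EZ m v 1 = v 1 := by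
  have e : EZ m v = El (m.1.map (Int.cast : ℤ → ℝ)) v := rfl
  have hd : (m.1.map (Int.cast : ℤ → ℝ)).det = 1 := by
    have h := m.det_coe
    rw [Matrix.det_fin_two] at h ⊢
    simp only [Matrix.map_apply]
    exact_mod_cast h
  rw [e]
  refine ⟨Prod.ext ?_ (Prod.ext ?_ ?_), rfl⟩ <;> simp [unJ, mr, El, hd] <;> ring

theorem eqv_iff {v v' : V} (h : v 1 = 0) (h' : v' 1 = 0) :
    Eqv (unJ v) (unJ v') ↔ ∃ m ∈ LamZ, v = EZ m v' := by
  constructor
  · rintro ⟨⟨a, b, c, d⟩, hm, e⟩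
    obtain ⟨h0, k, q, r, s, hs, h1, h2, -⟩ := inL_iff.1 hm
    let m : Matrix.SpecialLinearGroup (Fin 2) ℤ :=
      ⟨!![a, b; c, d], by rw [Matrix.det_fin_two_of]; exact h0⟩
    refine ⟨m, ⟨⟨k, h1⟩, hs.imp (fun hs => ⟨q, ?_⟩) fun hs => ⟨q, ?_⟩⟩, ?_⟩
    · change a - 1 = _
      rw [h2, hs]
      ring
    · change a + 1 = _
      rw [h2, hs]
      ring
    · rw [← J_unJ h, ← J_unJ ((wa_EZ m v').2.trans h'), (wa_EZ m v').1, e]
      rfl
  · rintro ⟨m, ⟨⟨k, hk⟩, hm⟩, rfl⟩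
    have hd := m.det_coe
    rw [Matrix.det_fin_two] at hd
    refine ⟨_, inL_iff.2 ⟨hd, ?_⟩, (wa_EZ m v').1⟩
    rcases hm with ⟨q, hq⟩ | ⟨q, hq⟩
    · exact ⟨k, q, 5 * m 0 1 * k - q * m 1 1, 1, Or.inl rfl, hk, by linear_combination hq,
        by linear_combination hd - m 1 1 * hq + m 0 1 * hk⟩
    · exact ⟨k, q, q * m 1 1 - 5 * m 0 1 * k, -1, Or.inr rfl, hk, by linear_combination hq,
        by linear_combination m 1 1 * hq - hd - m 0 1 * hk⟩

theorem tw_unJ (j : ℤ) (v : V) : tw j (unJ v) = unJ (MP_36248f_gt.tr (-j / 5) 0 v) := by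
  refine Prod.ext ?_ (Prod.ext ?_ ?_) <;> simp [tw, mr, unJ, tr_apply, afv] <;> ring

def wtau (t : Ty) : Bool → GV
  | false => 1
  | true => tau t

/-- The point of the tile with flag `a` and weights `w`. -/
def pnt (t : Ty) (a : ℕ) (w : ℕ → ℝ) : V := cen (cs t) (cc t (sg a)) w

theorem chain_ok (t : Ty) : chainOk (ng t) (zt t) (ch t) = true := by cases t <;> decide +kernel

/-- The number of the face of the wall. -/
def wallb_f (t : Ty) (b : Bool) : ℕ := if b = false ∨ t = .S then ng t else ng t + 1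

theorem wallb_dec (t : Ty) (b : Bool) : wallb_f t b < fm t ∧ ng t ≤ fm t ∧
    (257 :: (wc t b).map Prod.fst).Nodup ∧ (∀ u ∈ 257 :: (wc t b).map Prod.fst, u ∈ cs t) ∧
    (∀ u ∈ cs t, ((zz t u).testBit (wallb_f t b) = true ↔ u ∈ 257 :: (wc t b).map Prod.fst) ∧
      ((zz t u).testBit (wallb_f t b) = true ↔ u = 257 ∨ u ∣ prd (keep 0 (wc t b)))) ∧
    (∀ n ∈ ch t, ∃ n' ∈ wch t b, ∀ u ∈ cs t, u ∣ n → (zz t u).testBit (wallb_f t b) = true →
      u ∣ n') ∧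
    ∀ n' ∈ wch t b, (∃ n ∈ ch t, n' ∣ n) ∧
      ∀ u ∈ cs t, u ∣ n' → (zz t u).testBit (wallb_f t b) = true := by
  cases t <;> cases b <;> decide +kernel

theorem wallb_form (t : Ty) (b : Bool) (v : V) :
    (wtau t b)⁻¹ v 1 = 0 ↔ fa t (wallb_f t b) v = 0 := by
  cases b
  · rw [wallb_f, if_pos (Or.inl rfl), fa_bot]
    exact Iff.rfl
  have h1 : (tau t)⁻¹ v 1 = -B v (if t = .S then nT else nU t) := by
    rw [← B_nT ((tau t)⁻¹ v), ← (tau_mem t).1, tau_nT, B_neg']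
    simp [LinearEquiv.coe_inv]
  rw [wtau, h1, neg_eq_zero, wallb_f]
  by_cases ht : t = .S
  · rw [if_pos ht, if_pos (Or.inr ht), B_nT, fa_bot]
  · rw [if_neg ht, if_neg (by simp [ht]), fa_top]
    refine iff_of_eq (congrArg (· = 0) ?_)
    simp [B, nU]
    ring

theorem wallb_pinf (t : Ty) (b : Bool) : wtau t b pinf = pinf := by
  cases b
  · rfl
  have h1 : ∀ a : ℝ, MP_36248f_gt.tr 0 a pinf = pinf := fun a => by
    ext i
    fin_cases i <;> simp [tr_apply, afv, pinf]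
  have h2 : ∀ n : V, B n n = -1 → n 3 = 0 → R n pinf = pinf := fun n h h' => by
    rw [R_apply h]
    simp [B, pinf, h']
  cases t
  · exact h2 nT (by simp [B, nT]) (by simp [nT])
  · change MP_36248f_gt.tr 0 hN (R _ pinf) = pinf
    rw [h2 _ (by simp [B]) (by simp), h1]
  · exact h1 _

theorem wallb_ctr (t : Ty) (b : Bool) (σ : ℕ) :
    ∀ e ∈ ((257, (0, Int.ofNat σ, 0)) :: wc t b : Cfg), cc t σ e.1 = wtau t b (J (cst e.2)) := by
  refine List.forall_mem_cons.2 ⟨?_, fun e he => ?_⟩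
  · have : J (cst (0, Int.ofNat σ, 0)) = (σ : ℝ) • pinf := by
      ext i
      fin_cases i <;> simp [J, cst, pinf]
    rw [this, map_smul, wallb_pinf, cc, if_pos rfl]
  · have h1 : e.1 ≠ 257 := fun h =>
      (List.nodup_cons.1 (wallb_dec t b).2.2.1).1 (h ▸ List.mem_map_of_mem he)
    rw [cc, if_neg h1]
    cases b
    · exact (ctr_spec t).bot e he
    · exact (ctr_spec t).top e he

theorem wallb_cen {c : ℕ → V} {g : GV} (w : ℕ → ℝ) : ∀ {ξ : Cfg},
    (∀ e ∈ ξ, c e.1 = g (J (cst e.2))) →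
      cen (ξ.map Prod.fst) c w = g (J (ξ.map fun e => w e.1 • cst e.2).sum)
  | [], _ => by
    have : J 0 = 0 := by
      ext i
      fin_cases i <;> simp [J]
    simp [poly_nil, this]
  | e :: ξ, h => by
    rw [List.forall_mem_cons] at h
    rw [List.map_cons, poly_cons, wallb_cen w h.2, h.1, ← map_smul, ← map_add, List.map_cons,
      List.sum_cons]
    congr 1
    ext i
    fin_cases i <;> simp [J]

theorem wallb_sub {l l' : List ℕ} (nd : l.Nodup) (nd' : l'.Nodup) (hs : ∀ u ∈ l', u ∈ l)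
    (c : ℕ → V) {w : ℕ → ℝ} (hw : ∀ u ∈ l, w u ≠ 0 → u ∈ l') : cen l c w = cen l' c w := by
  rw [cen, cen, ← List.sum_toFinset _ nd, ← List.sum_toFinset _ nd']
  refine (Finset.sum_subset (fun u hu => List.mem_toFinset.2 (hs u (List.mem_toFinset.1 hu)))
    fun u hu hu' => ?_).symm
  rw [not_not.1 fun h => hu' (List.mem_toFinset.2 (hw u (List.mem_toFinset.1 hu) h)), zero_smul]

theorem wallb_frcZ {α : Type} (z : ℤ) (f : ℤ → α) : frcZ z f = f z := by
  cases z with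
  | ofNat n => exact frc_eq n fun k => f (Int.ofNat k)
  | negSucc n => exact frc_eq n fun k => f (Int.negSucc k)

theorem wallb_frc3 {α : Type} (v : Z3) (f : Z3 → α) : frc3 v f = f v := by
  simp only [frc3, wallb_frcZ]

theorem wallb_frc4 {α : Type} (m : M2) (f : M2 → α) : frc4 m f = f m := by
  simp only [frc4, wallb_frcZ, wallb_frc3]

theorem wallb_frcC {α : Type} (l : Cfg) (f : Cfg → α) : frcC l f = f l := by cases l <;> rfl

theorem wallb_frcF {α : Type} (l : List (ℕ × Cfg)) (f : List (ℕ × Cfg) → α) : frcF l f = f l := by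
  cases l <;> rfl

theorem wallb_lift {T : List (ℕ × ℕ)} {m : M2} {z : ℕ × Z3} : ∀ {ξ a : Cfg},
    z ∈ liftC T m ξ a ↔ z ∈ a ∨ ∃ e ∈ ξ, z = (lk T e.1, mz m e.2)
  | [], a => by simp [liftC]
  | e :: ξ, a => by
    change z ∈ frc (lk T e.1) (fun l => frc3 (mz m e.2) fun v => liftC T m ξ ((l, v) :: a)) ↔ _
    rw [frc_eq, wallb_frc3, wallb_lift]
    simp only [List.mem_cons, exists_eq_or_imp]
    tauto

theorem wallb_vec {l : ℕ} {v : Z3} : ∀ {ξ : Cfg}, (l, v) ∈ ξ → (∀ e ∈ ξ, e.1 = l → e.2 = v) →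
    vec ξ l = v
  | e :: ξ, h, h' => by
    change cnd (Nat.beq e.1 l) e.2 (vec ξ l) = v
    rw [List.forall_mem_cons] at h'
    cases he : Nat.beq e.1 l
    · refine wallb_vec ((List.mem_cons.1 h).resolve_left fun h1 => ?_) h'.2
      rw [← h1, Nat.beq_refl] at he
      cases he
    · exact h'.1 (Nat.eq_of_beq_eq_true he)

theorem wallb_ev {T : List (ℕ × ℕ)} (hT : TabOk T) (m : M2) {ξ : Cfg}
    (nd : (ξ.map Prod.fst).Nodup) (hs : ∀ e ∈ ξ, ∃ v, (e.1, v) ∈ T) {w : ℕ → ℝ}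
    (hw : ∀ u, w u ≠ 0 → u ∈ ξ.map Prod.fst) :
    ev (liftC T m ξ []) (ps T w) = mr m (ξ.map fun e => w e.1 • cst e.2).sum := by
  have h1 : ∀ e ∈ ξ, (e.1, lk T e.1) ∈ T := fun e he => tab_lk_ex (hs e he).choose_spec
  have h2 : ∀ e ∈ ξ, ∀ e' ∈ ξ, lk T e.1 = lk T e'.1 → e = e' := fun e he e' he' h =>
    List.inj_on_of_nodup_map nd he he' (Prod.mk.inj (hT.i2 _ (h1 e he) _ (h1 e' he') h)).1
  rw [ev_list _ (ls := ξ.map fun e => lk T e.1) ((List.Nodup.of_map _ nd).map_on h2)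
    (List.forall_mem_map.2 fun e he => (hT.l2 _ (h1 e he)).2) fun v hv => ?_, List.map_map]
  · refine Eq.trans (congrArg List.sum ?_) (map_list_sum (geob_lin m) _).symm
    rw [List.map_map]
    refine List.map_congr_left fun e he => ?_
    change ps T w (lk T e.1) • cst (vec _ (lk T e.1)) = mr m (w e.1 • cst e.2)
    rw [hT.ps_eq (h1 e he), mr_smul, ← cst_mz,
      wallb_vec (wallb_lift.2 (Or.inr ⟨e, he, rfl⟩)) fun z hz h => ?_]
    obtain ⟨e', he', rfl⟩ := (wallb_lift.1 hz).resolve_left List.not_mem_nil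
    rw [h2 e' he' e he h]
  · obtain ⟨u, h3, h4⟩ := ps_ne hv
    obtain ⟨e, he, rfl⟩ := List.mem_map.1 (hw u (h4 ▸ hv))
    exact List.mem_map.2 ⟨e, he, hT.lk_eq h3⟩

theorem wallb_fa0 {t : Ty} {b : Bool} {N : ℕ} {z : ℕ × Cfg} : ∀ {n : ℕ} {a : List (ℕ × Cfg)},
    z ∈ fa0 t b N n a ↔ z ∈ a ∨ ∃ x < n, ∃ k ∈ wch t b, z = (tr (tab N (zt t) x) k,
      liftC (tab N (zt t) x) (rep (wn t b x)) ((257, (0, Int.ofNat (sg x), 0)) :: wc t b) [])
  | 0, a => by simp [fa0]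
  | n + 1, a => by
    change z ∈ frcT (tab N (zt t) n) (fun T => frc (wn t b n) fun y => frc4 (rep y) fun m =>
      frcC (liftC T m ((257, (0, Int.ofNat (sg n), 0)) :: wc t b) []) fun ξ =>
        frcL (trL T (wch t b) []) fun l => frcF (pushF ξ l a) (fa0 t b N n)) ↔ _
    rw [frcT_eq, frc_eq, wallb_frc4, wallb_frcC, frcL_eq, wallb_frcF, wallb_fa0, geob_pushF,
      Nat.exists_lt_succ_right]
    simp only [mem_trL, List.not_mem_nil, false_or]
    refine or_assoc.trans (or_congr_right (or_comm.trans (or_congr_right ⟨?_, ?_⟩)))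
    · rintro ⟨_, ⟨k, hk, rfl⟩, rfl⟩
      exact ⟨k, hk, rfl⟩
    · rintro ⟨k, hk, rfl⟩
      exact ⟨_, ⟨k, hk, rfl⟩, rfl⟩

variable {t : Ty} {N : ℕ}

theorem wallb_cs (h : flagOk N (zt t) (ng t) (pn t) sg = true) (a : Fin 120) {w : ℕ → ℝ}
    (hw : w ∈ Cn (ch t)) {u : ℕ} (hu : w u ≠ 0) : ∃ v, (u, v) ∈ tab N (zt t) a := by
  obtain ⟨-, -, n, hn, hs⟩ := hw
  exact (flag_tab h a.2).inTab_spec (flag_in h (chain_ok t) a.2) n hn u (hs u hu).1.1 (hs u hu).2

theorem wallb_tab {x u : ℕ} : (∃ v, (u, v) ∈ tab N (zt t) x) ↔ u ∈ cs t := by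
  rw [mem_tab, fsts_zt]

theorem wallb_zero (b : Bool) (a : ℕ) {w : ℕ → ℝ} (hw : w ∈ Cn (ch t)) :
    (wtau t b)⁻¹ (pnt t a w) 1 = 0 ↔ ∀ u, w u ≠ 0 → (zz t u).testBit (wallb_f t b) = true :=
  (wallb_form t b _).trans (tile_zero t (sg_pos a) hw (wallb_dec t b).1)

theorem wallb_pt (h : flagOk N (zt t) (ng t) (pn t) sg = true) {b : Bool} (a : Fin 120)
    {w : ℕ → ℝ} (hw : w ∈ Cn (ch t)) (h0 : (wtau t b)⁻¹ (pnt t a w) 1 = 0) :
    unJ (rp (wp t b a) ((wtau t b)⁻¹ (pnt t a w))) = ev (liftC (tab N (zt t) a) (rep (wn t b a))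
      ((257, (0, Int.ofNat (sg a), 0)) :: wc t b) []) (ps (tab N (zt t) a) w) := by
  obtain ⟨-, -, nd, d1, d2, -⟩ := wallb_dec t b
  have h1 : ∀ u, w u ≠ 0 → u ∈ 257 :: (wc t b).map Prod.fst := fun u hu =>
    (d2 u (wallb_tab.1 (wallb_cs h a hw hu))).1.1 ((wallb_zero b a hw).1 h0 u hu)
  have h2 := wallb_cen w (wallb_ctr t b (sg a))
  rw [wallb_ev (ξ := (257, (0, Int.ofNat (sg a), 0)) :: wc t b) (flag_tab h a.2) _ nd (fun e he => wallb_tab.2 (d1 _ (List.mem_map_of_mem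
    (f := Prod.fst) he))) h1, pnt, wallb_sub (cs_nodup t) nd d1 _ fun u _ => h1 u]
  refine (congrArg (fun v => unJ (rp (wp t b a) ((wtau t b)⁻¹ v))) h2).trans ?_
  simp only [LinearEquiv.coe_inv, LinearEquiv.symm_apply_apply, rp_J, unJ_J, wn, Fin.ofNat_val_eq_self]

theorem pnt_mem (a : ℕ) {w : ℕ → ℝ} (hw : w ∈ Cn (ch t)) : pnt t a w ∈ PC t :=
  (tile t (sg_pos a)).choose_spec.2.fw hw

/-- Equal labelled weights mean equal points and neighbouring flags. -/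
theorem same_iff (h : flagOk N (zt t) (ng t) (pn t) sg = true) (a a' : Fin 120) {w w' : ℕ → ℝ}
    (hw : w ∈ Cn (ch t)) (hw' : w' ∈ Cn (ch t)) :
    ps (tab N (zt t) a) w = ps (tab N (zt t) a') w' ↔
      pnt t a w = pnt t a' w' ∧ Near t (pnt t a w) a a' := by
  have h1 : ∀ s < ng t, (B (pnt t a w) (nm t s) = 0 ↔
      ∀ u, w u ≠ 0 → (lk (zt t) u).testBit s = true) := fun s hs => by
    rw [← fa_lt hs]
    exact tile_zero t (sg_pos a) hw (hs.trans_le (wallb_dec t true).2.1)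
  have h2 : Relation.ReflTransGen (Stp (zt t) (ng t) (pn t) w) a a' → pnt t a w = pnt t a' w :=
    fun r => by
    by_cases h0 : w 257 = 0
    · refine congrArg List.sum (List.map_congr_left fun u _ => ?_)
      by_cases hu : u = 257
      · rw [hu, h0, zero_smul, zero_smul]
      · rw [cc, cc, if_neg hu, if_neg hu]
    · rw [pnt, pnt, flag_sg h h0 r]
  rw [flag_eq h (chain_ok t) a.2 a'.2 hw hw']
  constructor
  · rintro ⟨rfl, r⟩
    refine ⟨h2 r, ?_⟩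
    suffices ∀ y, Relation.ReflTransGen (Stp (zt t) (ng t) (pn t) w) a y →
        ∀ y' : Fin 120, y'.1 = y → Near t (pnt t a w) a y' from this _ r a' rfl
    intro y r
    induction r with
    | refl =>
      intro y' e
      rw [Fin.ext e]
      exact Relation.ReflTransGen.refl
    | @tail x y _ st ih =>
      intro y' e
      obtain ⟨hx, s, hs, h3, h4⟩ := st
      exact (ih ⟨x, hx⟩ rfl).tail ⟨⟨s, hs⟩, (h1 s hs).2 h3, Fin.ext (e.trans h4)⟩
  · rintro ⟨e, r⟩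
    have r' : Relation.ReflTransGen (Stp (zt t) (ng t) (pn t) w) a a' :=
      Relation.ReflTransGen.lift (p := Stp (zt t) (ng t) (pn t) w) Fin.val
        (fun x y ⟨i, h3, h4⟩ => ⟨x.2, i, i.2, (h1 i i.2).1 h3, congrArg Fin.val h4⟩) _ _ r
    refine ⟨?_, r'⟩
    obtain ⟨Ψ, -, hb⟩ := tile t (sg_pos a')
    rw [← hb.l w hw, ← hb.l w' hw']
    exact congrArg Ψ ((h2 r').symm.trans e)

theorem wall_iff (h : flagOk N (zt t) (ng t) (pn t) sg = true) {b : Bool} {W : ℕ}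
    (ok : wallOk t b N W = true) (a : Fin 120) {w : ℕ → ℝ} (hw : w ∈ Cn (ch t)) :
    Wl W (ps (tab N (zt t) a) w) ↔ (wtau t b)⁻¹ (pnt t a w) 1 = 0 := by
  have h1 : ∀ u v, (u, v) ∈ tab N (zt t) a → (v ∣ W ↔ (zz t u).testBit (wallb_f t b) = true) :=
    fun u v e => by
    have h2 := allP_iff.1 (upTo_iff.1 ok a a.2) _ e
    rw [((wallb_dec t b).2.2.2.2.1 u (wallb_tab.1 ⟨v, e⟩)).2, ← dv_iff, ← dv_iff, ← Nat.beq_eq]
    revert h2
    cases dv v W <;> cases Nat.beq u 257 <;> cases dv u (prd (keep 0 (wc t b))) <;> simp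
  rw [wallb_zero b a hw]
  refine ⟨fun h2 u hu => ?_, fun h2 v hv => ?_⟩
  · obtain ⟨v, e⟩ := wallb_cs h a hw hu
    exact (h1 u v e).1 (h2 v (by rwa [(flag_tab h a.2).ps_eq e]))
  · obtain ⟨u, e, h3⟩ := ps_ne hv
    exact (h1 u v e).2 (h2 u (h3 ▸ hv))

theorem wall_rl (h : flagOk N (zt t) (ng t) (pn t) sg = true) {b : Bool} (a : Fin 120)
    {w : ℕ → ℝ} (hw : w ∈ Cn (ch t)) (h0 : (wtau t b)⁻¹ (pnt t a w) 1 = 0) :
    Rl (fa0 t b N 120 []) (ps (tab N (zt t) a) w)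
      (unJ (rp (wp t b a) ((wtau t b)⁻¹ (pnt t a w)))) := by
  obtain ⟨n, hn, hs⟩ := hw.2.2
  obtain ⟨k, hk, h1⟩ := (wallb_dec t b).2.2.2.2.2.1 n hn
  refine ⟨_, wallb_fa0.2 (Or.inr ⟨a, a.2, k, hk, rfl⟩), (flag_tab h a.2).sup_ps fun u hu =>
    ⟨(hs u hu).1, h1 u (wallb_tab.1 (wallb_cs h a hw hu)) (hs u hu).2
      ((wallb_zero b a hw).1 h0 u hu)⟩, ?_⟩
  rw [wallb_pt h a hw h0]
  exact Eqv.refl _

/-- The mirrors that meet the wall. -/
def waI (t : Ty) : Bool → Fin 3 → ℕ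
  | false => fun i => i
  | true => up t

theorem waI_lt : ∀ (t : Ty) (b : Bool) (i : Fin 3), waI t b i < ng t := by
  intro t
  cases t <;> decide

theorem wa_pf : ∀ (t : Ty) (b : Bool) (i : Fin 3) (a : Fin 120),
    wp t b (pf t (waI t b i) a) = pf .S i (wp t b a) := by
  intro t
  cases t <;> decide +kernel

theorem wa_bij (t : Ty) (b : Bool) : Function.Bijective (wp t b) := by
  cases b
  · exact Function.bijective_id
  · exact ph_bij t

theorem wa_mem (t : Ty) (b : Bool) : wtau t b ∈ OO := by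
  cases b
  · exact OO.one_mem
  · exact tau_mem t

theorem wa_B (t : Ty) (b : Bool) (v n : V) : B ((wtau t b)⁻¹ v) n = B v (wtau t b n) := by
  rw [← (wa_mem t b).1, ← LinearEquiv.mul_apply, mul_inv_cancel]
  rfl

theorem wa_nm (t : Ty) (b : Bool) (v : V) (i : Fin 3) :
    B ((wtau t b)⁻¹ v) (nm .S i) = B v (nm t (waI t b i)) := by
  rw [wa_B]
  congr 1
  cases b
  · cases t <;> fin_cases i <;> rfl
  · exact tau_nm t i

theorem wa_three (t : Ty) (b : Bool) {v : V} (h : 0 < v 3) : 0 < (wtau t b)⁻¹ v 3 := by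
  have key : ∀ {g : GV} {e f s a c : ℝ}, IsAf g e f s a c → 0 < g⁻¹ v 3 := fun hg => by
    rw [hg.inv.2.2.2]
    exact div_pos h hg.inv.2.2.1
  cases b
  · exact h
  · cases t
    · exact key isAf_cj
    · exact key ((isAf_tr 0 hN).mul (isAf_Rx (1 / 2)))
    · exact key (isAf_tr 0 hM)

theorem wa_pos {v n n' : V} (hv : v ∈ PC t) (h1 : B n n = -1) (h2 : B n' n' = -1)
    (h3 : 1 ≤ B n n') (h4 : 0 < (n + n') 2 + (n + n') 3) : 0 < B v n + B v n' := by
  have h5 : 0 < B v v := by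
    have h6 := disc_cover t hv
    have h7 := pow_pos hv.1 2
    linarith
  have h6 := B_pos_causal (smul_mem_HH h5 hv.1) (c := n + n') (by
    rw [B_add, B_add', B_add', B_symm n' n]
    linarith) h4
  rw [B_smul, B_add'] at h6
  exact (mul_pos_iff_of_pos_left (inv_pos.2 (Real.sqrt_pos.2 h5))).1 h6

theorem wa_low {v : V} (hv : v ∈ PC t) (h0 : v 1 = 0) (i : Fin (ng t))
    (h : B v (nm t i) = 0) : i.1 < 3 := by
  rcases gram_nT t i with h1 | h1
  · exact h1.1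
  · have h2 := nm_future' t i (by omega) (by omega)
    have h3 := wa_pos hv (n := nT) (by simp [B, nT]) (nm_unit t i) h1.2 (by simpa [nT] using h2)
    rw [B_nT, h0, h, add_zero] at h3
    exact absurd h3 (lt_irrefl _)

theorem wa_top (ht' : t ≠ .S) {v : V} (hv : v ∈ PC t) (h0 : B v (nU t) = 0) (i : Fin (ng t))
    (h : B v (nm t i) = 0) : i.1 ≠ 2 ∧ i.1 ≤ 3 := by
  rcases gram_nU t ht' i with h1 | h1
  · exact ⟨h1.1, h1.2.1⟩
  · have h2 := nm_future t i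
    have h4 : 0 < ht t := by
      cases t
      · exact absurd rfl ht'
      · exact lt_trans (by norm_num) par_bounds.2.1.1
      · exact lt_trans (by norm_num) spec.h_lo
    have h3 := wa_pos hv (n := nU t) (by simp [B, nU]) (nm_unit t i) h1.2.le (by
      simp only [Pi.add_apply, nU, Matrix.cons_val]
      linarith)
    rw [h0, h, add_zero] at h3
    exact absurd h3 (lt_irrefl _)

theorem wa_idx (b : Bool) {v : V} (hv : v ∈ PC t) (h0 : (wtau t b)⁻¹ v 1 = 0) (i : Fin (ng t))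
    (h : B v (nm t i) = 0) : ∃ j, i.1 = waI t b j := by
  cases b
  · exact ⟨⟨i, wa_low hv h0 i h⟩, rfl⟩
  · rw [← B_nT ((wtau t true)⁻¹ v), wa_B] at h0
    change B v (tau t nT) = 0 at h0
    rw [tau_nT, B_neg', neg_eq_zero] at h0
    by_cases hS : t = .S
    · rw [if_pos hS, B_nT] at h0
      refine ⟨⟨i, wa_low hv h0 i h⟩, ?_⟩
      subst hS
      rfl
    · rw [if_neg hS] at h0
      have h1 := wa_top hS hv h0 i h
      have h2 : ∀ k : Fin 4, k.1 ≠ 2 → (∃ j, k.1 = up .N j) ∧ ∃ j, k.1 = up .M j := by decide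
      have h3 := h2 ⟨i, by omega⟩ h1.1
      cases t
      · exact absurd rfl hS
      · exact h3.1
      · exact h3.2

theorem wa_near (b : Bool) (a a' : Fin 120) {v : V} (hv : v ∈ PC t)
    (h0 : (wtau t b)⁻¹ v 1 = 0) : Near t v a a' ↔ Relation.ReflTransGen
      (fun c c' => ∃ i : Fin 3, B ((wtau t b)⁻¹ v) (nm .S i) = 0 ∧ c' = pf .S i c)
      (wp t b a) (wp t b a') := by
  constructor
  · refine Relation.ReflTransGen.lift (wp t b) ?_ a a'
    rintro c _ ⟨i, hi, rfl⟩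
    obtain ⟨j, hj⟩ := wa_idx b hv h0 i hi
    exact ⟨j, by rw [wa_nm, ← hj, hi], by rw [hj, wa_pf]⟩
  · intro h
    let σ := Equiv.ofBijective _ (wa_bij t b)
    have h1 : Near t v (σ.symm (σ a)) (σ.symm (σ a')) := by
      refine Relation.ReflTransGen.lift σ.symm ?_ _ _ h
      rintro c _ ⟨j, hj, rfl⟩
      refine ⟨⟨_, waI_lt t b j⟩, (wa_nm t b v j).symm.trans hj, σ.symm_apply_eq.2 ?_⟩
      exact (congrArg _ (σ.apply_symm_apply c).symm).trans (wa_pf t b j _).symm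
    rwa [σ.symm_apply_apply, σ.symm_apply_apply] at h1

theorem wa_step {x : V} (h0 : x 1 = 0) {i : Fin 3} (hi : B x (nm .S i) = 0) (c : Fin 120) :
    Eqv (unJ (rp c x)) (unJ (rp (pf .S i c) x)) := by
  obtain ⟨p, hp, hp'⟩ := rp_mem .S c
  obtain ⟨q, hq, hq'⟩ := rp_mem .S (pf .S i c)
  have hg : gen .S ⟨i, wa_lt .S i⟩ ∈ Subgroup.closure (gen .S '' {i | i.1 < 3}) :=
    Subgroup.subset_closure ⟨_, i.2, rfl⟩
  have e : q⁻¹ 0 = pf .S i c := by rw [← hq']; simp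
  obtain ⟨m, hm, hm'⟩ := lam_bot (Subgroup.mul_mem _ (Subgroup.mul_mem _ hp hg)
    (Subgroup.inv_mem _ hq)) (by
      change p (pf .S i (q⁻¹ 0)) = 0
      rw [e, pf_invol .S ⟨i, by omega⟩, hp'])
  refine (eqv_iff ((rp_one _ _).trans h0) ((rp_one _ _).trans h0)).2 ⟨m, hm, ?_⟩
  rw [← hm', ← LinearEquiv.mul_apply]
  change _ = (rp c * R (nm .S i) * (rp (pf .S i c))⁻¹ * rp (pf .S i c)) x
  rw [inv_mul_cancel_right, LinearEquiv.mul_apply, R_apply (nm_unit .S ⟨i, wa_lt .S i⟩), hi]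
  simp

/-- Inside one wall, neighbouring flags are the same as equivalent points. -/
theorem near_iff_eqv (b : Bool) (a a' : Fin 120) {v v' : V} (hv : v ∈ PC t) (hv' : v' ∈ PC t)
    (h0 : (wtau t b)⁻¹ v 1 = 0) (h0' : (wtau t b)⁻¹ v' 1 = 0) :
    (v = v' ∧ Near t v a a') ↔
      Eqv (unJ (rp (wp t b a) ((wtau t b)⁻¹ v))) (unJ (rp (wp t b a') ((wtau t b)⁻¹ v'))) := by
  rw [wa_near b a a' hv h0]
  constructor
  · rintro ⟨rfl, h⟩
    generalize wp t b a' = c' at h ⊢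
    induction h with
    | refl => exact Eqv.refl _
    | tail _ hs ih =>
      obtain ⟨i, hi, rfl⟩ := hs
      exact ih.trans (wa_step h0 hi _)
  · intro h
    obtain ⟨m, hm, e⟩ := (eqv_iff ((rp_one _ _).trans h0) ((rp_one _ _).trans h0')).1 h
    have hx : ∀ {v : V}, v ∈ PC t → ∀ i : Fin 3, 0 ≤ B ((wtau t b)⁻¹ v) (nm .S i) := fun hv i => by
      rw [wa_nm]
      exact hv.2.1 ⟨_, waI_lt t b i⟩
    obtain ⟨h1, h2⟩ := cone_wall h0 h0' (wa_three t b hv.1) (wa_three t b hv'.1) (hx hv) (hx hv')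
      hm e
    exact ⟨((wtau t b)⁻¹).injective h1, h2⟩

theorem wall_fn (h : flagOk N (zt t) (ng t) (pn t) sg = true) (b : Bool) :
    Fn (cx0 N (zt t) (ch t) 120 []) (fa0 t b N 120 []) := by
  have key : ∀ W ∈ Cn (cx0 N (zt t) (ch t) 120 []), ∀ p, Rl (fa0 t b N 120 []) W p →
      ∃ a : Fin 120, ∃ w ∈ Cn (ch t), ps (tab N (zt t) a) w = W ∧
        (wtau t b)⁻¹ (pnt t a w) 1 = 0 ∧
        Eqv p (unJ (rp (wp t b a) ((wtau t b)⁻¹ (pnt t a w)))) := by
    rintro W ⟨w0, w1, -⟩ p ⟨e, he, hs, hp⟩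
    obtain ⟨x, hx, k, hk, rfl⟩ := (wallb_fa0.1 he).resolve_left List.not_mem_nil
    obtain ⟨⟨n, hn, h1⟩, h2⟩ := (wallb_dec t b).2.2.2.2.2.2 k hk
    have hT := flag_tab h hx
    have hb := hT.bij (flag_in h (chain_ok t) hx)
    have hW : W ∈ Cn (trL (tab N (zt t) x) (ch t) []) :=
      ⟨w0, w1, _, mem_trL.2 (Or.inr ⟨n, hn, rfl⟩), fun v hv => ⟨(hs v hv).1, by
        obtain ⟨u, h3, h4⟩ := (hT.dvd_tr (hs v hv).1.1).1 (hs v hv).2
        exact (hT.dvd_tr (hs v hv).1.1).2 ⟨u, h3, h4.trans h1⟩⟩⟩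
    have h0 : (wtau t b)⁻¹ (pnt t x (pb (tab N (zt t) x) W)) 1 = 0 :=
      (wallb_zero b x (hb.bw hW)).2 fun u hu => by
        obtain ⟨v, h3, h4⟩ := pb_ne hu
        obtain ⟨u', h5, h6⟩ := (hT.dvd_tr (hT.l2 _ h3).1).1 (hs v (h4 ▸ hu)).2
        obtain rfl : u' = u := congrArg Prod.fst (hT.i2 _ h5 _ h3 rfl)
        exact h2 _ (wallb_tab.1 ⟨v, h3⟩) h6
    refine ⟨⟨x, hx⟩, _, hb.bw hW, hb.r W hW, h0, ?_⟩
    rw [wallb_pt h ⟨x, hx⟩ (hb.bw hW) h0, hb.r W hW]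
    exact hp
  intro W hW W' hW' p p' r r'
  obtain ⟨a, w, hw, rfl, h0, e⟩ := key W hW p r
  obtain ⟨a', w', hw', rfl, h0', e'⟩ := key W' hW' p' r'
  rw [same_iff h a a' hw hw', near_iff_eqv b a a' (pnt_mem a hw) (pnt_mem a' hw') h0 h0']
  exact ⟨fun h1 => (e.trans h1).trans e'.symm, fun h1 => (e.symm.trans h1).trans e'⟩

end Pool.Agent.Lib.MP_36248f_gt.Tp
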